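import Pool.Agent.PLN.Defs

/-!
# DIX: local rings of plane curves at smooth points

`val`: `E` is an irreducible form, `s` a smooth point of the curve `E = 0`. If `(g₁ / g₀) ^ 2` is
regular at `s` on the curve, then `g₁ / g₀` is regular at `s`. (The local ring of `S3 / (E)` at the
prime ideal of the line `ℂ s` is a principal ideal domain.)
-/

set_option autoImplicit false

noncomputable section

namespace Pool.Agent.DIX

open MvPolynomial Pool.Agent.PLN

/-- restriction to the line `ℂ s` -/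
def lineHom (s : Fin 3 → ℂ) : S3 →ₐ[ℂ] Polynomial ℂ :=
  aeval fun j => Polynomial.C (s j) * Polynomial.X

theorem lineHom_eval (s : Fin 3 → ℂ) (g : S3) : (lineHom s g).eval 1 = eval s g := by
  have h : (Polynomial.evalRingHom (1 : ℂ)).comp (lineHom s : S3 →+* Polynomial ℂ) =
      (eval s : S3 →+* ℂ) := by
    refine MvPolynomial.ringHom_ext (fun a => ?_) fun j => ?_
    · rw [RingHom.comp_apply, RingHom.coe_coe, ← algebraMap_eq, AlgHom.commutes]
      simp
    · rw [RingHom.comp_apply, RingHom.coe_coe, lineHom, aeval_X]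
      simp
  exact RingHom.congr_fun h g

theorem lineHom_hom {s : Fin 3 → ℂ} {g : S3} {n : ℕ} (hg : g.IsHomogeneous n) :
    lineHom s g = Polynomial.C (eval s g) * Polynomial.X ^ n := by
  rw [lineHom, aeval_def, eval₂_eq', eval_eq', map_sum, Finset.sum_mul]
  refine Finset.sum_congr rfl fun d hd => ?_
  have h1 : ∑ i, d i = n := by
    have := hg (mem_support_iff.1 hd)
    rw [← this, Finsupp.weight_apply, Finsupp.sum_fintype _ _ (by simp)]
    simp
  simp only [mul_pow, Finset.prod_mul_distrib, Finset.prod_pow_eq_pow_sum, h1]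
  rw [map_mul, map_prod]
  simp only [map_pow]
  rw [Polynomial.algebraMap_eq]
  ring

theorem lineHom_eq_zero {s : Fin 3 → ℂ} {g : S3} {n : ℕ} (hg : g.IsHomogeneous n) :
    lineHom s g = 0 ↔ eval s g = 0 := by
  constructor
  · intro h
    rw [← lineHom_eval, h, Polynomial.eval_zero]
  · intro h
    rw [lineHom_hom hg, h, map_zero, zero_mul]

/-- the linear form `s i X j - s j X i` -/
def lin (s : Fin 3 → ℂ) (i j : Fin 3) : S3 := C (s i) * X j - C (s j) * X i

theorem lin_eval (s : Fin 3 → ℂ) (i j : Fin 3) : eval s (lin s i j) = 0 := by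
  simp only [lin, map_sub, map_mul, eval_C, eval_X]
  ring

private theorem Val_idx : ∀ i j : Fin 3, j = i ∨ j = i + 1 ∨ j = i + 2 := by decide

theorem mem_span_of_lineHom {s : Fin 3 → ℂ} {i : Fin 3} (hi : s i ≠ 0) {g : S3}
    (hg : lineHom s g = 0) :
    g ∈ Ideal.span {lin s i (i + 1), lin s i (i + 2)} := by
  set I : Ideal S3 := Ideal.span {lin s i (i + 1), lin s i (i + 2)} with hI
  let ψ : S3 →ₐ[ℂ] S3 := (Polynomial.aeval (C (s i)⁻¹ * X i : S3)).comp (lineHom s)
  have h1 : (Ideal.Quotient.mkₐ ℂ I).comp ψ = Ideal.Quotient.mkₐ ℂ I := by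
    refine MvPolynomial.algHom_ext fun j => ?_
    rw [AlgHom.comp_apply, Ideal.Quotient.mkₐ_eq_mk, Ideal.Quotient.eq]
    have e : ψ (X j) - X j = C (-(s i)⁻¹) * lin s i j := by
      have e1 : ψ (X j) = C (s j) * (C (s i)⁻¹ * X i) := by
        change (Polynomial.aeval (C (s i)⁻¹ * X i : S3)) (lineHom s (X j)) = _
        rw [lineHom, aeval_X, map_mul, Polynomial.aeval_X, Polynomial.aeval_C, algebraMap_eq]
      rw [e1, lin, map_neg]
      have e2 : (C (s i)⁻¹ : S3) * C (s i) = 1 := by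
        rw [← C_mul, inv_mul_cancel₀ hi, C_1]
      linear_combination (X j : S3) * e2
    rw [e]
    refine I.mul_mem_left _ ?_
    rcases Val_idx i j with rfl | rfl | rfl
    · have : lin s j j = 0 := by rw [lin, sub_self]
      rw [this]
      exact I.zero_mem
    · exact Ideal.subset_span (by simp)
    · exact Ideal.subset_span (by simp)
  have h2 : ψ g = 0 := by
    change (Polynomial.aeval (C (s i)⁻¹ * X i : S3)) (lineHom s g) = 0
    rw [hg, map_zero]
  have h3 := AlgHom.congr_fun h1 g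
  rw [AlgHom.comp_apply, h2, map_zero] at h3
  exact Ideal.Quotient.eq_zero_iff_mem.1 h3.symm

theorem pderiv_lin_comb {s : Fin 3 → ℂ} {i j₁ j₂ : Fin 3} {E A₁ A₂ : S3}
    (hE : E = A₁ * lin s i j₁ + A₂ * lin s i j₂) {k : Fin 3} (hk : eval s (pderiv k E) ≠ 0) :
    eval s A₁ ≠ 0 ∨ eval s A₂ ≠ 0 := by
  by_contra h
  push Not at h
  apply hk
  rw [hE, map_add, Derivation.leibniz, Derivation.leibniz]
  simp only [smul_eq_mul, map_add, map_mul, h.1, h.2, lin_eval]
  ring

/-- restriction to the line on the coordinate ring of the curve -/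
def quoHom {E : S3} {s : Fin 3 → ℂ} (hEs : lineHom s E = 0) :
    S3 ⧸ Ideal.span {E} →+* Polynomial ℂ :=
  Ideal.Quotient.lift (Ideal.span {E}) (lineHom s : S3 →+* Polynomial ℂ) fun x hx => by
    have h : Ideal.span {E} ≤ RingHom.ker (lineHom s : S3 →+* Polynomial ℂ) := by
      rw [Ideal.span_le, Set.singleton_subset_iff]
      exact hEs
    exact h hx

private theorem Val_local {E : S3} (hE : Irreducible E) {s : Fin 3 → ℂ} (hs : s ≠ 0)
    (hEs : lineHom s E = 0) (hsm : ∃ k, eval s (pderiv k E) ≠ 0)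
    {P : Ideal (S3 ⧸ Ideal.span {E})} [P.IsPrime] (hP : P = RingHom.ker (quoHom hEs))
    {Q : Type} [CommRing Q] [Algebra (S3 ⧸ Ideal.span {E}) Q] [IsLocalization.AtPrime Q P]
    {a b : S3} :
    ∃ u h : S3, lineHom s u ≠ 0 ∧ (E ∣ u * a - h * b ∨ E ∣ u * b - h * a) := by
  obtain ⟨i, hi⟩ := Function.ne_iff.1 hs
  rw [Pi.zero_apply] at hi
  have hpr : (Ideal.span {E}).IsPrime := (Ideal.span_singleton_prime hE.ne_zero).2 hE.prime
  have hφ : ∀ x : S3, Ideal.Quotient.mk _ x ∈ P ↔ lineHom s x = 0 := by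
    intro x
    rw [hP]
    exact Iff.rfl
  have hQd : IsDomain Q :=
    IsLocalization.isDomain_of_le_nonZeroDivisors _ P.primeCompl_le_nonZeroDivisors
  have hQl : IsLocalRing Q := IsLocalization.AtPrime.isLocalRing Q P
  let ι : S3 →+* Q := (algebraMap (S3 ⧸ Ideal.span {E}) Q).comp (Ideal.Quotient.mk _)
  have hmem := mem_span_of_lineHom hi hEs
  rw [Ideal.mem_span_pair] at hmem
  obtain ⟨A₁, A₂, hA⟩ := hmem
  obtain ⟨k, hk⟩ := hsm
  have hA12 := pderiv_lin_comb hA.symm hk
  have hunit : ∀ x : S3, lineHom s x ≠ 0 → IsUnit (ι x) := by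
    intro x hx
    exact IsLocalization.map_units Q
      (⟨Ideal.Quotient.mk _ x, fun h => hx ((hφ x).1 h)⟩ : P.primeCompl)
  have hne : ∀ x : S3, eval s x ≠ 0 → lineHom s x ≠ 0 := by
    intro x hx h0
    apply hx
    rw [← lineHom_eval, h0, Polynomial.eval_zero]
  have hrel : ι A₁ * ι (lin s i (i + 1)) + ι A₂ * ι (lin s i (i + 2)) = 0 := by
    rw [← map_mul, ← map_mul, ← map_add, hA]
    have : Ideal.Quotient.mk (Ideal.span {E}) E = 0 :=
      Ideal.Quotient.eq_zero_iff_mem.2 (Ideal.mem_span_singleton_self E)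
    change algebraMap (S3 ⧸ Ideal.span {E}) Q (Ideal.Quotient.mk _ E) = 0
    rw [this, map_zero]
  have hgen : ∃ l : S3, lineHom s l = 0 ∧ ∀ x : S3, lineHom s x = 0 →
      ι x ∈ Ideal.span {ι l} := by
    have hl : ∀ j, lineHom s (lin s i j) = 0 := by
      intro j
      rw [lin, map_sub, map_mul, map_mul, ← algebraMap_eq, AlgHom.commutes, AlgHom.commutes,
        lineHom, aeval_X, aeval_X, Polynomial.algebraMap_eq]
      ring
    rcases hA12 with h1 | h1
    · refine ⟨lin s i (i + 2), hl _, fun x hx => ?_⟩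
      obtain ⟨c, d, hcd⟩ := Ideal.mem_span_pair.1 (mem_span_of_lineHom hi hx)
      rw [← hcd, map_add, map_mul, map_mul]
      have hu := hunit A₁ (hne _ h1)
      refine Ideal.add_mem _ (Ideal.mul_mem_left _ _ ?_)
        (Ideal.mul_mem_left _ _ (Ideal.mem_span_singleton_self _))
      rw [Ideal.mem_span_singleton, ← hu.dvd_mul_left]
      exact ⟨-ι A₂, by linear_combination hrel⟩
    · refine ⟨lin s i (i + 1), hl _, fun x hx => ?_⟩
      obtain ⟨c, d, hcd⟩ := Ideal.mem_span_pair.1 (mem_span_of_lineHom hi hx)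
      rw [← hcd, map_add, map_mul, map_mul]
      have hu := hunit A₂ (hne _ h1)
      refine Ideal.add_mem _ (Ideal.mul_mem_left _ _ (Ideal.mem_span_singleton_self _))
        (Ideal.mul_mem_left _ _ ?_)
      rw [Ideal.mem_span_singleton, ← hu.dvd_mul_left]
      exact ⟨-ι A₁, by linear_combination hrel⟩
  obtain ⟨l, hl, hgl⟩ := hgen
  have hprin : (IsLocalRing.maximalIdeal Q).IsPrincipal := by
    refine ⟨⟨ι l, ?_⟩⟩
    apply le_antisymm
    · rw [← IsLocalization.AtPrime.map_eq_maximalIdeal P Q, Ideal.map_le_iff_le_comap]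
      intro x hx
      obtain ⟨x, rfl⟩ := Ideal.Quotient.mk_surjective x
      exact hgl x ((hφ x).1 hx)
    · change Ideal.span {ι l} ≤ _
      rw [Ideal.span_le, Set.singleton_subset_iff,
        ← IsLocalization.AtPrime.map_eq_maximalIdeal P Q]
      exact Ideal.mem_map_of_mem _ ((hφ l).2 hl)
  have hnoeth : IsNoetherianRing Q := IsLocalization.isNoetherianRing P.primeCompl Q inferInstance
  have hval : ValuationRing Q :=
    ((tfae_of_isNoetherianRing_of_isLocalRing_of_isDomain Q).out 4 1).1 hprin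
  have hfin : ∀ x y : S3, (∃ c : Q, ι x * c = ι y) →
      ∃ u h : S3, lineHom s u ≠ 0 ∧ E ∣ u * y - h * x := by
    rintro x y ⟨c, hc⟩
    obtain ⟨⟨h, u⟩, rfl⟩ := IsLocalization.mk'_surjective P.primeCompl c
    obtain ⟨h, rfl⟩ := Ideal.Quotient.mk_surjective h
    obtain ⟨u, hu⟩ := u
    obtain ⟨u, rfl⟩ := Ideal.Quotient.mk_surjective u
    refine ⟨u, h, fun h0 => hu ((hφ u).2 h0), ?_⟩
    rw [← Ideal.mem_span_singleton, ← Ideal.Quotient.eq_zero_iff_mem, map_sub, map_mul, map_mul,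
      sub_eq_zero]
    apply IsLocalization.injective Q P.primeCompl_le_nonZeroDivisors
    rw [map_mul, map_mul]
    have h1 := IsLocalization.mk'_spec Q (Ideal.Quotient.mk (Ideal.span {E}) h)
      (⟨Ideal.Quotient.mk _ u, hu⟩ : P.primeCompl)
    change ι u * ι y = ι h * ι x
    rw [← hc]
    change _ * ι u = ι h at h1
    rw [← h1]
    ring
  obtain ⟨c, hc | hc⟩ := ValuationRing.cond (ι a) (ι b)
  · obtain ⟨u, h, hu, hd⟩ := hfin a b ⟨c, hc⟩
    exact ⟨u, h, hu, Or.inr hd⟩
  · obtain ⟨u, h, hu, hd⟩ := hfin b a ⟨c, hc⟩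
    exact ⟨u, h, hu, Or.inl hd⟩

theorem comp_mul {g : S3} {a : ℕ} (hg : g.IsHomogeneous a) (u : S3) (m : ℕ) :
    homogeneousComponent (m + a) (u * g) = homogeneousComponent m u * g := by
  conv_lhs => rw [← sum_homogeneousComponent u, Finset.sum_mul, map_sum]
  have h1 : ∀ i, homogeneousComponent (m + a) (homogeneousComponent i u * g) =
      if i = m then homogeneousComponent i u * g else 0 := by
    intro i
    rw [homogeneousComponent_of_mem
      (((mem_homogeneousSubmodule _ _).2 ((homogeneousComponent_isHomogeneous i u).mul hg)))]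
    by_cases h : i = m
    · rw [if_pos h, if_pos (by omega)]
    · rw [if_neg h, if_neg (by omega)]
  rw [Finset.sum_congr rfl fun i _ => h1 i, Finset.sum_ite_eq']
  split_ifs with h2
  · rfl
  · rw [Finset.mem_range, not_lt] at h2
    rw [homogeneousComponent_eq_zero m u (by omega), zero_mul]

theorem comp_mul_lt {g : S3} {a : ℕ} (hg : g.IsHomogeneous a) (u : S3) {n : ℕ} (hn : n < a) :
    homogeneousComponent n (u * g) = 0 := by
  conv_lhs => rw [← sum_homogeneousComponent u, Finset.sum_mul, map_sum]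
  refine Finset.sum_eq_zero fun i _ => ?_
  rw [homogeneousComponent_of_mem
    (((mem_homogeneousSubmodule _ _).2 ((homogeneousComponent_isHomogeneous i u).mul hg))),
    if_neg (by omega)]

theorem comp_dvd {E : S3} {d : ℕ} (hE : E.IsHomogeneous d) {p : S3} (hp : E ∣ p) (n : ℕ) :
    E ∣ homogeneousComponent n p := by
  obtain ⟨c, rfl⟩ := hp
  rw [mul_comm]
  by_cases hn : n < d
  · rw [comp_mul_lt hE c hn]
    exact dvd_zero E
  · obtain ⟨m, rfl⟩ : ∃ m, n = m + d := ⟨n - d, by omega⟩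
    rw [comp_mul hE c m]
    exact Dvd.intro_left _ rfl

/-- the homogeneous components of a relation -/
theorem exists_hom_rel {E : S3} {d : ℕ} (hE : E.IsHomogeneous d) {s : Fin 3 → ℂ} {g₁ g₀ : S3}
    {a b : ℕ} (hg₁ : g₁.IsHomogeneous a) (hg₀ : g₀.IsHomogeneous b) {u h : S3}
    (hu : lineHom s u ≠ 0) (hd : E ∣ u * g₁ - h * g₀) :
    ∃ (u' h' : S3) (m n : ℕ), u'.IsHomogeneous m ∧ h'.IsHomogeneous n ∧ eval s u' ≠ 0 ∧
      E ∣ u' * g₁ - h' * g₀ := by
  obtain ⟨m, hm⟩ : ∃ m, lineHom s (homogeneousComponent m u) ≠ 0 := by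
    by_contra hcon
    push Not at hcon
    apply hu
    rw [← sum_homogeneousComponent u, map_sum]
    exact Finset.sum_eq_zero fun i _ => hcon i
  have h1 := comp_dvd hE hd (m + a)
  rw [map_sub, comp_mul hg₁] at h1
  have h2 : eval s (homogeneousComponent m u) ≠ 0 := fun h0 =>
    hm ((lineHom_eq_zero (homogeneousComponent_isHomogeneous m u)).2 h0)
  by_cases hn : m + a < b
  · rw [comp_mul_lt hg₀ h hn] at h1
    exact ⟨_, 0, m, 0, homogeneousComponent_isHomogeneous m u, isHomogeneous_zero _ _ _, h2,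
      by rwa [zero_mul]⟩
  · obtain ⟨n, hn'⟩ : ∃ n, m + a = n + b := ⟨m + a - b, by omega⟩
    rw [hn', comp_mul hg₀] at h1
    exact ⟨_, _, m, n, homogeneousComponent_isHomogeneous m u,
      homogeneousComponent_isHomogeneous n h, h2, h1⟩

/-- **Normality at a smooth point.** -/
theorem val {E : S3} (hE : Irreducible E) {d : ℕ} (hEh : E.IsHomogeneous d) {s : Fin 3 → ℂ}
    (hs : s ≠ 0) (h0 : eval s E = 0) (hsm : ∃ k, eval s (pderiv k E) ≠ 0) {g₁ g₀ k₁ k₀ : S3}
    {a b : ℕ} (hg₁ : g₁.IsHomogeneous a) (hg₀ : g₀.IsHomogeneous b)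
    (h : E ∣ k₀ * g₁ ^ 2 - k₁ * g₀ ^ 2) (hk : eval s k₀ ≠ 0) :
    ∃ (u h : S3) (m n : ℕ), u.IsHomogeneous m ∧ h.IsHomogeneous n ∧ eval s u ≠ 0 ∧
      E ∣ u * g₁ - h * g₀ := by
  have hEs : lineHom s E = 0 := (lineHom_eq_zero hEh).2 h0
  have hkl : lineHom s k₀ ≠ 0 := by
    intro h1
    rw [← lineHom_eval, h1, Polynomial.eval_zero] at hk
    exact hk rfl
  have hpr : (Ideal.span {E}).IsPrime := (Ideal.span_singleton_prime hE.ne_zero).2 hE.prime
  have hP : (RingHom.ker (quoHom hEs)).IsPrime := RingHom.ker_isPrime _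
  obtain ⟨u, v, hu, hd | hd⟩ := Val_local hE hs hEs hsm (P := RingHom.ker (quoHom hEs)) rfl
    (Q := Localization.AtPrime (RingHom.ker (quoHom hEs))) (a := g₁) (b := g₀)
  · exact exists_hom_rel hEh hg₁ hg₀ hu hd
  · by_cases hg : E ∣ g₁
    · exact ⟨1, 0, 0, 0, isHomogeneous_one _ _, isHomogeneous_zero _ _ _, by simp,
        by rw [one_mul, zero_mul, sub_zero]; exact hg⟩
    · have h1 : E ∣ g₁ ^ 2 * (u ^ 2 * k₀ - k₁ * v ^ 2) := by
        obtain ⟨c, hc⟩ := hd
        obtain ⟨e, he⟩ := h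
        refine ⟨u ^ 2 * e + k₁ * c * (u * g₀ + v * g₁), ?_⟩
        linear_combination (u ^ 2) * he + (k₁ * (u * g₀ + v * g₁)) * hc
      have h2 := (hE.prime.dvd_mul.1 h1).resolve_left fun h3 => hg (hE.prime.dvd_of_dvd_pow h3)
      have h3 : lineHom s (u ^ 2 * k₀ - k₁ * v ^ 2) = 0 := by
        obtain ⟨c, hc⟩ := h2
        rw [hc, map_mul, hEs, zero_mul]
      have h4 : lineHom s v ≠ 0 := by
        intro h5
        rw [map_sub, map_mul, map_mul, map_pow, map_pow, h5, zero_pow two_ne_zero, mul_zero,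
          sub_zero] at h3
        exact mul_ne_zero (pow_ne_zero 2 hu) hkl h3
      refine exists_hom_rel hEh hg₁ hg₀ h4 (h := u) ?_
      rw [← dvd_neg]
      have e : -(v * g₁ - u * g₀) = u * g₀ - v * g₁ := by ring
      rw [e]
      exact hd

end Pool.Agent.DIX
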