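import Pool.Agent.DIX.SecA
import Pool.Agent.DIX.Val
import Pool.Agent.PLN.Core

/-!
# DIX: square roots modulo a smooth curve

`normal_div`: `S3 / (D)` is normal: if `g₁ ^ 2` is divisible by `g₀ ^ 2` modulo `D`, then `g₁` is
divisible by `g₀` (`val`, `lg`).

`sec_of_sq`: if the form `a * q` is a square in the function field of the curve, then it is the
square of a section modulo `D`.
-/

set_option autoImplicit false

namespace Pool.Agent.DIX

open MvPolynomial Pool.Agent.PLN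

variable {D q : S3} {p : ℤ} {r : ℕ} {J : Fin r → S3} {J2 : Fin r → Fin r → S3}

theorem normal_div (hD : Cur D) {g₁ g₀ k : S3} {a b : ℕ} (hg₁ : g₁.IsHomogeneous a)
    (hg₀ : g₀.IsHomogeneous b) (h0 : ¬ D ∣ g₀) (h : D ∣ g₁ ^ 2 - k * g₀ ^ 2) :
    ∃ l : S3, D ∣ g₁ - g₀ * l := by
  refine lg hD h0 fun s hs hsD => ?_
  obtain ⟨u, l, m, n, -, -, hu, hd⟩ := val hD.irr hD.hom hs hsD (hD.smooth s hs hsD) hg₁ hg₀
    (k₀ := 1) (k₁ := k) (by rwa [one_mul]) (by rw [map_one]; exact one_ne_zero)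
  exact ⟨u, l, hu, by rwa [mul_comm g₀ l]⟩

theorem normal_divZ (hD : Cur D) {g₁ g₀ k : S3} {a b : ℤ} (hg₁ : HomZ g₁ a)
    (hg₀ : HomZ g₀ b) (h0 : ¬ D ∣ g₀) (h : D ∣ g₁ ^ 2 - k * g₀ ^ 2) :
    ∃ l : S3, D ∣ g₁ - g₀ * l := by
  by_cases h1 : g₁ = 0
  · exact ⟨0, by rw [h1, mul_zero, sub_zero]; exact dvd_zero D⟩
  · have h2 : g₀ ≠ 0 := fun h3 => h0 (h3 ▸ dvd_zero D)
    obtain ⟨m, -, hm⟩ := hg₁.exists_nat h1
    obtain ⟨n, -, hn⟩ := hg₀.exists_nat h2
    exact normal_div hD hm hn h0 h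

section grading

variable {R : Type} [CommRing R]

/-- `g = ∑ g_i ↦ ∑ μ(g_i) T ^ i` -/
private noncomputable def SecSq_hom (μ : S3 →+* R) : S3 →+* Polynomial R :=
  eval₂Hom ((Polynomial.C.comp μ).comp C) fun i => Polynomial.C (μ (X i)) * Polynomial.X

private theorem SecSq_hom_hom (μ : S3 →+* R) {g : S3} {n : ℕ} (hg : g.IsHomogeneous n) :
    SecSq_hom μ g = Polynomial.C (μ g) * Polynomial.X ^ n := by
  have h2 : μ g = ∑ d ∈ g.support, μ (C (coeff d g)) * ∏ i, μ (X i) ^ d i := by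
    have h3 : g = eval₂ C X g := (eval₂_eta g).symm
    conv_lhs => rw [h3, eval₂_eq', map_sum]
    refine Finset.sum_congr rfl fun d _ => ?_
    rw [map_mul, map_prod]
    simp only [map_pow]
  rw [SecSq_hom, coe_eval₂Hom, eval₂_eq', h2, map_sum, Finset.sum_mul]
  refine Finset.sum_congr rfl fun d hd => ?_
  have h1 : ∑ i, d i = n := by
    have := hg (mem_support_iff.1 hd)
    rw [← this, Finsupp.weight_apply, Finsupp.sum_fintype _ _ (by simp)]
    simp
  simp only [mul_pow, Finset.prod_mul_distrib, Finset.prod_pow_eq_pow_sum, h1]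
  rw [map_mul, map_prod]
  simp only [map_pow, RingHom.comp_apply]
  ring

private theorem SecSq_mono [IsDomain R] {a : R} (ha : a ≠ 0) {N : ℕ} {P : Polynomial R}
    (h1 : Polynomial.C a * Polynomial.X ^ N = P ^ 2) : ∃ m, N = m + m ∧ a = P.coeff m ^ 2 := by
  have hP0 : P ≠ 0 := by
    intro h2
    rw [h2, zero_pow two_ne_zero] at h1
    rcases mul_eq_zero.1 h1 with h3 | h3
    · rw [Polynomial.C_eq_zero] at h3
      exact ha h3
    · exact pow_ne_zero N Polynomial.X_ne_zero h3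
  have hdeg : P.natDegree + P.natDegree = N := by
    rw [← Polynomial.natDegree_mul hP0 hP0, ← sq, ← h1, Polynomial.natDegree_C_mul_X_pow N _ ha]
  have htr : P.natTrailingDegree + P.natTrailingDegree = N := by
    rw [← Polynomial.natTrailingDegree_mul hP0 hP0, ← sq, ← h1,
      Polynomial.natTrailingDegree_mul_X_pow (Polynomial.C_ne_zero.2 ha),
      Polynomial.natTrailingDegree_C, zero_add]
  have hPm : P = Polynomial.C (P.coeff P.natDegree) * Polynomial.X ^ P.natDegree := by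
    ext n
    rw [Polynomial.coeff_C_mul_X_pow]
    rcases lt_trichotomy n P.natDegree with hn | hn | hn
    · rw [if_neg (by omega), Polynomial.coeff_eq_zero_of_lt_natTrailingDegree (by omega)]
    · rw [if_pos hn, hn]
    · rw [if_neg (by omega), Polynomial.coeff_eq_zero_of_natDegree_lt (by omega)]
  refine ⟨P.natDegree, hdeg.symm, ?_⟩
  have h4 : (Polynomial.C a * Polynomial.X ^ N).coeff N = (P ^ 2).coeff N := by rw [h1]
  have h5 : P ^ 2 = Polynomial.C (P.coeff P.natDegree ^ 2) * Polynomial.X ^ N := by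
    conv_lhs => rw [hPm]
    rw [mul_pow, ← pow_mul, ← map_pow, mul_two, hdeg]
  rw [h5, Polynomial.coeff_C_mul_X_pow, Polynomial.coeff_C_mul_X_pow, if_pos rfl, if_pos rfl] at h4
  exact h4

private theorem SecSq_coeff (μ : S3 →+* R) (c : S3) (m : ℕ) :
    (SecSq_hom μ c).coeff m = μ (homogeneousComponent m c) := by
  conv_lhs => rw [← sum_homogeneousComponent c, map_sum]
  rw [Polynomial.finsetSum_coeff]
  have h1 : ∀ i, (SecSq_hom μ (homogeneousComponent i c)).coeff m =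
      if m = i then μ (homogeneousComponent i c) else 0 := by
    intro i
    rw [SecSq_hom_hom μ (homogeneousComponent_isHomogeneous i c), Polynomial.coeff_C_mul_X_pow]
  rw [Finset.sum_congr rfl fun i _ => h1 i, Finset.sum_ite_eq]
  split_ifs with h3
  · rfl
  · rw [Finset.mem_range, not_lt] at h3
    rw [homogeneousComponent_eq_zero m c (by omega), map_zero]

private theorem SecSq_root [IsDomain R] (μ : S3 →+* R) {D : S3} {d : ℕ}
    (hDh : D.IsHomogeneous d) (hμ : μ D = 0) {F c : S3} {N : ℕ} (hF : F.IsHomogeneous N)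
    (hF0 : μ F ≠ 0) (h : D ∣ F - c ^ 2) :
    ∃ m, N = m + m ∧ μ F = μ (homogeneousComponent m c) ^ 2 := by
  have hD0 : SecSq_hom μ D = 0 := by
    rw [SecSq_hom_hom μ hDh, hμ, map_zero, zero_mul]
  have h1 : SecSq_hom μ F = SecSq_hom μ c ^ 2 := by
    obtain ⟨e, he⟩ := h
    rw [← sub_eq_zero, ← map_pow, ← map_sub, he, map_mul, hD0, zero_mul]
  rw [SecSq_hom_hom μ hF] at h1
  obtain ⟨m, hm, hm'⟩ := SecSq_mono hF0 h1
  exact ⟨m, hm, by rw [hm', SecSq_coeff]⟩

end grading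

/-- a square root of a form modulo `D` is a form -/
theorem exists_hom_root {D : S3} {d : ℕ} (hDh : D.IsHomogeneous d) (hpr : Prime D) {F c : S3}
    {N : ℕ} (hF : F.IsHomogeneous N) (hF0 : ¬ D ∣ F) (h : D ∣ F - c ^ 2) :
    ∃ (m : ℕ) (c' : S3), N = m + m ∧ c'.IsHomogeneous m ∧ D ∣ F - c' ^ 2 := by
  have hI : (Ideal.span {D}).IsPrime := (Ideal.span_singleton_prime hpr.ne_zero).2 hpr
  have hdvd : ∀ x : S3, Ideal.Quotient.mk (Ideal.span {D}) x = 0 ↔ D ∣ x := by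
    intro x
    rw [Ideal.Quotient.eq_zero_iff_mem, Ideal.mem_span_singleton]
  obtain ⟨m, hm, h1⟩ := SecSq_root (Ideal.Quotient.mk (Ideal.span {D})) hDh
    ((hdvd D).2 dvd_rfl) hF (fun h2 => hF0 ((hdvd F).1 h2)) h
  refine ⟨m, homogeneousComponent m c, hm, homogeneousComponent_isHomogeneous m c, ?_⟩
  rw [← hdvd, map_sub, map_pow, h1, sub_self]

/-- **Square roots come from sections.** -/
theorem sec_of_sq (h : Dat D q p J J2) {a : S3} {e : ℤ} (ha : HomZ a (2 * e - p))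
    (hsq : SqMod D (a * q)) : ∃ g : S3, Sec D q J g e ∧ D ∣ g ^ 2 - q * a := by
  have hpr := h.prime
  have hDZ : HomZ D (6 : ℤ) := (homZ_nat D 6).2 h.cur.hom
  obtain ⟨c, b, n, hb, hDb, hDf, hd⟩ := hsq
  -- `c` is a form
  have hF : HomZ (b ^ 2 * (a * q)) (2 * (n + e)) := by
    have h1 := (((homZ_nat b n).2 hb).pow 2).mul (ha.mul h.hom)
    have e1 : ((2 : ℕ) : ℤ) * n + (2 * e - p + p) = 2 * (n + e) := by
      push_cast
      ring
    rwa [e1] at h1
  have hF0 : ¬ D ∣ b ^ 2 * (a * q) := by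
    intro h1
    rcases hpr.dvd_or_dvd h1 with h2 | h2
    · exact hDb (hpr.dvd_of_dvd_pow h2)
    · exact hDf h2
  obtain ⟨N, hN, hFN⟩ := hF.exists_nat fun h1 => hF0 (h1 ▸ dvd_zero D)
  obtain ⟨m, c', hm, hc', hd'⟩ := exists_hom_root h.cur.hom hpr hFN hF0 hd
  have hc'Z : HomZ c' ((m : ℕ) : ℤ) := (homZ_nat c' m).2 hc'
  have hbZ : HomZ b ((n : ℕ) : ℤ) := (homZ_nat b n).2 hb
  -- the quotient `c' / b`
  obtain ⟨g₁, hg₁⟩ := normal_div h.cur hc' hb hDb (k := a * q) (by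
    have e1 : c' ^ 2 - a * q * b ^ 2 = -(b ^ 2 * (a * q) - c' ^ 2) := by ring
    rw [e1, dvd_neg]
    exact hd')
  obtain ⟨g, hg, hgd⟩ := dvd_comp hDZ h.cur.irr.ne_zero hbZ hc'Z hg₁
  have hme : ((m : ℕ) : ℤ) - n = e := by
    have : (N : ℤ) = m + m := by exact_mod_cast hm
    omega
  rw [hme] at hg
  have hga : D ∣ g ^ 2 - q * a := by
    refine (hpr.dvd_mul.1 (?_ : D ∣ b ^ 2 * _)).resolve_left fun h1 =>
      hDb (hpr.dvd_of_dvd_pow h1)
    have e1 : b ^ 2 * (g ^ 2 - q * a) =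
        -((b ^ 2 * (a * q) - c' ^ 2) + (c' + b * g) * (c' - b * g)) := by ring
    rw [e1, dvd_neg]
    exact dvd_add hd' (hgd.mul_left _)
  refine ⟨g, ⟨hg, fun k => ?_⟩, hga⟩
  obtain ⟨dk, hdk⟩ := h.jhom k
  refine normal_divZ h.cur (hg.mul hdk) h.hom h.ndvd (k := a * J2 k k) ?_
  have e1 : (g * J k) ^ 2 - a * J2 k k * q ^ 2 =
      (g ^ 2 - q * a) * (J k * J k) + q * a * (J k * J k - q * J2 k k) := by ring
  rw [e1]
  exact dvd_add (hga.mul_right _) ((h.jj k k).mul_left _)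

end Pool.Agent.DIX
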