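import Pool.Agent.DIX.MatN
import Pool.Agent.DIX.SecSq
import Pool.Agent.PLN.VerraDefs

/-!
# DIX: the case of forms of even degree

`N` is a symmetric `6 x 6` matrix over `S3`, `N i j` has degree `μ i + μ j`, `μ i ≥ 0`,
`∑ μ i = 3`. The block of the indices with `μ i = 0` is constant. Either there are two independent
constant vectors, totally isotropic for `N`, or there are three such indices, the constant block is
regular, and its Schur complement is a symmetric `3 x 3` matrix of quadratic forms.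
-/

set_option autoImplicit false

namespace Pool.Agent.DIX

open MvPolynomial Pool.Agent.PLN Matrix

section iso

variable {V : Type} [AddCommGroup V] [Module ℂ V]

/-- a zero of a binary quadratic form -/
theorem exists_zero_two (B : LinearMap.BilinForm ℂ V) (hB : ∀ x y, B x y = B y x) {x y : V} :
    ∃ s t : ℂ, (s ≠ 0 ∨ t ≠ 0) ∧ B (s • x + t • y) (s • x + t • y) = 0 := by
  by_cases ha : B x x = 0
  · exact ⟨1, 0, Or.inl one_ne_zero, by simpa using ha⟩
  · obtain ⟨r, hr⟩ := IsAlgClosed.exists_pow_nat_eq (B x y ^ 2 - B x x * B y y) two_pos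
    refine ⟨(-B x y + r) / B x x, 1, Or.inr one_ne_zero, ?_⟩
    simp only [map_add, map_smul, LinearMap.add_apply, LinearMap.smul_apply, smul_eq_mul,
      one_smul]
    rw [hB y x]
    field_simp
    linear_combination hr

theorem exists_iso_pair (B : LinearMap.BilinForm ℂ V) (hB : ∀ x y, B x y = B y x) {u : V}
    (hu : u ≠ 0) (huu : B u u = 0) (h3 : 3 ≤ Module.finrank ℂ (LinearMap.ker (B u))) :
    ∃ v, LinearIndependent ℂ ![u, v] ∧ B u v = 0 ∧ B v v = 0 := by
  have hU : Module.Finite ℂ (LinearMap.ker (B u)) := Module.finite_of_finrank_pos (by omega)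
  let u' : LinearMap.ker (B u) := ⟨u, huu⟩
  have hu' : u' ≠ 0 := fun h => hu (congrArg Subtype.val h)
  have h1 : LinearIndependent ℂ ![u'] := by
    rw [linearIndependent_unique_iff]
    exact hu'
  obtain ⟨x, hx⟩ := exists_linearIndependent_cons_of_lt_finrank h1 (by omega)
  obtain ⟨y, hy⟩ := exists_linearIndependent_cons_of_lt_finrank hx (by omega)
  obtain ⟨s, t, hst, h0⟩ := exists_zero_two B hB (x := (x : V)) (y := (y : V))
  refine ⟨s • (x : V) + t • (y : V), ?_, ?_, h0⟩
  · rw [LinearIndependent.pair_iff]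
    intro a b hab
    have h4 : (b * t) • y + (b * s) • x + a • u' = 0 := by
      apply Subtype.ext
      simp only [Submodule.coe_add, Submodule.coe_smul, Submodule.coe_zero]
      rw [← hab, smul_add, smul_smul, smul_smul]
      abel
    have h5 := Fintype.linearIndependent_iff.1 hy ![b * t, b * s, a]
      ((Fin.sum_univ_three _).trans h4)
    have e0 : b * t = 0 := h5 0
    have e1 : b * s = 0 := h5 1
    have e2 : a = 0 := h5 2
    refine ⟨e2, ?_⟩
    by_contra hb
    rcases hst with hs | ht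
    · exact mul_ne_zero hb hs e1
    · exact mul_ne_zero hb ht e0
  · rw [map_add, map_smul, map_smul, LinearMap.mem_ker.1 x.2, LinearMap.mem_ker.1 y.2,
      smul_zero, smul_zero, add_zero]

/-- a constant symmetric `4 x 4` matrix, or a singular `3 x 3` matrix -/
theorem exists_iso_mat {m : ℕ} (G : Matrix (Fin m) (Fin m) ℂ) (hG : G.IsSymm)
    (h : m = 4 ∨ (m = 3 ∧ G.det = 0)) :
    ∃ u v : Fin m → ℂ, LinearIndependent ℂ ![u, v] ∧ u ⬝ᵥ (G *ᵥ u) = 0 ∧
      u ⬝ᵥ (G *ᵥ v) = 0 ∧ v ⬝ᵥ (G *ᵥ v) = 0 := by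
  let B : LinearMap.BilinForm ℂ (Fin m → ℂ) := Matrix.toBilin' G
  have hBa : ∀ x y, B x y = x ⬝ᵥ (G *ᵥ y) := fun x y => Matrix.toBilin'_apply' G x y
  have hB : ∀ x y, B x y = B y x := by
    intro x y
    rw [hBa, hBa, dotProduct_mulVec, ← mulVec_transpose, hG.eq, dotProduct_comm]
  obtain ⟨u, hu, huu, h3⟩ : ∃ u : Fin m → ℂ, u ≠ 0 ∧ B u u = 0 ∧
      3 ≤ Module.finrank ℂ (LinearMap.ker (B u)) := by
    rcases h with rfl | ⟨rfl, h0⟩
    · obtain ⟨s, t, hst, h0⟩ := exists_zero_two B hB (x := (Pi.single 0 1 : Fin 4 → ℂ))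
        (y := Pi.single 1 1)
      refine ⟨_, ?_, h0, ?_⟩
      · intro h1
        have e0 : s = 0 := by simpa using congrFun h1 0
        have e1 : t = 0 := by simpa using congrFun h1 1
        rcases hst with hs | ht
        · exact hs e0
        · exact ht e1
      · have h1 := LinearMap.finrank_range_add_finrank_ker
          (B (s • Pi.single 0 1 + t • Pi.single 1 1))
        have h2 := Submodule.finrank_le (LinearMap.range
          (B (s • Pi.single 0 1 + t • Pi.single 1 1)))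
        rw [Module.finrank_self] at h2
        rw [Module.finrank_fin_fun] at h1
        omega
    · obtain ⟨u, hu, hGu⟩ := Matrix.exists_mulVec_eq_zero_iff.2 h0
      have h1 : B u = 0 := by
        refine LinearMap.ext fun y => ?_
        rw [hB, hBa, hGu, dotProduct_zero, LinearMap.zero_apply]
      refine ⟨u, hu, by rw [h1]; rfl, ?_⟩
      rw [h1, LinearMap.ker_zero, finrank_top, Module.finrank_fin_fun]
  obtain ⟨v, hv, huv, hvv⟩ := exists_iso_pair B hB hu huu h3
  exact ⟨u, v, hv, by rw [← hBa]; exact huu, by rw [← hBa]; exact huv, by rw [← hBa]; exact hvv⟩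

end iso

private theorem Alpha_const {f : S3} (hf : f.IsHomogeneous 0) : f = C (coeff 0 f) := by
  rw [← totalDegree_zero_iff_isHomogeneous, totalDegree_eq_zero_iff_eq_C] at hf
  exact hf

/-- a quadratic form in three variables -/
theorem exists_quad {f : S3} (hf : f.IsHomogeneous 2) :
    ∃ t : Fin 3 → Fin 3 → ℂ, (∀ k l, t k l = t l k) ∧
      f = ∑ k, ∑ l, C (t k l) * X k * X l := by
  let c : Fin 3 → Fin 3 → ℂ := fun k l => coeff 0 (pderiv l (pderiv k f))
  have h1 : ∀ k, pderiv k f = ∑ l, C (c k l) * X l := by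
    intro k
    have h2 : (pderiv k f).IsHomogeneous 1 := hf.pderiv
    have h3 := h2.sum_X_mul_pderiv
    rw [one_smul] at h3
    rw [← h3]
    refine Finset.sum_congr rfl fun l _ => ?_
    have h4 : (pderiv l (pderiv k f)).IsHomogeneous 0 := h2.pderiv
    rw [Alpha_const h4, mul_comm]
  have h5 := hf.sum_X_mul_pderiv
  have h6 : f = ∑ k, ∑ l, C (c k l / 2) * X k * X l := by
    have h7 : (C 2 : S3) * f = ∑ k, ∑ l, C (c k l) * X k * X l := by
      have e2 : (C 2 : S3) = 2 := map_ofNat C 2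
      rw [e2, two_mul, ← two_nsmul, ← h5]
      refine Finset.sum_congr rfl fun k _ => ?_
      rw [h1 k, Finset.mul_sum]
      exact Finset.sum_congr rfl fun l _ => by ring
    have h8 : f = C (1 / 2) * (C 2 * f) := by
      rw [← mul_assoc, ← C_mul]
      norm_num
    rw [h8, h7, Finset.mul_sum]
    refine Finset.sum_congr rfl fun k _ => ?_
    rw [Finset.mul_sum]
    refine Finset.sum_congr rfl fun l _ => ?_
    rw [← mul_assoc, ← mul_assoc, ← C_mul]
    congr 3
    ring
  have h9 : f = ∑ k, ∑ l, C (c l k / 2) * X k * X l := by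
    rw [Finset.sum_comm]
    conv_lhs => rw [h6]
    exact Finset.sum_congr rfl fun k _ => Finset.sum_congr rfl fun l _ => by ring
  refine ⟨fun k l => (c k l + c l k) / 4, fun k l => by
    change (c k l + c l k) / 4 = (c l k + c k l) / 4
    rw [add_comm], ?_⟩
  have h10 : f = C (1 / 2) * (f + f) := by
    rw [← two_mul, ← mul_assoc]
    have e2 : (2 : S3) = C 2 := (map_ofNat C 2).symm
    rw [e2, ← C_mul]
    norm_num
  rw [h10]
  nth_rewrite 1 [h6]
  nth_rewrite 1 [h9]
  rw [← Finset.sum_add_distrib, Finset.mul_sum]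
  refine Finset.sum_congr rfl fun k _ => ?_
  rw [← Finset.sum_add_distrib, Finset.mul_sum]
  refine Finset.sum_congr rfl fun l _ => ?_
  rw [← add_mul, ← add_mul, ← C_add, ← mul_assoc, ← mul_assoc, ← C_mul]
  congr 3
  ring

/-- the adjugate of a block matrix and the Schur complement -/
theorem adj_schur {R : Type} [CommRing R] {A : Matrix (Fin 3) (Fin 3) R} [Invertible A]
    (B C D : Matrix (Fin 3) (Fin 3) R) (i : Fin 3) :
    (fromBlocks A B C D).adjugate (Sum.inr i) (Sum.inr i) =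
      A.det * (D - C * ⅟A * B).adjugate i i := by
  rw [adjugate_apply, adjugate_apply]
  have h : (fromBlocks A B C D).updateRow (Sum.inr i) (Pi.single (Sum.inr i) 1) =
      fromBlocks A B (C.updateRow i 0) (D.updateRow i (Pi.single i 1)) := by
    ext a b
    rcases a with a | a
    · rw [updateRow_ne (by simp)]
      rcases b with b | b <;> rfl
    · by_cases hai : a = i
      · subst hai
        rw [updateRow_self]
        rcases b with b | b
        · rw [Pi.single_eq_of_ne (by simp), fromBlocks_apply₂₁, updateRow_self, Pi.zero_apply]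
        · rw [fromBlocks_apply₂₂, updateRow_self]
          by_cases hb : b = a
          · subst hb
            rw [Pi.single_eq_same, Pi.single_eq_same]
          · rw [Pi.single_eq_of_ne hb, Pi.single_eq_of_ne (by simpa using hb)]
      · rw [updateRow_ne (by simpa using hai)]
        rcases b with b | b
        · rw [fromBlocks_apply₂₁, fromBlocks_apply₂₁, updateRow_ne hai]
        · rw [fromBlocks_apply₂₂, fromBlocks_apply₂₂, updateRow_ne hai]
  rw [h, det_fromBlocks₁₁]
  congr 2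
  ext a b
  rw [Matrix.sub_apply, Matrix.mul_assoc, Matrix.mul_apply]
  by_cases hai : a = i
  · subst hai
    simp only [updateRow_self, Pi.zero_apply, zero_mul, Finset.sum_const_zero, sub_zero]
  · simp only [updateRow_ne hai]
    rw [Matrix.sub_apply, Matrix.mul_assoc, Matrix.mul_apply]

theorem schur_part {R : Type} [CommRing R] {A A' : Matrix (Fin 3) (Fin 3) R} (h1 : A' * A = 1)
    (h2 : A * A' = 1) (L Q : Matrix (Fin 3) (Fin 3) R) :
    (fromBlocks A L Lᵀ Q).det = A.det * (Q - Lᵀ * A' * L).det ∧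
    ∀ i, (fromBlocks A L Lᵀ Q).adjugate (Sum.inr i) (Sum.inr i) =
      A.det * (Q - Lᵀ * A' * L).adjugate i i := by
  let _ : Invertible A := ⟨A', h1, h2⟩
  exact ⟨det_fromBlocks₁₁ A L Lᵀ Q, fun i => adj_schur L Lᵀ Q i⟩

/-- a vector with coordinates in the image of `a` -/
private def Alpha_ext {m : ℕ} (a : Fin m → Fin 6) (u : Fin m → ℂ) : Fin 6 → ℂ :=
  fun i => ∑ k, if a k = i then u k else 0

private theorem Alpha_ext_sum {m : ℕ} (a : Fin m → Fin 6) (u : Fin m → ℂ) (f : Fin 6 → S3) :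
    ∑ i, C (Alpha_ext a u i) * f i = ∑ k, C (u k) * f (a k) := by
  simp only [Alpha_ext, map_sum, Finset.sum_mul]
  rw [Finset.sum_comm]
  refine Finset.sum_congr rfl fun k _ => ?_
  rw [Finset.sum_eq_single (a k)]
  · rw [if_pos rfl]
  · intro b _ hb
    rw [if_neg fun h => hb h.symm, map_zero, zero_mul]
  · intro h
    exact absurd (Finset.mem_univ _) h

private theorem Alpha_ext_apply {m : ℕ} {a : Fin m → Fin 6} (ha : Function.Injective a)
    (u : Fin m → ℂ) (k : Fin m) : Alpha_ext a u (a k) = u k := by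
  rw [Alpha_ext, Finset.sum_eq_single k]
  · rw [if_pos rfl]
  · intro b _ hb
    rw [if_neg fun h => hb (ha h)]
  · intro h
    exact absurd (Finset.mem_univ _) h

/-- two independent constant vectors which span a totally isotropic plane -/
def IsoPair (N : Matrix (Fin 6) (Fin 6) S3) (u v : Fin 6 → ℂ) : Prop :=
  LinearIndependent ℂ ![u, v] ∧ (fun i => (C (u i) : S3)) ⬝ᵥ (N *ᵥ fun i => C (u i)) = 0 ∧
    (fun i => (C (u i) : S3)) ⬝ᵥ (N *ᵥ fun i => C (v i)) = 0 ∧
    (fun i => (C (v i) : S3)) ⬝ᵥ (N *ᵥ fun i => C (v i)) = 0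

private theorem Alpha_iso {N : Matrix (Fin 6) (Fin 6) S3} {m : ℕ} {a : Fin m → Fin 6}
    (ha : Function.Injective a) {G : Matrix (Fin m) (Fin m) ℂ}
    (hG : ∀ k l, N (a k) (a l) = C (G k l)) (hGs : G.IsSymm)
    (h : m = 4 ∨ (m = 3 ∧ G.det = 0)) : ∃ u v, IsoPair N u v := by
  obtain ⟨u, v, huv, h1, h2, h3⟩ := exists_iso_mat G hGs h
  have hprod : ∀ x y : Fin m → ℂ, (fun i => (C (Alpha_ext a x i) : S3)) ⬝ᵥ
      (N *ᵥ fun i => C (Alpha_ext a y i)) = C (x ⬝ᵥ (G *ᵥ y)) := by
    intro x y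
    have e1 : ∀ i, (N *ᵥ fun i => (C (Alpha_ext a y i) : S3)) i =
        ∑ l, C (y l) * N i (a l) := by
      intro i
      rw [mulVec, dotProduct, ← Alpha_ext_sum a y (fun j => N i j)]
      exact Finset.sum_congr rfl fun j _ => mul_comm _ _
    rw [dotProduct, Alpha_ext_sum a x]
    simp only [e1, hG]
    rw [dotProduct, map_sum]
    refine Finset.sum_congr rfl fun k _ => ?_
    rw [mulVec, dotProduct, map_mul, map_sum]
    congr 1
    refine Finset.sum_congr rfl fun l _ => ?_
    rw [map_mul, mul_comm]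
  refine ⟨Alpha_ext a u, Alpha_ext a v, ?_, ?_, ?_, ?_⟩
  · rw [LinearIndependent.pair_iff] at huv ⊢
    intro s t hst
    refine huv s t ?_
    funext k
    have := congrFun hst (a k)
    simpa [Alpha_ext_apply ha] using this
  · rw [hprod, h1, C_0]
  · rw [hprod, h2, C_0]
  · rw [hprod, h3, C_0]

private theorem Alpha_tensor {α : Matrix (Fin 3) (Fin 3) S3} (hs : ∀ i j, α i j = α j i)
    (hh : ∀ i j, (α i j).IsHomogeneous 2) :
    ∃ t : Fin 3 → Fin 3 → Fin 3 → Fin 3 → ℂ, (∀ k l i j, t k l i j = t l k i j) ∧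
      (∀ k l i j, t k l i j = t k l j i) ∧ vA t = α := by
  have hex : ∀ f : S3, ∃ t : Fin 3 → Fin 3 → ℂ, f.IsHomogeneous 2 → (∀ k l, t k l = t l k) ∧
      f = ∑ k, ∑ l, C (t k l) * X k * X l := by
    intro f
    by_cases hf : f.IsHomogeneous 2
    · obtain ⟨t, h1, h2⟩ := exists_quad hf
      exact ⟨t, fun _ => ⟨h1, h2⟩⟩
    · exact ⟨0, fun h => absurd h hf⟩
  choose T hT using hex
  refine ⟨fun k l i j => T (α i j) k l, fun k l i j => (hT _ (hh i j)).1 k l, fun k l i j => ?_, ?_⟩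
  · change T (α i j) k l = T (α j i) k l
    rw [hs i j]
  · refine Matrix.ext fun i j => ?_
    exact (hT _ (hh i j)).2.symm

private theorem Alpha_sqMod {D w β : S3} (hD : Prime D) {k : ℂ} (hk : k ≠ 0)
    (h : D ∣ w ^ 2 - C k * β) (hw : ¬ D ∣ w) : SqMod D β := by
  obtain ⟨s, hs⟩ := IsAlgClosed.exists_pow_nat_eq k⁻¹ two_pos
  refine ⟨C s * w, 1, 0, isHomogeneous_one _ _,
    fun h6 => hD.not_isUnit (isUnit_of_dvd_one h6), ?_, ?_⟩
  · intro h6
    apply hw
    have h7 : D ∣ w ^ 2 := by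
      have e1 : w ^ 2 = (w ^ 2 - C k * β) + C k * β := by ring
      rw [e1]
      exact dvd_add h (h6.mul_left _)
    exact hD.dvd_of_dvd_pow h7
  · obtain ⟨f, hf⟩ := h
    refine ⟨-(C (s ^ 2) * f), ?_⟩
    have e2 : (C (s ^ 2) : S3) * C k = 1 := by
      rw [← C_mul, hs, inv_mul_cancel₀ hk, C_1]
    have e3 : (C s : S3) ^ 2 = C (s ^ 2) := (map_pow _ _ _).symm
    linear_combination (-C (s ^ 2) : S3) * hf - β * e2 - (w ^ 2) * e3

theorem alpha_or_iso {D q : S3} (hD : Prime D) {N : Matrix (Fin 6) (Fin 6) S3} {c : ℂ}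
    {w : Fin 6 → S3} {ε : Fin 6 → ℤ} {p' : ℤ} (hN : N.IsSymm) (hc : c ≠ 0)
    (hd : N.det = C c * D) (hh : ∀ i j, HomZ (N i j) (ε i + ε j - 2 * p' - 4))
    (hw : ∀ i, D ∣ w i ^ 2 - C c * (q * N.adjugate i i)) (hw0 : ∀ i, ¬ D ∣ w i)
    (hs : ∑ i, (2 * ε i - 2 * p' - 5) = 0) (hmin : ∀ i, p' + 2 ≤ ε i) :
    (∃ u v, IsoPair N u v) ∨ ∃ (t : Fin 3 → Fin 3 → Fin 3 → Fin 3 → ℂ) (c' : ℂ),
      (∀ k l i j, t k l i j = t l k i j) ∧ (∀ k l i j, t k l i j = t k l j i) ∧ c' ≠ 0 ∧
      (vA t).det = C c' * D ∧ ∀ i, SqMod D (q * (vA t).adjugate i i) := by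
  classical
  obtain ⟨μ, hμ⟩ : ∃ μ : Fin 6 → ℕ, ∀ i, ε i = p' + 2 + μ i := by
    refine ⟨fun i => (ε i - p' - 2).toNat, fun i => ?_⟩
    have h1 := hmin i
    change ε i = p' + 2 + ((ε i - p' - 2).toNat : ℤ)
    rw [Int.toNat_of_nonneg (by omega)]
    ring
  have hsum : ∑ i, μ i = 3 := by
    have h1 : ∑ i, (2 * ε i - 2 * p' - 5) = 2 * ((∑ i, μ i : ℕ) : ℤ) - 6 := by
      rw [Nat.cast_sum, Finset.mul_sum]
      have h2 : ∀ i, 2 * ε i - 2 * p' - 5 = 2 * (μ i : ℤ) - 1 := by
        intro i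
        rw [hμ i]
        ring
      rw [Finset.sum_congr rfl fun i _ => h2 i, Finset.sum_sub_distrib]
      simp
    omega
  have hhN : ∀ i j, HomZ (N i j) ((μ i + μ j : ℕ) : ℤ) := by
    intro i j
    have h1 := hh i j
    have h2 : ε i + ε j - 2 * p' - 4 = ((μ i + μ j : ℕ) : ℤ) := by
      rw [hμ i, hμ j]
      push_cast
      ring
    rwa [h2] at h1
  set A : Finset (Fin 6) := Finset.univ.filter fun i => μ i = 0 with hA
  have hAmem : ∀ i, i ∈ A ↔ μ i = 0 := by
    intro i
    rw [hA, Finset.mem_filter]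
    simp
  have hconst : ∀ i ∈ A, ∀ j ∈ A, ∃ z : ℂ, N i j = C z := by
    intro i hi j hj
    have h1 := hhN i j
    rw [(hAmem i).1 hi, (hAmem j).1 hj] at h1
    exact HomZ.const h1
  have hcompl : ∑ i ∈ Aᶜ, μ i = 3 := by
    rw [← hsum, ← Finset.sum_add_sum_compl A μ]
    rw [Finset.sum_eq_zero fun i hi => (hAmem i).1 hi, zero_add]
  have hone : ∀ i ∈ Aᶜ, 1 ≤ μ i := by
    intro i hi
    rw [Finset.mem_compl, hAmem] at hi
    omega
  have hcard : Aᶜ.card ≤ 3 := by
    have h1 := Finset.card_nsmul_le_sum Aᶜ μ 1 hone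
    rw [hcompl] at h1
    simpa using h1
  have hAc : A.card + Aᶜ.card = 6 := by
    rw [Finset.card_add_card_compl]
    rfl
  have hsymG : ∀ {m : ℕ} (a : Fin m → Fin 6) (G : Matrix (Fin m) (Fin m) ℂ),
      (∀ k l, N (a k) (a l) = C (G k l)) → G.IsSymm := by
    intro m a G hG
    refine Matrix.IsSymm.ext fun k l => ?_
    apply C_injective (Fin 3) ℂ
    rw [← hG, ← hG, hN.apply]
  by_cases h4 : 4 ≤ A.card
  · left
    choose! z hz using hconst
    exact Alpha_iso (a := A.orderEmbOfCardLe h4) (A.orderEmbOfCardLe h4).injective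
      (G := Matrix.of fun k l => z (A.orderEmbOfCardLe h4 k) (A.orderEmbOfCardLe h4 l))
      (fun k l => hz _ (A.orderEmbOfCardLe_mem h4 k) _ (A.orderEmbOfCardLe_mem h4 l))
      (hsymG _ _ fun k l => hz _ (A.orderEmbOfCardLe_mem h4 k) _ (A.orderEmbOfCardLe_mem h4 l))
      (Or.inl rfl)
  · have hA3 : A.card = 3 := by omega
    have hA3' : Aᶜ.card = 3 := by omega
    let e : Fin 3 ⊕ Fin 3 ≃ Fin 6 := finSumEquivOfFinset hA3 hA3'
    have hel : ∀ k, e (Sum.inl k) ∈ A := by
      intro k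
      change finSumEquivOfFinset hA3 hA3' (Sum.inl k) ∈ A
      rw [finSumEquivOfFinset_inl]
      exact Finset.orderEmbOfFin_mem A hA3 k
    have her : ∀ k, e (Sum.inr k) ∈ Aᶜ := by
      intro k
      change finSumEquivOfFinset hA3 hA3' (Sum.inr k) ∈ Aᶜ
      rw [finSumEquivOfFinset_inr]
      exact Finset.orderEmbOfFin_mem Aᶜ hA3' k
    choose! z hz using hconst
    let G : Matrix (Fin 3) (Fin 3) ℂ :=
      Matrix.of fun k l => z (e (Sum.inl k)) (e (Sum.inl l))
    have hG : ∀ k l, N (e (Sum.inl k)) (e (Sum.inl l)) = C (G k l) := fun k l =>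
      hz _ (hel k) _ (hel l)
    have hGs : G.IsSymm := hsymG (fun k => e (Sum.inl k)) G hG
    by_cases hG0 : G.det = 0
    · left
      exact Alpha_iso (a := fun k => e (Sum.inl k))
        (fun k l hkl => Sum.inl_injective (e.injective hkl)) hG hGs (Or.inr ⟨rfl, hG0⟩)
    right
    have hμ1 : ∀ k, μ (e (Sum.inr k)) = 1 := by
      intro k
      by_contra hne
      have h5 := hone _ (her k)
      have h6 : Aᶜ.card • 1 < ∑ i ∈ Aᶜ, μ i := by
        rw [← Finset.sum_const]
        exact Finset.sum_lt_sum hone ⟨_, her k, by omega⟩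
      rw [hcompl, hA3', smul_eq_mul] at h6
      omega
    have hμ0 : ∀ k, μ (e (Sum.inl k)) = 0 := fun k => (hAmem _).1 (hel k)
    have hGu : IsUnit G.det := isUnit_iff_ne_zero.2 hG0
    have hi1 : (G⁻¹).map (C : ℂ →+* S3) * G.map (C : ℂ →+* S3) = 1 := by
      rw [← Matrix.map_mul, nonsing_inv_mul G hGu, Matrix.map_one _ C_0 C_1]
    have hi2 : G.map (C : ℂ →+* S3) * (G⁻¹).map (C : ℂ →+* S3) = 1 := by
      rw [← Matrix.map_mul, mul_nonsing_inv G hGu, Matrix.map_one _ C_0 C_1]
    let L : Matrix (Fin 3) (Fin 3) S3 := Matrix.of fun k l => N (e (Sum.inl k)) (e (Sum.inr l))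
    let Q : Matrix (Fin 3) (Fin 3) S3 := Matrix.of fun k l => N (e (Sum.inr k)) (e (Sum.inr l))
    have hN' : N.submatrix e e = fromBlocks (G.map (C : ℂ →+* S3)) L Lᵀ Q := by
      refine Matrix.ext fun a b => ?_
      rcases a with a | a <;> rcases b with b | b
      · exact hG a b
      · rfl
      · exact hN.apply _ _
      · rfl
    obtain ⟨hs1, hs2⟩ := schur_part hi1 hi2 L Q
    rw [← hN'] at hs1 hs2
    set α : Matrix (Fin 3) (Fin 3) S3 := Q - Lᵀ * (G⁻¹).map (C : ℂ →+* S3) * L with hα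
    have hGd : (G.map (C : ℂ →+* S3)).det = C G.det := (RingHom.map_det C G).symm
    have hdα : C G.det * α.det = C c * D := by
      rw [← hd, ← Matrix.det_submatrix_equiv_self e N, hs1, hGd]
    have hadj : ∀ i, N.adjugate (e (Sum.inr i)) (e (Sum.inr i)) =
        C G.det * α.adjugate i i := by
      intro i
      have h5 : N.adjugate (e (Sum.inr i)) (e (Sum.inr i)) =
          (N.submatrix e e).adjugate (Sum.inr i) (Sum.inr i) := by
        rw [adjugate_submatrix_equiv_self]
        rfl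
      rw [h5, hs2, hGd]
    have hαs : ∀ i j, α i j = α j i := by
      have h5 : α.IsSymm := by
        have hQ : Qᵀ = Q := by
          refine Matrix.ext fun a b => ?_
          exact hN.apply _ _
        have hI : ((G⁻¹).map (C : ℂ →+* S3))ᵀ = (G⁻¹).map C := by
          rw [← Matrix.transpose_map, transpose_nonsing_inv, hGs.eq]
        rw [Matrix.IsSymm, hα, transpose_sub, hQ, transpose_mul, transpose_mul,
          transpose_transpose, hI, Matrix.mul_assoc]
      intro i j
      exact h5.apply j i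
    have hαh : ∀ i j, (α i j).IsHomogeneous 2 := by
      intro i j
      rw [← homZ_nat]
      have h5 : HomZ (Q i j) ((2 : ℕ) : ℤ) := by
        have := hhN (e (Sum.inr i)) (e (Sum.inr j))
        rwa [hμ1, hμ1] at this
      have h6 : HomZ ((Lᵀ * (G⁻¹).map (C : ℂ →+* S3) * L) i j) ((2 : ℕ) : ℤ) := by
        rw [Matrix.mul_apply]
        refine HomZ.sum _ _ fun k _ => ?_
        rw [Matrix.mul_apply, Finset.sum_mul]
        refine HomZ.sum _ _ fun l _ => ?_
        have h7 : HomZ (Lᵀ i l) 1 := by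
          have := hhN (e (Sum.inl l)) (e (Sum.inr i))
          rwa [hμ0, hμ1] at this
        have h8 : HomZ (L k j) 1 := by
          have := hhN (e (Sum.inl k)) (e (Sum.inr j))
          rwa [hμ0, hμ1] at this
        have h9 := (h7.mul (homZ_C (n := 3) (G⁻¹ l k))).mul h8
        exact h9
      exact h5.sub h6
    obtain ⟨t, ht1, ht2, ht⟩ := Alpha_tensor hαs hαh
    refine ⟨t, c / G.det, ht1, ht2, div_ne_zero hc hG0, ?_, fun i => ?_⟩
    · rw [ht]
      have h5 : (C G.det : S3) ≠ 0 := by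
        rw [Ne, C_eq_zero]
        exact hG0
      apply mul_left_cancel₀ h5
      rw [hdα, ← mul_assoc, ← C_mul, mul_div_cancel₀ _ hG0]
    · rw [ht]
      refine Alpha_sqMod hD (mul_ne_zero hc hG0) (w := w (e (Sum.inr i))) ?_ (hw0 _)
      have h5 := hw (e (Sum.inr i))
      rw [hadj] at h5
      rw [C_mul]
      have e1 : C c * C G.det * (q * α.adjugate i i) = C c * (q * (C G.det * α.adjugate i i)) := by
        ring
      rw [e1]
      exact h5

end Pool.Agent.DIX
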