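import Pool.Agent.DIX.HomZ

/-!
# DIX: binary forms

`pl Q = Q1 X 0 - Q0 X 1` is the linear form which vanishes at `Q`.

`pl_dvd`: a binary form which vanishes at `Q ≠ 0` is divisible by `pl Q`.
PROOF.  If `Q 0 ≠ 0`: modulo `pl Q`, `X 1 = (Q 1 / Q 0) X 0`, so a form `a` of degree `d` is congruent to
`a(1, Q 1 / Q 0) X 0 ^ d = Q 0 ^ (-d) a(Q) X 0 ^ d`.  In the same way if `Q 1 ≠ 0`.
`exists_root`: a binary form of positive degree has a zero `Q ≠ 0`: if `a(1, 0) = 0` take `(1, 0)`;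
otherwise `T ↦ a(T, 1)` is a polynomial of positive degree `d` in one variable (the coefficient of
`T ^ d` is `a(1, 0) ≠ 0`), it has a root (`IsAlgClosed.exists_root`).
`exists_y`: for `Q ≠ 0` there is a linear form `y` with `y(Q) = 1`.
`split`: a form `a` of degree `d` is `a(Q) y ^ d + pl Q * b`, `b` a form of degree `d - 1`
(if `d < 0` then `a = 0`; `pl_dvd` for `a - C (a(Q)) y ^ d`, `HomZ.cancel`).
`pl_prime`: `pl Q` is a prime element for `Q ≠ 0` (irreducible: a linear form which is not zero; or: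
it is the kernel of an evaluation `A2 → ℂ[T]`), and does not divide `y` if `y(Q) = 1`.
-/

set_option autoImplicit false

namespace Pool.Agent.DIX

open MvPolynomial Pool.Agent.PLN

theorem eval_pl (Q : Fin 2 → ℂ) : eval Q (pl Q) = 0 := by
  unfold pl
  rw [map_sub, map_mul, map_mul, eval_C, eval_C, eval_X, eval_X]
  ring

theorem pl_hom (Q : Fin 2 → ℂ) : HomZ (pl Q) 1 := by
  unfold pl
  have h : ∀ (c : ℂ) (i : Fin 2), HomZ (C c * X i : A2) 1 := fun c i => by
    have := (homZ_C (n := 2) c).mul (homZ_X i)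
    rwa [zero_add] at this
  exact (h _ _).sub (h _ _)

theorem pl_ne {Q : Fin 2 → ℂ} (hQ : Q ≠ 0) : pl Q ≠ 0 := by
  intro h
  apply hQ
  have h1 := congrArg (eval ![1, 0]) h
  have h2 := congrArg (eval ![0, 1]) h
  unfold pl at h1 h2
  rw [map_sub, map_mul, map_mul, eval_C, eval_C, eval_X, eval_X, map_zero] at h1 h2
  have e1 : Q 1 = 0 := by simpa using h1
  have e2 : Q 0 = 0 := by simpa using h2
  funext i
  fin_cases i
  · exact e2
  · exact e1

/-- the restriction to the line through `Q` -/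
private noncomputable def Bin_phi (Q : Fin 2 → ℂ) : A2 →ₐ[ℂ] Polynomial ℂ :=
  aeval fun i => Polynomial.C (Q i) * Polynomial.X

private theorem Bin_phi_pl (Q : Fin 2 → ℂ) : Bin_phi Q (pl Q) = 0 := by
  unfold pl Bin_phi
  rw [map_sub, map_mul, map_mul, aeval_C, aeval_C, aeval_X, aeval_X]
  simp only [Polynomial.algebraMap_eq]
  ring

private theorem Bin_phi_hom (Q : Fin 2 → ℂ) {a : A2} {m : ℕ} (ha : a.IsHomogeneous m) :
    Bin_phi Q a = Polynomial.C (eval Q a) * Polynomial.X ^ m := by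
  unfold Bin_phi
  rw [aeval_def, eval₂_eq', eval_eq', map_sum, Finset.sum_mul]
  refine Finset.sum_congr rfl fun s hs => ?_
  have h1 : ∑ i, s i = m := by
    have h2 := (homZ_nat a m).2 ha s (mem_support_iff.1 hs)
    exact_mod_cast h2
  have h3 : ∏ i, (Polynomial.C (Q i) * Polynomial.X : Polynomial ℂ) ^ s i =
      Polynomial.C (∏ i, Q i ^ s i) * Polynomial.X ^ m := by
    simp only [mul_pow]
    rw [Finset.prod_mul_distrib, Finset.prod_pow_eq_pow_sum, h1, map_prod]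
    congr 1
    exact Finset.prod_congr rfl fun i _ => (map_pow _ _ _).symm
  rw [h3, map_mul, mul_assoc]
  rfl

private theorem Bin_dvd_of_phi {Q : Fin 2 → ℂ} (hQ : Q ≠ 0) {a : A2} (h : Bin_phi Q a = 0) :
    pl Q ∣ a := by
  obtain ⟨j, hj⟩ : ∃ j, Q j ≠ 0 := by
    by_contra hn
    push Not at hn
    exact hQ (funext hn)
  set ψ : Polynomial ℂ →ₐ[ℂ] A2 := Polynomial.aeval (C (Q j)⁻¹ * X j : A2) with hψ
  set I : Ideal A2 := Ideal.span {pl Q} with hI
  have hgen : ∀ i, ψ (Bin_phi Q (X i)) - X i ∈ I := by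
    intro i
    have h1 : ψ (Bin_phi Q (X i)) = C (Q i * (Q j)⁻¹) * X j := by
      unfold Bin_phi
      rw [aeval_X, map_mul, hψ, Polynomial.aeval_C, Polynomial.aeval_X, algebraMap_eq, map_mul]
      ring
    rw [h1, hI, Ideal.mem_span_singleton]
    fin_cases j
    · have hj' : Q 0 ≠ 0 := hj
      fin_cases i
      · refine ⟨0, ?_⟩
        show (C (Q 0 * (Q 0)⁻¹) * X 0 - X 0 : A2) = pl Q * 0
        rw [mul_inv_cancel₀ hj', C_1]
        ring
      · refine ⟨C (Q 0)⁻¹, ?_⟩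
        show (C (Q 1 * (Q 0)⁻¹) * X 0 - X 1 : A2) = pl Q * C (Q 0)⁻¹
        have h2 : (C (Q 0) * C (Q 0)⁻¹ : A2) = 1 := by
          rw [← map_mul, mul_inv_cancel₀ hj', C_1]
        unfold pl
        rw [map_mul]
        linear_combination X 1 * h2
    · have hj' : Q 1 ≠ 0 := hj
      fin_cases i
      · refine ⟨-C (Q 1)⁻¹, ?_⟩
        show (C (Q 0 * (Q 1)⁻¹) * X 1 - X 0 : A2) = pl Q * -C (Q 1)⁻¹
        have h2 : (C (Q 1) * C (Q 1)⁻¹ : A2) = 1 := by
          rw [← map_mul, mul_inv_cancel₀ hj', C_1]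
        unfold pl
        rw [map_mul]
        linear_combination X 0 * h2
      · refine ⟨0, ?_⟩
        show (C (Q 1 * (Q 1)⁻¹) * X 1 - X 1 : A2) = pl Q * 0
        rw [mul_inv_cancel₀ hj', C_1]
        ring
  have hall : ((Ideal.Quotient.mkₐ ℂ I).comp (ψ.comp (Bin_phi Q))) = Ideal.Quotient.mkₐ ℂ I := by
    refine MvPolynomial.algHom_ext fun i => ?_
    show Ideal.Quotient.mk I (ψ (Bin_phi Q (X i))) = Ideal.Quotient.mk I (X i)
    exact Ideal.Quotient.eq.2 (hgen i)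
  have h2 : Ideal.Quotient.mk I (ψ (Bin_phi Q a)) = Ideal.Quotient.mk I a :=
    DFunLike.congr_fun hall a
  rw [h, map_zero, map_zero] at h2
  rw [← Ideal.mem_span_singleton, ← hI]
  exact Ideal.Quotient.eq_zero_iff_mem.1 h2.symm

theorem pl_dvd {Q : Fin 2 → ℂ} (hQ : Q ≠ 0) {a : A2} {d : ℤ} (ha : HomZ a d)
    (h : eval Q a = 0) : pl Q ∣ a := by
  by_cases h0 : a = 0
  · rw [h0]
    exact dvd_zero _
  obtain ⟨m, -, hm⟩ := ha.exists_nat h0
  apply Bin_dvd_of_phi hQ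
  rw [Bin_phi_hom Q hm, h, map_zero, zero_mul]

theorem exists_root {a : A2} {d : ℤ} (ha : HomZ a d) (hd : 0 < d) :
    ∃ Q : Fin 2 → ℂ, Q ≠ 0 ∧ eval Q a = 0 := by
  have hne1 : ∀ s : ℂ, (![1, s] : Fin 2 → ℂ) ≠ 0 := fun s h => by
    have := congrFun h 0
    simp at this
  have hne2 : ∀ s : ℂ, (![s, 1] : Fin 2 → ℂ) ≠ 0 := fun s h => by
    have := congrFun h 1
    simp at this
  set r : Polynomial ℂ := aeval ![1, Polynomial.X] a with hr
  set p : Polynomial ℂ := aeval ![Polynomial.X, 1] a with hp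
  have hre : ∀ s : ℂ, r.eval s = eval ![1, s] a := by
    intro s
    have h1 : ((Polynomial.evalRingHom s).comp (aeval ![1, Polynomial.X] : A2 →ₐ[ℂ] _).toRingHom) =
        (eval ![1, s] : A2 →+* ℂ) := by
      refine MvPolynomial.ringHom_ext (fun c => ?_) fun i => ?_
      · simp
      · fin_cases i <;> simp
    exact DFunLike.congr_fun h1 a
  have hpe : ∀ s : ℂ, p.eval s = eval ![s, 1] a := by
    intro s
    have h1 : ((Polynomial.evalRingHom s).comp (aeval ![Polynomial.X, 1] : A2 →ₐ[ℂ] _).toRingHom) =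
        (eval ![s, 1] : A2 →+* ℂ) := by
      refine MvPolynomial.ringHom_ext (fun c => ?_) fun i => ?_
      · simp
      · fin_cases i <;> simp
    exact DFunLike.congr_fun h1 a
  by_cases hdeg : r.degree = 0
  · obtain ⟨c, hc⟩ : ∃ c, r = Polynomial.C c := ⟨_, Polynomial.eq_C_of_degree_eq_zero hdeg⟩
    have hpq : p = Polynomial.C c * Polynomial.X ^ d.toNat := by
      refine Polynomial.eq_of_infinite_eval_eq _ _ ?_
      refine Set.Infinite.mono (s := ({0} : Set ℂ)ᶜ) ?_ (Set.finite_singleton 0).infinite_compl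
      intro T hT
      have hT0 : T ≠ 0 := hT
      show p.eval T = _
      have h1 := ha.eval_smul hd.le T ![1, T⁻¹]
      have h2 : (fun i => T * (![1, T⁻¹] : Fin 2 → ℂ) i) = ![T, 1] := by
        funext i
        fin_cases i
        · simp
        · simp [hT0]
      rw [h2, ← hre, hc, Polynomial.eval_C] at h1
      rw [hpe, h1, Polynomial.eval_mul, Polynomial.eval_C, Polynomial.eval_pow,
        Polynomial.eval_X, mul_comm]
    refine ⟨![0, 1], hne2 0, ?_⟩
    have hn : d.toNat ≠ 0 := by omega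
    rw [← hpe, hpq, Polynomial.eval_mul, Polynomial.eval_pow, Polynomial.eval_X, zero_pow hn,
      mul_zero]
  · obtain ⟨s, hs⟩ := IsAlgClosed.exists_root r hdeg
    exact ⟨![1, s], hne1 s, by rw [← hre]; exact hs⟩

theorem exists_y {Q : Fin 2 → ℂ} (hQ : Q ≠ 0) : ∃ y : A2, HomZ y 1 ∧ eval Q y = 1 := by
  obtain ⟨j, hj⟩ : ∃ j, Q j ≠ 0 := by
    by_contra hn
    push Not at hn
    exact hQ (funext hn)
  refine ⟨C (Q j)⁻¹ * X j, ?_, ?_⟩
  · have := (homZ_C (n := 2) (Q j)⁻¹).mul (homZ_X j)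
    rwa [zero_add] at this
  · rw [map_mul, eval_C, eval_X, inv_mul_cancel₀ hj]

theorem bin_split {Q : Fin 2 → ℂ} (hQ : Q ≠ 0) {y : A2} (hy : HomZ y 1) (hyQ : eval Q y = 1)
    {a : A2} {d : ℤ} (ha : HomZ a d) :
    ∃ b : A2, HomZ b (d - 1) ∧ a = C (eval Q a) * y ^ d.toNat + pl Q * b := by
  rcases lt_or_ge d 0 with hd | hd
  · refine ⟨0, homZ_zero _, ?_⟩
    rw [ha.eq_zero hd]
    simp
  · have h1 : HomZ (a - C (eval Q a) * y ^ d.toNat) d := by
      refine ha.sub ?_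
      have h2 := (homZ_C (n := 2) (eval Q a)).mul (hy.pow d.toNat)
      rwa [zero_add, mul_one, Int.toNat_of_nonneg hd] at h2
    have h2 : eval Q (a - C (eval Q a) * y ^ d.toNat) = 0 := by
      rw [map_sub, map_mul, map_pow, hyQ, eval_C, one_pow, mul_one, sub_self]
    obtain ⟨b, hb⟩ := pl_dvd hQ h1 h2
    refine ⟨b, ?_, ?_⟩
    · rw [hb] at h1
      exact (pl_hom Q).cancel (pl_ne hQ) h1
    · rw [← hb]
      ring

theorem pl_prime {Q : Fin 2 → ℂ} (hQ : Q ≠ 0) : Prime (pl Q) := by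
  have hiff : ∀ a : A2, pl Q ∣ a → Bin_phi Q a = 0 := by
    rintro _ ⟨b, rfl⟩
    rw [map_mul, Bin_phi_pl, zero_mul]
  refine ⟨pl_ne hQ, fun hu => ?_, fun a b hab => ?_⟩
  · have h1 := hiff 1 (hu.dvd)
    rw [map_one] at h1
    exact one_ne_zero h1
  · have h1 := hiff _ hab
    rw [map_mul] at h1
    rcases mul_eq_zero.1 h1 with h2 | h2
    · exact Or.inl (Bin_dvd_of_phi hQ h2)
    · exact Or.inr (Bin_dvd_of_phi hQ h2)

theorem pl_not_dvd {Q : Fin 2 → ℂ} {y : A2} (hyQ : eval Q y = 1) : ¬ pl Q ∣ y := by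
  rintro ⟨b, rfl⟩
  rw [map_mul, eval_pl, zero_mul] at hyQ
  exact zero_ne_one hyQ

end Pool.Agent.DIX
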