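import Pool.Agent.DIX.MatN

/-!
# DIX: consequences for theta characteristics (`p` odd)

`p + 5 = 2 e0`; put `μ i = ε i - e0`: `∑ μ i = 0` and `N i j` has degree `μ i + μ j + 1`.

`net_of_no_sec`: if every section of degree `e0 - 1` is `0` modulo `D`, then all entries of `N` are
linear: `N` is a net of quadrics.
PROOF.  `exists_mat`.  If `ε i ≤ e0 - 1` then `X 1 ^ (e0 - 1 - ε i) * g i` is a section of degree
`e0 - 1` (`sec_mul`), not divisible by `D` (`D` is prime, `D` does not divide `X 1` (`emb_not_dvd`) nor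
`g i` (`ind_iff`)): contradiction.  So `ε i ≥ e0`, and `∑ (2 ε i - p - 5) = 0` gives `ε i = e0` for all
`i`.  So `HomZ (N i j) 1`: `N i j = ∑ k, C (coeff (single k 1) (N i j)) * X k`.

`two_of_two_sec`: if there are two sections `h1, h2` of degree `e0 - 1` which are linearly independent
over `ℂ` modulo `D`, then `N i i = N i j = N j j = 0` for two indices `i ≠ j`.
PROOF.  CLAIM: there are `i ≠ j` with `ε i, ε j ≤ e0 - 1` (then the entries have degree
`≤ 2 e0 - 2 - p - 4 = -1 < 0`).  By `gen`, `h1 = ∑ a_i g_i`, `h2 = ∑ b_i g_i` modulo `D` with `a_i, b_i`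
of degree `e0 - 1 - ε i`, zero if `ε i > e0 - 1`.  They are not both `0`, so there is an index `i` with
`ε i ≤ e0 - 1`.  If it is the only one: `h1 = a g_i`, `h2 = b g_i` with binary forms `a, b` of degree
`t = e0 - 1 - ε i ≥ 0`.  If `t = 0` they are constants and `b h1 - a h2 = 0`: contradiction to
independence (if `a = b = 0` too).  If `t ≥ 1`: `X 0 * g i` is a section of degree
`ε i + 1 ≤ e0 - 1`, so by `gen` (the other coefficients have degree
`ε i + 1 - ε j < 0`, as `ε j ≥ e0`) `D ∣ X 0 * g i - emb(c) * g i`, so `D ∣ X 0 - emb c`, which is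
impossible: `fs (X 0 - emb c) = Polynomial.X - C c` has degree 1 and `fs D` has degree 6.
The adjugate entries are forms: `homZ_adj`.
-/

set_option autoImplicit false

namespace Pool.Agent.DIX

open MvPolynomial Pool.Agent.PLN Matrix

variable {D q : S3} {p : ℤ} {r : ℕ} {J : Fin r → S3} {J2 : Fin r → Fin r → S3}

private theorem cons_lin {f : S3} (hf : HomZ f 1) :
    f = ∑ k : Fin 3, C (coeff (Finsupp.single k 1) f) * X k := by
  ext m
  rw [coeff_sum]
  simp_rw [coeff_C_mul, coeff_X]
  by_cases hm : ∃ k : Fin 3, m = Finsupp.single k 1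
  · obtain ⟨k, rfl⟩ := hm
    rw [Finset.sum_eq_single k]
    · rw [if_pos rfl, mul_one]
    · intro b _ hb
      rw [if_neg, mul_zero]
      intro h
      exact hb (Finsupp.single_left_injective one_ne_zero h)
    · intro h
      exact absurd (Finset.mem_univ _) h
  · have h0 : coeff m f = 0 := by
      by_contra h
      have h1 := hf m h
      apply hm
      have h2 : ∑ i, m i = 1 := by exact_mod_cast h1
      have h3 : ∃ k, m k ≠ 0 := by
        by_contra hc
        push Not at hc
        rw [Finset.sum_eq_zero (fun i _ => hc i)] at h2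
        exact absurd h2 (by norm_num)
      obtain ⟨k, hk⟩ := h3
      refine ⟨k, ?_⟩
      have h4 : m k + ∑ i ∈ Finset.univ.erase k, m i = 1 := by
        rw [Finset.add_sum_erase _ _ (Finset.mem_univ k)]
        exact h2
      have h5 : m k = 1 := by omega
      have h6 : ∑ i ∈ Finset.univ.erase k, m i = 0 := by omega
      ext l
      by_cases hl : l = k
      · subst hl
        rw [h5, Finsupp.single_eq_same]
      · rw [Finsupp.single_eq_of_ne hl]
        exact Finset.sum_eq_zero_iff.1 h6 l (Finset.mem_erase.2 ⟨hl, Finset.mem_univ _⟩)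
    rw [h0]
    symm
    refine Finset.sum_eq_zero (fun k _ => ?_)
    rw [if_neg, mul_zero]
    intro h
    exact hm ⟨k, h.symm⟩

private theorem cons_ndvd (h : Dat D q p J J2) {g : Fin 6 → S3}
    (hdet : (Matrix.of fun i j => crd D (g i) j).det ≠ 0) (i : Fin 6) : ¬ D ∣ g i := by
  intro hd
  have h1 := (ind_iff h.cur g).1 hdet (Pi.single i 1) ?_
  · have h2 := congrFun h1 i
    rw [Pi.single_eq_same, Pi.zero_apply] at h2
    exact one_ne_zero h2
  · have h3 : ∑ j, emb ((Pi.single i 1 : Fin 6 → A2) j) * g j = g i := by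
      rw [Finset.sum_eq_single i]
      · rw [Pi.single_eq_same, map_one, one_mul]
      · intro b _ hb
        rw [Pi.single_eq_of_ne hb, map_zero, zero_mul]
      · intro hh
        exact absurd (Finset.mem_univ _) hh
    rw [h3]
    exact hd

theorem net_of_no_sec (h : Dat D q p J J2) {e0 : ℤ} (hp : p + 5 = 2 * e0)
    (hno : ∀ w : S3, Sec D q J w (e0 - 1) → D ∣ w) :
    ∃ (N : Fin 3 → Matrix (Fin 6) (Fin 6) ℂ) (c : ℂ) (w : Fin 6 → S3),
      (∀ k, (N k).IsSymm) ∧ c ≠ 0 ∧ (net N).det = C c * D ∧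
      (∀ i, D ∣ w i ^ 2 - C c * (q * (net N).adjugate i i)) ∧ ∀ i, ¬ D ∣ w i := by
  obtain ⟨ε, g, hB⟩ := exists_bas h
  obtain ⟨N, c, w, hsym, hc, hdet, hdeg, hw, hnw, hsum⟩ := exists_mat hB
  have hge : ∀ i, e0 ≤ ε i := by
    intro i
    by_contra hlt
    push Not at hlt
    obtain ⟨n, hn⟩ : ∃ n : ℕ, e0 - 1 - ε i = (n : ℤ) := Int.eq_ofNat_of_zero_le (by omega)
    have hX : HomZ (emb (X 0 ^ n)) (n : ℤ) := by
      rw [homZ_emb]
      have := (homZ_X (n := 2) 0).pow n
      rwa [mul_one] at this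
    have h1 := sec_mul hX (hB.sec i)
    rw [show (n : ℤ) + ε i = e0 - 1 by omega] at h1
    rcases h.prime.dvd_or_dvd (hno _ h1) with h2 | h2
    · exact emb_not_dvd h.cur (pow_ne_zero n (X_ne_zero 0)) h2
    · exact cons_ndvd h hB.ind i h2
  have heq : ∀ i, ε i = e0 := by
    have h1 : ∀ i ∈ Finset.univ, 0 ≤ 2 * ε i - p - 5 := by
      intro i _
      have := hge i
      omega
    intro i
    have h2 := (Finset.sum_eq_zero_iff_of_nonneg h1).1 hsum i (Finset.mem_univ _)
    omega
  have hN1 : ∀ i j, HomZ (N i j) 1 := by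
    intro i j
    have h1 := hdeg i j
    rw [heq i, heq j, show e0 + e0 - p - 4 = 1 by omega] at h1
    exact h1
  have hnet : net (fun k => Matrix.of fun i j => coeff (Finsupp.single k 1) (N i j)) = N := by
    ext1 i j
    exact (cons_lin (hN1 i j)).symm
  refine ⟨fun k => Matrix.of fun i j => coeff (Finsupp.single k 1) (N i j), c, w, ?_, hc, ?_, ?_,
    hnw⟩
  · intro k
    ext i j
    simp only [Matrix.transpose_apply, Matrix.of_apply]
    rw [hsym.apply i j]
  · rw [hnet]
    exact hdet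
  · rw [hnet]
    exact hw

theorem two_of_two_sec (h : Dat D q p J J2) {e0 : ℤ} (hp : p + 5 = 2 * e0) {h1 h2 : S3}
    (hs1 : Sec D q J h1 (e0 - 1)) (hs2 : Sec D q J h2 (e0 - 1))
    (hind : ∀ c1 c2 : ℂ, D ∣ C c1 * h1 + C c2 * h2 → c1 = 0 ∧ c2 = 0) :
    ∃ (N : Matrix (Fin 6) (Fin 6) S3) (c : ℂ) (w : Fin 6 → S3) (i j : Fin 6), i ≠ j ∧
      N i i = 0 ∧ N i j = 0 ∧ N j j = 0 ∧ N.IsSymm ∧ c ≠ 0 ∧ N.det = C c * D ∧
      (∀ l, ∃ m : ℕ, (N.adjugate l l).IsHomogeneous m) ∧
      (∀ l, D ∣ w l ^ 2 - C c * (q * N.adjugate l l)) ∧ ∀ l, ¬ D ∣ w l := by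
  obtain ⟨ε, g, hB⟩ := exists_bas h
  obtain ⟨N, c, w, hsym, hc, hdet, hdeg, hw, hnw, hsum⟩ := exists_mat hB
  have hnd1 : ¬ D ∣ h1 := by
    intro hd
    have := (hind 1 0 (by rw [C_1, C_0, one_mul, zero_mul, add_zero]; exact hd)).1
    exact one_ne_zero this
  have hclaim : ∃ i j : Fin 6, i ≠ j ∧ ε i ≤ e0 - 1 ∧ ε j ≤ e0 - 1 := by
    by_contra hcon
    push Not at hcon
    obtain ⟨a, ha, hda⟩ := hB.gen h1 _ hs1
    obtain ⟨b, hb, hdb⟩ := hB.gen h2 _ hs2
    by_cases hex : ∃ i, ε i ≤ e0 - 1
    · obtain ⟨i, hi⟩ := hex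
      have hbig : ∀ j, j ≠ i → e0 ≤ ε j := by
        intro j hj
        have := hcon i j (Ne.symm hj) hi
        omega
      have hsumone : ∀ (a : Fin 6 → A2) (e : ℤ), e ≤ e0 - 1 → (∀ j, HomZ (a j) (e - ε j)) →
          ∑ j, emb (a j) * g j = emb (a i) * g i := by
        intro a e he ha
        rw [Finset.sum_eq_single i]
        · intro j _ hj
          have h3 := hbig j hj
          rw [(ha j).eq_zero (by omega), map_zero, zero_mul]
        · intro hh
          exact absurd (Finset.mem_univ _) hh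
      rw [hsumone a _ le_rfl ha] at hda
      rw [hsumone b _ le_rfl hb] at hdb
      by_cases ht : ε i = e0 - 1
      · have ha0 := ha i
        have hb0 := hb i
        rw [ht, sub_self] at ha0 hb0
        obtain ⟨α, hα⟩ := ha0.const
        obtain ⟨β, hβ⟩ := hb0.const
        rw [hα] at hda
        rw [hβ] at hdb
        have hC : ∀ x : ℂ, emb (C x) = C x := fun x => by
          unfold emb
          exact rename_C _ _
        rw [hC] at hda hdb
        have h3 : D ∣ C β * h1 + C (-α) * h2 := by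
          have h4 := dvd_sub (hda.mul_left (C β)) (hdb.mul_left (C α))
          have h5 : C β * (h1 - C α * g i) - C α * (h2 - C β * g i) =
              C β * h1 + C (-α) * h2 := by
            rw [C_neg]
            ring
          rwa [h5] at h4
        have h6 := hind _ _ h3
        have hα0 : α = 0 := by
          have := h6.2
          exact neg_eq_zero.1 this
        rw [hα0, C_0, zero_mul, sub_zero] at hda
        exact hnd1 hda
      · have hXs := sec_mul (homZ_X (n := 3) 0) (hB.sec i)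
        obtain ⟨d, hd, hdd⟩ := hB.gen _ _ hXs
        rw [hsumone d _ (by omega) hd] at hdd
        have h3 : D ∣ (X 0 - emb (d i)) * g i := by
          rw [sub_mul]
          exact hdd
        rcases h.prime.dvd_or_dvd h3 with h4 | h4
        · have h5 : fs D ∣ fs (X 0 - emb (d i)) := map_dvd fs h4
          rw [map_sub, fs_X0, fs_emb] at h5
          have h6 := Polynomial.natDegree_le_of_dvd h5 (Polynomial.X_sub_C_ne_zero _)
          rw [h.cur.deg, Polynomial.natDegree_X_sub_C] at h6
          omega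
        · exact cons_ndvd h hB.ind i h4
    · push Not at hex
      have h3 : ∑ j, emb (a j) * g j = 0 := by
        refine Finset.sum_eq_zero (fun j _ => ?_)
        have h4 := hex j
        rw [(ha j).eq_zero (by omega), map_zero, zero_mul]
      rw [h3, sub_zero] at hda
      exact hnd1 hda
  obtain ⟨i, j, hij, hi, hj⟩ := hclaim
  refine ⟨N, c, w, i, j, hij, (hdeg i i).eq_zero (by omega), (hdeg i j).eq_zero (by omega),
    (hdeg j j).eq_zero (by omega), hsym, hc, hdet, ?_, hw, hnw⟩
  intro l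
  have h3 : ∀ i j, HomZ (N i j) (ε i + (ε j - p - 4)) := by
    intro i j
    have := hdeg i j
    rwa [show ε i + (ε j - p - 4) = ε i + ε j - p - 4 by ring]
  have h4 := homZ_adj (u := ε) (v := fun j => ε j - p - 4) h3 l l
  by_cases h0 : N.adjugate l l = 0
  · exact ⟨0, by rw [h0]; exact isHomogeneous_zero _ _ _⟩
  · obtain ⟨m, _, hm⟩ := h4.exists_nat h0
    exact ⟨m, hm⟩

end Pool.Agent.DIX
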