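import Pool.Agent.DIX.EvenM

/-!
# DIX: linear changes of coordinates

`lc A f = f(A x)`.  `exists_cur`: after an invertible linear change and a multiplication by a
constant, a smooth sextic is monic in `x0`.
-/

set_option autoImplicit false

namespace Pool.Agent.DIX

open MvPolynomial Pool.Agent.PLN Matrix

/-- The substitution `x ↦ A x`. -/
noncomputable def lc (A : Matrix (Fin 3) (Fin 3) ℂ) : S3 →ₐ[ℂ] S3 :=
  aeval fun i => ∑ j, C (A i j) * X j

theorem lc_X (A : Matrix (Fin 3) (Fin 3) ℂ) (i : Fin 3) :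
    lc A (X i) = ∑ j, C (A i j) * X j := by
  rw [lc, aeval_X]

theorem lc_C (A : Matrix (Fin 3) (Fin 3) ℂ) (a : ℂ) : lc A (C a) = C a := by
  rw [lc, aeval_C, algebraMap_eq]

theorem lc_eval (A : Matrix (Fin 3) (Fin 3) ℂ) (s : Fin 3 → ℂ) (f : S3) :
    eval s (lc A f) = eval (A *ᵥ s) f := by
  induction f using MvPolynomial.induction_on with
  | C a => rw [lc_C, eval_C, eval_C]
  | add p q hp hq => rw [map_add, map_add, map_add, hp, hq]
  | mul_X p i hp =>
    rw [map_mul, map_mul, map_mul, hp, lc_X, eval_X]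
    have h : eval s (∑ j, C (A i j) * X j : S3) = (A *ᵥ s) i := by
      rw [map_sum]
      show _ = ∑ j, A i j * s j
      exact Finset.sum_congr rfl fun j _ => by rw [map_mul, eval_C, eval_X]
    rw [h]

theorem lc_lc (A B : Matrix (Fin 3) (Fin 3) ℂ) (f : S3) : lc A (lc B f) = lc (B * A) f := by
  induction f using MvPolynomial.induction_on with
  | C a => rw [lc_C, lc_C, lc_C]
  | add p q hp hq => rw [map_add, map_add, map_add, hp, hq]
  | mul_X p i hp =>
    rw [map_mul, map_mul, map_mul, hp]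
    have h : lc A (lc B (X i)) = lc (B * A) (X i) := by
      simp only [lc_X, map_sum, map_mul, lc_C, Matrix.mul_apply, Finset.mul_sum, Finset.sum_mul]
      rw [Finset.sum_comm]
      refine Finset.sum_congr rfl fun k _ => Finset.sum_congr rfl fun j _ => ?_
      ring
    rw [h]

theorem lc_one (f : S3) : lc 1 f = f := by
  have h : lc 1 = AlgHom.id ℂ S3 := by
    apply MvPolynomial.algHom_ext
    intro i
    rw [lc_X]
    simp [Matrix.one_apply]
  rw [h]
  rfl

theorem lc_inv {A B : Matrix (Fin 3) (Fin 3) ℂ} (h : B * A = 1) (f : S3) :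
    lc A (lc B f) = f := by
  rw [lc_lc, h, lc_one]

theorem lc_hom (A : Matrix (Fin 3) (Fin 3) ℂ) {f : S3} {n : ℕ} (hf : f.IsHomogeneous n) :
    (lc A f).IsHomogeneous n := by
  have h := hf.aeval (fun i => ∑ j, C (A i j) * X j) (n := 1) fun i =>
    IsHomogeneous.sum _ _ _ fun j _ => isHomogeneous_C_mul_X _ _
  rwa [one_mul] at h

theorem lc_pderiv (A : Matrix (Fin 3) (Fin 3) ℂ) (k : Fin 3) (f : S3) :
    pderiv k (lc A f) = ∑ i, C (A i k) * lc A (pderiv i f) := by
  induction f using MvPolynomial.induction_on with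
  | C a =>
    rw [lc_C, pderiv_C]
    symm
    refine Finset.sum_eq_zero fun i _ => ?_
    rw [pderiv_C, map_zero, mul_zero]
  | add p q hp hq =>
    rw [map_add, map_add, hp, hq, ← Finset.sum_add_distrib]
    refine Finset.sum_congr rfl fun i _ => ?_
    rw [map_add, map_add]
    ring
  | mul_X p i hp =>
    rw [map_mul, pderiv_mul, hp, lc_X]
    have h1 : pderiv k (∑ j, C (A i j) * X j : S3) = C (A i k) := by
      rw [map_sum]
      have h3 : ∀ j, pderiv k (C (A i j) * X j : S3) = if j = k then C (A i j) else 0 := by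
        intro j
        rw [pderiv_C_mul, pderiv_X]
        by_cases hjk : j = k
        · subst hjk
          rw [Pi.single_eq_same, if_pos rfl, mul_one]
        · rw [Pi.single_eq_of_ne hjk, if_neg hjk, mul_zero]
      rw [Finset.sum_congr rfl fun j _ => h3 j, Finset.sum_ite_eq' Finset.univ k]
      rw [if_pos (Finset.mem_univ _)]
    rw [h1, Finset.sum_mul]
    have h2 : ∀ l, C (A l k) * lc A (pderiv l (p * X i)) =
        C (A l k) * lc A (pderiv l p) * (∑ j, C (A i j) * X j) +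
        (if l = i then lc A p * C (A l k) else 0) := by
      intro l
      rw [pderiv_mul, map_add, map_mul, map_mul, lc_X, pderiv_X]
      by_cases h : l = i
      · subst h
        rw [Pi.single_eq_same, map_one, if_pos rfl]
        ring
      · rw [Pi.single_eq_of_ne (fun h4 => h h4.symm), map_zero, if_neg h]
        ring
    rw [Finset.sum_congr rfl fun l _ => h2 l, Finset.sum_add_distrib,
      Finset.sum_ite_eq' Finset.univ i, if_pos (Finset.mem_univ _)]

theorem lc_dvd {A B : Matrix (Fin 3) (Fin 3) ℂ} (h : B * A = 1) {f g : S3}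
    (hd : lc B f ∣ lc B g) : f ∣ g := by
  have h1 := map_dvd (lc A) hd
  rwa [lc_inv h, lc_inv h] at h1

theorem lc_dvd' (A : Matrix (Fin 3) (Fin 3) ℂ) {f g : S3} (hd : f ∣ g) : lc A f ∣ lc A g :=
  map_dvd (lc A) hd

theorem smooth_lc {A B : Matrix (Fin 3) (Fin 3) ℂ} (hAB : A * B = 1) (hBA : B * A = 1) {D : S3}
    (hS : SmoothCurve D) : SmoothCurve (lc A D) := by
  intro s hs h0
  rw [lc_eval] at h0
  have hAs : A *ᵥ s ≠ 0 := by
    intro h
    apply hs
    have h1 := congrArg (fun v => B *ᵥ v) h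
    simpa [Matrix.mulVec_mulVec, hBA] using h1
  by_contra hcon
  push Not at hcon
  obtain ⟨i, hi⟩ := hS _ hAs h0
  apply hi
  have h2 : ∀ k, ∑ i, A i k * eval (A *ᵥ s) (pderiv i D) = 0 := by
    intro k
    have := hcon k
    rw [lc_pderiv, map_sum] at this
    simpa only [map_mul, eval_C, lc_eval] using this
  have h3 : (fun i => eval (A *ᵥ s) (pderiv i D)) ᵥ* A = 0 := by
    funext k
    rw [Matrix.vecMul, dotProduct, Pi.zero_apply, ← h2 k]
    exact Finset.sum_congr rfl fun i _ => mul_comm _ _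
  have h4 := congrArg (fun v => v ᵥ* B) h3
  simp only [Matrix.vecMul_vecMul, hAB, Matrix.vecMul_one, Matrix.zero_vecMul] at h4
  exact congrFun h4 i

theorem locEven_lc {A B : Matrix (Fin 3) (Fin 3) ℂ} (hBA : B * A = 1) {D q : S3}
    (h : LocEven D q) : LocEven (lc A D) (lc A q) := by
  intro s hs h0
  rw [lc_eval] at h0
  have hAs : A *ᵥ s ≠ 0 := by
    intro h
    apply hs
    have h1 := congrArg (fun v => B *ᵥ v) h
    simpa [Matrix.mulVec_mulVec, hBA] using h1
  obtain ⟨g, k, m, n, hg, hk, hd, hne⟩ := h _ hAs h0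
  refine ⟨lc A g, lc A k, m, n, lc_hom A hg, lc_hom A hk, ?_, ?_⟩
  · rw [← map_pow, ← map_mul, ← map_sub]
    exact lc_dvd' A hd
  · rwa [lc_eval]

theorem locEven_C {D q : S3} {c : ℂ} (hc : c ≠ 0) (h : LocEven D q) : LocEven (C c * D) q := by
  intro s hs h0
  rw [map_mul, eval_C] at h0
  obtain ⟨g, k, m, n, hg, hk, ⟨w, hw⟩, hne⟩ := h s hs ((mul_eq_zero.1 h0).resolve_left hc)
  refine ⟨g, k, m, n, hg, hk, ⟨C c⁻¹ * w, ?_⟩, hne⟩
  rw [hw]
  have e : (C c * C c⁻¹ : S3) = 1 := by rw [← C_mul, mul_inv_cancel₀ hc, C_1]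
  linear_combination -D * w * e

theorem C_dvd_iff {D f : S3} {c : ℂ} (hc : c ≠ 0) : C c * D ∣ f ↔ D ∣ f := by
  have hu : IsUnit (C c : S3) := (isUnit_iff_ne_zero.2 hc).map C
  exact hu.mul_left_dvd

theorem smooth_C {D : S3} {c : ℂ} (hc : c ≠ 0) (h : SmoothCurve D) : SmoothCurve (C c * D) := by
  intro s hs h0
  rw [map_mul, eval_C] at h0
  obtain ⟨k, hk⟩ := h s hs ((mul_eq_zero.1 h0).resolve_left hc)
  refine ⟨k, ?_⟩
  rw [pderiv_C_mul, map_mul, eval_C]
  exact mul_ne_zero hc hk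

/-- Every nonzero vector is the first column of an invertible matrix. -/
theorem exists_col {v : Fin 3 → ℂ} (hv : v ≠ 0) :
    ∃ A B : Matrix (Fin 3) (Fin 3) ℂ, A * B = 1 ∧ B * A = 1 ∧ A *ᵥ (Pi.single 0 1) = v := by
  obtain ⟨j, hj⟩ : ∃ j, v j ≠ 0 := by
    by_contra h
    push Not at h
    exact hv (funext h)
  let A₀ : Matrix (Fin 3) (Fin 3) ℂ := (1 : Matrix (Fin 3) (Fin 3) ℂ).updateCol j v
  let A : Matrix (Fin 3) (Fin 3) ℂ := A₀.submatrix id (Equiv.swap 0 j)
  have hdet : A.det ≠ 0 := by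
    have h1 : A.det = (Equiv.Perm.sign (Equiv.swap 0 j) : ℤ) * A₀.det :=
      Matrix.det_permute' _ _
    have h2 : A₀.det = v j := by
      show ((1 : Matrix (Fin 3) (Fin 3) ℂ).updateCol j v).det = v j
      rw [← cramer_apply, cramer_one]
      rfl
    rw [h1, h2]
    refine mul_ne_zero ?_ hj
    rcases Int.units_eq_one_or (Equiv.Perm.sign (Equiv.swap 0 j)) with h3 | h3 <;>
      rw [h3] <;> norm_num
  have hu : IsUnit A.det := isUnit_iff_ne_zero.2 hdet
  refine ⟨A, A⁻¹, Matrix.mul_nonsing_inv A hu, Matrix.nonsing_inv_mul A hu, ?_⟩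
  funext i
  rw [Matrix.mulVec_single_one]
  simp [A, A₀]

theorem exists_ne {D : S3} (h0 : D ≠ 0) : ∃ v : Fin 3 → ℂ, eval v D ≠ 0 := by
  by_contra h
  push Not at h
  exact h0 (MvPolynomial.funext fun v => by rw [h v, map_zero])

theorem cur_of {G : S3} (hG : G.IsHomogeneous 6) (h1 : eval (Pi.single 0 1 : Fin 3 → ℂ) G = 1)
    (hS : SmoothCurve G) : Cur G := by
  have hne : G ≠ 0 := smooth_ne hS
  have hle : (fs G).natDegree ≤ 6 := by
    unfold fs
    rw [natDegree_finSuccEquiv]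
    exact (degreeOf_le_totalDegree _ _).trans hG.totalDegree_le
  have hc6 : (fs G).coeff 6 = 1 := by
    have h2 : (Pi.single 0 1 : Fin 3 → ℂ) = Fin.cons 1 (0 : Fin 2 → ℂ) := by
      funext i
      refine Fin.cases ?_ (fun j => ?_) i
      · simp
      · simp
    have h3 : ∀ i j, i + j = 6 → ((fs G).coeff i).IsHomogeneous j := fun i j hij =>
      hG.finSuccEquiv_coeff_isHomogeneous i j hij
    have h4 : (Polynomial.map (eval (0 : Fin 2 → ℂ)) (fs G)).natDegree < 7 :=
      lt_of_le_of_lt Polynomial.natDegree_map_le (by omega)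
    rw [h2, eval_eq_eval_mv_eval'] at h1
    have h5 : Polynomial.eval 1 (Polynomial.map (eval (0 : Fin 2 → ℂ)) (fs G)) = 1 := h1
    rw [Polynomial.eval_eq_sum_range' h4] at h5
    have h6 : ∀ i ∈ Finset.range 6, (Polynomial.map (eval (0 : Fin 2 → ℂ)) (fs G)).coeff i *
        (1 : ℂ) ^ i = 0 := by
      intro i hi
      rw [Finset.mem_range] at hi
      rw [Polynomial.coeff_map, one_pow, mul_one]
      rw [eval_zero, constantCoeff_eq]
      refine (h3 i (6 - i) (by omega)).coeff_eq_zero ?_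
      rw [map_zero]
      omega
    rw [Finset.sum_range_succ, Finset.sum_eq_zero h6, zero_add, one_pow, mul_one,
      Polynomial.coeff_map] at h5
    have h8 := h3 6 0 (by norm_num)
    have h9 : (fs G).coeff 6 = C (coeff 0 ((fs G).coeff 6)) :=
      totalDegree_eq_zero_iff_eq_C.1 (Nat.le_zero.1 h8.totalDegree_le)
    rw [h9, eval_C] at h5
    rw [h9, h5, C_1]
  have hdeg : (fs G).natDegree = 6 := le_antisymm hle
    (Polynomial.le_natDegree_of_ne_zero (by rw [hc6]; exact one_ne_zero))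
  exact ⟨hG, by rw [Polynomial.Monic, Polynomial.leadingCoeff, hdeg, hc6], hdeg,
    smooth_irr hG (by norm_num) hne hS, hS⟩

/-- After a linear change and a multiplication by a constant, `D` is monic in `x0`. -/
theorem exists_cur {D : S3} (hD : D.IsHomogeneous 6) (hS : SmoothCurve D) :
    ∃ (A B : Matrix (Fin 3) (Fin 3) ℂ) (c : ℂ), A * B = 1 ∧ B * A = 1 ∧ c ≠ 0 ∧
      Cur (C c * lc A D) := by
  obtain ⟨v, hv⟩ := exists_ne (smooth_ne hS)
  have hv0 : v ≠ 0 := by
    rintro rfl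
    rw [eval_zero, constantCoeff_eq] at hv
    exact hv (hD.coeff_eq_zero (by rw [map_zero]; norm_num))
  obtain ⟨A, B, hAB, hBA, hAv⟩ := exists_col hv0
  have hc : (eval v D)⁻¹ ≠ 0 := inv_ne_zero hv
  refine ⟨A, B, (eval v D)⁻¹, hAB, hBA, hc, cur_of ?_ ?_ (smooth_C hc (smooth_lc hAB hBA hS))⟩
  · have := (isHomogeneous_C (Fin 3) (eval v D)⁻¹).mul (lc_hom A hD)
    rwa [zero_add] at this
  · rw [map_mul, eval_C, lc_eval, hAv, inv_mul_cancel₀ hv]

theorem lc_map_det {n : Type} [Fintype n] [DecidableEq n] (B : Matrix (Fin 3) (Fin 3) ℂ)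
    (N : Matrix n n S3) : (N.map (lc B)).det = lc B N.det := by
  have := RingHom.map_det (lc B : S3 →+* S3) N
  exact this.symm

theorem lc_map_adj {n : Type} [Fintype n] [DecidableEq n] (B : Matrix (Fin 3) (Fin 3) ℂ)
    (N : Matrix n n S3) (i j : n) : (N.map (lc B)).adjugate i j = lc B (N.adjugate i j) := by
  have h := RingHom.map_adjugate (lc B : S3 →+* S3) N
  have h1 := congrFun (congrFun h i) j
  exact h1.symm

theorem lc_net {n : Type} (B : Matrix (Fin 3) (Fin 3) ℂ) (N : Fin 3 → Matrix n n ℂ) :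
    (net N).map (lc B) = net (fun j => ∑ k, B k j • N k) := by
  ext1 i j
  rw [Matrix.map_apply]
  simp only [net, map_sum, map_mul, lc_C, lc_X, Matrix.sum_apply, Matrix.smul_apply, smul_eq_mul]
  simp only [Finset.mul_sum, Finset.sum_mul]
  rw [Finset.sum_comm]
  refine Finset.sum_congr rfl fun k _ => Finset.sum_congr rfl fun l _ => ?_
  ring

/-- A square root of a multiple of `f` modulo `D`. -/
theorem sqMod_of {D f w : S3} {c : ℂ} (hc : c ≠ 0) (hD : Prime D) (hw : ¬ D ∣ w)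
    (h : D ∣ w ^ 2 - C c * f) : SqMod D f := by
  obtain ⟨b, hb⟩ : ∃ b : ℂ, b ^ 2 = c⁻¹ := IsAlgClosed.exists_pow_nat_eq _ (by norm_num)
  have hcc : (C c⁻¹ * C c : S3) = 1 := by rw [← C_mul, inv_mul_cancel₀ hc, C_1]
  refine ⟨C b * w, 1, 0, isHomogeneous_one _ _, ?_, ?_, ?_⟩
  · exact fun h1 => hD.not_isUnit (isUnit_of_dvd_one h1)
  · intro h1
    apply hw
    obtain ⟨u, hu⟩ := h
    obtain ⟨t, ht⟩ := h1
    exact hD.dvd_of_dvd_pow (n := 2) ⟨u + C c * t, by linear_combination hu + C c * ht⟩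
  · obtain ⟨u, hu⟩ := h
    refine ⟨-C c⁻¹ * u, ?_⟩
    rw [mul_pow, ← map_pow, hb]
    linear_combination -C c⁻¹ * hu - f * hcc

end Pool.Agent.DIX
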