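import Pool.Agent.PLN.Defs

/-!
# DIX: symmetric determinantal representations of smooth plane sextics: definitions

`S3 = ℂ[x0, x1, x2]`, `A2 = ℂ[x1, x2]` (as polynomials in `Fin 2`), `emb : A2 → S3` the inclusion,
`fs : S3 ≃ A2[x0]`.

`HomZ k d`: all monomials of `k` have degree `d` (an integer; `k = 0` if `d < 0`).

`Cur D`: `D` is a form of degree 6, monic in `x0`, irreducible, and the curve `D = 0` is smooth.

`crd D k`: the coefficients of the remainder of `k` modulo `D`; `lam D k`: the coefficient of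
`x0 ^ 5`.

`Dat D q p J J2`: `q` is a form of degree `p`; `J k * J l = q * J2 k l` modulo `D`; the `J2 k l` have no
common zero on the curve (so the divisor of `q` is even).  `Sec D q J g e`: `g` is a form of degree `e`
with `g * J k` divisible by `q` modulo `D` for all `k` (a section of the theta characteristic of `q`).
-/

set_option autoImplicit false

namespace Pool.Agent.DIX

open MvPolynomial Pool.Agent.PLN

/-- Polynomials in `x1, x2`. -/
abbrev A2 : Type := MvPolynomial (Fin 2) ℂ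

/-- The inclusion of `ℂ[x1, x2]` in `ℂ[x0, x1, x2]`. -/
noncomputable def emb : A2 →ₐ[ℂ] S3 := rename Fin.succ

/-- Polynomials in three variables as polynomials in `x0`. -/
noncomputable def fs : S3 ≃ₐ[ℂ] Polynomial A2 := finSuccEquiv ℂ 2

/-- All monomials of `k` have degree `d`. -/
def HomZ {n : ℕ} (k : MvPolynomial (Fin n) ℂ) (d : ℤ) : Prop :=
  ∀ c : Fin n →₀ ℕ, coeff c k ≠ 0 → ((∑ i, c i : ℕ) : ℤ) = d

/-- A smooth sextic curve, `D` is monic in `x0`. -/
structure Cur (D : S3) : Prop where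
  hom : D.IsHomogeneous 6
  monic : (fs D).Monic
  deg : (fs D).natDegree = 6
  irr : Irreducible D
  smooth : SmoothCurve D

/-- The coefficients of the remainder modulo `D`. -/
noncomputable def crd (D k : S3) : Fin 6 → A2 := fun i => (fs k %ₘ fs D).coeff i

/-- The coefficient of `x0 ^ 5` of the remainder modulo `D`. -/
noncomputable def lam (D k : S3) : A2 := crd D k 5

/-- A smooth sextic `D`, a form `q` of degree `p`, forms `J k` whose products are divisible by `q`
modulo `D`, such that the quotients have no common zero on the curve. -/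
structure Dat (D q : S3) (p : ℤ) {r : ℕ} (J : Fin r → S3) (J2 : Fin r → Fin r → S3) : Prop where
  cur : Cur D
  hom : HomZ q p
  ndvd : ¬ D ∣ q
  jhom : ∀ k, ∃ d : ℤ, HomZ (J k) d
  jj : ∀ k l, D ∣ J k * J l - q * J2 k l
  nz : ∀ s : Fin 3 → ℂ, s ≠ 0 → eval s D = 0 → ∃ k l, eval s (J2 k l) ≠ 0

/-- `g` is a section of degree `e`: a form such that all `g * J k` are divisible by `q` modulo
`D`. -/
def Sec (D q : S3) {r : ℕ} (J : Fin r → S3) (g : S3) (e : ℤ) : Prop :=
  HomZ g e ∧ ∀ k, ∃ h, D ∣ g * J k - q * h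

/-- The linear form which vanishes at the point `Q`. -/
noncomputable def pl (Q : Fin 2 → ℂ) : A2 := C (Q 1) * X 0 - C (Q 0) * X 1

/-- `g` is a basis over `ℂ[x1, x2]` of the module of sections. -/
structure Bas (D q : S3) (p : ℤ) {r : ℕ} (J : Fin r → S3) (J2 : Fin r → Fin r → S3)
    (ε : Fin 6 → ℤ) (g : Fin 6 → S3) : Prop where
  dat : Dat D q p J J2
  sec : ∀ i, Sec D q J (g i) (ε i)
  ind : (Matrix.of fun i j => crd D (g i) j).det ≠ 0
  star : ∀ (Q : Fin 2 → ℂ), Q ≠ 0 → ∀ y : A2, HomZ y 1 → eval Q y = 1 →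
    ∀ (κ : Fin 6 → ℂ) (m : ℤ), (∀ i, κ i ≠ 0 → ε i ≤ m) →
      (∃ g' : S3, Sec D q J g' (m - 1) ∧
        D ∣ ∑ i, C (κ i) * emb y ^ (m - ε i).toNat * g i - emb (pl Q) * g') → κ = 0
  gen : ∀ (h : S3) (e : ℤ), Sec D q J h e →
    ∃ a : Fin 6 → A2, (∀ i, HomZ (a i) (e - ε i)) ∧ D ∣ h - ∑ i, emb (a i) * g i

end Pool.Agent.DIX
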