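import Mathlib

/-!
# DIX: a form with a totally isotropic plane

`K` is a field, `2 ≠ 0`; `N` (size 6) and `M` (size 4) are symmetric with nonzero determinants; `W` is
a totally isotropic subspace of dimension 5 of `K ^ (Fin 6 ⊕ Fin 4)` for `fromBlocks N 0 0 (-M)`;
`N i i = N i j = N j j = 0` for two indices `i ≠ j`.  Then `M` is isotropic.
PROOF.  Let `Φ` be the form on `V = K^6 × K^4` (dimension 10, nondegenerate), `T` the span of the two
basis vectors `e_i, e_j` of `K^6`, totally isotropic of dimension 2.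
`W ∩ T^⊥` has dimension `≥ 5 - 2 = 3` (`T^⊥` is the kernel of two linear functionals).
Consider `U = W ∩ (T^⊥)` and the map `U + T → V`: put `L = U + T`.  `L` is totally isotropic (`U ≤ W`,
`T` totally isotropic, `U ⊥ T`), and contains `T`.  Its dimension is 5: `≤ 5` because it is totally
isotropic in a nondegenerate space of dimension 10; and
`dim L = dim U + 2 - dim (U ∩ T)`, where `U ∩ T = W ∩ T` (`T ≤ T^⊥`); `dim U = 5 - (2 - dim (W ∩ T))`
because the functionals `Φ(e_i, ·)`, `Φ(e_j, ·)` restricted to `W` have rank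
`2 - dim (T ∩ W^⊥) = 2 - dim (T ∩ W)` (`W^⊥ = W`).  [If one wants to avoid the exact dimension: it is
enough that `dim L ≥ 5`.]  Now look for `(n, y) ∈ L` with `y ≠ 0` and `n ∈ T`:
the projection `L → K^6 / T` (dimension 4) has kernel of dimension `≥ 5 - 4 = 1`... but the kernel
contains `T`, so we need dimension `≥ 3`: the image of `L` in `K^6 / T` lies in the image of
`T^⊥ ∩ K^6` (`L ≤ T^⊥`, and `Φ(t, (n, y)) = N(t, n)`), which has dimension `4 - 2 = 2`.  So the kernel
has dimension `≥ 5 - 2 = 3 > 2 = dim T`, so it contains `(n, y)` with `n ∈ T` and `(n, y) ∉ T`, so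
`y ≠ 0`, and `0 = Φ((n, y), (n, y)) = N(n, n) - M(y, y) = - M(y, y)`.
-/

set_option autoImplicit false

namespace Pool.Agent.DIX

open Matrix

/-- the span of the basis vectors of a family of indices -/
private def IsoTwo_T (K : Type) [Field K] {ι : Type} (v : ι → Fin 6 ⊕ Fin 4) :
    Submodule K (Fin 6 ⊕ Fin 4 → K) :=
  Submodule.span K (Set.range (fun k => (Pi.single (v k) (1 : K) : Fin 6 ⊕ Fin 4 → K)))

private theorem IsoTwo_rank {K : Type} [Field K] {ι : Type} [Fintype ι]
    {v : ι → Fin 6 ⊕ Fin 4} (hv : Function.Injective v) :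
    Module.finrank K (IsoTwo_T K v) = Fintype.card ι := by
  have h1 : LinearIndependent K
      (fun k => (Pi.single (v k) (1 : K) : Fin 6 ⊕ Fin 4 → K)) := by
    have h2 := (Pi.basisFun K (Fin 6 ⊕ Fin 4)).linearIndependent.comp v hv
    have h3 : (Pi.basisFun K (Fin 6 ⊕ Fin 4)) ∘ v =
        fun k => (Pi.single (v k) (1 : K) : Fin 6 ⊕ Fin 4 → K) := by
      funext k
      simp [Pi.basisFun_apply]
    rw [h3] at h2
    exact h2
  exact finrank_span_eq_card h1

theorem iso_two {K : Type} [Field K] (h2 : (2 : K) ≠ 0) {N : Matrix (Fin 6) (Fin 6) K}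
    {M : Matrix (Fin 4) (Fin 4) K} (hN : N.IsSymm) (hM : M.IsSymm) (hd : N.det ≠ 0)
    (hd' : M.det ≠ 0) {i j : Fin 6} (hij : i ≠ j) (h11 : N i i = 0) (h12 : N i j = 0)
    (h22 : N j j = 0) (W : Submodule K (Fin 6 ⊕ Fin 4 → K)) (hW : Module.finrank K W = 5)
    (hiso : ∀ x ∈ W, ∀ y ∈ W, x ⬝ᵥ (fromBlocks N 0 0 (-M) *ᵥ y) = 0) :
    ∃ v : Fin 4 → K, v ≠ 0 ∧ v ⬝ᵥ (M *ᵥ v) = 0 := by
  classical
  set A : Matrix (Fin 6 ⊕ Fin 4) (Fin 6 ⊕ Fin 4) K := fromBlocks N 0 0 (-M) with hA
  have hdA : A.det ≠ 0 := by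
    rw [hA, det_fromBlocks_zero₂₁, det_neg]
    simp only [Fintype.card_fin]
    refine mul_ne_zero hd (mul_ne_zero ?_ hd')
    exact pow_ne_zero _ (neg_ne_zero.2 one_ne_zero)
  have hsA : A.IsSymm := by
    rw [hA]
    exact IsSymm.fromBlocks hN (by simp) (IsSymm.neg hM)
  set B : LinearMap.BilinForm K (Fin 6 ⊕ Fin 4 → K) := Matrix.toBilin' A with hB
  have hBa : ∀ x y, B x y = x ⬝ᵥ (A *ᵥ y) := fun x y => Matrix.toBilin'_apply' A x y
  have hBn : B.Nondegenerate := LinearMap.BilinForm.nondegenerate_toBilin'_of_det_ne_zero' A hdA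
  have hBs : ∀ x y, B x y = B y x := by
    intro x y
    rw [hBa, hBa, dotProduct_comm, ← vecMul_transpose, ← dotProduct_mulVec, hsA.eq]
  have hV : Module.finrank K (Fin 6 ⊕ Fin 4 → K) = 10 := by
    rw [Module.finrank_fintype_fun_eq_card]
    simp
  set v2 : Fin 2 → Fin 6 ⊕ Fin 4 := fun k => Sum.inl (![i, j] k) with hv2
  have hv2i : Function.Injective v2 := by
    intro a b hab
    have h1 : ![i, j] a = ![i, j] b := Sum.inl_injective hab
    fin_cases a <;> fin_cases b <;> simp_all [hij.symm]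
  set v6 : Fin 2 ⊕ Fin 4 → Fin 6 ⊕ Fin 4 := Sum.elim v2 Sum.inr with hv6
  have hv6i : Function.Injective v6 := by
    intro a b hab
    rcases a with a | a <;> rcases b with b | b
    · rw [hv2i hab]
    · exact absurd hab (by simp [hv6, hv2])
    · exact absurd hab (by simp [hv6, hv2])
    · rw [Sum.inr_injective hab]
  have hr2 : Module.finrank K (IsoTwo_T K v2) = 2 := by
    rw [IsoTwo_rank hv2i]
    simp
  have hr6 : Module.finrank K (IsoTwo_T K v6) = 6 := by
    rw [IsoTwo_rank hv6i]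
    simp
  -- the six-dimensional space is orthogonal to the two-dimensional one
  have hgen : ∀ (a : Fin 2) (b : Fin 2 ⊕ Fin 4),
      B (Pi.single (v2 a) 1) (Pi.single (v6 b) 1) = 0 := by
    intro a b
    rw [hB, Matrix.toBilin'_single]
    rcases b with b | b
    · fin_cases a <;> fin_cases b <;> simp [hv2, hv6, hA, h11, h12, h22, hN.apply]
    · simp [hv2, hv6, hA]
  have h62 : IsoTwo_T K v6 ≤ B.orthogonal (IsoTwo_T K v2) := by
    unfold IsoTwo_T
    rw [Submodule.span_le]
    rintro _ ⟨b, rfl⟩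
    rw [SetLike.mem_coe, LinearMap.BilinForm.mem_orthogonal_iff]
    intro n hn
    refine Submodule.span_induction (p := fun n _ => B n (Pi.single (v6 b) 1) = 0)
      ?_ ?_ ?_ ?_ hn
    · rintro _ ⟨a, rfl⟩
      exact hgen a b
    · simp
    · intro x y _ _ hx hy
      rw [map_add, LinearMap.add_apply, hx, hy, add_zero]
    · intro c x _ hx
      rw [map_smul, LinearMap.smul_apply, hx, smul_zero]
  have h26 : IsoTwo_T K v2 ≤ IsoTwo_T K v6 := by
    unfold IsoTwo_T
    refine Submodule.span_mono ?_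
    rintro _ ⟨a, rfl⟩
    exact ⟨Sum.inl a, rfl⟩
  -- elements of the six-dimensional space modulo the two-dimensional one
  have hcoord : ∀ x ∈ IsoTwo_T K v6, x - Sum.elim (0 : Fin 6 → K) (fun k => x (Sum.inr k)) ∈
      IsoTwo_T K v2 := by
    intro x hx
    refine Submodule.span_induction (p := fun x _ =>
      x - Sum.elim (0 : Fin 6 → K) (fun k => x (Sum.inr k)) ∈ IsoTwo_T K v2)
      ?_ ?_ ?_ ?_ hx
    · rintro _ ⟨b, rfl⟩
      rcases b with b | b
      · have h1 : (Pi.single (v6 (Sum.inl b)) (1 : K) : Fin 6 ⊕ Fin 4 → K) -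
            Sum.elim (0 : Fin 6 → K) (fun k =>
              (Pi.single (v6 (Sum.inl b)) (1 : K) : Fin 6 ⊕ Fin 4 → K) (Sum.inr k)) =
            Pi.single (v2 b) 1 := by
          funext s
          rcases s with s | s
          · simp [hv6]
          · simp [hv6, hv2]
        show (Pi.single (v6 (Sum.inl b)) (1 : K) : Fin 6 ⊕ Fin 4 → K) -
            Sum.elim (0 : Fin 6 → K) (fun k =>
              (Pi.single (v6 (Sum.inl b)) (1 : K) : Fin 6 ⊕ Fin 4 → K) (Sum.inr k)) ∈
            IsoTwo_T K v2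
        rw [h1]
        exact Submodule.subset_span ⟨b, rfl⟩
      · have h1 : (Pi.single (v6 (Sum.inr b)) (1 : K) : Fin 6 ⊕ Fin 4 → K) -
            Sum.elim (0 : Fin 6 → K) (fun k =>
              (Pi.single (v6 (Sum.inr b)) (1 : K) : Fin 6 ⊕ Fin 4 → K) (Sum.inr k)) = 0 := by
          funext s
          rcases s with s | s
          · simp [hv6]
          · simp [hv6]
        show (Pi.single (v6 (Sum.inr b)) (1 : K) : Fin 6 ⊕ Fin 4 → K) -
            Sum.elim (0 : Fin 6 → K) (fun k =>
              (Pi.single (v6 (Sum.inr b)) (1 : K) : Fin 6 ⊕ Fin 4 → K) (Sum.inr k)) ∈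
            IsoTwo_T K v2
        rw [h1]
        exact Submodule.zero_mem _
    · have h1 : (0 : Fin 6 ⊕ Fin 4 → K) - Sum.elim (0 : Fin 6 → K)
          (fun k => (0 : Fin 6 ⊕ Fin 4 → K) (Sum.inr k)) = 0 := by
        funext s
        rcases s with s | s <;> simp
      rw [h1]
      exact Submodule.zero_mem _
    · intro x y _ _ hx hy
      have h1 : x + y - Sum.elim (0 : Fin 6 → K) (fun k => (x + y) (Sum.inr k)) =
          (x - Sum.elim (0 : Fin 6 → K) (fun k => x (Sum.inr k))) +
          (y - Sum.elim (0 : Fin 6 → K) (fun k => y (Sum.inr k))) := by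
        funext s
        rcases s with s | s <;> simp
      rw [h1]
      exact Submodule.add_mem _ hx hy
    · intro c x _ hx
      have h1 : c • x - Sum.elim (0 : Fin 6 → K) (fun k => (c • x) (Sum.inr k)) =
          c • (x - Sum.elim (0 : Fin 6 → K) (fun k => x (Sum.inr k))) := by
        funext s
        rcases s with s | s <;> simp
      rw [h1]
      exact Submodule.smul_mem _ c hx
  -- dimensions
  have hWo : W = B.orthogonal W := by
    refine Submodule.eq_of_le_of_finrank_eq ?_ ?_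
    · intro x hx
      rw [LinearMap.BilinForm.mem_orthogonal_iff]
      intro n hn
      rw [hBa]
      exact hiso n hn x hx
    · rw [LinearMap.BilinForm.finrank_orthogonal hBn, hV, hW]
  set P := B.orthogonal (IsoTwo_T K v2) with hP
  have hPr : Module.finrank K P = 8 := by
    rw [hP, LinearMap.BilinForm.finrank_orthogonal hBn, hV, hr2]
  have hU : B.orthogonal (W ⊔ IsoTwo_T K v2) ≤ W ⊓ P := by
    refine le_inf ?_ (LinearMap.BilinForm.orthogonal_le le_sup_right)
    calc B.orthogonal (W ⊔ IsoTwo_T K v2) ≤ B.orthogonal W :=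
          LinearMap.BilinForm.orthogonal_le le_sup_left
      _ = W := hWo.symm
  have e1 := Submodule.finrank_sup_add_finrank_inf_eq W (IsoTwo_T K v2)
  have e2 := Submodule.finrank_mono hU
  rw [LinearMap.BilinForm.finrank_orthogonal hBn, hV] at e2
  have e3 := Submodule.finrank_sup_add_finrank_inf_eq (W ⊓ P) (IsoTwo_T K v6)
  have e4 : Module.finrank K ((W ⊓ P) ⊔ IsoTwo_T K v6 : Submodule K _) ≤ 8 :=
    (Submodule.finrank_mono (sup_le inf_le_right h62)).trans hPr.le
  rw [hW, hr2] at e1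
  rw [hr6] at e3
  obtain ⟨x, hx, hx2⟩ : ∃ x ∈ (W ⊓ P) ⊓ IsoTwo_T K v6, x ∉ IsoTwo_T K v2 := by
    by_contra hc
    push Not at hc
    have h1 : (W ⊓ P) ⊓ IsoTwo_T K v6 ≤ W ⊓ IsoTwo_T K v2 := fun x hx => ⟨hx.1.1, hc x hx⟩
    have h3 := Submodule.finrank_mono h1
    have h4 : Module.finrank K (W ⊓ IsoTwo_T K v2 : Submodule K _) ≤ 2 :=
      (Submodule.finrank_mono inf_le_right).trans hr2.le
    omega
  set y : Fin 4 → K := fun k => x (Sum.inr k) with hy
  have ht := hcoord x hx.2
  set y' : Fin 6 ⊕ Fin 4 → K := Sum.elim (0 : Fin 6 → K) y with hy'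
  refine ⟨y, ?_, ?_⟩
  · intro h0
    apply hx2
    have h1 : y' = 0 := by
      rw [hy', h0]
      funext s
      rcases s with s | s <;> simp
    have h3 : x - y' ∈ IsoTwo_T K v2 := ht
    rwa [h1, sub_zero] at h3
  · have h3 : x - y' ∈ IsoTwo_T K v2 := ht
    have hy6 : y' ∈ IsoTwo_T K v6 := by
      have h4 : y' = x - (x - y') := by abel
      rw [h4]
      exact Submodule.sub_mem _ hx.2 (h26 h3)
    have b1 : B (x - y') (x - y') = 0 := h62 (h26 h3) _ h3
    have b2 : B (x - y') y' = 0 := h62 hy6 _ h3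
    have b3 : B x x = 0 := by
      rw [hBa]
      exact hiso x hx.1.1 x hx.1.1
    have b4 : B y' y' = 0 := by
      have h5 : B x x = B (x - y') (x - y') + B (x - y') y' + B y' (x - y') + B y' y' := by
        simp only [map_sub, LinearMap.sub_apply]
        ring
      rw [b3, b1, b2, hBs y' (x - y'), b2] at h5
      simpa using h5.symm
    rw [hBa, hA, hy', fromBlocks_mulVec] at b4
    simp only [Sum.elim_comp_inl, Sum.elim_comp_inr, mulVec_zero, zero_mulVec, zero_add,
      add_zero, neg_mulVec, sumElim_dotProduct_sumElim, dotProduct_zero, dotProduct_neg,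
      neg_eq_zero] at b4
    exact b4

end Pool.Agent.DIX
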