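import Pool.Agent.PLN.Main
import Pool.Agent.DIX.IsoTwo

/-!
# DIX: a partner with a totally isotropic plane
-/

set_option autoImplicit false

namespace Pool.Agent.DIX

open MvPolynomial Matrix Pool.Agent.PLN

theorem rational_of_two {M : Matrix (Fin 4) (Fin 4) S3} (hM : IsCub M)
    (hS : SmoothCurve M.det) {N : Matrix (Fin 6) (Fin 6) S3} (hN : N.IsSymm) {c : ℂ}
    (hc : c ≠ 0) (hd : N.det = C c * M.det) {γ : S3} {m : ℕ} (hγ : γ.IsHomogeneous m)
    (hγi : Irreducible γ) (h1 : SqMod γ M.det) (i : Fin 6) (j : Fin 4) {k : ℕ}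
    (hk : (N.adjugate i i).IsHomogeneous k)
    (h2 : SqMod M.det (γ * M.adjugate j j * N.adjugate i i)) {a b : Fin 6} (hab : a ≠ b)
    (h11 : N a a = 0) (h12 : N a b = 0) (h22 : N b b = 0) :
    Pool.Agent.P28.Rational (cubic M) := by
  obtain ⟨W, hW, hWi⟩ := core hM hS hN hc hd hγ hγi h1 i j hk h2 5 (by simp)
  have hγ0 : affK γ ≠ 0 := fun h => hγi.ne_zero (affK_inj hγ h)
  have hdM := affK_det_ne hM hS
  have hdN : (N.map affK).det ≠ 0 := by
    rw [map_det_affK, hd, map_mul]
    refine mul_ne_zero (fun h => ?_) hdM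
    have h3 := affK_inj (isHomogeneous_C (Fin 3) c) h
    rw [C_eq_zero] at h3
    exact hc h3
  have hMs : (affK γ • M.map affK).IsSymm := by
    refine Matrix.IsSymm.ext fun a b => ?_
    rw [Matrix.smul_apply, Matrix.smul_apply, (map_symm hM.symm).apply]
  have hdM' : (affK γ • M.map affK).det ≠ 0 := by
    rw [det_smul, map_det_affK]
    exact mul_ne_zero (pow_ne_zero _ hγ0) hdM
  obtain ⟨v, hv0, hv⟩ := iso_two two_ne_zero (map_symm hN) hMs hdN hdM' hab
    (by rw [Matrix.map_apply, h11, map_zero]) (by rw [Matrix.map_apply, h12, map_zero])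
    (by rw [Matrix.map_apply, h22, map_zero]) W hW hWi
  refine rational_of_isotropic hM hS fun h => hv0 (h v ?_)
  rw [smul_mulVec, dotProduct_smul, smul_eq_mul] at hv
  exact (mul_eq_zero.1 hv).resolve_left hγ0

end Pool.Agent.DIX
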