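import Pool.Agent.DIX.General
import Pool.Agent.DIX.TwoEnd

/-!
# DIX: cubic fourfolds containing a plane, curves of even degree

`even_rational`: `M` with smooth discriminant sextic `D`, an irreducible form `γ` of even degree
modulo which `D` is a nonzero square.  If the cubic forms `α` such that `α γ adj(M)_jj` is a nonzero
square on `D` are not exactly the nonzero multiples of one form, then the cubic fourfold is rational.
-/

set_option autoImplicit false

namespace Pool.Agent.DIX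

open MvPolynomial Pool.Agent.PLN Matrix

theorem adj_deg {M : Matrix (Fin 4) (Fin 4) S3} (hM : IsCub M) (j : Fin 4)
    (h0 : M.adjugate j j ≠ 0) : ∃ k : ℕ, (M.adjugate j j).IsHomogeneous (2 * k + 1) := by
  have h : ∀ i j, HomZ (M i j) (((1 + wt i : ℕ) : ℤ) + ((wt j : ℕ) : ℤ)) := by
    intro i j
    rw [← Nat.cast_add]
    exact (homZ_nat _ _).2 (hM.hom i j)
  have h1 := homZ_adj (u := fun i => ((1 + wt i : ℕ) : ℤ)) (v := fun j => ((wt j : ℕ) : ℤ)) h j j
  obtain ⟨m, hm, hm'⟩ := h1.exists_nat h0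
  have e1 : ∑ l : Fin 4, ((1 + wt l : ℕ) : ℤ) = 5 := by decide
  have e2 : ∑ l : Fin 4, ((wt l : ℕ) : ℤ) = 1 := by decide
  have h2 : m = 2 * (2 - wt j) + 1 := by
    have h3 : wt j ≤ 1 := by fin_cases j <;> decide
    rw [e1, e2] at hm
    push_cast at hm
    omega
  exact ⟨2 - wt j, h2 ▸ hm'⟩

theorem even_rational {M : Matrix (Fin 4) (Fin 4) S3} (hM : IsCub M) (hS : SmoothCurve M.det)
    {γ : S3} {m : ℕ} (hγ : γ.IsHomogeneous (2 * m)) (hi : Irreducible γ) (h1 : SqMod γ M.det)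
    (hE : LocEven M.det γ) (j : Fin 4) (hj : ¬ M.det ∣ M.adjugate j j)
    (hpar : ¬ ∃ α₀ : S3, α₀.IsHomogeneous 3 ∧ SqMod M.det (α₀ * (γ * M.adjugate j j)) ∧
      ∀ α : S3, α.IsHomogeneous 3 → SqMod M.det (α * (γ * M.adjugate j j)) →
        ∃ c : ℂ, α = C c * α₀) :
    Pool.Agent.P28.Rational (cubic M) := by
  have hpr : Prime M.det := (det_irr hM hS).prime
  obtain ⟨k, hk⟩ := adj_deg hM j (fun h => hj (h ▸ dvd_zero _))
  have hq := hγ.mul hk
  have hγD : ¬ M.det ∣ γ := by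
    intro h
    obtain ⟨_, _, _, _, _, h3, _⟩ := h1
    exact h3 (hpr.irreducible.dvd_symm hi h)
  have hqD : ¬ M.det ∣ γ * M.adjugate j j := fun h => (hpr.dvd_or_dvd h).elim hγD hj
  have hEq := hE.mul (locEven_adj hM hS j)
  by_cases h0 : ∀ α : S3, α.IsHomogeneous 3 → ¬ SqMod M.det (α * (γ * M.adjugate j j))
  · obtain ⟨N, c, hN, hc, hd, hs⟩ := dix_net (n := m + k + 3) (det_cub hM) hS hq (by ring) hqD hEq
      h0
    exact net_rational hM hS hN hc hd hγ hi h1 0 j (hs 0)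
  · push Not at h0
    obtain ⟨α₁, hα₁, hs₁⟩ := h0
    obtain ⟨α₂, hα₂, hs₂, hne⟩ : ∃ α₂ : S3, α₂.IsHomogeneous 3 ∧
        SqMod M.det (α₂ * (γ * M.adjugate j j)) ∧ ∀ c : ℂ, α₂ ≠ C c * α₁ := by
      by_contra hcon
      push Not at hcon
      exact hpar ⟨α₁, hα₁, hs₁, fun α hα hs => hcon α hα hs⟩
    obtain ⟨N, c, a, b, hab, h11, h12, h22, hN, hc, hd, hadj, hs⟩ := dix_two (n := m + k + 3)
      (det_cub hM) hS hq (by ring) hqD hEq hα₁ hα₂ hs₁ hs₂ hne
    obtain ⟨l, hl⟩ := hadj 0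
    exact rational_of_two hM hS hN hc hd hγ hi h1 0 j hl (hs 0) hab h11 h12 h22

end Pool.Agent.DIX
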