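import Pool.Agent.DIX.MkDat
import Pool.Agent.DIX.SecSq
import Pool.Agent.PLN.Core

/-!
# DIX: the form `γ adj(M)_jj` has an even divisor on the discriminant curve

`adj_minor`: the minors of order 2 of the adjugate are divisible by the determinant.
`adj_ne`: at a smooth point of the discriminant the adjugate is not zero.
`locEven_adj`, `locEven_gam`: `adj(M)_jj`, and a form `γ` modulo which `D` is a square, are even
on the curve.
-/

set_option autoImplicit false

namespace Pool.Agent.DIX

open MvPolynomial Pool.Agent.PLN Matrix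

theorem adj_minor {n : Type} [Fintype n] [DecidableEq n] {R : Type} [CommRing R] [IsDomain R]
    (M : Matrix n n R) (h : M.det ≠ 0) (i j : n) :
    M.det ∣ M.adjugate i i * M.adjugate j j - M.adjugate i j * M.adjugate j i := by
  by_cases hij : i = j
  · subst hij
    rw [sub_self]
    exact dvd_zero _
  let U : Matrix n (Fin 2) R := fun a c =>
    ![M.adjugate a i - (1 : Matrix n n R) a i, M.adjugate a j - (1 : Matrix n n R) a j] c
  let V : Matrix (Fin 2) n R := fun c b => ![(1 : Matrix n n R) i b, (1 : Matrix n n R) j b] c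
  have hji : ¬ j = i := fun h => hij h.symm
  have h1 : (1 + U * V).det =
      M.adjugate i i * M.adjugate j j - M.adjugate i j * M.adjugate j i := by
    rw [det_one_add_mul_comm, det_fin_two]
    simp only [Matrix.add_apply, Matrix.mul_apply, U, V, Matrix.one_apply, Fin.isValue,
      Matrix.cons_val_zero, Matrix.cons_val_one, ite_mul, one_mul, zero_mul,
      Finset.sum_ite_eq, Finset.mem_univ, if_true, if_neg hij, if_neg hji]
    simp
  have h2 : M * (1 + U * V) = (M.updateCol i (M.det • (Pi.single i 1 : n → R))).updateCol j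
      (M.det • (Pi.single j 1 : n → R)) := by
    have hadj : ∀ a b, ∑ c, M a c * M.adjugate c b = M.det * (1 : Matrix n n R) a b := by
      intro a b
      have := congrFun (congrFun (mul_adjugate M) a) b
      rwa [Matrix.mul_apply, Matrix.smul_apply, smul_eq_mul] at this
    have hone : ∀ a b, ∑ c, M a c * (1 : Matrix n n R) c b = M a b := by
      intro a b
      have := congrFun (congrFun (Matrix.mul_one M) a) b
      rwa [Matrix.mul_apply] at this
    have hMU0 : ∀ a, (M * U) a 0 = M.det * (1 : Matrix n n R) a i - M a i := by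
      intro a
      rw [Matrix.mul_apply]
      show ∑ c, M a c * (M.adjugate c i - (1 : Matrix n n R) c i) = _
      simp only [mul_sub, Finset.sum_sub_distrib, hadj, hone]
    have hMU1 : ∀ a, (M * U) a 1 = M.det * (1 : Matrix n n R) a j - M a j := by
      intro a
      rw [Matrix.mul_apply]
      show ∑ c, M a c * (M.adjugate c j - (1 : Matrix n n R) c j) = _
      simp only [mul_sub, Finset.sum_sub_distrib, hadj, hone]
    have hV0 : ∀ b, V 0 b = (1 : Matrix n n R) i b := fun b => rfl
    have hV1 : ∀ b, V 1 b = (1 : Matrix n n R) j b := fun b => rfl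
    ext a b
    rw [Matrix.mul_add, Matrix.mul_one, ← Matrix.mul_assoc, Matrix.add_apply, Matrix.mul_apply,
      Fin.sum_univ_two, hMU0, hMU1, hV0, hV1]
    by_cases hbj : b = j
    · subst hbj
      rw [updateCol_self, Matrix.one_apply_ne hij, Matrix.one_apply_eq, Pi.smul_apply,
        smul_eq_mul, Pi.single_apply, Matrix.one_apply (i := a) (j := b)]
      ring
    · rw [updateCol_ne hbj]
      by_cases hbi : b = i
      · subst hbi
        rw [updateCol_self, Matrix.one_apply_eq, Matrix.one_apply_ne hji, Pi.smul_apply,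
          smul_eq_mul, Pi.single_apply, Matrix.one_apply (i := a) (j := b)]
        ring
      · rw [updateCol_ne hbi, Matrix.one_apply_ne (fun h => hbi h.symm),
          Matrix.one_apply_ne (fun h => hbj h.symm)]
        ring
  have h3 := congrArg Matrix.det h2
  rw [Matrix.det_mul, h1, det_updateCol_smul, updateCol_comm _ hij, det_updateCol_smul] at h3
  exact ⟨_, mul_left_cancel₀ h h3⟩

/-- The adjugate does not vanish at a smooth point of the discriminant. -/
theorem adj_ne {M : Matrix (Fin 4) (Fin 4) S3} (hS : SmoothCurve M.det) {s : Fin 3 → ℂ}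
    (hs : s ≠ 0) (h0 : eval s M.det = 0) : ∃ i j, eval s (M.adjugate i j) ≠ 0 := by
  by_contra hcon
  push Not at hcon
  obtain ⟨k, hk⟩ := hS s hs h0
  have h1 : (M.map (eval s)).det = 0 := by
    rw [← h0, RingHom.map_det]
    rfl
  obtain ⟨v, hv0, hv⟩ := Matrix.exists_mulVec_eq_zero_iff.2 h1
  obtain ⟨j, hj⟩ : ∃ j, v j ≠ 0 := by
    by_contra h2
    push Not at h2
    exact hv0 (funext h2)
  apply hk
  let P : Fin 4 → S3 := fun i => ∑ l, M i l * C (v l)
  have hP : ∀ i, eval s (P i) = 0 := by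
    intro i
    have := congrFun hv i
    simp only [P, map_sum, map_mul, eval_C]
    exact this
  have h3 : M.det * C (v j) = ∑ i, M.adjugate j i * P i := by
    have h4 : ∀ l, ∑ i, M.adjugate j i * M i l = M.det * (1 : Matrix (Fin 4) (Fin 4) S3) j l := by
      intro l
      have := congrFun (congrFun (adjugate_mul M) j) l
      rwa [Matrix.mul_apply, Matrix.smul_apply, smul_eq_mul] at this
    simp only [P, Finset.mul_sum]
    rw [Finset.sum_comm]
    have h5 : ∀ l, ∑ i, M.adjugate j i * (M i l * C (v l)) =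
        M.det * (1 : Matrix (Fin 4) (Fin 4) S3) j l * C (v l) := by
      intro l
      rw [← h4 l, Finset.sum_mul]
      exact Finset.sum_congr rfl fun i _ => by ring
    rw [Finset.sum_congr rfl fun l _ => h5 l]
    simp [Matrix.one_apply]
  have h6 := congrArg (fun f => eval s (pderiv k f)) h3
  simp only [pderiv_mul, pderiv_C, mul_zero, add_zero, map_mul, eval_C, map_sum, map_add,
    hcon, hP, zero_mul] at h6
  simp only [Finset.sum_const_zero] at h6
  exact (mul_eq_zero.1 h6).resolve_right hj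

theorem adj_cub' {M : Matrix (Fin 4) (Fin 4) S3} (hM : IsCub M) (i j : Fin 4) :
    ∃ m : ℕ, (M.adjugate i j).IsHomogeneous m := by
  have h : ∀ i j, HomZ (M i j) (((1 + wt i : ℕ) : ℤ) + ((wt j : ℕ) : ℤ)) := by
    intro i j
    rw [← Nat.cast_add]
    exact (homZ_nat _ _).2 (hM.hom i j)
  have h1 := homZ_adj (u := fun i => ((1 + wt i : ℕ) : ℤ)) (v := fun j => ((wt j : ℕ) : ℤ)) h i j
  by_cases h0 : M.adjugate i j = 0
  · exact ⟨0, h0 ▸ isHomogeneous_zero _ _ _⟩
  · obtain ⟨m, -, hm⟩ := h1.exists_nat h0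
    exact ⟨m, hm⟩

theorem locEven_adj {M : Matrix (Fin 4) (Fin 4) S3} (hM : IsCub M) (hS : SmoothCurve M.det)
    (j : Fin 4) : LocEven M.det (M.adjugate j j) := by
  intro s hs h0
  have hne : M.det ≠ 0 := smooth_ne hS
  have hsymm : ∀ a b, M.adjugate a b = M.adjugate b a := fun a b => hM.symm.adjugate.apply b a
  obtain ⟨i, l, hil⟩ := adj_ne hS hs h0
  have h1 : eval s (M.adjugate i i) ≠ 0 := by
    intro h2
    obtain ⟨w, hw⟩ := adj_minor M hne i l
    have h3 := congrArg (eval s) hw
    rw [map_sub, map_mul, map_mul, map_mul, h2, h0, zero_mul, zero_mul, zero_sub,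
      hsymm l i, neg_eq_zero] at h3
    exact hil (mul_self_eq_zero.1 h3)
  obtain ⟨m, hm⟩ := adj_cub' hM j i
  obtain ⟨n, hn⟩ := adj_cub' hM i i
  refine ⟨M.adjugate j i, M.adjugate i i, m, n, hm, hn, ?_, h1⟩
  obtain ⟨w, hw⟩ := adj_minor M hne j i
  rw [hsymm i j] at hw
  exact ⟨-w, by linear_combination -hw⟩

/-- A form `γ` modulo which `D` is a square is even on the curve `D = 0`, if the curve `γ = 0` is
smooth at its points on `D = 0`. -/
theorem locEven_gam {D γ : S3} {d m : ℕ} (hD : D.IsHomogeneous d) (hS : SmoothCurve D)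
    (hγ : γ.IsHomogeneous m) (hi : Irreducible γ) (h : SqMod γ D)
    (hsm : ∀ s : Fin 3 → ℂ, s ≠ 0 → eval s D = 0 → eval s γ = 0 →
      ∃ k, eval s (pderiv k γ) ≠ 0) : LocEven D γ := by
  intro s hs h0
  by_cases hγ0 : eval s γ = 0
  swap
  · exact ⟨γ, γ, m, m, hγ, hγ, by rw [sq, sub_self]; exact dvd_zero _, hγ0⟩
  obtain ⟨a, b, n, hb, hγb, hγD, hab⟩ := h
  have hpr : Prime γ := hi.prime
  obtain ⟨l, a', hl, ha', hab'⟩ := exists_hom_root (D := γ) hγ hpr (F := b ^ 2 * D)
    ((hb.pow 2).mul hD) (fun h1 => (hpr.dvd_or_dvd h1).elim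
      (fun h2 => hγb (hpr.dvd_of_dvd_pow h2)) hγD) hab
  have h1 : γ ∣ 1 * a' ^ 2 - D * b ^ 2 := by
    obtain ⟨w, hw⟩ := hab'
    exact ⟨-w, by linear_combination -hw⟩
  obtain ⟨u, g, mu, mg, hu, hg, hus, hd⟩ := val hi hγ hs hγ0 (hsm s hs h0 hγ0) ha' hb h1
    (by rw [map_one]; exact one_ne_zero)
  have h2 : γ ∣ b ^ 2 * (u ^ 2 * D - g ^ 2) := by
    obtain ⟨w, hw⟩ := h1
    obtain ⟨w', hw'⟩ := hd
    exact ⟨(u * a' + g * b) * w' - u ^ 2 * w, by
      linear_combination (u * a' + g * b) * hw' - u ^ 2 * hw⟩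
  obtain ⟨t, ht⟩ := (hpr.dvd_or_dvd h2).resolve_left fun h3 => hγb (hpr.dvd_of_dvd_pow h3)
  have hu0 : ¬ γ ∣ u := by
    rintro ⟨w, rfl⟩
    rw [map_mul, hγ0, zero_mul] at hus
    exact hus rfl
  have ha0 : ¬ γ ∣ a' := by
    rintro ⟨w, hw⟩
    obtain ⟨w', hw'⟩ := hab'
    have h4 : γ ∣ b ^ 2 * D := ⟨w' + a' * w, by rw [hw] at hw' ⊢; linear_combination hw'⟩
    exact (hpr.dvd_or_dvd h4).elim (fun h2 => hγb (hpr.dvd_of_dvd_pow h2)) hγD
  have hua : ¬ γ ∣ u * a' := fun h4 => (hpr.dvd_or_dvd h4).elim hu0 ha0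
  have hdeg : mu + l = mg + n := by
    by_contra hne
    apply hua
    have h5 := comp_dvd hγ hd (mu + l)
    rw [map_sub, homogeneousComponent_of_mem ((mem_homogeneousSubmodule _ _).2 (hu.mul ha')),
      homogeneousComponent_of_mem ((mem_homogeneousSubmodule _ _).2 (hg.mul hb)), if_pos rfl,
      if_neg (fun h6 => hne (by omega)), sub_zero] at h5
    exact h5
  have hhom : (γ * t).IsHomogeneous (mg + mg) := by
    rw [← ht]
    have h6 : (u ^ 2 * D).IsHomogeneous (mg + mg) := by
      have h7 := (hu.pow 2).mul hD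
      have e : mu * 2 + d = mg + mg := by omega
      rwa [e] at h7
    have h8 : (g ^ 2).IsHomogeneous (mg + mg) := by
      have h7 := hg.pow 2
      have e : mg * 2 = mg + mg := by omega
      rwa [e] at h7
    exact h6.sub h8
  have hts : eval s t ≠ 0 := by
    intro ht0
    have e1 := congrArg (eval s) ht
    rw [map_sub, map_mul, map_mul, map_pow, map_pow, h0, hγ0, mul_zero, zero_mul, zero_sub,
      neg_eq_zero] at e1
    have hg0 : eval s g = 0 := pow_eq_zero_iff two_ne_zero |>.1 e1
    obtain ⟨k, hk⟩ := hS s hs h0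
    have e2 := congrArg (fun f => eval s (pderiv k f)) ht
    simp only [map_sub, pderiv_mul, pderiv_pow, map_add, map_mul, map_pow, h0, hγ0, hg0, ht0,
      mul_zero, zero_mul, add_zero, zero_add] at e2
    simp only [Nat.add_one_sub_one, pow_one, mul_zero, zero_mul, sub_zero] at e2
    rcases mul_eq_zero.1 e2 with h9 | h9
    · exact hus (pow_eq_zero_iff two_ne_zero |>.1 h9)
    · exact hk h9
  have ht0 : t ≠ 0 := by
    rintro rfl
    rw [map_zero] at hts
    exact hts rfl
  obtain ⟨_, mt, _, hmt⟩ := hom_factor hhom (mul_ne_zero hpr.ne_zero ht0)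
  refine ⟨g, -t, mg, mt, hg, hmt.neg, ⟨u ^ 2, by linear_combination -ht⟩, ?_⟩
  rw [map_neg]
  exact neg_ne_zero.2 hts

end Pool.Agent.DIX
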