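import Pool.Agent.DIX.OrdB

/-!
# DIX: powers of a uniformizer

`dvr_pow`: `D` is an irreducible form, smooth at `s`. If a form `γ` which is not divisible by `D`
has order `n` in the local ring of the curve `D = 0` at `s`, then `γ` is a unit times `ℓ ^ n`, where
`ℓ` is a linear form.
-/

set_option autoImplicit false

noncomputable section

namespace Pool.Agent.DIX

open MvPolynomial Pool.Agent.PLN

/-- A local noetherian domain with principal maximal ideal. -/
private theorem OrdC_gen {B : Type} [CommRing B] [IsDomain B] [IsLocalRing B]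
    [IsNoetherianRing B] {p g : B} (hp : IsLocalRing.maximalIdeal B = Ideal.span {p})
    (hg : g ≠ 0) {n : ℕ} (hn : Ring.ord B g = (n : ℕ∞)) : ∃ u : B, IsUnit u ∧ g = u * p ^ n := by
  classical
  have hinf := Ideal.iInf_pow_eq_bot_of_isLocalRing (IsLocalRing.maximalIdeal B)
    (IsLocalRing.maximalIdeal.isMaximal B).ne_top
  have hex : ∃ k : ℕ, g ∉ IsLocalRing.maximalIdeal B ^ k := by
    by_contra hcon
    push Not at hcon
    apply hg
    have h1 : g ∈ ⨅ k : ℕ, IsLocalRing.maximalIdeal B ^ k := by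
      rw [Ideal.mem_iInf]
      exact hcon
    rw [hinf] at h1
    exact (Submodule.mem_bot B).1 h1
  have hk := Nat.find_spec hex
  have hk0 : Nat.find hex ≠ 0 := by
    intro h0
    rw [h0, pow_zero, Ideal.one_eq_top] at hk
    exact hk Submodule.mem_top
  obtain ⟨k, hkk⟩ := Nat.exists_eq_succ_of_ne_zero hk0
  rw [hkk] at hk
  have hk1 : g ∈ IsLocalRing.maximalIdeal B ^ k := by
    by_contra hcon
    exact Nat.find_min hex (by omega) hcon
  rw [hp, Ideal.span_singleton_pow, Ideal.mem_span_singleton] at hk1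
  rw [hp, Ideal.span_singleton_pow, Ideal.mem_span_singleton] at hk
  obtain ⟨c, hc⟩ := hk1
  have hcu : IsUnit c := by
    by_contra hcon
    have h1 : c ∈ IsLocalRing.maximalIdeal B := hcon
    rw [hp, Ideal.mem_span_singleton] at h1
    obtain ⟨e, he⟩ := h1
    apply hk
    refine ⟨e, ?_⟩
    rw [hc, he, pow_succ]
    ring
  have hord : Ring.ord B g = (k : ℕ∞) := by
    rw [hc, Ring.ord_mul_of_isUnit_right hcu]
    by_cases h0 : k = 0
    · subst h0
      rw [pow_zero, Ring.ord_one]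
      rfl
    · have hp0 : p ≠ 0 := by
        rintro rfl
        apply hg
        rw [hc, zero_pow h0, zero_mul]
      have hord1 : Ring.ord B p = 1 := by
        rw [Ring.ord, Module.length_eq_one_iff]
        have hmax : (Ideal.span {p}).IsMaximal := by
          rw [← hp]
          exact IsLocalRing.maximalIdeal.isMaximal B
        rw [isSimpleModule_iff_isSimpleModule_of_algebraMap_surjective (S := B ⧸ Ideal.span {p})
          Ideal.Quotient.mk_surjective]
        let := Ideal.Quotient.field (Ideal.span {p})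
        exact instIsSimpleModule _
      rw [Ring.ord_pow (mem_nonZeroDivisors_of_ne_zero hp0), hord1]
      simp
  have hkn : k = n := by
    rw [hord] at hn
    exact_mod_cast hn
  subst hkn
  exact ⟨c, hcu, by rw [hc, mul_comm]⟩

/-- The quotient of a local noetherian ring. -/
private theorem OrdC_abs {A B : Type} [CommRing A] [IsLocalRing A] [IsNoetherianRing A]
    [CommRing B] [IsDomain B] (π : A →+* B) (hπ : Function.Surjective π) {δ γ l : A}
    (hker : ∀ x, π x = 0 ↔ δ ∣ x) (hm : ∀ x, ¬ IsUnit x → ∃ b c, x = b * l + c * δ)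
    (hl : ¬ IsUnit l) (hδ : ¬ IsUnit δ) (hγ : ¬ δ ∣ γ) {n : ℕ}
    (hn : Ring.ord B (π γ) = (n : ℕ∞)) :
    (∃ v, IsUnit v ∧ δ ∣ γ - v * l ^ n) ∧
      ∀ u' h', IsUnit u' → δ ∣ u' * γ - h' * l ^ n → IsUnit h' := by
  have hloc : IsLocalRing B := IsLocalRing.of_surjective' π hπ
  have hnoe : IsNoetherianRing B := isNoetherianRing_of_surjective A B π hπ
  have hδm : δ ∈ IsLocalRing.maximalIdeal A := hδ
  have hunit : ∀ x : A, IsUnit (π x) → IsUnit x := by
    intro x hx
    by_contra hcon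
    obtain ⟨y, hy⟩ := hx.exists_right_inv
    obtain ⟨y, rfl⟩ := hπ y
    have h1 : δ ∣ x * y - 1 := by
      rw [← hker, map_sub, map_mul, hy, map_one, sub_self]
    have h2 : x * y ∈ IsLocalRing.maximalIdeal A := Ideal.mul_mem_right _ _ hcon
    have h3 : (1 : A) ∈ IsLocalRing.maximalIdeal A := by
      obtain ⟨c, hc⟩ := h1
      have h4 := Ideal.sub_mem _ h2 (Ideal.mul_mem_right c _ hδm)
      rwa [← hc, sub_sub_cancel] at h4
    exact (Ideal.ne_top_iff_one _).1 (IsLocalRing.maximalIdeal.isMaximal _).ne_top h3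
  have hδ0 : π δ = 0 := (hker δ).2 dvd_rfl
  have hmax : IsLocalRing.maximalIdeal B = Ideal.span {π l} := by
    apply le_antisymm
    · intro b hb
      obtain ⟨b, rfl⟩ := hπ b
      obtain ⟨c, e, hce⟩ := hm b fun h2 => hb (h2.map π)
      rw [Ideal.mem_span_singleton, hce, map_add, map_mul, map_mul, hδ0, mul_zero, add_zero]
      exact Dvd.intro_left _ rfl
    · rw [Ideal.span_le, Set.singleton_subset_iff]
      intro hu
      exact hl (hunit _ hu)
  have hγ0 : π γ ≠ 0 := fun h => hγ ((hker γ).1 h)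
  obtain ⟨u, hu, hgu⟩ := OrdC_gen hmax hγ0 hn
  obtain ⟨v, rfl⟩ := hπ u
  refine ⟨⟨v, hunit _ hu, ?_⟩, fun u' h' hu' hd => ?_⟩
  · rw [← hker, map_sub, map_mul, map_pow, hgu, sub_self]
  · have hlp : π l ^ n ≠ 0 := by
      intro h3
      apply hγ0
      rw [hgu, h3, mul_zero]
    have h2 : π u' * π γ = π h' * π l ^ n := by
      rw [← sub_eq_zero, ← map_mul, ← map_pow, ← map_mul, ← map_sub]
      exact (hker _).2 hd
    rw [hgu, ← mul_assoc] at h2
    have h4 := mul_right_cancel₀ hlp h2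
    apply hunit
    rw [← h4]
    exact (hu'.map π).mul hu

private theorem OrdC_abs2 {A : Type} [CommRing A] [IsLocalRing A] [IsNoetherianRing A]
    {δ γ l : A} (hp : (Ideal.span {δ}).IsPrime)
    (hm : ∀ x, ¬ IsUnit x → ∃ b c, x = b * l + c * δ)
    (hl : ¬ IsUnit l) (hδ : ¬ IsUnit δ) (hγ : ¬ δ ∣ γ) {n : ℕ}
    (hn : Ring.ord (A ⧸ Ideal.span {δ}) (Ideal.Quotient.mk (Ideal.span {δ}) γ) = (n : ℕ∞)) :
    (∃ v, IsUnit v ∧ δ ∣ γ - v * l ^ n) ∧
      ∀ u' h', IsUnit u' → δ ∣ u' * γ - h' * l ^ n → IsUnit h' := by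
  have hdom : IsDomain (A ⧸ Ideal.span {δ}) := Ideal.Quotient.isDomain _
  exact OrdC_abs (Ideal.Quotient.mk (Ideal.span {δ})) Ideal.Quotient.mk_surjective
    (fun x => by rw [Ideal.Quotient.eq_zero_iff_mem, Ideal.mem_span_singleton]) hm hl hδ hγ hn

/-- the linear form which generates the maximal ideal -/
private theorem OrdC_lin {D : S3} {s : Fin 3 → ℂ} (hs : s ≠ 0) (hDs : lineHom s D = 0)
    (hsm : ∃ k, eval s (pderiv k D) ≠ 0) :
    ∃ l : S3, l.IsHomogeneous 1 ∧ lineHom s l = 0 ∧ ∀ x : S3, lineHom s x = 0 →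
      ∃ a b c : S3, lineHom s a ≠ 0 ∧ a * x = b * l + c * D := by
  obtain ⟨i, hi⟩ := Function.ne_iff.1 hs
  rw [Pi.zero_apply] at hi
  have hmem := mem_span_of_lineHom hi hDs
  rw [Ideal.mem_span_pair] at hmem
  obtain ⟨A₁, A₂, hA⟩ := hmem
  obtain ⟨k, hk⟩ := hsm
  have hA12 := pderiv_lin_comb hA.symm hk
  have hne : ∀ x : S3, eval s x ≠ 0 → lineHom s x ≠ 0 := by
    intro x hx h0
    apply hx
    rw [← lineHom_eval, h0, Polynomial.eval_zero]
  have hl : ∀ j, lineHom s (lin s i j) = 0 := by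
    intro j
    rw [lin, map_sub, map_mul, map_mul, ← algebraMap_eq, AlgHom.commutes, AlgHom.commutes,
      lineHom, aeval_X, aeval_X, Polynomial.algebraMap_eq]
    ring
  have hh : ∀ j, (lin s i j).IsHomogeneous 1 := by
    intro j
    have h1 : ∀ (a : ℂ) (m : Fin 3), (C a * X m : S3).IsHomogeneous 1 := by
      intro a m
      have := (isHomogeneous_C (Fin 3) a).mul (isHomogeneous_X ℂ m)
      rwa [zero_add] at this
    exact (h1 _ _).sub (h1 _ _)
  rcases hA12 with h1 | h1
  · refine ⟨lin s i (i + 2), hh _, hl _, fun x hx => ?_⟩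
    obtain ⟨c, d, hcd⟩ := Ideal.mem_span_pair.1 (mem_span_of_lineHom hi hx)
    refine ⟨A₁, A₁ * d - c * A₂, c, hne _ h1, ?_⟩
    rw [← hcd]
    linear_combination c * hA
  · refine ⟨lin s i (i + 1), hh _, hl _, fun x hx => ?_⟩
    obtain ⟨c, d, hcd⟩ := Ideal.mem_span_pair.1 (mem_span_of_lineHom hi hx)
    refine ⟨A₂, A₂ * c - d * A₁, d, hne _ h1, ?_⟩
    rw [← hcd]
    linear_combination d * hA

/-- `B = Loc s / (D)` is a local noetherian domain whose maximal ideal is generated by one linear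
form `ℓ = lin s i j` (see the proof of `Val_local` in `Val.lean`); it is not a field if `γ` is not a unit
(if `eval s γ ≠ 0` then `n = 0` and there is nothing to do: take `u = h = ...`). So `B` is a
discrete valuation ring with uniformizer `ℓ`, `Ring.ord_eq_addVal`, and `γ = unit * ℓ ^ n`. A unit of `B` is
a quotient `v / w` of elements with `lineHom s v ≠ 0`, `lineHom s w ≠ 0`, so `D ∣ x * γ - y * ℓ ^ n`
with `lineHom s x ≠ 0`, `lineHom s y ≠ 0`; `exists_hom_rel` gives forms `u`, `h` with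
`eval s u ≠ 0`; `eval s h ≠ 0` because `γ` has order exactly `n` (or symmetric argument). -/
theorem dvr_pow {D γ : S3} {d m n : ℕ} {s : Fin 3 → ℂ} (hs : s ≠ 0) (hD : D.IsHomogeneous d)
    (hi : Irreducible D) (h0 : eval s D = 0) (hsm : ∃ k, eval s (pderiv k D) ≠ 0)
    (hγ : γ.IsHomogeneous m) (hγD : ¬ D ∣ γ)
    (hord : Ring.ord (Loc s ⧸ Ideal.span {algebraMap S3 (Loc s) D})
      (Ideal.Quotient.mk (Ideal.span {algebraMap S3 (Loc s) D}) (algebraMap S3 (Loc s) γ)) =
        (n : ℕ∞)) :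
    ∃ (l u h : S3) (a b : ℕ), l.IsHomogeneous 1 ∧ u.IsHomogeneous a ∧ h.IsHomogeneous b ∧
      eval s u ≠ 0 ∧ eval s h ≠ 0 ∧ D ∣ u * γ - h * l ^ n := by
  have hDs : lineHom s D = 0 := (lineHom_eq_zero hD).2 h0
  have hpr : Prime (algebraMap S3 (Loc s) D) := prime_loc hi hD h0
  have hIp : (Ideal.span {algebraMap S3 (Loc s) D}).IsPrime :=
    (Ideal.span_singleton_prime hpr.ne_zero).2 hpr
  have hnoe : IsNoetherianRing (Loc s) :=
    IsLocalization.isNoetherianRing
      (RingHom.ker (lineHom s : S3 →+* Polynomial ℂ)).primeCompl (Loc s) inferInstance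
  have hunit2 : ∀ x : S3, IsUnit (algebraMap S3 (Loc s) x) ↔ lineHom s x ≠ 0 := by
    intro x
    rw [IsLocalization.AtPrime.isUnit_to_map_iff (Loc s)
      (RingHom.ker (lineHom s : S3 →+* Polynomial ℂ)) x]
    exact Iff.rfl
  obtain ⟨l, hlh, hl0, hlx⟩ := OrdC_lin hs hDs hsm
  have hm : ∀ x : Loc s, ¬ IsUnit x → ∃ b c, x = b * algebraMap S3 (Loc s) l +
      c * algebraMap S3 (Loc s) D := by
    intro x hx
    obtain ⟨⟨z, y⟩, rfl⟩ := IsLocalization.mk'_surjective
      (RingHom.ker (lineHom s : S3 →+* Polynomial ℂ)).primeCompl x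
    have hyu : IsUnit (algebraMap S3 (Loc s) (y : S3)) :=
      (hunit2 _).2 fun h => y.2 h
    have hxy : algebraMap S3 (Loc s) (y : S3) * IsLocalization.mk' (Loc s) z y =
        algebraMap S3 (Loc s) z := IsLocalization.mk'_spec' (Loc s) z y
    have hz : lineHom s z = 0 := by
      by_contra hz
      apply hx
      have h1 := (hunit2 z).2 hz
      rw [← hxy] at h1
      exact isUnit_of_mul_isUnit_right h1
    obtain ⟨a, b, c, ha, habc⟩ := hlx z hz
    have hau := (hunit2 a).2 ha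
    obtain ⟨a', ha'⟩ := (hau.mul hyu).exists_left_inv
    refine ⟨a' * algebraMap S3 (Loc s) b, a' * algebraMap S3 (Loc s) c, ?_⟩
    have h2 : algebraMap S3 (Loc s) a * algebraMap S3 (Loc s) z =
        algebraMap S3 (Loc s) b * algebraMap S3 (Loc s) l +
          algebraMap S3 (Loc s) c * algebraMap S3 (Loc s) D := by
      rw [← map_mul, ← map_mul, ← map_mul, ← map_add, habc]
    rw [← hxy] at h2
    linear_combination a' * h2 - IsLocalization.mk' (Loc s) z y * ha'
  have hcore := OrdC_abs2 hIp hm (fun h => (hunit2 l).1 h hl0) (fun h => (hunit2 D).1 h hDs)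
    (fun h => hγD ((dvd_loc hi hD h0).1 h)) hord
  obtain ⟨⟨v, hv, hdv⟩, hun⟩ := hcore
  obtain ⟨⟨x, y⟩, rfl⟩ := IsLocalization.mk'_surjective
    (RingHom.ker (lineHom s : S3 →+* Polynomial ℂ)).primeCompl v
  have hxy : algebraMap S3 (Loc s) (y : S3) * IsLocalization.mk' (Loc s) x y =
      algebraMap S3 (Loc s) x := IsLocalization.mk'_spec' (Loc s) x y
  have hy : lineHom s (y : S3) ≠ 0 := fun h => y.2 h
  have hd : D ∣ (y : S3) * γ - x * l ^ n := by
    rw [← dvd_loc hi hD h0]
    obtain ⟨c, hc⟩ := hdv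
    refine ⟨algebraMap S3 (Loc s) (y : S3) * c, ?_⟩
    rw [map_sub, map_mul, map_mul, map_pow]
    linear_combination algebraMap S3 (Loc s) (y : S3) * hc + algebraMap S3 (Loc s) l ^ n * hxy
  have hln : (l ^ n).IsHomogeneous n := by
    have := hlh.pow n
    rwa [one_mul] at this
  obtain ⟨u', h', a, b, hu'h, hh'h, hu', hd'⟩ := exists_hom_rel hD hγ hln hy hd
  refine ⟨l, u', h', a, b, hlh, hu'h, hh'h, hu', ?_, hd'⟩
  intro he
  have h1 : lineHom s h' = 0 := (lineHom_eq_zero hh'h).2 he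
  have h5 : IsUnit (algebraMap S3 (Loc s) u') := by
    refine (hunit2 u').2 ?_
    intro h6
    exact hu' ((lineHom_eq_zero hu'h).1 h6)
  have h6 := hun (algebraMap S3 (Loc s) u') (algebraMap S3 (Loc s) h') h5 (by
    have h7 := (dvd_loc hi hD h0).2 hd'
    rwa [map_sub, map_mul, map_mul, map_pow] at h7)
  exact (hunit2 h').1 h6 h1

end Pool.Agent.DIX
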