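import Pool.Agent.DIX.OrdA
import Pool.Agent.DIX.OrdC
import Pool.Agent.DIX.EvenM
import Pool.Agent.PLN.SmoothIrr

/-!
# DIX: a form `γ` modulo which `D` is a square is even on the curve `D = 0`

No hypothesis on the singularities of `γ = 0`: the length of the local ring modulo `(γ, D)` is
the order of `D` on `γ = 0`, which is even, and the order of `γ` on `D = 0`.
-/

set_option autoImplicit false

namespace Pool.Agent.DIX

open MvPolynomial Pool.Agent.PLN

theorem locEven_gam' {D γ : S3} {d m : ℕ} (hD : D.IsHomogeneous d) (hS : SmoothCurve D)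
    (hγ : γ.IsHomogeneous m) (hi : Irreducible γ) (h : SqMod γ D) : LocEven D γ := by
  intro s hs h0
  have hDi : Irreducible D := by
    refine smooth_irr hD (Nat.one_le_iff_ne_zero.2 ?_) (smooth_ne hS) hS
    rintro rfl
    have h1 : D = C (coeff 0 D) :=
      totalDegree_eq_zero_iff_eq_C.1 ((totalDegree_zero_iff_isHomogeneous _).2 hD)
    rw [h1, eval_C] at h0
    rw [h0, C_0] at h1
    exact smooth_ne hS h1
  by_cases hγ0 : eval s γ = 0
  swap
  · exact ⟨γ, γ, m, m, hγ, hγ, by rw [sq, sub_self]; exact dvd_zero _, hγ0⟩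
  obtain ⟨a, b, n, hb, hγb, hγD, hab⟩ := h
  have hDγ : ¬ D ∣ γ := by
    intro h1
    exact hγD ((hDi.dvd_symm hi) h1)
  obtain ⟨n, hn⟩ := even_ord (A := Loc s) (dim_line hs) (G := algebraMap S3 (Loc s) γ)
    (H := algebraMap S3 (Loc s) D) (a := algebraMap S3 (Loc s) a) (b := algebraMap S3 (Loc s) b)
    (prime_loc hi hγ hγ0) (fun h1 => hγD ((dvd_loc hi hγ hγ0).1 h1))
    (fun h1 => hγb ((dvd_loc hi hγ hγ0).1 h1))
    (by
      rw [← map_pow, ← map_pow, ← map_mul, ← map_sub, dvd_loc hi hγ hγ0, ← dvd_neg, neg_sub]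
      exact hab)
  rw [ord_comm] at hn
  obtain ⟨l, u, v, p, q, hl, hu, hv, hus, hvs, hd⟩ := dvr_pow hs hD hDi h0 (hS s hs h0) hγ hDγ hn
  refine ⟨v * l ^ n, v * u, q + 1 * n, q + p, hv.mul (hl.pow n), hv.mul hu, ?_, ?_⟩
  · obtain ⟨w, hw⟩ := hd
    exact ⟨- v * w, by linear_combination (-v) * hw⟩
  · rw [map_mul]
    exact mul_ne_zero hvs hus

end Pool.Agent.DIX
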