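import Pool.Agent.DIX.ExTheta

/-!
# DIX: the explicit cubic fourfold is smooth

`cubic exM` (see `Pool.Agent.PLN.Example`) is a smooth cubic fourfold. At a singular point with
`x ≠ 0` the plane curve `det exM = 0` would be singular at `x`: `det M` is
`F det(a) - wᵀ adj(a) w`, where `2 w` are the derivatives of the cubic form `F` with respect to `y`
and `a` is the block of the linear forms.
-/

set_option autoImplicit false

namespace Pool.Agent.DIX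

open MvPolynomial Pool.Agent.PLN Matrix

theorem exCubic_eq : cubic exM = 2 * X 0 ^ 2 * X 5 + X 0 * X 2 ^ 2 + X 0 * X 4 ^ 2 -
    X 1 ^ 2 * X 2 - 2 * X 1 ^ 2 * X 3 - 2 * X 1 * X 5 ^ 2 - X 2 * X 3 ^ 2 +
    2 * X 2 * X 4 * X 5 := by
  have h0 : up (X 0) = X 0 := by simp [up, rename_X]
  have h1 : up (X 1) = X 1 := by simp [up, rename_X]
  have h2 : up (X 2) = X 2 := by simp [up, rename_X]
  have h3 : up 2 = 2 := map_ofNat up 2
  simp [cubic, exM, zc, Fin.sum_univ_succ, h0, h1, h2, h3]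
  ring

theorem exM_psmooth : P28.PSmooth (cubic exM) := by
  intro v hv hF
  by_contra hcon
  push Not at hcon
  rw [exCubic_eq] at hF hcon
  have hn : ∀ i : Fin 6, pderiv i (2 : S6) = 0 := by
    intro i
    rw [show (2 : S6) = C 2 from (map_ofNat C 2).symm, pderiv_C]
  have e : 2 * v 0 ^ 2 * v 5 + v 0 * v 2 ^ 2 + v 0 * v 4 ^ 2 - v 1 ^ 2 * v 2 -
      2 * v 1 ^ 2 * v 3 - 2 * v 1 * v 5 ^ 2 - v 2 * v 3 ^ 2 + 2 * v 2 * v 4 * v 5 = 0 := by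
    simpa using hF
  have e0 : 4 * v 0 * v 5 + v 2 ^ 2 + v 4 ^ 2 = 0 := by
    rw [← hcon 0]
    simp [hn, pderiv_X]
    ring
  have e1 : -2 * v 1 * v 2 - 4 * v 1 * v 3 - 2 * v 5 ^ 2 = 0 := by
    rw [← hcon 1]
    simp [hn, pderiv_X]
    ring
  have e2 : 2 * v 0 * v 2 - v 1 ^ 2 - v 3 ^ 2 + 2 * v 4 * v 5 = 0 := by
    rw [← hcon 2]
    simp [hn, pderiv_X]
    ring
  have f0 : -v 1 ^ 2 - v 2 * v 3 = 0 := by
    have h : -2 * v 1 ^ 2 - 2 * v 2 * v 3 = 0 := by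
      rw [← hcon 3]
      simp [hn, pderiv_X]
      ring
    linear_combination (1 / 2) * h
  have f1 : v 0 * v 4 + v 2 * v 5 = 0 := by
    have h : 2 * v 0 * v 4 + 2 * v 2 * v 5 = 0 := by
      rw [← hcon 4]
      simp [hn, pderiv_X]
      ring
    linear_combination (1 / 2) * h
  have f2 : v 0 ^ 2 - 2 * v 1 * v 5 + v 2 * v 4 = 0 := by
    have h : 2 * v 0 ^ 2 - 4 * v 1 * v 5 + 2 * v 2 * v 4 = 0 := by
      rw [← hcon 5]
      simp [hn, pderiv_X]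
      ring
    linear_combination (1 / 2) * h
  obtain ⟨x0, x1, x2⟩ := ex_smooth (v 0) (v 1) (v 2)
    (by linear_combination (2 * v 0 * v 1 * v 2 + v 2 ^ 3) * e0 + (2 * v 1 * v 2) * e +
      (-2 * v 1 ^ 3 - 2 * v 1 * v 2 * v 3) * f0 + (-4 * v 0 * v 2 ^ 2 - 4 * v 1 * v 2 * v 4) * f1 +
      (5 * v 0 ^ 2 * v 2 - 2 * v 1 * v 2 * v 5 - v 2 ^ 2 * v 4) * f2)
    (by linear_combination (2 * v 0 * v 1 * v 2 + v 2 ^ 3) * e1 + (2 * v 0 * v 2) * e +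
      (-10 * v 0 * v 1 ^ 2 - 2 * v 0 * v 2 * v 3 - 4 * v 1 * v 2 ^ 2) * f0 +
      (-2 * v 0 * v 2 * v 4 + 2 * v 2 ^ 2 * v 5) * f1 + (-4 * v 0 * v 2 * v 5) * f2)
    (by linear_combination (2 * v 0 * v 1 * v 2 + v 2 ^ 3) * e2 +
      (2 * v 0 * v 1 + 3 * v 2 ^ 2) * e +
      (-4 * v 0 * v 1 * v 3 - 2 * v 1 ^ 2 * v 2 - 4 * v 2 ^ 2 * v 3) * f0 +
      (-2 * v 0 ^ 2 * v 2 - 2 * v 0 * v 1 * v 4 - 2 * v 1 * v 2 * v 5 - 4 * v 2 ^ 2 * v 4) * f1 +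
      (v 0 ^ 3 - 2 * v 0 * v 1 * v 5 + v 0 * v 2 * v 4 - 4 * v 2 ^ 2 * v 5) * f2)
  rw [x0, x2] at e0
  rw [x1] at e1
  have x4 : v 4 = 0 := by
    have h : v 4 ^ 2 = 0 := by linear_combination e0
    exact pow_eq_zero_iff (by norm_num : 2 ≠ 0) |>.1 h
  have x5 : v 5 = 0 := by
    have h : v 5 ^ 2 = 0 := by linear_combination (-1 / 2) * e1
    exact pow_eq_zero_iff (by norm_num : 2 ≠ 0) |>.1 h
  have x3 : v 3 = 0 := by
    have h : v 3 ^ 2 = 0 := by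
      rw [x0, x1, x5] at e2
      linear_combination -e2
    exact pow_eq_zero_iff (by norm_num : 2 ≠ 0) |>.1 h
  apply hv
  funext i
  fin_cases i
  · exact x0
  · exact x1
  · exact x2
  · exact x3
  · exact x4
  · exact x5

end Pool.Agent.DIX
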