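import Pool.Agent.DIX.ThetaNe
import Pool.Agent.PLN.Example

/-!
# DIX: the explicit example satisfies the hypotheses of the intrinsic theorem

`exM`, `exG` (see `Pool.Agent.PLN.Example`): no cubic form `α` is such that `α exG adj(exM)_33` is a
nonzero square on the discriminant curve.
-/

set_option autoImplicit false

namespace Pool.Agent.DIX

open MvPolynomial Pool.Agent.PLN Matrix

theorem exTheta_none {α : S3} (hα : α.IsHomogeneous 3) :
    ¬ SqMod exM.det (α * (exG * exM.adjugate 3 3)) := by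
  intro h
  have h1 : (net exN).det = C (-1) * exM.det := by
    rw [exN_det, exM_det, map_neg, C_1]
    ring
  refine theta_ne (det_cub exM_cub) exM_smooth (net_symm exN_symm) (fun i j => ?_)
    (neg_ne_zero.2 one_ne_zero) h1 1 hα.neg ?_
  · exact IsHomogeneous.sum _ _ _ fun k _ => isHomogeneous_C_mul_X _ _
  rwa [exN_adj, neg_mul_neg]

theorem exTheta_hyp : IsCub exM ∧ SmoothCurve exM.det ∧ exG.IsHomogeneous (2 * 1) ∧
    Irreducible exG ∧ SqMod exG exM.det ∧ ¬ exM.det ∣ exM.adjugate 3 3 ∧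
    ¬ ∃ α₀ : S3, α₀.IsHomogeneous 3 ∧ SqMod exM.det (α₀ * (exG * exM.adjugate 3 3)) ∧
      ∀ α : S3, α.IsHomogeneous 3 → SqMod exM.det (α * (exG * exM.adjugate 3 3)) →
        ∃ c : ℂ, α = C c * α₀ := by
  refine ⟨exM_cub, exM_smooth, exG_hom, exG_irr, ?_, ?_, ?_⟩
  · exact ex_split
  · obtain ⟨_, _, _, _, _, h, _⟩ := ex_square
    intro h1
    exact h ((h1.mul_left exG).mul_right _)
  · rintro ⟨α₀, hα₀, hs, -⟩
    exact exTheta_none hα₀ hs

end Pool.Agent.DIX
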