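import Pool.Agent.DIX.OddDeg
import Pool.Agent.DIX.EvenG

set_option autoImplicit false

/-!
# MP_4d0966_ag: cubic fourfolds containing a plane: an intrinsic criterion of rationality

Every cubic form in `x0, x1, x2, y0, y1, y2` which vanishes on the plane `x = 0` is
`cubic M = ∑ a_ij(x) y_i y_j + 2 ∑ b_i(x) y_i + c(x)` for a symmetric matrix `M` (`IsCub M`), and
`det M = 0` is the discriminant sextic `D` of the quadric surface fibration defined by the plane.
`A = adj(M)_33` is the determinant of the block `(a_ij)` of linear forms: the plane cubic `A = 0`
touches `D` everywhere, it defines a theta characteristic of `D` with exactly one section.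

`γ = 0` is an irreducible plane curve over which `det M` is a square (`SqMod γ M.det`): the quadrics
over it have two rulings, it is the image of a curve `Γ` on the double covering `S` of the plane
branched along `D` (a K3 surface).  `Γ` restricts to `D`: this changes the theta characteristic.

If `γ` has even degree, the cubic forms `α` such that `α γ A` is a square on `D` (`Cub M γ α`) are the
squares of the sections of the new theta characteristic.  The hypothesis `heven` says that its
space of sections has dimension different from one, in particular it holds if there is no such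
`α`.

If `γ` has odd degree, one gets a point of order two of the Jacobian in place of a theta
characteristic.  The theorem produces a double covering `w ^ 2 = t(s; y)` of `ℙ² × ℙ²`
(`VClass M γ t`), or shows directly that the cubic fourfold is rational; `hodd` asks for a rational
section over the plane of `y`.
-/

namespace Pool.Agent.DIX.Final

open Pool.Agent.PLN Pool.Agent.DIX MvPolynomial Matrix

/-- `α` is a cubic form such that `α γ adj(M)_33` is a nonzero square in the function field of the
curve `det M = 0`. -/
def Cub (M : Matrix (Fin 4) (Fin 4) S3) (γ α : S3) : Prop :=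
  α.IsHomogeneous 3 ∧ SqMod M.det (α * (γ * M.adjugate 3 3))

theorem result (M : Matrix (Fin 4) (Fin 4) S3) (hM : IsCub M) (hS : SmoothCurve M.det)
    (γ : S3) (m : ℕ) (hγ : γ.IsHomogeneous m) (hi : Irreducible γ) (hsplit : SqMod γ M.det)
    (heven : Even m → ¬ ∃ α₀, Cub M γ α₀ ∧ ∀ α, Cub M γ α → ∃ c : ℂ, α = C c * α₀)
    (hodd : Odd m → (∃ t, VClass M γ t) → ∃ t, VClass M γ t ∧ HasSection t) :
    Pool.Agent.P28.Rational (cubic M) := by
  have hE := locEven_gam' (det_cub hM) hS hγ hi hsplit
  rcases Nat.even_or_odd m with hm | hm
  · obtain ⟨k, hk⟩ := hm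
    have hγ' : γ.IsHomogeneous (2 * k) := by rwa [two_mul, ← hk]
    refine even_rational hM hS hγ' hi hsplit hE 3 (adj33 hM hS) ?_
    rintro ⟨α₀, h1, h2, h3⟩
    exact heven ⟨k, hk⟩ ⟨α₀, ⟨h1, h2⟩, fun α hα => h3 α hα.1 hα.2⟩
  · obtain ⟨k, hk⟩ := hm
    have hγ' : γ.IsHomogeneous (2 * k + 1) := by rwa [← hk]
    exact odd_rational hM hS hγ' hi hsplit hE (hodd ⟨k, hk⟩)

end Pool.Agent.DIX.Final
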