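import Pool.Agent.DIX.Min

/-!
# DIX: a basis of the module of sections

`gen_of_star`: independent sections with the property `star` generate.
PROOF. By `cramer`, `a0 h = ∑ a_i g_i` modulo `D` with `a0 ≠ 0` a binary form of degree `t`, `a_i`
of degree `t + e - ε i`. Induction on `t` (`t ≥ 0` because `a0 ≠ 0`), for all `a0`, `a`. `t = 0`:
`a0` is a nonzero constant, divide. `t > 0`: `a0` has a zero `Q` (`exists_root`), `a0 = pl Q b0`
(`pl_dvd`, `HomZ.cancel`); `y` with `y(Q) = 1`; put `m = t + e`, `κ i = a_i(Q)`,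
`a_i = κ i y^(m - ε i) + pl Q b_i` (`bin_split`; `κ i = 0` if `m < ε i`). Then
`∑ κ i y^(m - ε i) g_i = pl Q (b0 h - ∑ b_i g_i)` modulo `D`, and `b0 h - ∑ b_i g_i` is a section
of degree `m - 1`; by `star` `κ = 0`. So `pl Q (b0 h - ∑ b_i g_i) = 0` modulo `D`, cancel `pl Q`
(`emb_not_dvd`): `b0 h = ∑ b_i g_i`, induction hypothesis.

`exists_bas`: a basis exists (`exists_min`, `star_of_min`, `gen_of_star`).
-/

set_option autoImplicit false

namespace Pool.Agent.DIX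

open MvPolynomial Pool.Agent.PLN

variable {D q : S3} {p : ℤ} {r : ℕ} {J : Fin r → S3} {J2 : Fin r → Fin r → S3}

private theorem Gen_embC (c : ℂ) : emb (C c) = (C c : S3) := by
  rw [emb, rename_C]

private theorem Gen_aux (h : Dat D q p J J2) {ε : Fin 6 → ℤ} {g : Fin 6 → S3}
    (hg : ∀ i, Sec D q J (g i) (ε i))
    (hstar : ∀ (Q : Fin 2 → ℂ), Q ≠ 0 → ∀ y : A2, HomZ y 1 → eval Q y = 1 →
      ∀ (κ : Fin 6 → ℂ) (m : ℤ), (∀ i, κ i ≠ 0 → ε i ≤ m) →
        (∃ g' : S3, Sec D q J g' (m - 1) ∧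
          D ∣ ∑ i, C (κ i) * emb y ^ (m - ε i).toNat * g i - emb (pl Q) * g') → κ = 0)
    (w : S3) (e : ℤ) (hw : Sec D q J w e) : ∀ (t : ℕ) (a0 : A2) (a : Fin 6 → A2), a0 ≠ 0 →
      HomZ a0 t → (∀ i, HomZ (a i) (t + e - ε i)) → D ∣ emb a0 * w - ∑ i, emb (a i) * g i →
      ∃ a : Fin 6 → A2, (∀ i, HomZ (a i) (e - ε i)) ∧ D ∣ w - ∑ i, emb (a i) * g i := by
  intro t
  induction t with
  | zero =>
    intro a0 a h0 h1 h2 h3
    obtain ⟨c, rfl⟩ := HomZ.const (by simpa using h1)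
    have hc : c ≠ 0 := by
      rintro rfl
      exact h0 C_0
    refine ⟨fun i => C c⁻¹ * a i, fun i => ?_, ?_⟩
    · have h4 := (homZ_C (n := 2) c⁻¹).mul (h2 i)
      have h5 : (0 : ℤ) + ((0 : ℕ) + e - ε i) = e - ε i := by push_cast; ring
      rwa [h5] at h4
    · have h6 : w - ∑ i, emb (C c⁻¹ * a i) * g i =
          C c⁻¹ * (emb (C c) * w - ∑ i, emb (a i) * g i) := by
        have h7 : (C c⁻¹ : S3) * C c = 1 := by
          rw [← C_mul, inv_mul_cancel₀ hc, C_1]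
        rw [mul_sub, Finset.mul_sum, Gen_embC, ← mul_assoc, h7, one_mul]
        congr 1
        refine Finset.sum_congr rfl fun i _ => ?_
        rw [map_mul, Gen_embC]
        ring
      rw [h6]
      exact Dvd.dvd.mul_left h3 _
  | succ t ih =>
    intro a0 a h0 h1 h2 h3
    obtain ⟨Q, hQ, hQ0⟩ := exists_root h1 (by positivity)
    obtain ⟨b0, rfl⟩ := pl_dvd hQ h1 hQ0
    have hb0 : b0 ≠ 0 := by
      rintro rfl
      exact h0 (mul_zero _)
    have hb0h : HomZ b0 (t : ℤ) := by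
      have h4 := (pl_hom Q).cancel (pl_ne hQ) h1
      have h5 : ((t + 1 : ℕ) : ℤ) - 1 = t := by push_cast; ring
      rwa [h5] at h4
    obtain ⟨y, hy, hyQ⟩ := exists_y hQ
    choose b hb hb' using fun i => bin_split hQ hy hyQ (h2 i)
    have hbh : ∀ i, HomZ (b i) ((t : ℤ) + e - ε i) := fun i => by
      have h4 := hb i
      have h5 : ((t + 1 : ℕ) : ℤ) + e - ε i - 1 = t + e - ε i := by push_cast; ring
      rwa [h5] at h4
    have hemb : ∀ i, emb (a i) = C (eval Q (a i)) *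
        emb y ^ (((t + 1 : ℕ) : ℤ) + e - ε i).toNat + emb (pl Q) * emb (b i) := fun i => by
      conv_lhs => rw [hb' i]
      rw [map_add, map_mul, map_mul, map_pow, Gen_embC]
    have hkey : D ∣ ∑ i, C (eval Q (a i)) * emb y ^ (((t + 1 : ℕ) : ℤ) + e - ε i).toNat * g i -
        emb (pl Q) * (emb b0 * w + ∑ i, emb (- b i) * g i) := by
      have h4 : ∑ i, C (eval Q (a i)) * emb y ^ (((t + 1 : ℕ) : ℤ) + e - ε i).toNat * g i -
          emb (pl Q) * (emb b0 * w + ∑ i, emb (- b i) * g i) =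
          - (emb (pl Q * b0) * w - ∑ i, emb (a i) * g i) := by
        have h5 : ∑ i, emb (a i) * g i =
            ∑ i, C (eval Q (a i)) * emb y ^ (((t + 1 : ℕ) : ℤ) + e - ε i).toNat * g i +
            emb (pl Q) * ∑ i, emb (b i) * g i := by
          rw [Finset.mul_sum, ← Finset.sum_add_distrib]
          refine Finset.sum_congr rfl fun i _ => ?_
          rw [hemb i]
          ring
        have h6 : ∑ i, emb (- b i) * g i = - ∑ i, emb (b i) * g i := by
          rw [← Finset.sum_neg_distrib]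
          refine Finset.sum_congr rfl fun i _ => ?_
          rw [map_neg]
          ring
        rw [h5, h6, map_mul]
        ring
      rw [h4]
      exact (dvd_neg).2 h3
    have hκ := hstar Q hQ y hy hyQ (fun i => eval Q (a i)) (((t + 1 : ℕ) : ℤ) + e) (by
      intro i hi
      by_contra h4
      apply hi
      rw [(h2 i).eq_zero (by omega), map_zero]) ⟨emb b0 * w + ∑ i, emb (- b i) * g i, by
        have h5 : ((t + 1 : ℕ) : ℤ) + e - 1 = t + e := by push_cast; ring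
        rw [h5]
        refine sec_add (sec_mul ((homZ_emb _ _).2 hb0h) hw) (sec_sum _ fun i _ => ?_)
        have h6 := sec_mul ((homZ_emb _ _).2 (hbh i).neg) (hg i)
        have h7 : (t : ℤ) + e - ε i + ε i = t + e := by ring
        rwa [h7] at h6, hkey⟩
    have hκ0 : ∀ i, eval Q (a i) = 0 := fun i => congrFun hκ i
    have hlast : D ∣ emb (pl Q) * (emb b0 * w - ∑ i, emb (b i) * g i) := by
      have h4 : emb (pl Q) * (emb b0 * w - ∑ i, emb (b i) * g i) =
          emb (pl Q * b0) * w - ∑ i, emb (a i) * g i := by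
        rw [mul_sub, Finset.mul_sum, map_mul, mul_assoc]
        congr 1
        refine Finset.sum_congr rfl fun i _ => ?_
        rw [hemb i, hκ0 i, C_0, zero_mul, zero_add, mul_assoc]
      rw [h4]
      exact h3
    have hd := (h.prime.dvd_or_dvd hlast).resolve_left (emb_not_dvd h.cur (pl_ne hQ))
    exact ih b0 b hb0 hb0h hbh hd

theorem gen_of_star (h : Dat D q p J J2) {ε : Fin 6 → ℤ} {g : Fin 6 → S3}
    (hg : ∀ i, Sec D q J (g i) (ε i)) (hdet : (Matrix.of fun i j => crd D (g i) j).det ≠ 0)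
    (hstar : ∀ (Q : Fin 2 → ℂ), Q ≠ 0 → ∀ y : A2, HomZ y 1 → eval Q y = 1 →
      ∀ (κ : Fin 6 → ℂ) (m : ℤ), (∀ i, κ i ≠ 0 → ε i ≤ m) →
        (∃ g' : S3, Sec D q J g' (m - 1) ∧
          D ∣ ∑ i, C (κ i) * emb y ^ (m - ε i).toNat * g i - emb (pl Q) * g') → κ = 0)
    (w : S3) (e : ℤ) (hw : Sec D q J w e) :
    ∃ a : Fin 6 → A2, (∀ i, HomZ (a i) (e - ε i)) ∧ D ∣ w - ∑ i, emb (a i) * g i := by
  obtain ⟨t, a0, a, h0, h1, h2, h3⟩ := cramer h hg hdet hw
  obtain ⟨n, rfl⟩ : ∃ n : ℕ, t = (n : ℤ) := by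
    have h4 : 0 ≤ t := by
      by_contra h5
      exact h0 (h1.eq_zero (by omega))
    exact ⟨t.toNat, (Int.toNat_of_nonneg h4).symm⟩
  exact Gen_aux h hg hstar w e hw n a0 a h0 h1 h2 h3

theorem exists_bas (h : Dat D q p J J2) :
    ∃ (ε : Fin 6 → ℤ) (g : Fin 6 → S3), Bas D q p J J2 ε g := by
  obtain ⟨ε, g, hg, hdet, hmin⟩ := exists_min h
  have hstar : ∀ (Q : Fin 2 → ℂ), Q ≠ 0 → ∀ y : A2, HomZ y 1 → eval Q y = 1 →
      ∀ (κ : Fin 6 → ℂ) (m : ℤ), (∀ i, κ i ≠ 0 → ε i ≤ m) →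
        (∃ g' : S3, Sec D q J g' (m - 1) ∧
          D ∣ ∑ i, C (κ i) * emb y ^ (m - ε i).toNat * g i - emb (pl Q) * g') → κ = 0 :=
    fun Q hQ y hy hyQ κ m hκ hd => star_of_min h hg hdet hmin hQ hy hyQ κ m hκ hd
  exact ⟨ε, g, h, hg, hdet, hstar, gen_of_star h hg hdet hstar⟩

end Pool.Agent.DIX
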