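import Pool.Agent.DIX.Coord
import Pool.Agent.DIX.Cons
import Pool.Agent.DIX.SecSq
import Pool.Agent.PLN.Main

/-!
# DIX: symmetric determinantal representations in arbitrary coordinates

`dix_net`: Dixon's theorem for a smooth plane sextic `D` and a form `q` of odd degree which is even on
`D`: if no nonzero cubic form `α` has `α q` a square on `D`, then `D` is the determinant of a net of
quadrics, and `q` is its theta characteristic.
`dix_two`: if there are two independent such cubic forms, there is a symmetric matrix with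
determinant `D`, with the theta characteristic `q`, and with a totally isotropic plane.
-/

set_option autoImplicit false

namespace Pool.Agent.DIX

open MvPolynomial Pool.Agent.PLN Matrix

/-- The change of coordinates for divisibility. -/
theorem dvd_back {A B : Matrix (Fin 3) (Fin 3) ℂ} (hAB : A * B = 1) {D f : S3} {c : ℂ}
    (hc : c ≠ 0) (h : C c * lc A D ∣ f) : D ∣ lc B f := by
  have h1 := lc_dvd' B ((C_dvd_iff hc).1 h)
  rwa [lc_inv hAB] at h1

theorem dvd_forth {A B : Matrix (Fin 3) (Fin 3) ℂ} (hBA : B * A = 1) {D f : S3} {c : ℂ}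
    (hc : c ≠ 0) (h : D ∣ lc B f) : C c * lc A D ∣ f := by
  have h1 := lc_dvd' A h
  rw [lc_inv hBA] at h1
  exact (C_dvd_iff hc).2 h1

/-- The change of coordinates for a symmetric matrix. -/
theorem rep_back {n : Type} [Fintype n] [DecidableEq n] {A B : Matrix (Fin 3) (Fin 3) ℂ}
    (hAB : A * B = 1) (hBA : B * A = 1) {D q : S3} (hD : Prime D) {c' : ℂ} (hc' : c' ≠ 0)
    {N : Matrix n n S3} (hN : N.IsSymm) {c : ℂ} (hc : c ≠ 0)
    (hdet : N.det = C c * (C c' * lc A D)) {w : n → S3}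
    (hw : ∀ i, C c' * lc A D ∣ w i ^ 2 - C c * (lc A q * N.adjugate i i))
    (hw0 : ∀ i, ¬ C c' * lc A D ∣ w i) :
    (N.map (lc B)).IsSymm ∧ c * c' ≠ 0 ∧ (N.map (lc B)).det = C (c * c') * D ∧
      ∀ i, SqMod D (q * (N.map (lc B)).adjugate i i) := by
  refine ⟨?_, mul_ne_zero hc hc', ?_, fun i => ?_⟩
  · refine Matrix.IsSymm.ext fun i j => ?_
    rw [Matrix.map_apply, Matrix.map_apply, hN.apply]
  · rw [lc_map_det, hdet, map_mul, map_mul, lc_C, lc_C, lc_inv hAB, ← mul_assoc, C_mul]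
  · rw [lc_map_adj]
    refine sqMod_of (w := lc B (w i)) hc hD (fun h => hw0 i (dvd_forth hBA hc' h)) ?_
    have h1 := dvd_back hAB hc' (hw i)
    rwa [map_sub, map_mul, map_mul, lc_C, lc_inv hAB, map_pow] at h1

/-- The form of degree 3 of a section. -/
theorem sec_cubic {A B : Matrix (Fin 3) (Fin 3) ℂ} (hAB : A * B = 1) (hBA : B * A = 1)
    {D q : S3} (hD : Prime D) {c : ℂ} (hc : c ≠ 0) {k w : S3}
    (h : C c * lc A D ∣ w * w - lc A q * k) (hw : ¬ C c * lc A D ∣ w) :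
    SqMod D (lc B k * q) := by
  refine sqMod_of (w := lc B w) one_ne_zero hD (fun h1 => hw (dvd_forth hBA hc h1)) ?_
  have h1 := dvd_back hAB hc h
  rw [map_sub, map_mul, map_mul, lc_inv hAB] at h1
  rw [C_1, one_mul, sq, mul_comm (lc B k)]
  exact h1

theorem dix_net {D q : S3} {e n : ℕ} (hD : D.IsHomogeneous 6) (hS : SmoothCurve D)
    (hq : q.IsHomogeneous e) (he : e + 5 = 2 * n) (hqD : ¬ D ∣ q) (hE : LocEven D q)
    (h0 : ∀ α : S3, α.IsHomogeneous 3 → ¬ SqMod D (α * q)) :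
    ∃ (N : Fin 3 → Matrix (Fin 6) (Fin 6) ℂ) (c : ℂ), (∀ k, (N k).IsSymm) ∧ c ≠ 0 ∧
      (net N).det = C c * D ∧ ∀ i, SqMod D (q * (net N).adjugate i i) := by
  have hpr : Prime D := (smooth_irr hD (by norm_num) (smooth_ne hS) hS).prime
  obtain ⟨A, B, c', hAB, hBA, hc', hcur⟩ := exists_cur hD hS
  have hqD' : ¬ C c' * lc A D ∣ lc A q := fun h => by
    have := dvd_back hAB hc' h
    rw [lc_inv hAB] at this
    exact hqD this
  obtain ⟨r, J, J2, hdat⟩ := mk_dat (p := e) hcur (lc_hom A hq) rfl hqD'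
    (locEven_C hc' (locEven_lc hBA hE))
  obtain ⟨N, c, w, hNs, hc, hdet, hw, hw0⟩ := net_of_no_sec hdat (e0 := n) (by omega) (by
    intro w hw
    by_contra hcon
    obtain ⟨k, hk, hd⟩ := sec_prod hdat hw hw
    have hk3 : k.IsHomogeneous 3 := by
      rw [show (n : ℤ) - 1 + (n - 1) - e = ((3 : ℕ) : ℤ) by push_cast; omega] at hk
      exact (homZ_nat _ _).1 hk
    exact h0 (lc B k) (lc_hom B hk3) (sec_cubic hAB hBA hpr hc' hd hcon))
  obtain ⟨h1, h2, h3, h4⟩ := rep_back hAB hBA hpr hc' (net_symm hNs) hc hdet hw hw0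
  rw [lc_net] at h3 h4
  refine ⟨fun j => ∑ k, B k j • N k, c * c', fun k => ?_, h2, h3, h4⟩
  refine Matrix.IsSymm.ext fun i j => ?_
  show (∑ l, B l k • N l) j i = (∑ l, B l k • N l) i j
  rw [Matrix.sum_apply, Matrix.sum_apply]
  refine Finset.sum_congr rfl fun l _ => ?_
  rw [Matrix.smul_apply, Matrix.smul_apply, (hNs l).apply]

theorem dix_two {D q : S3} {e n : ℕ} (hD : D.IsHomogeneous 6) (hS : SmoothCurve D)
    (hq : q.IsHomogeneous e) (he : e + 5 = 2 * n) (hqD : ¬ D ∣ q) (hE : LocEven D q)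
    {α₁ α₂ : S3} (h₁ : α₁.IsHomogeneous 3) (h₂ : α₂.IsHomogeneous 3)
    (hs₁ : SqMod D (α₁ * q)) (hs₂ : SqMod D (α₂ * q)) (hne : ∀ c : ℂ, α₂ ≠ C c * α₁) :
    ∃ (N : Matrix (Fin 6) (Fin 6) S3) (c : ℂ) (i j : Fin 6), i ≠ j ∧
      N i i = 0 ∧ N i j = 0 ∧ N j j = 0 ∧ N.IsSymm ∧ c ≠ 0 ∧ N.det = C c * D ∧
      (∀ l, ∃ m : ℕ, (N.adjugate l l).IsHomogeneous m) ∧
      ∀ l, SqMod D (q * N.adjugate l l) := by
  have hpr : Prime D := (smooth_irr hD (by norm_num) (smooth_ne hS) hS).prime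
  obtain ⟨A, B, c', hAB, hBA, hc', hcur⟩ := exists_cur hD hS
  have hqD' : ¬ C c' * lc A D ∣ lc A q := fun h => by
    have := dvd_back hAB hc' h
    rw [lc_inv hAB] at this
    exact hqD this
  obtain ⟨r, J, J2, hdat⟩ := mk_dat (p := e) hcur (lc_hom A hq) rfl hqD'
    (locEven_C hc' (locEven_lc hBA hE))
  have hforth : ∀ α : S3, SqMod D (α * q) → SqMod (C c' * lc A D) (lc A α * lc A q) := by
    rintro α ⟨a, b, m, hb, hDb, hDf, hd⟩
    refine ⟨lc A a, lc A b, m, lc_hom A hb, ?_, ?_, ?_⟩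
    · intro h
      have := dvd_back hAB hc' h
      rw [lc_inv hAB] at this
      exact hDb this
    · intro h
      rw [← map_mul] at h
      have := dvd_back hAB hc' h
      rw [lc_inv hAB] at this
      exact hDf this
    · rw [← map_mul, ← map_pow, ← map_pow, ← map_mul, ← map_sub]
      exact dvd_forth hBA hc' (by rwa [lc_inv hAB])
  have hdeg : ∀ α : S3, α.IsHomogeneous 3 → HomZ (lc A α) (2 * ((n : ℤ) - 1) - e) := by
    intro α hα
    rw [show 2 * ((n : ℤ) - 1) - e = ((3 : ℕ) : ℤ) by push_cast; omega]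
    exact (homZ_nat _ _).2 (lc_hom A hα)
  obtain ⟨g₁, hg₁, hd₁⟩ := sec_of_sq hdat (hdeg α₁ h₁) (hforth _ hs₁)
  obtain ⟨g₂, hg₂, hd₂⟩ := sec_of_sq hdat (hdeg α₂ h₂) (hforth _ hs₂)
  have hprc : Prime (C c' * lc A D) := hcur.irr.prime
  have hα₁ : ¬ D ∣ α₁ := by
    intro h
    obtain ⟨_, _, _, _, _, h3, _⟩ := hs₁
    exact h3 (h.mul_right q)
  have hα₂ : ¬ D ∣ α₂ := by
    intro h
    obtain ⟨_, _, _, _, _, h3, _⟩ := hs₂
    exact h3 (h.mul_right q)
  have hind : ∀ c1 c2 : ℂ, C c' * lc A D ∣ C c1 * g₁ + C c2 * g₂ → c1 = 0 ∧ c2 = 0 := by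
    intro c1 c2 h
    -- `c2² q α₂ = c1² q α₁`
    have h3 : C c' * lc A D ∣ lc A q * (C (c2 ^ 2) * lc A α₂ - C (c1 ^ 2) * lc A α₁) := by
      obtain ⟨u, hu⟩ := h
      obtain ⟨v, hv⟩ := hd₁
      obtain ⟨w, hw⟩ := hd₂
      refine ⟨u * (C c2 * g₂ - C c1 * g₁) - C c2 ^ 2 * w + C c1 ^ 2 * v, ?_⟩
      rw [C_pow, C_pow]
      linear_combination (C c2 * g₂ - C c1 * g₁) * hu - C c2 ^ 2 * hw + C c1 ^ 2 * hv
    have h4 : C c' * lc A D ∣ lc A (C (c2 ^ 2) * α₂ - C (c1 ^ 2) * α₁) := by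
      rw [map_sub, map_mul, map_mul, lc_C, lc_C]
      exact (hprc.dvd_or_dvd h3).resolve_left hqD'
    have h5 := dvd_back hAB hc' h4
    rw [lc_inv hAB] at h5
    have h6 : C (c2 ^ 2) * α₂ - C (c1 ^ 2) * α₁ = 0 := by
      by_contra h7
      have h8 : (C (c2 ^ 2) * α₂ - C (c1 ^ 2) * α₁).IsHomogeneous 3 := by
        have h9 := (isHomogeneous_C (Fin 3) (c2 ^ 2)).mul h₂
        have h10 := (isHomogeneous_C (Fin 3) (c1 ^ 2)).mul h₁
        rw [zero_add] at h9 h10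
        exact h9.sub h10
      obtain ⟨t, ht⟩ := h5
      have h11 := h8.totalDegree h7
      have ht0 : t ≠ 0 := by
        rintro rfl
        rw [mul_zero] at ht
        exact h7 ht
      rw [ht, totalDegree_mul_of_isDomain hpr.ne_zero ht0, hD.totalDegree hpr.ne_zero] at h11
      omega
    by_cases hc2 : c2 = 0
    · refine ⟨?_, hc2⟩
      subst hc2
      rw [zero_pow two_ne_zero, C_0, zero_mul, zero_sub, neg_eq_zero, mul_eq_zero, C_eq_zero] at h6
      rcases h6 with h6 | h6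
      · exact pow_eq_zero_iff two_ne_zero |>.1 h6
      · exact absurd (h6 ▸ dvd_zero D) hα₁
    · exfalso
      apply hne ((c2 ^ 2)⁻¹ * c1 ^ 2)
      have h7 : (C (c2 ^ 2)⁻¹ * C (c2 ^ 2) : S3) = 1 := by
        rw [← C_mul, inv_mul_cancel₀ (pow_ne_zero 2 hc2), C_1]
      rw [C_mul]
      linear_combination C (c2 ^ 2)⁻¹ * h6 - α₂ * h7
  obtain ⟨N, c, w, i, j, hij, h11, h12, h22, hNs, hc, hdet, hadj, hw, hw0⟩ :=
    two_of_two_sec hdat (e0 := n) (by omega) hg₁ hg₂ hind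
  obtain ⟨h3, h4, h5, h6⟩ := rep_back hAB hBA hpr hc' hNs hc hdet hw hw0
  refine ⟨N.map (lc B), c * c', i, j, hij, ?_, ?_, ?_, h3, h4, h5, fun l => ?_, h6⟩
  · rw [Matrix.map_apply, h11, map_zero]
  · rw [Matrix.map_apply, h12, map_zero]
  · rw [Matrix.map_apply, h22, map_zero]
  · obtain ⟨m, hm⟩ := hadj l
    exact ⟨m, by rw [lc_map_adj]; exact lc_hom B hm⟩

end Pool.Agent.DIX
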