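import Pool.Agent.DIX.Gen

/-!
# DIX: the Gram determinant of a basis is a constant

`g_i g_j = q k_ij` modulo `D`, `G_ij = lam D (k_ij)`, a binary form of degree `ε i + ε j - p - 5`.

`gram_ne`: `det G ≠ 0`.  PROOF.  Otherwise there is `c ≠ 0` over `A2` with `c ᵥ* G = 0`
(`Matrix.exists_vecMul_eq_zero_iff`).  Let `g'` be a section, `g_i g' = q k_i'` (`sec_prod`);
`g' = ∑ a_j g_j` (`gen`), so `q k_i' = q ∑ a_j k_ij`, `lam D (∑ emb(c_i) k_i') = ∑ c_i a_j G_ij
= 0`.
Apply this to `g' = x0^l q` (`sec_q`): `k_i' = x0^l g_i`, so `lam D (x0^l v) = 0` for all `l`, where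
`v = ∑ emb(c_i) g_i`; by `perf` with `a = 0`, `D ∣ v`, and `ind_iff` gives `c = 0`.

`gram_const`: `det G` is a nonzero constant and `∑ (2 ε i - p - 5) = 0`.
PROOF.  `det G` is a binary form of degree `d = ∑ (2 ε i - p - 5)` (`homZ_det`), so `d ≥ 0`.  If
`d = 0` it is constant.  Let `d > 0`: it has a zero `Q ≠ 0` (`exists_root`); `y` with `y(Q) = 1`.
The complex matrix `G(Q)` is singular: `κ ≠ 0` with `κ ᵥ* G(Q) = 0`.  Let `m` be the maximum of the
`ε i` (or any integer `≥` all of them), `v = ∑ C (κ i) y^(m - ε i) g_i`, a section of degree `m`.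
CLAIM: for every section `g'` with `v g' = q k`: `pl Q ∣ lam D k`.  `g' = ∑ a_j g_j`, so
`lam D k = ∑_j a_j ∑_i κ_i y^(m - ε i) G_ij`, and the inner sum is a binary form of degree
`m + ε j - p - 5` with the value `∑ κ_i G_ij(Q) = 0` at `Q`: divisible by `pl Q` (`pl_dvd`).
`self_dual` gives `v = pl Q g''`, `g''` a section of degree `m - 1`, and `star` gives `κ = 0`:
contradiction.
-/

set_option autoImplicit false

namespace Pool.Agent.DIX

open MvPolynomial Pool.Agent.PLN Matrix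

variable {D q : S3} {p : ℤ} {r : ℕ} {J : Fin r → S3} {J2 : Fin r → Fin r → S3}
  {ε : Fin 6 → ℤ} {g : Fin 6 → S3}

/-- cancel `q` -/
private theorem Gram_cancel (h : Dat D q p J J2) {a b : S3} (hd : D ∣ q * a - q * b) :
    D ∣ a - b := by
  rw [← mul_sub] at hd
  exact (h.prime.dvd_or_dvd hd).resolve_left h.ndvd

private theorem Gram_sum_dvd {ι : Type} (s : Finset ι) {φ ψ : ι → S3}
    (h : ∀ i ∈ s, D ∣ φ i - ψ i) : D ∣ ∑ i ∈ s, φ i - ∑ i ∈ s, ψ i := by
  rw [← Finset.sum_sub_distrib]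
  exact Finset.dvd_sum h

/-- products of a basis element with a combination of the basis -/
private theorem Gram_lin {k : Fin 6 → Fin 6 → S3}
    (hk : ∀ i j, D ∣ g i * g j - q * k i j) {w : S3} {a : Fin 6 → A2}
    (hw : D ∣ w - ∑ i, emb (a i) * g i) (i : Fin 6) :
    D ∣ g i * w - q * ∑ j, emb (a j) * k i j := by
  have h1 : D ∣ ∑ j, emb (a j) * (g i * g j) - ∑ j, emb (a j) * (q * k i j) := by
    refine Gram_sum_dvd _ (fun j _ => ?_)
    rw [← mul_sub]
    exact (hk i j).mul_left _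
  have h2 : D ∣ g i * (w - ∑ j, emb (a j) * g j) := hw.mul_left _
  have h3 := dvd_add h2 h1
  refine h3.trans (dvd_of_eq ?_)
  have e1 : ∑ j, emb (a j) * (g i * g j) = g i * ∑ j, emb (a j) * g j := by
    rw [Finset.mul_sum]
    exact Finset.sum_congr rfl (fun j _ => by ring)
  have e2 : ∑ j, emb (a j) * (q * k i j) = q * ∑ j, emb (a j) * k i j := by
    rw [Finset.mul_sum]
    exact Finset.sum_congr rfl (fun j _ => by ring)
  rw [e1, e2]
  ring

theorem gram_ne (hB : Bas D q p J J2 ε g) {k : Fin 6 → Fin 6 → S3}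
    (hk : ∀ i j, D ∣ g i * g j - q * k i j) :
    (Matrix.of fun i j => lam D (k i j)).det ≠ 0 := by
  intro hdet
  obtain ⟨c, hc0, hc⟩ := Matrix.exists_vecMul_eq_zero_iff.2 hdet
  refine hc0 ((ind_iff hB.dat.cur g).1 hB.ind c ?_)
  have hcur := hB.dat.cur
  have hl : ∀ l : ℕ, lam D (X 0 ^ l * ∑ i, emb (c i) * g i) = 0 := by
    intro l
    have hs : Sec D q J (q * X 0 ^ l) (p + (l : ℤ) * 1) :=
      sec_q hB.dat ((homZ_X (0 : Fin 3)).pow l)
    obtain ⟨a, -, ha⟩ := hB.gen _ _ hs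
    have h1 : ∀ i, lam D (X 0 ^ l * g i) = ∑ j, a j * lam D (k i j) := by
      intro i
      have h2 := Gram_lin hk ha i
      have h3 : D ∣ q * (X 0 ^ l * g i) - q * ∑ j, emb (a j) * k i j := by
        refine h2.trans (dvd_of_eq ?_)
        ring
      rw [lam_congr hcur (Gram_cancel hB.dat h3), lam_sum]
      exact Finset.sum_congr rfl (fun j _ => lam_mul _ _)
    have h4 : lam D (X 0 ^ l * ∑ i, emb (c i) * g i) = ∑ i, c i * ∑ j, a j * lam D (k i j) := by
      rw [Finset.mul_sum, lam_sum]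
      refine Finset.sum_congr rfl (fun i _ => ?_)
      rw [← h1 i, ← lam_mul]
      congr 1
      ring
    rw [h4]
    have h5 : ∀ j, ∑ i, c i * lam D (k i j) = 0 := by
      intro j
      have := congrFun hc j
      simpa [Matrix.vecMul, dotProduct] using this
    calc ∑ i, c i * ∑ j, a j * lam D (k i j) = ∑ i, ∑ j, a j * (c i * lam D (k i j)) := by
          refine Finset.sum_congr rfl (fun i _ => ?_)
          rw [Finset.mul_sum]
          exact Finset.sum_congr rfl (fun j _ => by ring)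
      _ = ∑ j, ∑ i, a j * (c i * lam D (k i j)) := Finset.sum_comm
      _ = ∑ j, a j * ∑ i, c i * lam D (k i j) :=
          Finset.sum_congr rfl (fun j _ => by rw [Finset.mul_sum])
      _ = 0 := by
          refine Finset.sum_eq_zero (fun j _ => ?_)
          rw [h5 j, mul_zero]
  obtain ⟨k', hk'⟩ := perf hcur (a := 0) (k := ∑ i, emb (c i) * g i)
    (fun i _ => by rw [hl i])
  simpa using hk'

theorem gram_const (hB : Bas D q p J J2 ε g) {k : Fin 6 → Fin 6 → S3}
    (hk : ∀ i j, D ∣ g i * g j - q * k i j) (hh : ∀ i j, HomZ (k i j) (ε i + ε j - p)) :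
    ∃ c : ℂ, c ≠ 0 ∧ (Matrix.of fun i j => lam D (k i j)).det = C c ∧
      ∑ i, (2 * ε i - p - 5) = 0 := by
  have hcur := hB.dat.cur
  have hne := gram_ne hB hk
  have hG : ∀ i j, HomZ ((Matrix.of fun i j => lam D (k i j)) i j) ((ε i - p - 5) + ε j) := by
    intro i j
    have h1 := lam_hom hcur (hh i j)
    have e : ε i + ε j - p - 5 = (ε i - p - 5) + ε j := by ring
    rw [e] at h1
    exact h1
  have hdet := homZ_det hG
  have hsum : ∑ i, (ε i - p - 5) + ∑ j, ε j = ∑ i, (2 * ε i - p - 5) := by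
    rw [← Finset.sum_add_distrib]
    exact Finset.sum_congr rfl (fun i _ => by ring)
  rw [hsum] at hdet
  set d : ℤ := ∑ i, (2 * ε i - p - 5) with hd
  have hd0 : 0 ≤ d := by
    by_contra hlt
    exact hne (hdet.eq_zero (not_le.1 hlt))
  rcases hd0.lt_or_eq with hpos | h0
  swap
  · rw [← h0] at hdet
    obtain ⟨c, hc⟩ := hdet.const
    refine ⟨c, ?_, hc, h0.symm⟩
    rintro rfl
    exact hne (by rw [hc, C_0])
  exfalso
  obtain ⟨Q, hQ, hQ0⟩ := exists_root hdet hpos
  obtain ⟨y, hy, hyQ⟩ := exists_y hQ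
  have hdQ : ((Matrix.of fun i j => lam D (k i j)).map (eval Q)).det = 0 := by
    rw [← hQ0, RingHom.map_det]
    rfl
  obtain ⟨κ, hκ0, hκ⟩ := Matrix.exists_vecMul_eq_zero_iff.2 hdQ
  have hκj : ∀ j, ∑ i, κ i * eval Q (lam D (k i j)) = 0 := by
    intro j
    have := congrFun hκ j
    simpa [Matrix.vecMul, dotProduct] using this
  obtain ⟨m, hm⟩ : ∃ m : ℤ, ∀ i, ε i ≤ m := by
    obtain ⟨m, hm⟩ := (Set.finite_range ε).bddAbove
    exact ⟨m, fun i => hm ⟨i, rfl⟩⟩
  have hco : ∀ i, HomZ (C (κ i) * y ^ (m - ε i).toNat) (m - ε i) := by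
    intro i
    have h1 := (homZ_C (n := 2) (κ i)).mul (hy.pow (m - ε i).toNat)
    have e : 0 + ((m - ε i).toNat : ℤ) * 1 = m - ε i := by
      rw [Int.toNat_of_nonneg (by linarith [hm i])]
      ring
    rw [e] at h1
    exact h1
  have hce : ∀ i, C (κ i) * emb y ^ (m - ε i).toNat = emb (C (κ i) * y ^ (m - ε i).toNat) := by
    intro i
    rw [map_mul, map_pow]
    congr 1
    simp [emb]
  have hv : Sec D q J (∑ i, C (κ i) * emb y ^ (m - ε i).toNat * g i) m := by
    refine sec_sum _ (fun i _ => ?_)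
    rw [hce i]
    have h1 := sec_mul ((homZ_emb _ _).2 (hco i)) (hB.sec i)
    have e : m - ε i + ε i = m := by ring
    rw [e] at h1
    exact h1
  obtain ⟨g'', hs'', hd''⟩ := self_dual hB.dat hv (pl_ne hQ) (pl_hom Q) (by
    intro g' e' k' hg' hk'
    obtain ⟨a, -, ha⟩ := hB.gen g' e' hg'
    have h1 : ∀ i, D ∣ g i * g' - q * ∑ j, emb (a j) * k i j := fun i => Gram_lin hk ha i
    have h2 : D ∣ ∑ i, emb (C (κ i) * y ^ (m - ε i).toNat) * (g i * g') -
        ∑ i, emb (C (κ i) * y ^ (m - ε i).toNat) * (q * ∑ j, emb (a j) * k i j) := by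
      refine Gram_sum_dvd _ (fun i _ => ?_)
      rw [← mul_sub]
      exact (h1 i).mul_left _
    have h3 : D ∣ q * k' - q * ∑ i, emb (C (κ i) * y ^ (m - ε i).toNat) *
        ∑ j, emb (a j) * k i j := by
      have h4 := dvd_sub h2 hk'
      refine h4.trans (dvd_of_eq ?_)
      have e1 : ∑ i, emb (C (κ i) * y ^ (m - ε i).toNat) * (g i * g') =
          (∑ i, C (κ i) * emb y ^ (m - ε i).toNat * g i) * g' := by
        rw [Finset.sum_mul]
        refine Finset.sum_congr rfl (fun i _ => ?_)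
        rw [hce i]
        ring
      have e2 : ∑ i, emb (C (κ i) * y ^ (m - ε i).toNat) * (q * ∑ j, emb (a j) * k i j) =
          q * ∑ i, emb (C (κ i) * y ^ (m - ε i).toNat) * ∑ j, emb (a j) * k i j := by
        rw [Finset.mul_sum]
        exact Finset.sum_congr rfl (fun i _ => by ring)
      rw [e1, e2]
      ring
    rw [lam_congr hcur (Gram_cancel hB.dat h3), lam_sum]
    have h5 : ∀ i, lam D (emb (C (κ i) * y ^ (m - ε i).toNat) * ∑ j, emb (a j) * k i j) =
        ∑ j, a j * (C (κ i) * y ^ (m - ε i).toNat * lam D (k i j)) := by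
      intro i
      rw [lam_mul, lam_sum, Finset.mul_sum]
      refine Finset.sum_congr rfl (fun j _ => ?_)
      rw [lam_mul]
      ring
    rw [Finset.sum_congr rfl (fun i _ => h5 i), Finset.sum_comm]
    refine Finset.dvd_sum (fun j _ => ?_)
    rw [← Finset.mul_sum]
    refine Dvd.dvd.mul_left ?_ _
    have h6 : HomZ (∑ i, C (κ i) * y ^ (m - ε i).toNat * lam D (k i j)) (m + ε j - p - 5) := by
      refine HomZ.sum _ _ (fun i _ => ?_)
      have h7 := (hco i).mul (lam_hom hcur (hh i j))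
      have e : m - ε i + (ε i + ε j - p - 5) = m + ε j - p - 5 := by ring
      rw [e] at h7
      exact h7
    refine pl_dvd hQ h6 ?_
    rw [map_sum, ← hκj j]
    refine Finset.sum_congr rfl (fun i _ => ?_)
    rw [map_mul, map_mul, map_pow, eval_C, hyQ, one_pow, mul_one])
  exact hκ0 (hB.star Q hQ y hy hyQ κ m (fun i _ => hm i) ⟨g'', hs'', hd''⟩)

end Pool.Agent.DIX
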