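import Pool.Agent.DIX.Defs

/-!
# DIX: integer degrees of forms

Elementary lemmas on `HomZ` (all monomials of `k` have degree `d`, an integer).
Relation with Mathlib: `IsHomogeneous` (`Finsupp.weight` / `Finsupp.degree`; the degree of `c` is
`∑ i, c i`).  `cancel`: if `a ≠ 0`, `HomZ a d` and `HomZ (a * b) e` then `HomZ b (e - d)` (all
homogeneous components of `b` of other degrees vanish: `a * b_m` is the component of degree
`d + m` of `a * b`).  `dvd_comp`: if the form `D` divides `g - f * k`, where `g, f` are forms, then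
`k` can be replaced by a form (its homogeneous component of degree `e - p`; the cofactor is replaced by
its component too; `0` if `e - p < 0`, and then `D ∣ g`).  `det`: `Matrix.det_apply`.
-/

set_option autoImplicit false

namespace Pool.Agent.DIX

open MvPolynomial Pool.Agent.PLN

variable {n : ℕ} {a b k : MvPolynomial (Fin n) ℂ} {d e : ℤ}

private theorem homZ_weight (c : Fin n →₀ ℕ) :
    Finsupp.weight (1 : Fin n → ℕ) c = ∑ i, c i := by
  rw [← Finsupp.degree_eq_sum]
  exact (DFunLike.congr_fun Finsupp.degree_eq_weight_one c).symm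

theorem homZ_nat (k : MvPolynomial (Fin n) ℂ) (m : ℕ) : HomZ k (m : ℤ) ↔ k.IsHomogeneous m := by
  constructor
  · intro h c hc
    rw [homZ_weight]
    exact_mod_cast h c hc
  · intro h c hc
    have h1 := h hc
    rw [homZ_weight] at h1
    exact_mod_cast h1

theorem HomZ.exists_nat (h : HomZ k d) (h0 : k ≠ 0) :
    ∃ m : ℕ, d = (m : ℤ) ∧ k.IsHomogeneous m := by
  obtain ⟨c, hc⟩ := MvPolynomial.ne_zero_iff.1 h0
  refine ⟨∑ i, c i, (h c hc).symm, ?_⟩
  rw [← homZ_nat, h c hc]
  exact h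

theorem HomZ.eq_zero (h : HomZ k d) (hd : d < 0) : k = 0 := by
  by_contra h0
  obtain ⟨m, hm, -⟩ := h.exists_nat h0
  omega

theorem homZ_zero (d : ℤ) : HomZ (0 : MvPolynomial (Fin n) ℂ) d := by
  intro c hc
  exact absurd (coeff_zero c) hc

theorem HomZ.add (ha : HomZ a d) (hb : HomZ b d) : HomZ (a + b) d := by
  intro c hc
  rw [coeff_add] at hc
  by_cases h : coeff c a = 0
  · rw [h, zero_add] at hc
    exact hb c hc
  · exact ha c h

theorem HomZ.neg (ha : HomZ a d) : HomZ (-a) d := by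
  intro c hc
  rw [coeff_neg] at hc
  exact ha c (neg_ne_zero.1 hc)

theorem HomZ.sub (ha : HomZ a d) (hb : HomZ b d) : HomZ (a - b) d := by
  rw [sub_eq_add_neg]
  exact ha.add hb.neg

theorem HomZ.mul (ha : HomZ a d) (hb : HomZ b e) : HomZ (a * b) (d + e) := by
  by_cases h1 : a = 0
  · rw [h1, zero_mul]
    exact homZ_zero _
  by_cases h2 : b = 0
  · rw [h2, mul_zero]
    exact homZ_zero _
  obtain ⟨m, rfl, hm⟩ := ha.exists_nat h1
  obtain ⟨l, rfl, hl⟩ := hb.exists_nat h2
  rw [← Nat.cast_add, homZ_nat]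
  exact hm.mul hl

theorem homZ_C (c : ℂ) : HomZ (C c : MvPolynomial (Fin n) ℂ) 0 := by
  rw [← Nat.cast_zero, homZ_nat]
  exact isHomogeneous_C _ c

theorem homZ_X (i : Fin n) : HomZ (X i : MvPolynomial (Fin n) ℂ) 1 := by
  rw [← Nat.cast_one, homZ_nat]
  exact isHomogeneous_X _ i

private theorem homZ_one : HomZ (1 : MvPolynomial (Fin n) ℂ) 0 := by
  have h := homZ_C (n := n) 1
  rwa [C_1] at h

theorem HomZ.pow (ha : HomZ a d) (m : ℕ) : HomZ (a ^ m) (m * d) := by
  induction m with
  | zero =>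
    rw [pow_zero, Nat.cast_zero, zero_mul]
    exact homZ_one
  | succ m ih =>
    have h1 := ih.mul ha
    have h2 : (m : ℤ) * d + d = ((m + 1 : ℕ) : ℤ) * d := by
      push_cast
      ring
    rw [h2, ← pow_succ] at h1
    exact h1

theorem HomZ.sum {ι : Type} (s : Finset ι) (φ : ι → MvPolynomial (Fin n) ℂ)
    (h : ∀ i ∈ s, HomZ (φ i) d) : HomZ (∑ i ∈ s, φ i) d :=
  Finset.sum_induction φ (fun p => HomZ p d) (fun _ _ => HomZ.add) (homZ_zero d) h

theorem HomZ.unique (h : HomZ k d) (h' : HomZ k e) (h0 : k ≠ 0) : d = e := by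
  obtain ⟨c, hc⟩ := MvPolynomial.ne_zero_iff.1 h0
  rw [← h c hc, ← h' c hc]

theorem HomZ.const (h : HomZ k 0) : ∃ c : ℂ, k = C c := by
  refine ⟨coeff 0 k, ?_⟩
  ext c
  rw [coeff_C]
  split_ifs with h1
  · rw [h1]
  · by_contra h2
    have h3 := h c h2
    apply h1
    ext i
    have h4 : ∑ i, c i = 0 := by exact_mod_cast h3
    have h5 := (Finset.sum_eq_zero_iff_of_nonneg (fun i _ => Nat.zero_le (c i))).1 h4 i
      (Finset.mem_univ i)
    rw [h5]
    rfl

private theorem homZ_comp_mem {F : MvPolynomial (Fin n) ℂ} {i : ℕ} (m : ℕ)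
    (hF : F.IsHomogeneous i) : homogeneousComponent m F = if m = i then F else 0 :=
  homogeneousComponent_of_mem ((mem_homogeneousSubmodule i F).2 hF)

private theorem homZ_comp_sum {F : MvPolynomial (Fin n) ℂ} {i m : ℕ} (hF : F.IsHomogeneous i)
    (b : MvPolynomial (Fin n) ℂ) : homogeneousComponent m (F * b) =
      ∑ t ∈ Finset.range (b.totalDegree + 1),
        if m = i + t then F * homogeneousComponent t b else 0 := by
  conv_lhs => rw [← sum_homogeneousComponent b, Finset.mul_sum, map_sum]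
  exact Finset.sum_congr rfl fun t _ =>
    homZ_comp_mem m (hF.mul (homogeneousComponent_isHomogeneous t b))

private theorem homZ_comp_le {F : MvPolynomial (Fin n) ℂ} {i m : ℕ} (hF : F.IsHomogeneous i)
    (b : MvPolynomial (Fin n) ℂ) (him : i ≤ m) :
    homogeneousComponent m (F * b) = F * homogeneousComponent (m - i) b := by
  rw [homZ_comp_sum hF, Finset.sum_eq_single (m - i)]
  · rw [if_pos (by omega)]
  · intro t _ ht
    rw [if_neg (by omega)]
  · intro h
    rw [Finset.mem_range, not_lt] at h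
    rw [homogeneousComponent_eq_zero (m - i) b (by omega), mul_zero, ite_self]

private theorem homZ_comp_not_le {F : MvPolynomial (Fin n) ℂ} {i m : ℕ} (hF : F.IsHomogeneous i)
    (b : MvPolynomial (Fin n) ℂ) (him : ¬ i ≤ m) :
    homogeneousComponent m (F * b) = 0 := by
  rw [homZ_comp_sum hF]
  refine Finset.sum_eq_zero fun t _ => ?_
  rw [if_neg (by omega)]

theorem HomZ.cancel (ha : HomZ a d) (h0 : a ≠ 0) (hab : HomZ (a * b) e) : HomZ b (e - d) := by
  by_cases hb : b = 0
  · rw [hb]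
    exact homZ_zero _
  obtain ⟨m, rfl, hm⟩ := ha.exists_nat h0
  obtain ⟨l, rfl, hl⟩ := hab.exists_nat (mul_ne_zero h0 hb)
  intro c hc
  have h1 : homogeneousComponent (∑ i, c i) b ≠ 0 := by
    intro h
    have h2 := congrArg (coeff c) h
    rw [coeff_homogeneousComponent, Finsupp.degree_eq_sum, if_pos rfl, coeff_zero] at h2
    exact hc h2
  have h2 := homZ_comp_le hm b (Nat.le_add_right m (∑ i, c i))
  rw [Nat.add_sub_cancel_left] at h2
  have h3 := homZ_comp_mem (m + ∑ i, c i) hl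
  rw [h2] at h3
  have h4 : m + ∑ i, c i = l := by
    by_contra h
    rw [if_neg h] at h3
    exact mul_ne_zero h0 h1 h3
  rw [← h4]
  push_cast
  ring

theorem HomZ.eval_smul (h : HomZ k d) (h0 : 0 ≤ d) (c : ℂ) (s : Fin n → ℂ) :
    eval (fun i => c * s i) k = c ^ d.toNat * eval s k := by
  rw [eval_eq', eval_eq', Finset.mul_sum]
  refine Finset.sum_congr rfl fun t ht => ?_
  have h1 : ∑ i, t i = d.toNat := by
    have h2 := h t (mem_support_iff.1 ht)
    omega
  have h3 : ∏ i, (c * s i) ^ t i = c ^ d.toNat * ∏ i, s i ^ t i := by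
    rw [← h1, ← Finset.prod_pow_eq_pow_sum, ← Finset.prod_mul_distrib]
    exact Finset.prod_congr rfl fun i _ => mul_pow _ _ _
  rw [h3]
  ring

/-- the homogeneous component of degree `m` of a multiple of a form of degree `δ` -/
private theorem homZ_mult {F : MvPolynomial (Fin n) ℂ} {δ : ℤ} (hF : HomZ F δ)
    (b : MvPolynomial (Fin n) ℂ) (m : ℕ) :
    ∃ b' : MvPolynomial (Fin n) ℂ, HomZ b' ((m : ℤ) - δ) ∧
      homogeneousComponent m (F * b) = F * b' := by
  by_cases h0 : F = 0
  · exact ⟨0, homZ_zero _, by rw [h0, zero_mul, zero_mul, map_zero]⟩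
  obtain ⟨i, rfl, hi⟩ := hF.exists_nat h0
  by_cases him : i ≤ m
  · refine ⟨homogeneousComponent (m - i) b, ?_, homZ_comp_le hi b him⟩
    rw [← Nat.cast_sub him, homZ_nat]
    exact homogeneousComponent_isHomogeneous _ _
  · exact ⟨0, homZ_zero _, by rw [homZ_comp_not_le hi b him, mul_zero]⟩

theorem dvd_comp {D f g : MvPolynomial (Fin n) ℂ} {δ p : ℤ} (hD : HomZ D δ) (h0 : D ≠ 0)
    (hf : HomZ f p) (hg : HomZ g e) (h : D ∣ g - f * k) :
    ∃ k' : MvPolynomial (Fin n) ℂ, HomZ k' (e - p) ∧ D ∣ g - f * k' := by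
  by_cases hg0 : g = 0
  · exact ⟨0, homZ_zero _, by rw [hg0, mul_zero, sub_zero]; exact dvd_zero D⟩
  obtain ⟨m, rfl, hm⟩ := hg.exists_nat hg0
  obtain ⟨w, hw⟩ := h
  obtain ⟨k', hk', e1⟩ := homZ_mult hf k m
  obtain ⟨w', -, e2⟩ := homZ_mult hD w m
  refine ⟨k', hk', w', ?_⟩
  have h1 : homogeneousComponent m g = g := by
    rw [homZ_comp_mem m hm, if_pos rfl]
  rw [← e2, ← e1, ← hw, map_sub, h1]

private theorem homZ_prod {m : ℕ} (s : Finset (Fin m)) (φ : Fin m → MvPolynomial (Fin n) ℂ)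
    (w : Fin m → ℤ) (h : ∀ i, HomZ (φ i) (w i)) : HomZ (∏ i ∈ s, φ i) (∑ i ∈ s, w i) := by
  induction s using Finset.cons_induction with
  | empty =>
    rw [Finset.prod_empty, Finset.sum_empty]
    exact homZ_one
  | cons i s hi ih =>
    rw [Finset.prod_cons, Finset.sum_cons]
    exact (h i).mul ih

theorem homZ_det {m : ℕ} {P : Matrix (Fin m) (Fin m) (MvPolynomial (Fin n) ℂ)}
    {u v : Fin m → ℤ} (h : ∀ i j, HomZ (P i j) (u i + v j)) :
    HomZ P.det (∑ i, u i + ∑ j, v j) := by
  rw [Matrix.det_apply]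
  refine HomZ.sum _ _ fun σ _ => ?_
  have h1 := homZ_prod Finset.univ (fun i => P (σ i) i) (fun i => u (σ i) + v i)
    (fun i => h (σ i) i)
  rw [Finset.sum_add_distrib, Equiv.sum_comp σ u] at h1
  rcases Int.units_eq_one_or (Equiv.Perm.sign σ) with h2 | h2
  · rw [h2, one_smul]
    exact h1
  · rw [h2, Units.neg_smul, one_smul]
    exact h1.neg

theorem homZ_adj {m : ℕ} {P : Matrix (Fin m) (Fin m) (MvPolynomial (Fin n) ℂ)}
    {u v : Fin m → ℤ} (h : ∀ i j, HomZ (P i j) (u i + v j)) (i j : Fin m) :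
    HomZ (P.adjugate i j) (∑ l, u l + ∑ l, v l - v i - u j) := by
  rw [Matrix.adjugate_apply]
  have h1 : ∀ a b, HomZ (P.updateRow j (Pi.single i 1) a b)
      (Function.update u j (-v i) a + v b) := by
    intro a b
    by_cases ha : a = j
    · rw [ha, Matrix.updateRow_self, Function.update_self]
      by_cases hb : b = i
      · rw [hb, Pi.single_eq_same, neg_add_cancel]
        exact homZ_one
      · rw [Pi.single_eq_of_ne hb]
        exact homZ_zero _
    · rw [Matrix.updateRow_ne ha, Function.update_of_ne ha]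
      exact h a b
  have h2 := homZ_det h1
  have h3 : ∑ l, Function.update u j (-v i) l = ∑ l, u l - v i - u j := by
    rw [Finset.sum_update_of_mem (Finset.mem_univ j)]
    have h4 := Finset.add_sum_erase Finset.univ u (Finset.mem_univ j)
    rw [Finset.sdiff_singleton_eq_erase]
    linarith
  rw [h3] at h2
  have h5 : ∑ l, u l - v i - u j + ∑ l, v l = ∑ l, u l + ∑ l, v l - v i - u j := by ring
  rw [h5] at h2
  exact h2

theorem homZ_emb (q : A2) (d : ℤ) : HomZ (emb q) d ↔ HomZ q d := by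
  have hinj : Function.Injective (Fin.succ : Fin 2 → Fin 3) := Fin.succ_injective 2
  by_cases h0 : q = 0
  · rw [h0, map_zero]
    exact ⟨fun _ => homZ_zero _, fun _ => homZ_zero _⟩
  constructor
  · intro h
    have h1 : emb q ≠ 0 := fun h2 => h0 (rename_injective _ hinj (by
      change emb q = emb 0
      rw [h2, map_zero]))
    obtain ⟨m, rfl, hm⟩ := h.exists_nat h1
    rw [homZ_nat]
    exact (IsHomogeneous.rename_isHomogeneous_iff hinj).1 hm
  · intro h
    obtain ⟨m, rfl, hm⟩ := h.exists_nat h0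
    rw [homZ_nat]
    exact (IsHomogeneous.rename_isHomogeneous_iff hinj).2 hm

end Pool.Agent.DIX
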