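import Pool.Agent.DIX.SecA

/-!
# DIX: independence over `ℂ[x1, x2]`

`ind_iff`: the coordinates of `g_0, ..., g_5` have a nonzero determinant if and only if
`D ∣ ∑ emb (a_i) g_i` implies `a = 0`.
PROOF.  `Matrix.exists_vecMul_eq_zero_iff`; `(a ᵥ* crd) j = crd D (∑ emb (a_i) g_i) j`
(`crd_sum`, `crd_mul`), `crd_eq_zero`.

`cramer`: if the determinant is not zero then for every section `h` there are binary forms `a0 ≠ 0`,
`a_i` of degrees `t`, `t + e - ε i` with `D ∣ emb a0 * h - ∑ emb (a_i) g_i`.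
PROOF.  `P i j = crd D (g i) j` is `HomZ` of degree `ε i - j` (`crd_hom`), `a0 = det P`
(`homZ_det`), `a = crd D h ᵥ* adjugate P`, so that `a ᵥ* P = det P • crd D h`; degrees by `homZ_adj`
(`t = ∑ ε i - 15`).

`exists_six`: there are six independent sections: `q * X 0 ^ i`, `i < 6` (if
`D ∣ q ∑ emb (a_i) x0^i` then `D ∣ ∑ emb (a_i) x0^i`, a polynomial of degree `≤ 5` in `x0`, so it is
`0`).
-/

set_option autoImplicit false

namespace Pool.Agent.DIX

open MvPolynomial Pool.Agent.PLN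

variable {D q : S3} {p : ℤ} {r : ℕ} {J : Fin r → S3} {J2 : Fin r → Fin r → S3}

private theorem vec_Ind (g : Fin 6 → S3) (a : Fin 6 → A2) :
    Matrix.vecMul a (Matrix.of fun i j => crd D (g i) j) =
      crd D (∑ i, emb (a i) * g i) := by
  funext j
  rw [crd_sum]
  simp only [Matrix.vecMul, dotProduct, Matrix.of_apply]
  exact Finset.sum_congr rfl fun i _ => (crd_mul (a i) (g i) j).symm

theorem ind_iff (hD : Cur D) (g : Fin 6 → S3) :
    (Matrix.of fun i j => crd D (g i) j).det ≠ 0 ↔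
      ∀ a : Fin 6 → A2, D ∣ ∑ i, emb (a i) * g i → a = 0 := by
  constructor
  · intro hdet a ha
    by_contra h0
    refine hdet (Matrix.exists_vecMul_eq_zero_iff.1 ⟨a, h0, ?_⟩)
    rw [vec_Ind]
    exact (crd_eq_zero hD _).2 ha
  · intro h hdet
    obtain ⟨v, hv, h1⟩ := Matrix.exists_vecMul_eq_zero_iff.2 hdet
    rw [vec_Ind] at h1
    exact hv (h v ((crd_eq_zero hD _).1 h1))

theorem cramer (h : Dat D q p J J2) {ε : Fin 6 → ℤ} {g : Fin 6 → S3}
    (hg : ∀ i, Sec D q J (g i) (ε i)) (hdet : (Matrix.of fun i j => crd D (g i) j).det ≠ 0)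
    {w : S3} {e : ℤ} (hw : Sec D q J w e) :
    ∃ (t : ℤ) (a0 : A2) (a : Fin 6 → A2), a0 ≠ 0 ∧ HomZ a0 t ∧
      (∀ i, HomZ (a i) (t + e - ε i)) ∧ D ∣ emb a0 * w - ∑ i, emb (a i) * g i := by
  have hD := h.cur
  set P : Matrix (Fin 6) (Fin 6) A2 := Matrix.of fun i j => crd D (g i) j with hP
  have hP1 : ∀ i j, HomZ (P i j) (ε i + -((j : ℕ) : ℤ)) := fun i j => crd_hom hD (hg i).1 j
  set t : ℤ := ∑ i, ε i + ∑ j : Fin 6, -((j : ℕ) : ℤ) with ht
  set a : Fin 6 → A2 := Matrix.vecMul (crd D w) P.adjugate with ha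
  have haP : Matrix.vecMul a P = P.det • crd D w := by
    rw [ha, Matrix.vecMul_vecMul, Matrix.adjugate_mul, Matrix.vecMul_smul, Matrix.vecMul_one]
  refine ⟨t, P.det, a, hdet, homZ_det hP1, fun j => ?_, ?_⟩
  · have h1 : a j = ∑ i, crd D w i * P.adjugate i j := rfl
    rw [h1]
    refine HomZ.sum _ _ fun i _ => ?_
    have h2 := (crd_hom hD hw.1 i).mul (homZ_adj hP1 i j)
    have h3 : e - ((i : ℕ) : ℤ) +
        (∑ l, ε l + ∑ l : Fin 6, -((l : ℕ) : ℤ) - -((i : ℕ) : ℤ) - ε j) = t + e - ε j := by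
      rw [ht]
      ring
    rw [h3] at h2
    exact h2
  · rw [← crd_eq_zero hD, crd_sub, ← vec_Ind, ← hP, haP]
    funext j
    rw [Pi.sub_apply, crd_mul, Pi.smul_apply, smul_eq_mul, sub_self, Pi.zero_apply]

private theorem crd_X_Ind (hD : Cur D) (i j : Fin 6) :
    crd D (X 0 ^ (i : ℕ)) j = if j = i then 1 else 0 := by
  unfold crd
  rw [map_pow, fs_X0]
  have h1 : (Polynomial.X ^ (i : ℕ) : Polynomial A2) %ₘ fs D = Polynomial.X ^ (i : ℕ) := by
    rw [Polynomial.modByMonic_eq_self_iff hD.monic, Polynomial.degree_X_pow,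
      Polynomial.degree_eq_natDegree hD.monic.ne_zero, hD.deg]
    exact_mod_cast i.isLt
  rw [h1, Polynomial.coeff_X_pow]
  simp only [Fin.ext_iff]

theorem exists_six (h : Dat D q p J J2) :
    ∃ (ε : Fin 6 → ℤ) (g : Fin 6 → S3), (∀ i, Sec D q J (g i) (ε i)) ∧
      (Matrix.of fun i j => crd D (g i) j).det ≠ 0 := by
  refine ⟨fun i => p + ((i : ℕ) : ℤ) * 1, fun i => q * X 0 ^ (i : ℕ), fun i => ?_, ?_⟩
  · exact sec_q h ((homZ_X 0).pow (i : ℕ))
  · rw [ind_iff h.cur]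
    intro a ha
    have h1 : ∑ i, emb (a i) * (q * X 0 ^ (i : ℕ)) =
        q * ∑ i : Fin 6, emb (a i) * X 0 ^ (i : ℕ) := by
      rw [Finset.mul_sum]
      exact Finset.sum_congr rfl fun i _ => by ring
    rw [h1] at ha
    have h2 := (h.prime.dvd_or_dvd ha).resolve_left h.ndvd
    rw [← crd_eq_zero h.cur] at h2
    funext j
    have h3 := congrFun h2 j
    rw [crd_sum] at h3
    simp only [crd_mul, crd_X_Ind h.cur, mul_ite, mul_one, mul_zero, Finset.sum_ite_eq,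
      Finset.mem_univ, if_true] at h3
    exact h3

end Pool.Agent.DIX
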