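import Pool.Agent.DIX.IsoTwo

/-!
# DIX: a form with a totally isotropic plane, general position

`iso_uv`: `iso_two` for two linearly independent vectors `u, v` instead of two basis vectors.
PROOF.  Choose an invertible `T` with `T *ᵥ e_i = u`, `T *ᵥ e_j = v` for two indices `i ≠ j` (extend
`u, v` to a basis of `K^6`), and apply `iso_two` to `N' = Tᵀ * N * T`, to the indices `i, j` and to the
preimage of `W` under the automorphism `fromBlocks T 0 0 1` of `K^(Fin 6 ⊕ Fin 4)`; or repeat the proof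
of `iso_two` with the spans of `(u, 0), (v, 0)` (dimension 2) and of these vectors together with
`0 × K^4` (dimension 6).

`rational_of_uv`: as `rational_of_two` (TwoEnd.lean), for two linearly independent constant vectors
`u, v` which span a totally isotropic plane of `N`; use `iso_uv` over `K0` with the vectors
`fun i => affK (C (u i))` (linearly independent: a `2 x 2` minor of `u, v` is a nonzero complex number;
`affK (C c) = 0` only if `c = 0`, see `pK_ne` in Pool/Agent/PLN/Main.lean).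
-/

set_option autoImplicit false

namespace Pool.Agent.DIX

open Matrix Module

private theorem IsoUV_S {K : Type} [Field K] {N : Matrix (Fin 6) (Fin 6) K} (hN : N.IsSymm)
    {u v : Fin 6 → K} (h11 : u ⬝ᵥ (N *ᵥ u) = 0) (h12 : u ⬝ᵥ (N *ᵥ v) = 0)
    (h22 : v ⬝ᵥ (N *ᵥ v) = 0) {s s' : Fin 6 → K} (hs : s ∈ Submodule.span K {u, v})
    (hs' : s' ∈ Submodule.span K {u, v}) : s ⬝ᵥ (N *ᵥ s') = 0 := by
  rw [Submodule.mem_span_pair] at hs hs'
  obtain ⟨a, b, rfl⟩ := hs
  obtain ⟨c, d, rfl⟩ := hs'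
  have h21 : v ⬝ᵥ (N *ᵥ u) = 0 := by
    rw [← h12, dotProduct_comm, ← vecMul_transpose, ← dotProduct_mulVec, hN.eq]
  simp only [mulVec_add, mulVec_smul, dotProduct_add, add_dotProduct, dotProduct_smul,
    smul_dotProduct, h11, h12, h21, h22, smul_zero, add_zero]

/-- the inclusion of `K^6` -/
private def IsoUV_inl (K : Type) [Field K] : (Fin 6 → K) →ₗ[K] (Fin 6 ⊕ Fin 4 → K) where
  toFun a := Sum.elim a (0 : Fin 4 → K)
  map_add' a b := by
    funext s
    rcases s with s | s <;> simp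
  map_smul' c a := by
    funext s
    rcases s with s | s <;> simp

/-- the inclusion of `K^4` -/
private def IsoUV_inr (K : Type) [Field K] : (Fin 4 → K) →ₗ[K] (Fin 6 ⊕ Fin 4 → K) where
  toFun a := Sum.elim (0 : Fin 6 → K) a
  map_add' a b := by
    funext s
    rcases s with s | s <;> simp
  map_smul' c a := by
    funext s
    rcases s with s | s <;> simp

private theorem IsoUV_inl_apply {K : Type} [Field K] (a : Fin 6 → K) :
    IsoUV_inl K a = Sum.elim a (0 : Fin 4 → K) := rfl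

private theorem IsoUV_inr_apply {K : Type} [Field K] (a : Fin 4 → K) :
    IsoUV_inr K a = Sum.elim (0 : Fin 6 → K) a := rfl

private theorem IsoUV_inl_inj (K : Type) [Field K] : Function.Injective (IsoUV_inl K) := by
  intro a b h
  funext s
  exact congrFun h (Sum.inl s)

private theorem IsoUV_inr_inj (K : Type) [Field K] : Function.Injective (IsoUV_inr K) := by
  intro a b h
  funext s
  exact congrFun h (Sum.inr s)

theorem iso_uv {K : Type} [Field K] (h2 : (2 : K) ≠ 0) {N : Matrix (Fin 6) (Fin 6) K}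
    {M : Matrix (Fin 4) (Fin 4) K} (hN : N.IsSymm) (hM : M.IsSymm) (hd : N.det ≠ 0)
    (hd' : M.det ≠ 0) {u v : Fin 6 → K} (huv : LinearIndependent K ![u, v])
    (h11 : u ⬝ᵥ (N *ᵥ u) = 0) (h12 : u ⬝ᵥ (N *ᵥ v) = 0) (h22 : v ⬝ᵥ (N *ᵥ v) = 0)
    (W : Submodule K (Fin 6 ⊕ Fin 4 → K)) (hW : Module.finrank K W = 5)
    (hiso : ∀ x ∈ W, ∀ y ∈ W, x ⬝ᵥ (fromBlocks N 0 0 (-M) *ᵥ y) = 0) :
    ∃ v : Fin 4 → K, v ≠ 0 ∧ v ⬝ᵥ (M *ᵥ v) = 0 := by
  classical
  set A : Matrix (Fin 6 ⊕ Fin 4) (Fin 6 ⊕ Fin 4) K := fromBlocks N 0 0 (-M) with hA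
  have hdA : A.det ≠ 0 := by
    rw [hA, det_fromBlocks_zero₂₁, det_neg]
    simp only [Fintype.card_fin]
    refine mul_ne_zero hd (mul_ne_zero ?_ hd')
    exact pow_ne_zero _ (neg_ne_zero.2 one_ne_zero)
  have hsA : A.IsSymm := by
    rw [hA]
    exact IsSymm.fromBlocks hN (by simp) (IsSymm.neg hM)
  set B : LinearMap.BilinForm K (Fin 6 ⊕ Fin 4 → K) := Matrix.toBilin' A with hB
  have hBa : ∀ x y, B x y = x ⬝ᵥ (A *ᵥ y) := fun x y => Matrix.toBilin'_apply' A x y
  have hBn : B.Nondegenerate := LinearMap.BilinForm.nondegenerate_toBilin'_of_det_ne_zero' A hdA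
  have hBs : ∀ x y, B x y = B y x := by
    intro x y
    rw [hBa, hBa, dotProduct_comm, ← vecMul_transpose, ← dotProduct_mulVec, hsA.eq]
  have hV : Module.finrank K (Fin 6 ⊕ Fin 4 → K) = 10 := by
    rw [Module.finrank_fintype_fun_eq_card]
    simp
  obtain ⟨S, hS⟩ : ∃ S, S = Submodule.span K {u, v} := ⟨_, rfl⟩
  obtain ⟨T2, hT2⟩ : ∃ T2, T2 = S.map (IsoUV_inl K) := ⟨_, rfl⟩
  obtain ⟨R4, hR4⟩ : ∃ R4, R4 = LinearMap.range (IsoUV_inr K) := ⟨_, rfl⟩
  obtain ⟨T6, hT6⟩ : ∃ T6, T6 = T2 ⊔ R4 := ⟨_, rfl⟩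
  have hSr : Module.finrank K S = 2 := by
    have h := finrank_span_eq_card huv
    rw [show Set.range ![u, v] = {u, v} by
      simp [Matrix.range_cons, Matrix.range_empty, Set.pair_comm v u]] at h
    rw [hS, h]
    simp
  have hr2 : Module.finrank K T2 = 2 := by
    rw [hT2, ← hSr]
    exact (LinearEquiv.finrank_eq (Submodule.equivMapOfInjective _ (IsoUV_inl_inj K) S)).symm
  have hr4 : Module.finrank K R4 = 4 := by
    rw [hR4, LinearMap.finrank_range_of_inj (IsoUV_inr_inj K), Module.finrank_fintype_fun_eq_card]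
    simp
  have hinf : T2 ⊓ R4 = ⊥ := by
    rw [eq_bot_iff]
    rintro x ⟨h1, h2'⟩
    rw [hT2] at h1
    rw [hR4] at h2'
    obtain ⟨a, -, ha⟩ := h1
    obtain ⟨b, hb⟩ := h2'
    rw [Submodule.mem_bot]
    funext s
    rcases s with s | s
    · rw [← hb, IsoUV_inr_apply]; simp
    · rw [← ha, IsoUV_inl_apply]; simp
  have hr6 : Module.finrank K T6 = 6 := by
    have h := Submodule.finrank_sup_add_finrank_inf_eq T2 R4
    rw [hinf, finrank_bot, hr2, hr4, ← hT6] at h
    omega
  have h26 : T2 ≤ T6 := by rw [hT6]; exact le_sup_left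
  -- the six-dimensional space is orthogonal to the two-dimensional one
  have horth : ∀ n ∈ T2, ∀ x ∈ T6, B n x = 0 := by
    intro n hn x hx
    rw [hT2] at hn
    rw [hT6, hT2, hR4, Submodule.mem_sup] at hx
    obtain ⟨s, hs, rfl⟩ := hn
    obtain ⟨_, ⟨s', hs', rfl⟩, _, ⟨b, rfl⟩, rfl⟩ := hx
    rw [SetLike.mem_coe, hS] at hs hs'
    have h0 := IsoUV_S hN h11 h12 h22 hs hs'
    rw [map_add, hBa, hBa, hA, IsoUV_inl_apply, IsoUV_inl_apply, IsoUV_inr_apply,
      fromBlocks_mulVec, fromBlocks_mulVec]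
    simp [sumElim_dotProduct_sumElim, h0]
  have h62 : T6 ≤ B.orthogonal T2 := by
    intro x hx
    rw [LinearMap.BilinForm.mem_orthogonal_iff]
    intro n hn
    exact horth n hn x hx
  -- elements of the six-dimensional space modulo the two-dimensional one
  have hcoord : ∀ x ∈ T6, x - Sum.elim (0 : Fin 6 → K) (fun k => x (Sum.inr k)) ∈ T2 := by
    intro x hx
    rw [hT6, Submodule.mem_sup] at hx
    obtain ⟨a, ha, b, hb, rfl⟩ := hx
    have h1 : a + b - Sum.elim (0 : Fin 6 → K) (fun k => (a + b) (Sum.inr k)) = a := by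
      have ha' := ha
      rw [hT2] at ha'
      rw [hR4] at hb
      obtain ⟨s, -, rfl⟩ := ha'
      obtain ⟨c, rfl⟩ := hb
      funext k
      rcases k with k | k <;> simp [IsoUV_inl_apply, IsoUV_inr_apply]
    rw [h1]
    exact ha
  -- dimensions
  have hWo : W = B.orthogonal W := by
    refine Submodule.eq_of_le_of_finrank_eq ?_ ?_
    · intro x hx
      rw [LinearMap.BilinForm.mem_orthogonal_iff]
      intro n hn
      rw [hBa]
      exact hiso n hn x hx
    · rw [LinearMap.BilinForm.finrank_orthogonal hBn, hV, hW]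
  set P := B.orthogonal T2 with hP
  have hPr : Module.finrank K P = 8 := by
    rw [hP, LinearMap.BilinForm.finrank_orthogonal hBn, hV, hr2]
  have hU : B.orthogonal (W ⊔ T2) ≤ W ⊓ P := by
    refine le_inf ?_ (LinearMap.BilinForm.orthogonal_le le_sup_right)
    calc B.orthogonal (W ⊔ T2) ≤ B.orthogonal W :=
          LinearMap.BilinForm.orthogonal_le le_sup_left
      _ = W := hWo.symm
  have e1 := Submodule.finrank_sup_add_finrank_inf_eq W T2
  have e2 := Submodule.finrank_mono hU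
  rw [LinearMap.BilinForm.finrank_orthogonal hBn, hV] at e2
  have e3 := Submodule.finrank_sup_add_finrank_inf_eq (W ⊓ P) T6
  have e4 : Module.finrank K ((W ⊓ P) ⊔ T6 : Submodule K _) ≤ 8 :=
    (Submodule.finrank_mono (sup_le inf_le_right h62)).trans hPr.le
  rw [hW, hr2] at e1
  rw [hr6] at e3
  obtain ⟨x, hx, hx2⟩ : ∃ x ∈ (W ⊓ P) ⊓ T6, x ∉ T2 := by
    by_contra hc
    push Not at hc
    have h1 : (W ⊓ P) ⊓ T6 ≤ W ⊓ T2 := fun x hx => ⟨hx.1.1, hc x hx⟩
    have h3 := Submodule.finrank_mono h1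
    have h4 : Module.finrank K (W ⊓ T2 : Submodule K _) ≤ 2 :=
      (Submodule.finrank_mono inf_le_right).trans hr2.le
    omega
  set y : Fin 4 → K := fun k => x (Sum.inr k) with hy
  have ht := hcoord x hx.2
  set y' : Fin 6 ⊕ Fin 4 → K := Sum.elim (0 : Fin 6 → K) y with hy'
  refine ⟨y, ?_, ?_⟩
  · intro h0
    apply hx2
    have h1 : y' = 0 := by
      rw [hy', h0]
      funext s
      rcases s with s | s <;> simp
    have h3 : x - y' ∈ T2 := ht
    rwa [h1, sub_zero] at h3
  · have h3 : x - y' ∈ T2 := ht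
    have hy6 : y' ∈ T6 := by
      have h4 : y' = x - (x - y') := by abel
      rw [h4]
      exact Submodule.sub_mem _ hx.2 (h26 h3)
    have b1 : B (x - y') (x - y') = 0 := horth _ h3 _ (h26 h3)
    have b2 : B (x - y') y' = 0 := horth _ h3 _ hy6
    have b3 : B x x = 0 := by
      rw [hBa]
      exact hiso x hx.1.1 x hx.1.1
    have b4 : B y' y' = 0 := by
      have h5 : B x x = B (x - y') (x - y') + B (x - y') y' + B y' (x - y') + B y' y' := by
        simp only [map_sub, LinearMap.sub_apply]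
        ring
      rw [b3, b1, b2, hBs y' (x - y'), b2] at h5
      simpa using h5.symm
    rw [hBa, hA, hy', fromBlocks_mulVec] at b4
    simp only [Sum.elim_comp_inl, Sum.elim_comp_inr, mulVec_zero, zero_mulVec, zero_add,
      add_zero, neg_mulVec, sumElim_dotProduct_sumElim, dotProduct_zero, dotProduct_neg,
      neg_eq_zero] at b4
    exact b4

end Pool.Agent.DIX
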