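import Pool.Agent.DIX.Lam

/-!
# DIX: divisibility modulo a smooth curve is a local condition

`lg`: if `g` is divisible by `f` modulo `D` locally at all points of the curve `D = 0`, then `g` is
divisible by `f` modulo `D`. By the Nullstellensatz the ideal of all `u` such that `u * g` is
divisible by `f` modulo `D` contains powers of `x1` and `x2`, and `S3 / (D)` is free over
`ℂ[x1, x2]`.
-/

set_option autoImplicit false

namespace Pool.Agent.DIX

open MvPolynomial Pool.Agent.PLN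

/-- the ideal of denominators -/
private def LG_ideal (D f g : S3) : Ideal S3 where
  carrier := {u | ∃ k : S3, D ∣ u * g - f * k}
  zero_mem' := ⟨0, by rw [zero_mul, mul_zero, sub_zero]; exact dvd_zero D⟩
  add_mem' := by
    rintro u v ⟨k, hk⟩ ⟨l, hl⟩
    refine ⟨k + l, ?_⟩
    have e : (u + v) * g - f * (k + l) = (u * g - f * k) + (v * g - f * l) := by ring
    rw [e]
    exact dvd_add hk hl
  smul_mem' := by
    rintro c u ⟨k, hk⟩
    refine ⟨c * k, ?_⟩
    have e : (c • u) * g - f * (c * k) = c * (u * g - f * k) := by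
      rw [smul_eq_mul]
      ring
    rw [e]
    exact hk.mul_left c

private theorem LG_pow {D f g : S3}
    (h : ∀ s : Fin 3 → ℂ, s ≠ 0 → eval s D = 0 →
      ∃ u k : S3, eval s u ≠ 0 ∧ D ∣ u * g - f * k) (i : Fin 3) :
    ∃ (N : ℕ) (k : S3), D ∣ X i ^ N * g - f * k := by
  have h1 : (X i : S3) ∈ vanishingIdeal ℂ (zeroLocus ℂ (LG_ideal D f g)) := by
    rw [mem_vanishingIdeal_iff]
    intro x hx
    rw [mem_zeroLocus_iff] at hx
    have hx0 : x = 0 := by
      by_contra hne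
      have hD : eval x D = 0 := by
        have h2 := hx D ⟨0, by rw [mul_zero, sub_zero]; exact dvd_mul_right D g⟩
        exact h2
      obtain ⟨u, k, hu, hk⟩ := h x hne hD
      exact hu (hx u ⟨k, hk⟩)
    rw [hx0, aeval_X]
    rfl
  rw [vanishingIdeal_zeroLocus_eq_radical] at h1
  obtain ⟨N, hN⟩ := h1
  exact ⟨N, hN⟩

private theorem LG_emb_not_dvd {D : S3} (hD : Cur D) {a : A2} (ha : a ≠ 0) : ¬ D ∣ emb a := by
  intro h
  have h1 := (crd_eq_zero hD (emb a)).2 h
  have h2 := congrFun h1 0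
  rw [crd, fs_emb, (Polynomial.modByMonic_eq_self_iff hD.monic).2] at h2
  · exact ha (by simpa using h2)
  · rw [Polynomial.degree_eq_natDegree hD.monic.ne_zero, hD.deg]
    exact lt_of_le_of_lt Polynomial.degree_C_le (by norm_num)

theorem lg {D f g : S3} (hD : Cur D) (hf : ¬ D ∣ f)
    (h : ∀ s : Fin 3 → ℂ, s ≠ 0 → eval s D = 0 →
      ∃ u k : S3, eval s u ≠ 0 ∧ D ∣ u * g - f * k) : ∃ k : S3, D ∣ g - f * k := by
  obtain ⟨N, k₁, h₁⟩ := LG_pow h 1
  obtain ⟨M, k₂, h₂⟩ := LG_pow h 2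
  have e1 : (X 1 : S3) = emb (X 0) := by
    rw [emb, rename_X]
    rfl
  have e2 : (X 2 : S3) = emb (X 1) := by
    rw [emb, rename_X]
    rfl
  have hpr : Prime D := hD.irr.prime
  rw [e1, ← map_pow] at h₁
  rw [e2, ← map_pow] at h₂
  have h3 : D ∣ emb (X 1 ^ M) * k₁ - emb (X 0 ^ N) * k₂ := by
    refine (hpr.dvd_mul.1 ?_).resolve_left hf
    have e : f * (emb (X 1 ^ M) * k₁ - emb (X 0 ^ N) * k₂) =
        emb (X 0 ^ N) * (emb (X 1 ^ M) * g - f * k₂) -
        emb (X 1 ^ M) * (emb (X 0 ^ N) * g - f * k₁) := by ring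
    rw [e]
    exact dvd_sub (h₂.mul_left _) (h₁.mul_left _)
  have h4 := crd_congr hD h3
  have h5 : ∀ i, (X 0 : A2) ^ N ∣ crd D k₁ i := by
    intro i
    have h6 := congrFun h4 i
    rw [crd_mul, crd_mul] at h6
    refine (X_prime (i := (0 : Fin 2))).pow_dvd_of_dvd_mul_left N ?_ (a := X 1 ^ M) ?_
    · intro h7
      have h8 := (X_prime (i := (0 : Fin 2))).dvd_of_dvd_pow h7
      rw [X_dvd_X] at h8
      exact absurd h8 (by decide)
    · rw [h6]
      exact dvd_mul_right _ _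
  choose c hc using h5
  refine ⟨∑ i : Fin 6, emb (c i) * X 0 ^ (i : ℕ), ?_⟩
  have h9 := exists_rem hD k₁
  have h10 : ∑ i : Fin 6, emb (crd D k₁ i) * X 0 ^ (i : ℕ) =
      emb (X 0 ^ N) * ∑ i : Fin 6, emb (c i) * X 0 ^ (i : ℕ) := by
    rw [Finset.mul_sum]
    refine Finset.sum_congr rfl fun i _ => ?_
    rw [hc, map_mul]
    ring
  rw [h10] at h9
  refine (hpr.dvd_mul.1 (?_ : D ∣ emb (X 0 ^ N) * _)).resolve_left
    (LG_emb_not_dvd hD (pow_ne_zero N (X_ne_zero 0)))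
  have e : emb (X 0 ^ N) * (g - f * ∑ i : Fin 6, emb (c i) * X 0 ^ (i : ℕ)) =
      (emb (X 0 ^ N) * g - f * k₁) +
      f * (k₁ - emb (X 0 ^ N) * ∑ i : Fin 6, emb (c i) * X 0 ^ (i : ℕ)) := by ring
  rw [e]
  exact dvd_add h₁ (h9.mul_left _)

end Pool.Agent.DIX
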