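import Mathlib

set_option autoImplicit false

namespace Pool.Agent.DIX.Labels

variable {A : Type*} [AddCommGroup A]

/-- For a smooth cubic fourfold `X` let `A` be the lattice `H²,²(X, ℤ)` with the intersection form
`B`, and let `h` be the square of the hyperplane class. Then `ℤ × A` with the following form is the
numerical K-group of the Kuznetsov component of `X`: its basis vector `λ₂ = (1, 0)` has square `2`,
`(λ₂, T) = h · T` and `(T, T') = (h · T) (h · T') - T · T'`. The vector `λ₁ = h - 2 λ₂` is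
orthogonal to `A`, `(λ₁, λ₁) = 2` and `(λ₁, λ₂) = -1`. -/
def mukai (B : A →ₗ[ℤ] A →ₗ[ℤ] ℤ) (h : A) (v w : ℤ × A) : ℤ :=
  2 * v.1 * w.1 + v.1 * B h w.2 + w.1 * B h v.2 + B h v.2 * B h w.2 - B v.2 w.2

/-- The criterion of Hassett and Kuznetsov: there is a hyperbolic plane `⟨e, f⟩`. -/
def HassettKuznetsov (B : A →ₗ[ℤ] A →ₗ[ℤ] ℤ) (h : A) : Prop :=
  ∃ e f : ℤ × A, mukai B h e e = 0 ∧ mukai B h f f = 0 ∧ mukai B h e f = 1

/-- The criterion of Galkin and Shinder: there is an isotropic vector `w` with `(w, λ₁) = 1`. -/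
def GalkinShinder (B : A →ₗ[ℤ] A →ₗ[ℤ] ℤ) (h : A) : Prop :=
  ∃ w : ℤ × A, mukai B h w w = 0 ∧ mukai B h w (-2, h) = 1

/-- The discriminant `3 T · T - (h · T) ²` of the rank two lattice spanned by `h` and `T`. -/
def label (B : A →ₗ[ℤ] A →ₗ[ℤ] ℤ) (h T : A) : ℤ := 3 * B T T - B h T ^ 2

/-- The polarised discriminant form `3 S · T - (h · S) (h · T)`. -/
private def dd (B : A →ₗ[ℤ] A →ₗ[ℤ] ℤ) (h : A) (S T : A) : ℤ := 3 * B S T - B h S * B h T

private lemma dd_self (B : A →ₗ[ℤ] A →ₗ[ℤ] ℤ) (h T : A) : dd B h T T = label B h T := by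
  unfold dd label
  ring

private lemma label_even {B : A →ₗ[ℤ] A →ₗ[ℤ] ℤ} {h : A} (hpar : ∀ T, Even (B T T - B h T))
    (T : A) : 2 ∣ label B h T := by
  obtain ⟨r, hr⟩ := hpar T
  obtain ⟨c, hc⟩ : ∃ c, B h T * (B h T - 1) = 2 * c := by
    rcases Int.even_or_odd' (B h T) with ⟨c, hc | hc⟩
    · exact ⟨c * (B h T - 1), by rw [hc]; ring⟩
    · exact ⟨B h T * c, by rw [hc]; ring⟩
  refine ⟨3 * r + B h T - c, ?_⟩
  unfold label
  linear_combination 3 * hr - hc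

private lemma even_of {a x : ℤ} (h : 2 ∣ 3 * a ^ 2 + 3 * a * x + x ^ 2) : 2 ∣ a ∧ 2 ∣ x := by
  rcases Int.even_or_odd' a with ⟨c, rfl | rfl⟩ <;> rcases Int.even_or_odd' x with ⟨d, rfl | rfl⟩
  · exact ⟨⟨c, rfl⟩, ⟨d, rfl⟩⟩
  · exfalso
    have : 3 * (2 * c) ^ 2 + 3 * (2 * c) * (2 * d + 1) + (2 * d + 1) ^ 2 =
      2 * (6 * c ^ 2 + 6 * c * d + 3 * c + 2 * d ^ 2 + 2 * d) + 1 := by ring
    omega
  · exfalso
    have : 3 * (2 * c + 1) ^ 2 + 3 * (2 * c + 1) * (2 * d) + (2 * d) ^ 2 =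
      2 * (6 * c ^ 2 + 6 * c + 1 + 6 * c * d + 3 * d + 2 * d ^ 2) + 1 := by ring
    omega
  · exfalso
    have : 3 * (2 * c + 1) ^ 2 + 3 * (2 * c + 1) * (2 * d + 1) + (2 * d + 1) ^ 2 =
      2 * (6 * c ^ 2 + 9 * c + 3 + 6 * c * d + 5 * d + 2 * d ^ 2) + 1 := by ring
    omega

private lemma not_HK {B : A →ₗ[ℤ] A →ₗ[ℤ] ℤ} {h : A}
    (h2 : ∀ x y, 2 ∣ dd B h x y) (h4 : ∀ x, 4 ∣ dd B h x x) : ¬ HassettKuznetsov B h := by
  have key : ∀ v : ℤ × A, mukai B h v v = 0 → 2 ∣ v.1 ∧ 2 ∣ B h v.2 := by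
    intro v hv
    apply even_of
    have e1 := h4 v.2
    unfold dd at e1
    unfold mukai at hv
    obtain ⟨c, hc⟩ := e1
    have e2 : 2 * (3 * v.1 ^ 2 + 3 * v.1 * B h v.2 + B h v.2 ^ 2) = 4 * c := by
      linear_combination 3 * hv + hc
    exact ⟨c, by linarith⟩
  rintro ⟨e, f, he, hf, hef⟩
  obtain ⟨⟨a, ha⟩, ⟨x, hx⟩⟩ := key e he
  obtain ⟨⟨b, hb⟩, ⟨y, hy⟩⟩ := key f hf
  have e1 := h2 e.2 f.2
  unfold dd at e1
  unfold mukai at hef
  rw [ha, hb, hx, hy] at hef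
  rw [hx, hy] at e1
  obtain ⟨c, hc⟩ := e1
  have e2 : (3 : ℤ) = 2 * (12 * a * b + 6 * a * y + 6 * b * x + 4 * x * y - c) := by
    linear_combination -3 * hef - hc
  omega

private lemma label_of_HK {B : A →ₗ[ℤ] A →ₗ[ℤ] ℤ} (hs : ∀ x y, B x y = B y x) {h : A}
    (hpar : ∀ T, Even (B T T - B h T)) (hK : HassettKuznetsov B h) :
    ∃ T, label B h T % 4 = 2 := by
  by_contra hcon
  push Not at hcon
  have h4 : ∀ x, 4 ∣ label B h x := by
    intro x
    have e1 := label_even hpar x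
    have e2 := hcon x
    omega
  refine not_HK (B := B) (h := h) ?_ (fun x => by rw [dd_self]; exact h4 x) hK
  intro x y
  have e1 := h4 x
  have e2 := h4 y
  have e3 := h4 (x + y)
  have e4 : label B h (x + y) = label B h x + label B h y + 2 * dd B h x y := by
    unfold label dd
    simp only [map_add, LinearMap.add_apply, hs y x]
    ring
  rw [e4] at e3
  omega

private lemma HK_of_GS {B : A →ₗ[ℤ] A →ₗ[ℤ] ℤ} (hs : ∀ x y, B x y = B y x) {h : A}
    (hh : B h h = 3) (hG : GalkinShinder B h) : HassettKuznetsov B h := by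
  obtain ⟨⟨a, T⟩, h1, h2⟩ := hG
  refine ⟨(a, T), (-2 - a, h - T), h1, ?_, ?_⟩
  · unfold mukai at h1 h2 ⊢
    simp only at h1 h2 ⊢
    simp only [map_sub, LinearMap.sub_apply, hh, hs T h] at h1 h2 ⊢
    linear_combination h1 - 2 * h2
  · unfold mukai at h1 h2 ⊢
    simp only at h1 h2 ⊢
    simp only [map_sub, hh, hs T h] at h1 h2 ⊢
    linear_combination h2 - h1

/-- A vector `(-1, T)` whose product `ν` with `(0, h - P)` divides half of its square gives the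
criterion of Galkin and Shinder. -/
private lemma GS_of_div {B : A →ₗ[ℤ] A →ₗ[ℤ] ℤ} (hs : ∀ x y, B x y = B y x) {h : A}
    (hh : B h h = 3) {P : A} (hP : B P P = 3 ∧ B h P = 1) (T : A) (ν k : ℤ)
    (hν : -2 + 2 * B h T - B (h - P) T = ν)
    (hk : 2 - 2 * B h T + B h T ^ 2 - B T T = 2 * (ν * k)) : GalkinShinder B h := by
  have hPh : B P h = 1 := by rw [hs, hP.2]
  refine ⟨(-1, T - k • (h - P)), ?_, ?_⟩
  · have e1 : B h (T - k • (h - P)) = B h T - 2 * k := by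
      simp only [map_sub, map_smul, smul_eq_mul, hh, hP.2]
      ring
    have e2 : B (T - k • (h - P)) (T - k • (h - P)) =
        B T T - 2 * k * B (h - P) T + 4 * k ^ 2 := by
      simp only [map_sub, map_smul, smul_eq_mul, LinearMap.sub_apply, LinearMap.smul_apply, hh,
        hP.1, hP.2, hPh, hs T h, hs T P]
      ring
    unfold mukai
    simp only
    rw [e1, e2]
    linear_combination hk - 2 * k * hν
  · unfold mukai
    simp only
    rw [hs (T - k • (h - P)) h, hh]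
    ring

private lemma GS_of_label {B : A →ₗ[ℤ] A →ₗ[ℤ] ℤ} (hs : ∀ x y, B x y = B y x) {h : A}
    (hh : B h h = 3) (hpar : ∀ T, Even (B T T - B h T)) {P : A} (hP : B P P = 3 ∧ B h P = 1)
    {T : A} (hT : label B h T % 4 = 2) : GalkinShinder B h := by
  have hPh : B P h = 1 := by rw [hs, hP.2]
  -- the numbers for `T + m h`
  have n1 : ∀ m : ℤ, B h (T + m • h) = B h T + 3 * m := by
    intro m
    simp only [map_add, map_smul, smul_eq_mul, hh]
    ring
  have n2 : ∀ m : ℤ, B (T + m • h) (T + m • h) = B T T + 2 * m * B h T + 3 * m ^ 2 := by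
    intro m
    simp only [map_add, map_smul, smul_eq_mul, LinearMap.add_apply, LinearMap.smul_apply, hh,
      hs T h]
    ring
  have n3 : ∀ m : ℤ, B (h - P) (T + m • h) = B (h - P) T + 2 * m := by
    intro m
    simp only [map_add, map_smul, smul_eq_mul, map_sub, LinearMap.sub_apply, hh, hPh]
    ring
  obtain ⟨t, ht⟩ : ∃ t, t = B h T := ⟨_, rfl⟩
  obtain ⟨b, hb⟩ : ∃ b, b = B T T := ⟨_, rfl⟩
  obtain ⟨c, hc⟩ : ∃ c, c = B (h - P) T := ⟨_, rfl⟩
  rw [← ht, ← hb] at n2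
  rw [← ht] at n1
  rw [← hc] at n3
  obtain ⟨r, hr⟩ := hpar T
  rw [← ht, ← hb] at hr
  have hlab : (3 * b - t ^ 2) % 4 = 2 := by
    rw [ht, hb]
    exact hT
  -- half of the square of `(-1, T)` is even
  have hq : ∀ m : ℤ, ∃ q : ℤ,
      2 - 2 * (t + 3 * m) + (t + 3 * m) ^ 2 - (b + 2 * m * t + 3 * m ^ 2) = 2 * (2 * q) := by
    intro m
    obtain ⟨w, hw⟩ : ∃ w, 3 * b - t ^ 2 = 4 * w + 2 := ⟨(3 * b - t ^ 2) / 4, by omega⟩
    obtain ⟨z, hz⟩ : ∃ z, t * (t - 1) = 2 * z := by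
      rcases Int.even_or_odd' t with ⟨c, hc | hc⟩
      · exact ⟨c * (t - 1), by rw [hc]; ring⟩
      · exact ⟨t * c, by rw [hc]; ring⟩
    obtain ⟨z', hz'⟩ : ∃ z', m * (m - 1) = 2 * z' := by
      rcases Int.even_or_odd' m with ⟨c, hc | hc⟩
      · exact ⟨c * (m - 1), by rw [hc]; ring⟩
      · exact ⟨m * c, by rw [hc]; ring⟩
    -- `b = 4 * b - 3 * b = 4 * b - t ^ 2 - 4 * w - 2`
    refine ⟨1 + z + w - b + t * m + 3 * z', ?_⟩
    linear_combination hw + 2 * hz + 6 * hz'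
  by_cases hodd : c % 2 = 1
  · -- `ν = ± 1`
    obtain ⟨m, ν, hν, hνm⟩ : ∃ m ν : ℤ, (ν = 1 ∨ ν = -1) ∧ -2 + 2 * t - c + 4 * m = ν := by
      rcases (show (-2 + 2 * t - c) % 4 = 1 ∨ (-2 + 2 * t - c) % 4 = 3 by omega) with e | e
      · exact ⟨-((-2 + 2 * t - c) / 4), 1, Or.inl rfl, by omega⟩
      · exact ⟨-((-2 + 2 * t - c) / 4) - 1, -1, Or.inr rfl, by omega⟩
    obtain ⟨q, hq⟩ := hq m
    refine GS_of_div hs hh hP (T + m • h) ν (ν * (2 * q)) ?_ ?_
    · rw [n1, n3]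
      linear_combination hνm
    · rw [n1, n2, hq]
      rcases hν with rfl | rfl <;> ring
  · rcases (show (-2 + 2 * t - c) % 4 = 2 ∨ (-2 + 2 * t - c) % 4 = 0 by omega) with e | e
    · -- `ν = 2`
      obtain ⟨m, hm⟩ : ∃ m : ℤ, -2 + 2 * t - c + 4 * m = 2 :=
        ⟨-((-2 + 2 * t - c) / 4), by omega⟩
      obtain ⟨q, hq⟩ := hq m
      refine GS_of_div hs hh hP (T + m • h) 2 q ?_ ?_
      · rw [n1, n3]
        linear_combination hm
      · rw [n1, n2, hq]
    · -- `ν = ± 4`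
      obtain ⟨m, hm⟩ : ∃ m : ℤ, -2 + 2 * t - c + 4 * m = 4 :=
        ⟨-((-2 + 2 * t - c) / 4) + 1, by omega⟩
      obtain ⟨q, hq⟩ := hq m
      rcases Int.even_or_odd' q with ⟨q', hq' | hq'⟩
      · refine GS_of_div hs hh hP (T + m • h) 4 q' ?_ ?_
        · rw [n1, n3]
          linear_combination hm
        · rw [n1, n2, hq, hq']
          ring
      · obtain ⟨m', hm'⟩ : ∃ m' : ℤ, m' = m - 2 := ⟨_, rfl⟩
        refine GS_of_div hs hh hP (T + m' • h) (-4) (-(q' + 5 - (t + 3 * m))) ?_ ?_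
        · rw [n1, n3, hm']
          linear_combination hm
        · rw [n1, n2, hm']
          rw [hq'] at hq
          linear_combination hq

/-- `A` is an abelian group with a symmetric bilinear form `B`, `h` has square `3` and is
characteristic, and `P` has the products `P · P = 3`, `h · P = 1` of the class of a plane. Then
the criterion of Galkin and Shinder, the criterion of Hassett and Kuznetsov and the existence of an
element whose label is `2` modulo `4` are equivalent. -/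
theorem result (B : A →ₗ[ℤ] A →ₗ[ℤ] ℤ) (hsymm : ∀ S T, B S T = B T S) (h : A) (hh : B h h = 3)
    (hpar : ∀ T, Even (B T T - B h T)) (P : A) (hP : B P P = 3 ∧ B h P = 1) :
    (GalkinShinder B h ↔ ∃ T, label B h T % 4 = 2) ∧
    (HassettKuznetsov B h ↔ ∃ T, label B h T % 4 = 2) := by
  have h1 : (∃ T, label B h T % 4 = 2) → GalkinShinder B h := by
    rintro ⟨T, hT⟩
    exact GS_of_label hsymm hh hpar hP hT
  have h2 := HK_of_GS hsymm hh
  have h3 := label_of_HK hsymm hpar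
  exact ⟨⟨fun hG => h3 (h2 hG), h1⟩, ⟨h3, fun hT => h2 (h1 hT)⟩⟩

end Pool.Agent.DIX.Labels
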