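import Pool.Agent.DIX.HomZ

/-!
# DIX: remainders modulo a form which is monic in `x0`

`crd D k` are the coefficients of the remainder of `fs k` modulo the monic polynomial `fs D` of degree
6 (`Polynomial.modByMonic`), `fs = finSuccEquiv ℂ 2`, `lam D k = crd D k 5`.
`fs (emb a) = Polynomial.C a`, `fs (X 0) = Polynomial.X` (`finSuccEquiv_X_zero`, `_rename_...`).

`crd_eq_zero`: `crd D k = 0` if and only if `D ∣ k`.
`crd_hom`: if `k` is a form of degree `d` then `crd D k i` is a form of degree `d - i`.  PROOF.  For a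
polynomial `r` in `x0` over `A2` say that it is graded of degree `d` if `r.coeff i` is `HomZ` of degree
`d - i` for all `i`.  `fs k` is graded of degree `d` (`IsHomogeneous` and
`MvPolynomial.finSuccEquiv_coeff_isHomogeneous` or a similar name), so is `fs D` of degree 6.  Division
by a monic graded polynomial: induction on the degree of `r`: subtract
`C (leading coefficient) * X ^ (deg r - 6) * fs D`, graded of degree `d`; the remainder is unique
(`Polynomial.div_modByMonic_unique`).
`exists_rem`: `k` is congruent to `∑ i, emb (crd D k i) * X 0 ^ i`.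
`perf`: if `a ∣ lam D (X 0 ^ i * k)` for all `i < 6` then `k` is divisible by `emb a` modulo `D`.
PROOF.  Let `r = ∑ c_i x0^i` be the remainder of `k`.  `lam (x0^i k) = lam (x0^i r)`, and for `i ≤ 5`,
`lam (x0^i r) = c_{5-i} + ` a combination of the `c_j` with `j > 5 - i`; so by induction `a ∣ c_5`,
`a ∣ c_4`, ...: (if `a` divides `c_j` for all `j > 5 - i` then
`lam (x0^i r) - lam (x0^i (c_{5-i} x0^{5-i} + lower terms))` is divisible by `a`, and
`lam (x0^i (c_{5-i} x0^{5-i} + lower terms)) = c_{5-i}` because this polynomial has degree `≤ 5`).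
-/

set_option autoImplicit false

namespace Pool.Agent.DIX

open MvPolynomial Pool.Agent.PLN

variable {D : S3}

theorem fs_emb (a : A2) : fs (emb a) = Polynomial.C a := by
  have h : (fs : S3 →ₐ[ℂ] Polynomial A2).comp emb = (Polynomial.CAlgHom : A2 →ₐ[ℂ] _) := by
    apply MvPolynomial.algHom_ext
    intro i
    show fs (rename Fin.succ (X i)) = Polynomial.C (X i)
    rw [rename_X]
    exact finSuccEquiv_X_succ
  exact DFunLike.congr_fun h a

theorem fs_X0 : fs (X 0) = Polynomial.X := finSuccEquiv_X_zero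

private theorem Lam_deg (hD : Cur D) (k : S3) : (fs k %ₘ fs D).natDegree < 6 := by
  have h := Polynomial.natDegree_modByMonic_lt (fs k) hD.monic (fun h => by
    have h1 := hD.deg
    rw [h, Polynomial.natDegree_one] at h1
    omega)
  rwa [hD.deg] at h

private theorem Lam_rem (hD : Cur D) (k : S3) : fs k %ₘ fs D =
    ∑ i : Fin 6, Polynomial.C (crd D k i) * Polynomial.X ^ (i : ℕ) := by
  have h := (fs k %ₘ fs D).as_sum_range_C_mul_X_pow' (Lam_deg hD k)
  rw [Finset.sum_range] at h
  exact h

theorem crd_add (k k' : S3) : crd D (k + k') = crd D k + crd D k' := by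
  funext i
  show (fs (k + k') %ₘ fs D).coeff i = _
  rw [map_add, Polynomial.add_modByMonic, Polynomial.coeff_add]
  rfl

theorem crd_sub (k k' : S3) : crd D (k - k') = crd D k - crd D k' := by
  funext i
  show (fs (k - k') %ₘ fs D).coeff i = _
  rw [map_sub, Polynomial.sub_modByMonic, Polynomial.coeff_sub]
  rfl

theorem crd_eq_zero (hD : Cur D) (k : S3) : crd D k = 0 ↔ D ∣ k := by
  rw [← map_dvd_iff fs, ← Polynomial.modByMonic_eq_zero_iff_dvd hD.monic]
  constructor
  · intro h
    rw [Lam_rem hD k, h]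
    simp
  · intro h
    funext i
    show (fs k %ₘ fs D).coeff i = 0
    rw [h, Polynomial.coeff_zero]

theorem crd_mul (a : A2) (k : S3) (i : Fin 6) : crd D (emb a * k) i = a * crd D k i := by
  show (fs (emb a * k) %ₘ fs D).coeff i = _
  rw [map_mul, fs_emb, ← Polynomial.smul_eq_C_mul, Polynomial.smul_modByMonic,
    Polynomial.coeff_smul, smul_eq_mul]
  rfl

private theorem Lam_crd_zero : crd D 0 = 0 := by
  have h := crd_sub (D := D) 0 0
  rwa [sub_self, sub_self] at h

theorem crd_sum {ι : Type} (s : Finset ι) (φ : ι → S3) (i : Fin 6) :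
    crd D (∑ j ∈ s, φ j) i = ∑ j ∈ s, crd D (φ j) i := by
  classical
  induction s using Finset.induction_on with
  | empty => rw [Finset.sum_empty, Finset.sum_empty, Lam_crd_zero]; rfl
  | insert a s ha ih => rw [Finset.sum_insert ha, Finset.sum_insert ha, crd_add, Pi.add_apply, ih]

theorem crd_congr (hD : Cur D) {k k' : S3} (h : D ∣ k - k') : crd D k = crd D k' := by
  rw [← crd_eq_zero hD, crd_sub] at h
  exact sub_eq_zero.mp h

theorem lam_congr (hD : Cur D) {k k' : S3} (h : D ∣ k - k') : lam D k = lam D k' :=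
  congrFun (crd_congr hD h) 5

theorem lam_add (k k' : S3) : lam D (k + k') = lam D k + lam D k' := congrFun (crd_add k k') 5

theorem lam_sub (k k' : S3) : lam D (k - k') = lam D k - lam D k' := congrFun (crd_sub k k') 5

theorem lam_mul (a : A2) (k : S3) : lam D (emb a * k) = a * lam D k := crd_mul a k 5

theorem lam_sum {ι : Type} (s : Finset ι) (φ : ι → S3) :
    lam D (∑ j ∈ s, φ j) = ∑ j ∈ s, lam D (φ j) := crd_sum s φ 5

/-- graded of degree `d` -/
private def Lam_Gr (r : Polynomial A2) (d : ℤ) : Prop := ∀ i : ℕ, HomZ (r.coeff i) (d - i)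

private theorem Lam_gr_fs {k : S3} {d : ℤ} (hk : HomZ k d) : Lam_Gr (fs k) d := by
  intro i c hc
  have h1 : coeff c ((fs k).coeff i) = coeff (c.cons i) k := finSuccEquiv_coeff_coeff c k i
  rw [h1] at hc
  have h2 := hk _ hc
  rw [Fin.sum_univ_succ, Finsupp.cons_zero] at h2
  simp only [Finsupp.cons_succ] at h2
  push_cast at h2 ⊢
  linarith

private theorem Lam_gr_mul {p q : Polynomial A2} {d e : ℤ} (hp : Lam_Gr p d) (hq : Lam_Gr q e) :
    Lam_Gr (p * q) (d + e) := by
  intro i
  rw [Polynomial.coeff_mul]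
  refine HomZ.sum _ _ fun x hx => ?_
  have h1 := (hp x.1).mul (hq x.2)
  have h2 : x.1 + x.2 = i := Finset.HasAntidiagonal.mem_antidiagonal.mp hx
  have h3 : (d - (x.1 : ℤ)) + (e - (x.2 : ℤ)) = d + e - (i : ℤ) := by
    rw [← h2]
    push_cast
    ring
  rwa [h3] at h1

private theorem Lam_gr_sub {p q : Polynomial A2} {d : ℤ} (hp : Lam_Gr p d) (hq : Lam_Gr q d) :
    Lam_Gr (p - q) d := by
  intro i
  rw [Polynomial.coeff_sub]
  exact (hp i).sub (hq i)

private theorem Lam_gr_mon {a : A2} {d : ℤ} {m : ℕ} (ha : HomZ a (d - m)) :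
    Lam_Gr (Polynomial.C a * Polynomial.X ^ m) d := by
  intro i
  rw [Polynomial.coeff_C_mul_X_pow]
  split_ifs with h
  · rw [h]
    exact ha
  · exact homZ_zero _

private theorem Lam_gr_rem (hD : Cur D) (d : ℤ) : ∀ (m : ℕ) (r : Polynomial A2),
    r.natDegree < m → Lam_Gr r d → Lam_Gr (r %ₘ fs D) d := by
  have hfD : Lam_Gr (fs D) 6 := Lam_gr_fs ((homZ_nat D 6).mpr hD.hom)
  have hD6 : (fs D).degree = 6 := by
    rw [Polynomial.degree_eq_natDegree hD.monic.ne_zero, hD.deg]
    rfl
  intro m
  induction m with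
  | zero => intro r hr; omega
  | succ m ih =>
    intro r hr hg
    by_cases hlt : r.degree < (fs D).degree
    · rw [(Polynomial.modByMonic_eq_self_iff hD.monic).mpr hlt]
      exact hg
    rw [not_lt] at hlt
    have hr0 : r ≠ 0 := by
      rintro rfl
      rw [Polynomial.degree_zero, hD6] at hlt
      exact absurd hlt (by decide)
    have hnat : 6 ≤ r.natDegree := by
      have h1 := Polynomial.natDegree_le_natDegree hlt
      rwa [hD.deg] at h1
    set r' := r - fs D * (Polynomial.C r.leadingCoeff *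
      Polynomial.X ^ (r.natDegree - (fs D).natDegree)) with hr'
    have hdeg : r'.degree < r.degree := Polynomial.div_wf_lemma ⟨hlt, hr0⟩ hD.monic
    have hmod : r' %ₘ fs D = r %ₘ fs D := by
      rw [hr', Polynomial.sub_modByMonic, Polynomial.self_mul_modByMonic hD.monic, sub_zero]
    rw [← hmod]
    refine ih r' ?_ ?_
    · have h1 : r'.natDegree < r.natDegree := by
        rcases eq_or_ne r' 0 with h0 | h0
        · rw [h0, Polynomial.natDegree_zero]
          omega
        · exact Polynomial.natDegree_lt_natDegree h0 hdeg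
      omega
    · have h1 : Lam_Gr (Polynomial.C r.leadingCoeff *
          Polynomial.X ^ (r.natDegree - (fs D).natDegree)) (d - 6) := by
        refine Lam_gr_mon ?_
        have h2 := hg r.natDegree
        rw [hD.deg]
        have h3 : d - 6 - ((r.natDegree - 6 : ℕ) : ℤ) = d - (r.natDegree : ℤ) := by
          rw [Nat.cast_sub hnat]
          push_cast
          ring
        rw [h3]
        exact h2
      have h2 := Lam_gr_mul hfD h1
      rw [add_sub_cancel] at h2
      exact Lam_gr_sub hg h2

theorem crd_hom (hD : Cur D) {k : S3} {d : ℤ} (hk : HomZ k d) (i : Fin 6) :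
    HomZ (crd D k i) (d - (i : ℕ)) :=
  Lam_gr_rem hD d _ (fs k) (Nat.lt_succ_self _) (Lam_gr_fs hk) i

theorem lam_hom (hD : Cur D) {k : S3} {d : ℤ} (hk : HomZ k d) : HomZ (lam D k) (d - 5) :=
  crd_hom hD hk 5

theorem exists_rem (hD : Cur D) (k : S3) :
    D ∣ k - ∑ i : Fin 6, emb (crd D k i) * X 0 ^ (i : ℕ) := by
  rw [← map_dvd_iff fs, map_sub, map_sum]
  simp only [map_mul, map_pow, fs_emb, fs_X0]
  rw [← Lam_rem hD k]
  have h := Polynomial.modByMonic_add_div (fs k) (fs D)
  refine ⟨fs k /ₘ fs D, ?_⟩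
  rw [sub_eq_iff_eq_add, add_comm]
  exact h.symm

private theorem Lam_lam_X (hD : Cur D) {m : ℕ} (hm : m < 6) :
    lam D (X 0 ^ m) = if m = 5 then 1 else 0 := by
  show (fs (X 0 ^ m) %ₘ fs D).coeff 5 = _
  have h1 : (Polynomial.X ^ m : Polynomial A2).degree < (fs D).degree := by
    rw [Polynomial.degree_X_pow, Polynomial.degree_eq_natDegree hD.monic.ne_zero, hD.deg]
    exact_mod_cast hm
  rw [map_pow, fs_X0, (Polynomial.modByMonic_eq_self_iff hD.monic).mpr h1,
    Polynomial.coeff_X_pow]
  by_cases h : m = 5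
  · rw [if_pos h.symm, if_pos h]
  · rw [if_neg (fun h' => h h'.symm), if_neg h]

private theorem Lam_expand (hD : Cur D) (k : S3) (i : ℕ) :
    lam D (X 0 ^ i * k) = ∑ j : Fin 6, crd D k j * lam D (X 0 ^ (i + (j : ℕ))) := by
  have h1 : D ∣ X 0 ^ i * k - ∑ j : Fin 6, emb (crd D k j) * X 0 ^ (i + (j : ℕ)) := by
    have h2 := (exists_rem hD k).mul_left (X 0 ^ i)
    rw [mul_sub, Finset.mul_sum] at h2
    have h3 : ∑ j : Fin 6, X 0 ^ i * (emb (crd D k j) * X 0 ^ (j : ℕ)) =
        ∑ j : Fin 6, emb (crd D k j) * X 0 ^ (i + (j : ℕ)) := by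
      refine Finset.sum_congr rfl fun j _ => ?_
      rw [pow_add]
      ring
    rwa [h3] at h2
  rw [lam_congr hD h1, lam_sum]
  exact Finset.sum_congr rfl fun j _ => lam_mul _ _

theorem perf (hD : Cur D) {a : A2} {k : S3} (h : ∀ i : ℕ, i < 6 → a ∣ lam D (X 0 ^ i * k)) :
    ∃ k' : S3, D ∣ k - emb a * k' := by
  have hall : ∀ j : Fin 6, a ∣ crd D k j := by
    have key : ∀ i : ℕ, i < 6 → ∀ j : Fin 6, (j : ℕ) + i = 5 → a ∣ crd D k j := by
      intro i
      induction i using Nat.strong_induction_on with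
      | _ i ih =>
        intro hi j hj
        have h1 := h i hi
        rw [Lam_expand hD k i, ← Finset.add_sum_erase _ _ (Finset.mem_univ j)] at h1
        have h2 : lam D (X 0 ^ (i + (j : ℕ))) = 1 := by
          rw [Lam_lam_X hD (by omega), if_pos (by omega)]
        rw [h2, mul_one] at h1
        refine (dvd_add_left (Finset.dvd_sum fun l hl => ?_)).mp h1
        have hlj : l ≠ j := (Finset.mem_erase.mp hl).1
        have hlj' : (l : ℕ) ≠ (j : ℕ) := fun h' => hlj (Fin.ext h')
        have hl6 := l.2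
        rcases Nat.lt_or_ge (l : ℕ) (j : ℕ) with h3 | h3
        · rw [Lam_lam_X hD (by omega), if_neg (by omega), mul_zero]
          exact dvd_zero _
        · exact (ih (5 - (l : ℕ)) (by omega) (by omega) l (by omega)).mul_right _
    intro j
    have := j.2
    exact key (5 - (j : ℕ)) (by omega) j (by omega)
  choose b hb using hall
  refine ⟨∑ j : Fin 6, emb (b j) * X 0 ^ (j : ℕ), ?_⟩
  have h1 := exists_rem hD k
  have h2 : ∑ i : Fin 6, emb (crd D k i) * X 0 ^ (i : ℕ) =
      emb a * ∑ j : Fin 6, emb (b j) * X 0 ^ (j : ℕ) := by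
    rw [Finset.mul_sum]
    refine Finset.sum_congr rfl fun j _ => ?_
    rw [hb j, map_mul, mul_assoc]
  rwa [h2] at h1

end Pool.Agent.DIX
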