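import Pool.Agent.DIX.Gram

/-!
# DIX: the symmetric matrix of a basis

`exists_mat`: a basis `g` of the module of sections gives a symmetric matrix `N` over `S3` with
`det N = c D`, entries of degree `ε i + ε j - p - 4`, and `w_i² = c q adj(N)_ii` modulo `D`.
PROOF.  `g_i g_j = q k_ij` modulo `D` (`sec_prod`), `G_ij = lam D (k_ij)` (symmetric because
`q k_ij = q k_ji` modulo `D`), `det G = C c` (`gram_const`).  `x0 g_i` is a section of degree `ε i + 1`, so
`x0 g_i = ∑ X_ij g_j` modulo `D` with binary forms `X_ij` (`gen`).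
`N_ij := x0 G_ij - lam D (x0 k_ij)` (with `emb`).  (1) `∑_j X_ij G_jl = lam D (∑ X_ij k_jl)` and
`q ∑ X_ij k_jl = ∑ X_ij g_j g_l = x0 g_i g_l = q x0 k_il` modulo `D`, so
`N = (x0 - X) G`.  `N` is symmetric.  (2) `det (x0 - X) = D`: under `fs` it is the characteristic
polynomial of `X` over `A2` (`Matrix.charpoly`), monic of degree 6; multiplying `(x0 - X) g = 0` by the
adjugate, `det (x0 - X) g_0 = 0` modulo `D`, `D` is prime and does not divide `g_0` (`ind_iff`), so `D`
divides it; both are monic of degree 6 in `x0`.  So `det N = D * C c`.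
(3) Let `K_ij = ∑_l emb (crd D (k_ij) l) x0^l` be the remainder of `k_ij` (`exists_rem`).
`(x0 - X) K = D G`: the entries of the left side are divisible by `D` (multiply by `q`:
`∑_j (x0 - X)_ij g_j g_l = 0`), and under `fs` they are polynomials of degree `≤ 6` in `x0` with the
coefficient `G_il` at `x0^6`; so the quotient is `G_il`.  (4) Multiply by `adj(x0 - X)` and cancel `D`:
`K = adj(x0 - X) G`.  `adj(N) = adj(G) adj(x0 - X)`, so `adj(N) G = adj(G) K` and
`adj(N) C c = adj(G) K adj(G)` (`G adj(G) = C c`).  (5) `w_i := ∑_j adj(G)_ij g_j` (`adj(G)` is symmetric):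
`w_i w_j = q (adj(G) K adj(G))_ij = q c adj(N)_ij` modulo `D`.  `D` does not divide `w_i`: the row `i` of
`adj(G)` is not zero, `ind_iff`.
-/

set_option autoImplicit false

namespace Pool.Agent.DIX

open MvPolynomial Pool.Agent.PLN Matrix

variable {D q : S3} {p : ℤ} {r : ℕ} {J : Fin r → S3} {J2 : Fin r → Fin r → S3}
  {ε : Fin 6 → ℤ} {g : Fin 6 → S3}

private theorem matN_cast {k : S3} {d d' : ℤ} (h : HomZ k d) (e : d = d') : HomZ k d' := e ▸ h

private theorem matN_rem (hD : Cur D) (k : S3) : ∃ K : S3, D ∣ k - K ∧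
    (∀ m, 6 ≤ m → (fs K).coeff m = 0) ∧ (fs K).coeff 5 = lam D k := by
  refine ⟨fs.symm (fs k %ₘ fs D), ?_, fun m hm => ?_, ?_⟩
  · have h1 : fs D ∣ fs (k - fs.symm (fs k %ₘ fs D)) := by
      rw [map_sub, AlgEquiv.apply_symm_apply]
      refine ⟨fs k /ₘ fs D, ?_⟩
      have h2 := Polynomial.modByMonic_add_div (fs k) (fs D)
      linear_combination -h2
    have h3 := map_dvd fs.symm h1
    rwa [AlgEquiv.symm_apply_apply, AlgEquiv.symm_apply_apply] at h3
  · rw [AlgEquiv.apply_symm_apply]
    refine Polynomial.coeff_eq_zero_of_natDegree_lt (lt_of_lt_of_le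
      (Polynomial.natDegree_modByMonic_lt _ hD.monic fun h => ?_) (hD.deg.le.trans hm))
    have h1 := hD.deg
    rw [h, Polynomial.natDegree_one] at h1
    omega
  · rw [AlgEquiv.apply_symm_apply]
    rfl

/-- the quotient -/
private theorem matN_quot (hD : Cur D) {G X' : Matrix (Fin 6) (Fin 6) A2}
    {K : Fin 6 → Fin 6 → S3} (hK : ∀ i j m, 6 ≤ m → (fs (K i j)).coeff m = 0)
    (hK5 : ∀ i j, (fs (K i j)).coeff 5 = G i j) (i l : Fin 6)
    (h : D ∣ X 0 * K i l - ∑ j, emb (X' i j) * K j l) :
    X 0 * K i l - ∑ j, emb (X' i j) * K j l = D * emb (G i l) := by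
  apply fs.injective
  have h1 : fs D ∣ fs (X 0 * K i l - ∑ j, emb (X' i j) * K j l) - fs (D * emb (G i l)) := by
    rw [← map_sub]
    exact map_dvd fs (dvd_sub h (dvd_mul_right D _))
  refine sub_eq_zero.1 (Polynomial.eq_zero_of_dvd_of_degree_lt h1 ?_)
  rw [Polynomial.degree_eq_natDegree hD.monic.ne_zero, hD.deg]
  rw [Polynomial.degree_lt_iff_coeff_zero]
  intro m hm
  have hm' : 6 ≤ m := by exact_mod_cast hm
  obtain ⟨n, rfl⟩ : ∃ n, m = n + 1 := ⟨m - 1, by omega⟩
  rw [map_sub, map_mul, map_sum, map_mul, fs_X0, fs_emb, Polynomial.coeff_sub,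
    Polynomial.coeff_sub, Polynomial.coeff_X_mul, Polynomial.finsetSum_coeff,
    Polynomial.coeff_mul_C]
  have h2 : ∑ j, (fs (emb (X' i j) * K j l)).coeff (n + 1) = 0 := by
    refine Finset.sum_eq_zero fun j _ => ?_
    rw [map_mul, fs_emb, Polynomial.coeff_C_mul, hK j l _ hm', mul_zero]
  rw [h2, sub_zero]
  rcases Nat.eq_or_lt_of_le hm' with h3 | h3
  · have h4 : n = 5 := by omega
    subst h4
    have h5 : (fs D).coeff 6 = 1 := by
      have := hD.monic.coeff_natDegree
      rwa [hD.deg] at this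
    rw [hK5, h5, one_mul, sub_self]
  · have h4 : (fs D).coeff (n + 1) = 0 :=
      Polynomial.coeff_eq_zero_of_natDegree_lt (by rw [hD.deg]; exact h3)
    rw [hK i l n (by omega), h4, zero_mul, sub_zero]

/-- the matrix `x0 - X` -/
private noncomputable def matNP (X' : Matrix (Fin 6) (Fin 6) A2) : Matrix (Fin 6) (Fin 6) S3 :=
  Matrix.scalar (Fin 6) (X 0) - X'.map emb

private theorem matNP_mul (X' : Matrix (Fin 6) (Fin 6) A2) (K : Matrix (Fin 6) (Fin 6) S3)
    (i l : Fin 6) : (matNP X' * K) i l = X 0 * K i l - ∑ j, emb (X' i j) * K j l := by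
  unfold matNP
  rw [Matrix.sub_mul, Matrix.sub_apply, Matrix.scalar_apply, Matrix.diagonal_mul, Matrix.mul_apply]
  rfl

private theorem matNP_mulVec (X' : Matrix (Fin 6) (Fin 6) A2) (v : Fin 6 → S3)
    (i : Fin 6) : (matNP X' *ᵥ v) i = X 0 * v i - ∑ j, emb (X' i j) * v j := by
  unfold matNP
  rw [Matrix.sub_mulVec, Pi.sub_apply, Matrix.scalar_apply, Matrix.mulVec_diagonal]
  rfl

private theorem matNP_det (X' : Matrix (Fin 6) (Fin 6) A2) :
    fs (matNP X').det = X'.charpoly := by
  rw [AlgEquiv.map_det, Matrix.charpoly]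
  congr 1
  ext1 i j
  rw [AlgEquiv.mapMatrix_apply, Matrix.map_apply, matNP, Matrix.sub_apply, map_sub,
    Matrix.map_apply, fs_emb, Matrix.charmatrix, Matrix.sub_apply]
  congr 1
  by_cases hij : i = j
  · subst hij
    simp [fs_X0]
  · simp [hij]

theorem exists_mat (hB : Bas D q p J J2 ε g) :
    ∃ (N : Matrix (Fin 6) (Fin 6) S3) (c : ℂ) (w : Fin 6 → S3), N.IsSymm ∧ c ≠ 0 ∧
      N.det = C c * D ∧ (∀ i j, HomZ (N i j) (ε i + ε j - p - 4)) ∧
      (∀ i, D ∣ w i ^ 2 - C c * (q * N.adjugate i i)) ∧ (∀ i, ¬ D ∣ w i) ∧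
      ∑ i, (2 * ε i - p - 5) = 0 := by
  have h := hB.dat
  have hD := h.cur
  have hcan : ∀ {a : S3}, D ∣ q * a → D ∣ a := fun ha =>
    (h.prime.dvd_or_dvd ha).resolve_left h.ndvd
  choose k hk1 hk2 using fun i j => sec_prod h (hB.sec i) (hB.sec j)
  obtain ⟨c, hc, hdet, hsum⟩ := gram_const hB hk2 hk1
  set G : Matrix (Fin 6) (Fin 6) A2 := Matrix.of fun i j => lam D (k i j) with hG
  have hGa : ∀ i j, G i j = lam D (k i j) := fun i j => rfl
  have hks : ∀ i j, D ∣ k i j - k j i := by
    intro i j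
    refine hcan ?_
    have h1 := dvd_sub (hk2 j i) (hk2 i j)
    convert h1 using 1
    ring
  have hGs : G.IsSymm := by
    ext1 i j
    rw [Matrix.transpose_apply, hGa, hGa]
    exact lam_congr hD (hks j i)
  choose X' hX1 hX2 using fun i => hB.gen (X 0 * g i) (1 + ε i) (sec_mul (homZ_X 0) (hB.sec i))
  -- the relation between the `k i j`
  have hrel : ∀ i l, D ∣ X 0 * k i l - ∑ j, emb (X' i j) * k j l := by
    intro i l
    refine hcan ?_
    have h1 : D ∣ ∑ j, emb (X' i j) * (g j * g l - q * k j l) :=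
      Finset.dvd_sum fun j _ => (hk2 j l).mul_left _
    have h2 := dvd_add (dvd_sub ((hX2 i).mul_left (g l)) ((hk2 i l).mul_left (X 0))) h1
    convert h2 using 1
    simp only [mul_sub, Finset.sum_sub_distrib, Finset.mul_sum]
    have h3 : ∑ j, emb (X' i j) * (g j * g l) = ∑ j, g l * (emb (X' i j) * g j) :=
      Finset.sum_congr rfl fun j _ => by ring
    have h4 : ∑ j, emb (X' i j) * (q * k j l) = ∑ j, q * (emb (X' i j) * k j l) :=
      Finset.sum_congr rfl fun j _ => by ring
    rw [h3, h4]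
    ring
  have hlam : ∀ i l, lam D (X 0 * k i l) = ∑ j, X' i j * G j l := by
    intro i l
    rw [lam_congr hD (hrel i l), lam_sum]
    exact Finset.sum_congr rfl fun j _ => by rw [lam_mul, hGa]
  set Xm : Matrix (Fin 6) (Fin 6) A2 := Matrix.of X' with hXm
  set P := matNP Xm with hP
  set GS : Matrix (Fin 6) (Fin 6) S3 := G.map emb with hGS
  have hN : ∀ i l, (P * GS) i l = X 0 * emb (G i l) - emb (lam D (X 0 * k i l)) := by
    intro i l
    rw [hP, matNP_mul, hlam, map_sum]
    congr 1
    exact Finset.sum_congr rfl fun j _ => by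
      rw [map_mul]
      rfl
  -- the determinant
  have hg0 : ¬ D ∣ g 0 := by
    intro h0
    have h1 := (ind_iff hD g).1 hB.ind (Pi.single 0 1) (by
      have h2 : ∑ i, emb ((Pi.single 0 1 : Fin 6 → A2) i) * g i = g 0 := by
        rw [Finset.sum_eq_single (0 : Fin 6)]
        · rw [Pi.single_eq_same, map_one, one_mul]
        · intro b _ hb
          rw [Pi.single_eq_of_ne hb, map_zero, zero_mul]
        · intro hb
          exact absurd (Finset.mem_univ _) hb
      rw [h2]
      exact h0)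
    have h3 := congrFun h1 0
    rw [Pi.single_eq_same] at h3
    exact one_ne_zero h3
  have hdP : D ∣ P.det := by
    have h1 : D ∣ P.det * g 0 := by
      have h2 : P.det * g 0 = ∑ i, P.adjugate 0 i * (P *ᵥ g) i := by
        have h3 : (P.adjugate *ᵥ (P *ᵥ g)) 0 = P.det * g 0 := by
          rw [Matrix.mulVec_mulVec, Matrix.adjugate_mul, Matrix.smul_mulVec, Matrix.one_mulVec]
          rfl
        rw [← h3]
        rfl
      rw [h2]
      refine Finset.dvd_sum fun i _ => Dvd.dvd.mul_left ?_ _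
      rw [hP, matNP_mulVec]
      exact hX2 i
    exact (h.prime.dvd_or_dvd h1).resolve_right hg0
  have hPD : P.det = D := by
    apply fs.injective
    rw [hP, matNP_det]
    refine (Polynomial.eq_of_monic_of_dvd_of_natDegree_le hD.monic Xm.charpoly_monic ?_ ?_)
    · rw [← matNP_det]
      exact map_dvd fs hdP
    · rw [Matrix.charpoly_natDegree_eq_dim, hD.deg, Fintype.card_fin]
  have hGSdet : GS.det = C c := by
    have h1 := AlgHom.map_det emb G
    rw [AlgHom.mapMatrix_apply] at h1
    rw [hGS, ← h1, hdet]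
    exact emb.commutes c
  -- the remainders
  choose K hK1 hK2 hK3 using fun i j => matN_rem hD (k i j)
  have hPK : P * Matrix.of K = D • GS := by
    ext1 i l
    rw [hP, matNP_mul, Matrix.smul_apply, smul_eq_mul]
    refine matN_quot (K := K) hD hK2 hK3 i l ?_
    have h1 : D ∣ ∑ j, emb (X' i j) * (k j l - K j l) :=
      Finset.dvd_sum fun j _ => (hK1 j l).mul_left _
    have h2 := dvd_add (dvd_sub (hrel i l) ((hK1 i l).mul_left (X 0))) h1
    convert h2 using 1
    simp only [mul_sub, Finset.sum_sub_distrib]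
    change X 0 * K i l - ∑ j, emb (X' i j) * K j l = _
    ring
  have hKe : Matrix.of K = P.adjugate * GS := by
    have h1 : D • Matrix.of K = D • (P.adjugate * GS) := by
      have h2 : P.adjugate * (P * Matrix.of K) = D • Matrix.of K := by
        rw [← Matrix.mul_assoc, Matrix.adjugate_mul, hPD, Matrix.smul_mul, Matrix.one_mul]
      rw [← h2, hPK, Matrix.mul_smul]
    ext1 i j
    have h3 := congrFun (congrFun h1 i) j
    rw [Matrix.smul_apply, Matrix.smul_apply, smul_eq_mul, smul_eq_mul] at h3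
    exact mul_left_cancel₀ h.prime.ne_zero h3
  have hadj : (C c : S3) • (P * GS).adjugate = GS.adjugate * Matrix.of K * GS.adjugate := by
    rw [hKe, Matrix.adjugate_mul_distrib]
    have h1 : GS.adjugate * (P.adjugate * GS) * GS.adjugate =
        GS.adjugate * P.adjugate * (GS * GS.adjugate) := by
      simp only [Matrix.mul_assoc]
    rw [h1, Matrix.mul_adjugate, hGSdet, Matrix.mul_smul, Matrix.mul_one]
  have hadjS : GS.adjugate = G.adjugate.map emb := by
    have h1 := AlgHom.map_adjugate emb G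
    rw [AlgHom.mapMatrix_apply, AlgHom.mapMatrix_apply] at h1
    rw [hGS, h1]
  have hsymm : ∀ i j, GS.adjugate i j = GS.adjugate j i := by
    intro i j
    have h1 : GS.IsSymm := by
      rw [hGS]
      exact hGs.map emb
    have h2 : GS.adjugateᵀ = GS.adjugate := by
      rw [Matrix.adjugate_transpose, h1]
    exact congrFun (congrFun h2 j) i
  refine ⟨P * GS, c, fun i => ∑ j, GS.adjugate i j * g j, ?_, hc, ?_, ?_, ?_, ?_, hsum⟩
  · ext1 i j
    rw [Matrix.transpose_apply, hN, hN, hGa, hGa, lam_congr hD (hks j i)]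
    congr 2
    refine lam_congr hD ?_
    have h1 := (hks j i).mul_left (X 0)
    rwa [mul_sub] at h1
  · rw [Matrix.det_mul, hPD, hGSdet, mul_comm]
  · intro i j
    rw [hN, hGa]
    refine HomZ.sub ?_ ?_
    · exact matN_cast ((homZ_X 0).mul ((homZ_emb _ _).2 (lam_hom hD (hk1 i j)))) (by ring)
    · exact matN_cast ((homZ_emb _ _).2 (lam_hom hD ((homZ_X 0).mul (hk1 i j)))) (by ring)
  · intro i
    have h1 : C c * (q * (P * GS).adjugate i i) =
        q * ∑ b, (∑ a, GS.adjugate i a * K a b) * GS.adjugate b i := by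
      have h2 := congrFun (congrFun hadj i) i
      rw [Matrix.smul_apply, smul_eq_mul, Matrix.mul_apply] at h2
      rw [mul_left_comm, h2]
      congr 1
    rw [h1]
    have h3 : (∑ j, GS.adjugate i j * g j) ^ 2 =
        ∑ b, (∑ a, GS.adjugate i a * (g a * g b)) * GS.adjugate b i := by
      rw [pow_two, Finset.mul_sum]
      refine Finset.sum_congr rfl fun b _ => ?_
      rw [hsymm b i, Finset.sum_mul, Finset.sum_mul]
      exact Finset.sum_congr rfl fun a _ => by ring
    rw [h3, Finset.mul_sum, ← Finset.sum_sub_distrib]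
    refine Finset.dvd_sum fun b _ => ?_
    have h4 : (∑ a, GS.adjugate i a * (g a * g b)) * GS.adjugate b i -
        q * ((∑ a, GS.adjugate i a * K a b) * GS.adjugate b i) =
        ∑ a, GS.adjugate b i * GS.adjugate i a * (g a * g b - q * K a b) := by
      rw [Finset.sum_mul, Finset.sum_mul, Finset.mul_sum, ← Finset.sum_sub_distrib]
      exact Finset.sum_congr rfl fun a _ => by ring
    rw [h4]
    refine Finset.dvd_sum fun a _ => Dvd.dvd.mul_left ?_ _
    have h5 := dvd_add (hk2 a b) ((hK1 a b).mul_left q)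
    convert h5 using 1
    ring
  · intro i hi
    have h1 := (ind_iff hD g).1 hB.ind (G.adjugate i) (by
      rw [hadjS] at hi
      exact hi)
    have h2 : (G.adjugate * G) i i = C c := by
      rw [Matrix.adjugate_mul, hdet, Matrix.smul_apply, Matrix.one_apply_eq, smul_eq_mul, mul_one]
    rw [Matrix.mul_apply] at h2
    have h3 : ∑ j, G.adjugate i j * G j i = 0 :=
      Finset.sum_eq_zero fun j _ => by rw [h1, Pi.zero_apply, zero_mul]
    rw [h3] at h2
    exact hc ((MvPolynomial.C_eq_zero).1 h2.symm)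

end Pool.Agent.DIX
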