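import Pool.Agent.DIX.Ind
import Pool.Agent.DIX.Bin

/-!
# DIX: six independent sections of minimal total degree

`star_of_min`: if the six independent sections `g_i` have minimal total degree `∑ ε i` among all
sextuples of independent sections, then they are independent modulo every linear form `pl Q` (the
property `star` of `Bas`).
PROOF.  Let `κ ≠ 0`, `w_m := ∑ C (κ i) emb(y)^(m - ε i) g_i = pl Q g'` modulo `D`, `g'` a section of degree
`m - 1`.  Let `r` be the minimum of `m - ε i` over the `i` with `κ i ≠ 0`, attained at `i0`.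
`w_m = emb(y)^r w` with `w = ∑ C (κ i) emb(y)^(m - r - ε i) g_i` (over `κ i ≠ 0`; terms with `κ i = 0`
vanish), a section of degree `m - r = ε i0`.  REGULARITY: `w = pl Q g''` modulo `D` for a section `g''` of
degree `ε i0 - 1`.  Apply `self_dual` to `w` and `a = pl Q` (`d = 1`): for a section `g1` with
`w g1 = q k`: `w_m g1 = q (emb(y)^r k)` and `g' g1 = q k'` (`sec_prod`), so
`q emb(y)^r k = q emb(pl Q) k'` modulo `D`, cancel `q`, and
`y^r lam D k = pl Q lam D k'` (`lam_congr`, `lam_mul`); `pl Q` is prime and does not divide `y`, so it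
divides `lam D k`.  REPLACEMENT: the sextuple with `g i0` replaced by `g''` (degree `ε i0 - 1`) is
independent: if `∑_{i ≠ i0} a_i g_i + a_{i0} g'' = 0` modulo `D`, multiply by `pl Q`:
`∑_{i ≠ i0} pl Q a_i g_i + a_{i0} ∑ κ_j y^.. g_j = 0`; the coefficient of `g_{i0}` is `a_{i0} κ_{i0}`
(exponent `0`), so `a_{i0} = 0`, and then all `a_i = 0`.  Its total degree is smaller by one:
contradiction with `hmin`.

`exists_min`: there are six independent sections of minimal total degree (`ε i ≥ 0` because `g i ≠ 0`;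
`Nat.find` on the total degree, or `WellFounded.min`; start with `exists_six`).
-/

set_option autoImplicit false

namespace Pool.Agent.DIX

open MvPolynomial Pool.Agent.PLN

variable {D q : S3} {p : ℤ} {r : ℕ} {J : Fin r → S3} {J2 : Fin r → Fin r → S3}

private theorem min_crd_zero (j : Fin 6) : crd D 0 j = 0 := by
  have h := crd_mul (D := D) 0 0 j
  rw [map_zero, zero_mul, zero_mul] at h
  exact h

private theorem min_nonneg {ε : Fin 6 → ℤ} {g : Fin 6 → S3}
    (hg : ∀ i, Sec D q J (g i) (ε i)) (hdet : (Matrix.of fun i j => crd D (g i) j).det ≠ 0) :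
    0 ≤ ∑ i, ε i := by
  refine Finset.sum_nonneg fun i _ => ?_
  by_contra hlt
  push Not at hlt
  have h0 : g i = 0 := (hg i).1.eq_zero hlt
  refine hdet (Matrix.det_eq_zero_of_row_eq_zero i fun j => ?_)
  rw [Matrix.of_apply, h0]
  exact min_crd_zero j

theorem exists_min (h : Dat D q p J J2) :
    ∃ (ε : Fin 6 → ℤ) (g : Fin 6 → S3), (∀ i, Sec D q J (g i) (ε i)) ∧
      (Matrix.of fun i j => crd D (g i) j).det ≠ 0 ∧
      ∀ (ε' : Fin 6 → ℤ) (g' : Fin 6 → S3), (∀ i, Sec D q J (g' i) (ε' i)) →
        (Matrix.of fun i j => crd D (g' i) j).det ≠ 0 → ∑ i, ε i ≤ ∑ i, ε' i := by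
  classical
  have hex : ∃ n : ℕ, ∃ (ε : Fin 6 → ℤ) (g : Fin 6 → S3), (∀ i, Sec D q J (g i) (ε i)) ∧
      (Matrix.of fun i j => crd D (g i) j).det ≠ 0 ∧ ∑ i, ε i = (n : ℤ) := by
    obtain ⟨ε, g, h1, h2⟩ := exists_six h
    exact ⟨(∑ i, ε i).toNat, ε, g, h1, h2, (Int.toNat_of_nonneg (min_nonneg h1 h2)).symm⟩
  obtain ⟨ε, g, h1, h2, h3⟩ := Nat.find_spec hex
  refine ⟨ε, g, h1, h2, fun ε' g' h1' h2' => ?_⟩
  rw [h3]
  have h4 := min_nonneg h1' h2'
  have h5 : Nat.find hex ≤ (∑ i, ε' i).toNat :=
    Nat.find_min' hex ⟨ε', g', h1', h2', (Int.toNat_of_nonneg h4).symm⟩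
  have h6 := Int.toNat_of_nonneg h4
  omega

theorem star_of_min (h : Dat D q p J J2) {ε : Fin 6 → ℤ} {g : Fin 6 → S3}
    (hg : ∀ i, Sec D q J (g i) (ε i)) (hdet : (Matrix.of fun i j => crd D (g i) j).det ≠ 0)
    (hmin : ∀ (ε' : Fin 6 → ℤ) (g' : Fin 6 → S3), (∀ i, Sec D q J (g' i) (ε' i)) →
      (Matrix.of fun i j => crd D (g' i) j).det ≠ 0 → ∑ i, ε i ≤ ∑ i, ε' i)
    {Q : Fin 2 → ℂ} (hQ : Q ≠ 0) {y : A2} (hy : HomZ y 1) (hyQ : eval Q y = 1)
    (κ : Fin 6 → ℂ) (m : ℤ) (hκ : ∀ i, κ i ≠ 0 → ε i ≤ m)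
    (hd : ∃ g' : S3, Sec D q J g' (m - 1) ∧
      D ∣ ∑ i, C (κ i) * emb y ^ (m - ε i).toNat * g i - emb (pl Q) * g') : κ = 0 := by
  classical
  by_contra hne
  have hD : Cur D := h.cur
  have hex : (Finset.univ.filter (fun i => κ i ≠ 0)).Nonempty := by
    by_contra hemp
    rw [Finset.not_nonempty_iff_eq_empty, Finset.filter_eq_empty_iff] at hemp
    refine hne (funext fun i => ?_)
    have := hemp (Finset.mem_univ i)
    simpa using this
  obtain ⟨i0, hi0, hmax⟩ := Finset.exists_max_image _ ε hex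
  rw [Finset.mem_filter] at hi0
  have hk0 : κ i0 ≠ 0 := hi0.2
  have hmax' : ∀ i, κ i ≠ 0 → ε i ≤ ε i0 := fun i hi =>
    hmax i (Finset.mem_filter.2 ⟨Finset.mem_univ _, hi⟩)
  have hm0 : ε i0 ≤ m := hκ i0 hk0
  -- the section without the superfluous power of `y`
  set w : S3 := ∑ i, C (κ i) * emb y ^ (ε i0 - ε i).toNat * g i with hw
  have hyE : HomZ (emb y) 1 := (homZ_emb y 1).2 hy
  have hwS : Sec D q J w (ε i0) := by
    refine sec_sum _ fun i _ => ?_
    have h1 : HomZ (C (κ i) * emb y ^ (ε i0 - ε i).toNat : S3) (ε i0 - ε i) := by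
      by_cases hi : κ i = 0
      · rw [hi, map_zero, zero_mul]
        exact homZ_zero _
      · have h2 := (homZ_C (n := 3) (κ i)).mul (hyE.pow (ε i0 - ε i).toNat)
        have h3 : (0 : ℤ) + ((ε i0 - ε i).toNat : ℤ) * 1 = ε i0 - ε i := by
          rw [zero_add, mul_one]
          exact Int.toNat_of_nonneg (by have := hmax' i hi; omega)
        rwa [h3] at h2
    have h4 := sec_mul h1 (hg i)
    rwa [sub_add_cancel] at h4
  have hwm : ∑ i, C (κ i) * emb y ^ (m - ε i).toNat * g i
      = emb y ^ (m - ε i0).toNat * w := by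
    rw [hw, Finset.mul_sum]
    refine Finset.sum_congr rfl fun i _ => ?_
    by_cases hi : κ i = 0
    · rw [hi, map_zero]
      ring
    · have h1 := hmax' i hi
      have h2 : (m - ε i).toNat = (m - ε i0).toNat + (ε i0 - ε i).toNat := by omega
      rw [h2, pow_add]
      ring
  obtain ⟨g', hg', hdv⟩ := hd
  rw [hwm] at hdv
  have hpr : Prime D := h.prime
  -- regularity
  obtain ⟨g2, hg2, hdg⟩ : ∃ g2 : S3, Sec D q J g2 (ε i0 - 1) ∧ D ∣ w - emb (pl Q) * g2 := by
    refine self_dual h hwS (pl_ne hQ) (pl_hom Q) fun g1 e1 k hg1 hk => ?_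
    obtain ⟨k', -, hk'⟩ := sec_prod h hg' hg1
    have h1 : D ∣ q * (emb y ^ (m - ε i0).toNat * k - emb (pl Q) * k') := by
      have e1 : q * (emb y ^ (m - ε i0).toNat * k - emb (pl Q) * k')
          = (emb y ^ (m - ε i0).toNat * w - emb (pl Q) * g') * g1
            - emb y ^ (m - ε i0).toNat * (w * g1 - q * k)
            + emb (pl Q) * (g' * g1 - q * k') := by ring
      rw [e1]
      exact dvd_add (dvd_sub (Dvd.dvd.mul_right hdv _) (Dvd.dvd.mul_left hk _))
        (Dvd.dvd.mul_left hk' _)
    have h2 : D ∣ emb y ^ (m - ε i0).toNat * k - emb (pl Q) * k' :=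
      (hpr.dvd_or_dvd h1).resolve_left h.ndvd
    have h3 := lam_congr hD h2
    rw [← map_pow, lam_mul, lam_mul] at h3
    have h4 : pl Q ∣ y ^ (m - ε i0).toNat * lam D k := ⟨_, h3⟩
    rcases (pl_prime hQ).dvd_or_dvd h4 with h5 | h5
    · exact absurd ((pl_prime hQ).dvd_of_dvd_pow h5) (pl_not_dvd hyQ)
    · exact h5
  -- replacement
  set gn : Fin 6 → S3 := Function.update g i0 g2 with hgn
  set εn : Fin 6 → ℤ := Function.update ε i0 (ε i0 - 1) with hεn
  have hsec : ∀ i, Sec D q J (gn i) (εn i) := by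
    intro i
    by_cases hi : i = i0
    · subst hi
      rw [hgn, hεn, Function.update_self, Function.update_self]
      exact hg2
    · rw [hgn, hεn, Function.update_of_ne hi, Function.update_of_ne hi]
      exact hg i
  have hdn : (Matrix.of fun i j => crd D (gn i) j).det ≠ 0 := by
    rw [ind_iff hD]
    intro a ha
    have hb := (ind_iff hD g).1 hdet (fun i => (if i = i0 then 0 else pl Q * a i) +
      a i0 * (C (κ i) * y ^ (ε i0 - ε i).toNat)) (by
        have e1 : ∑ i, emb ((if i = i0 then 0 else pl Q * a i) +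
            a i0 * (C (κ i) * y ^ (ε i0 - ε i).toNat)) * g i
            = emb (pl Q) * ∑ i, emb (a i) * gn i + emb (a i0) * (w - emb (pl Q) * g2) := by
          have e2 : ∑ i, emb ((if i = i0 then 0 else pl Q * a i) +
              a i0 * (C (κ i) * y ^ (ε i0 - ε i).toNat)) * g i
              = ∑ i, (if i = i0 then 0 else emb (pl Q) * (emb (a i) * g i)) +
                emb (a i0) * w := by
            rw [hw, Finset.mul_sum, ← Finset.sum_add_distrib]
            refine Finset.sum_congr rfl fun i _ => ?_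
            have e3 : emb (C (κ i)) = C (κ i) := by
              unfold emb
              rw [rename_C]
            rw [map_add, map_mul emb (a i0), map_mul emb (C (κ i)), map_pow, e3]
            by_cases hi : i = i0
            · rw [if_pos hi, if_pos hi, map_zero]
              ring
            · rw [if_neg hi, if_neg hi, map_mul]
              ring
          have e4 : emb (pl Q) * ∑ i, emb (a i) * gn i
              = ∑ i, (if i = i0 then 0 else emb (pl Q) * (emb (a i) * g i)) +
                emb (pl Q) * (emb (a i0) * g2) := by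
            rw [← Finset.add_sum_erase _ _ (Finset.mem_univ i0),
              ← Finset.add_sum_erase _ (fun i => if i = i0 then (0 : S3) else
                emb (pl Q) * (emb (a i) * g i)) (Finset.mem_univ i0)]
            rw [if_pos rfl, zero_add, mul_add, hgn, Function.update_self, add_comm,
              Finset.mul_sum]
            congr 1
            refine Finset.sum_congr rfl fun i hi => ?_
            have hi' : i ≠ i0 := (Finset.mem_erase.1 hi).1
            rw [if_neg hi', Function.update_of_ne hi']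
          rw [e2, e4]
          ring
        rw [e1]
        exact dvd_add (Dvd.dvd.mul_left ha _) (Dvd.dvd.mul_left hdg _))
    have h0 := congrFun hb i0
    simp only [if_true, zero_add, sub_self, Int.toNat_zero, pow_zero, mul_one,
      Pi.zero_apply] at h0
    have ha0 : a i0 = 0 := by
      rcases mul_eq_zero.1 h0 with h1 | h1
      · exact h1
      · exact absurd ((map_eq_zero_iff C (C_injective (Fin 2) ℂ)).1 h1) hk0
    funext i
    by_cases hi : i = i0
    · rw [hi, ha0]
      rfl
    · have h1 := congrFun hb i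
      simp only [if_neg hi, ha0, zero_mul, add_zero, Pi.zero_apply] at h1
      rcases mul_eq_zero.1 h1 with h2 | h2
      · exact absurd h2 (pl_ne hQ)
      · exact h2
  have hle := hmin εn gn hsec hdn
  rw [hεn, Finset.sum_update_of_mem (Finset.mem_univ i0),
    ← Finset.add_sum_erase _ _ (Finset.mem_univ i0), Finset.sdiff_singleton_eq_erase] at hle
  omega

end Pool.Agent.DIX
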