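import Pool.Agent.DIX.SecA
import Pool.Agent.DIX.Val

/-!
# DIX: forms whose divisor on the curve is even

`LocEven D q`: at every point of the curve `D = 0` the form `q` is a square times a unit.
`normal`: the curve is normal.  `mk_dat`: an even form gives the data `Dat` (finitely many forms
`J`, Hilbert's basis theorem).
-/

set_option autoImplicit false

namespace Pool.Agent.DIX

open MvPolynomial Pool.Agent.PLN

/-- At every point of the curve `D = 0` the form `q` is a square times a unit: there are forms `g`, `k`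
with `g ^ 2 = q * k` modulo `D`, and `k` does not vanish at the point. -/
def LocEven (D q : S3) : Prop :=
  ∀ s : Fin 3 → ℂ, s ≠ 0 → eval s D = 0 →
    ∃ (g k : S3) (m n : ℕ), g.IsHomogeneous m ∧ k.IsHomogeneous n ∧ D ∣ g ^ 2 - q * k ∧
      eval s k ≠ 0

theorem normal {D : S3} (hD : Cur D) {a b r : S3} {m n : ℕ} (ha : a.IsHomogeneous m)
    (hb : b.IsHomogeneous n) (hbD : ¬ D ∣ b) (h : D ∣ a ^ 2 - r * b ^ 2) :
    ∃ s : S3, D ∣ a - b * s := by
  refine lg hD hbD fun s hs h0 => ?_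
  have h1 : D ∣ 1 * a ^ 2 - r * b ^ 2 := by rwa [one_mul]
  obtain ⟨u, h', _, _, _, _, hu, hd⟩ := val hD.irr hD.hom hs h0 (hD.smooth s hs h0) ha hb
    h1 (by rw [map_one]; exact one_ne_zero)
  exact ⟨u, h', hu, by rwa [mul_comm b h']⟩

theorem LocEven.mul {D q q' : S3} (h : LocEven D q) (h' : LocEven D q') :
    LocEven D (q * q') := by
  intro s hs h0
  obtain ⟨g, k, m, n, hg, hk, hd, he⟩ := h s hs h0
  obtain ⟨g', k', m', n', hg', hk', hd', he'⟩ := h' s hs h0
  refine ⟨g * g', k * k', m + m', n + n', hg.mul hg', hk.mul hk', ?_, ?_⟩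
  · obtain ⟨w, hw⟩ := hd
    obtain ⟨w', hw'⟩ := hd'
    exact ⟨w * g' ^ 2 + q * k * w', by linear_combination g' ^ 2 * hw + q * k * hw'⟩
  · rw [map_mul]
    exact mul_ne_zero he he'

theorem mk_dat {D q : S3} {p : ℤ} {e : ℕ} (hD : Cur D) (hq : q.IsHomogeneous e) (hp : p = e)
    (hqD : ¬ D ∣ q) (hE : LocEven D q) :
    ∃ (r : ℕ) (J : Fin r → S3) (J2 : Fin r → Fin r → S3), Dat D q p J J2 := by
  classical
  let Pt : Type := {s : Fin 3 → ℂ // s ≠ 0 ∧ eval s D = 0}
  have h1 : ∀ s : Pt, ∃ (g k : S3) (m n : ℕ), g.IsHomogeneous m ∧ k.IsHomogeneous n ∧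
      D ∣ g ^ 2 - q * k ∧ eval s.1 k ≠ 0 := fun s => hE s.1 s.2.1 s.2.2
  choose g k m n hg hk hd hne using h1
  have hfg : (Ideal.span (Set.range k)).FG := IsNoetherian.noetherian _
  obtain ⟨T, hT, hspan⟩ := Submodule.fg_span_iff_fg_span_finset_subset _ |>.1 hfg
  have h2 : ∀ i : Fin T.card, ∃ s : Pt, k s = (T.equivFin.symm i : S3) := fun i =>
    hT (T.equivFin.symm i).2
  choose pt hpt using h2
  have hprime : Prime D := hD.irr.prime
  have h3 : ∀ i j : Fin T.card, ∃ t : S3, D ∣ g (pt i) * g (pt j) - q * t := by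
    intro i j
    refine normal hD ((hg _).mul (hg _)) hq hqD (r := k (pt i) * k (pt j)) ?_
    obtain ⟨w, hw⟩ := hd (pt i)
    obtain ⟨w', hw'⟩ := hd (pt j)
    exact ⟨w * g (pt j) ^ 2 + q * k (pt i) * w', by
      linear_combination g (pt j) ^ 2 * hw + q * k (pt i) * hw'⟩
  choose t ht using h3
  refine ⟨T.card, fun i => g (pt i), t, hD, ?_, hqD, fun i => ⟨m (pt i), (homZ_nat _ _).2 (hg _)⟩,
    ht, ?_⟩
  · rw [hp]
    exact (homZ_nat _ _).2 hq
  · intro s hs h0
    by_contra hcon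
    push Not at hcon
    have h4 : ∀ i, eval s (k (pt i)) = 0 := by
      intro i
      have h5 : D ∣ q * (t i i - k (pt i)) := by
        obtain ⟨w, hw⟩ := hd (pt i)
        obtain ⟨w', hw'⟩ := ht i i
        exact ⟨w - w', by linear_combination hw - hw'⟩
      obtain ⟨w, hw⟩ := (hprime.dvd_or_dvd h5).resolve_left hqD
      have h6 := congrArg (eval s) hw
      rw [map_sub, map_mul, h0, zero_mul, hcon i i, zero_sub, neg_eq_zero] at h6
      exact h6
    have h7 : Ideal.span (T : Set S3) ≤ RingHom.ker (eval s) := by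
      rw [Ideal.span_le]
      intro x hx
      have := h4 (T.equivFin ⟨x, hx⟩)
      rw [hpt, Equiv.symm_apply_apply] at this
      exact this
    have h8 : k ⟨s, hs, h0⟩ ∈ Ideal.span (T : Set S3) := by
      have h9 : k ⟨s, hs, h0⟩ ∈ Ideal.span (Set.range k) := Ideal.subset_span ⟨_, rfl⟩
      rw [Ideal.span, hspan] at h9
      exact h9
    exact hne ⟨s, hs, h0⟩ (h7 h8)

end Pool.Agent.DIX
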