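import Pool.Agent.DIX.General
import Pool.Agent.DIX.Alpha

/-!
# DIX: forms of even degree in arbitrary coordinates

`dix_odd`: for a form `q` of even degree which is even on a smooth sextic `D` there is a symmetric
matrix with determinant `D` and the class of `q`, either of size 6 with two independent constant
vectors which span a totally isotropic plane, or of size 3 with quadratic entries.
-/

set_option autoImplicit false

namespace Pool.Agent.DIX

open MvPolynomial Pool.Agent.PLN Matrix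

theorem pair_eps {D q : S3} {p : ℤ} {r : ℕ} {J : Fin r → S3} {J2 : Fin r → Fin r → S3}
    {ε : Fin 6 → ℤ} {g : Fin 6 → S3} (hB : Bas D q p J J2 ε g) (i : Fin 6) :
    ∃ k, p + 5 ≤ ε i + ε k := by
  have h := hB.dat
  have hD := h.cur
  choose k hk1 hk2 using fun i j => sec_prod h (hB.sec i) (hB.sec j)
  obtain ⟨c, hc, hdet, -⟩ := gram_const hB hk2 hk1
  by_contra hcon
  push Not at hcon
  have h0 : (Matrix.of fun i j => lam D (k i j)).det = 0 := by
    refine Matrix.det_eq_zero_of_row_eq_zero i fun j => ?_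
    rw [Matrix.of_apply]
    refine (lam_hom hD (hk1 i j)).eq_zero ?_
    have := hcon j
    omega
  rw [h0] at hdet
  exact hc (C_eq_zero.1 hdet.symm)

theorem eps_cases {ε : Fin 6 → ℤ} {p' : ℤ} (hs : ∑ i, (2 * ε i - 2 * p' - 5) = 0)
    (hp : ∀ i, ∃ k, 2 * p' + 5 ≤ ε i + ε k) {i : Fin 6} (hi : ε i ≤ p' + 1) :
    (∃ j, i ≠ j ∧ ε j ≤ p' + 1) ∨ ∃ j k, i ≠ j ∧ i ≠ k ∧ j ≠ k ∧ ε j ≤ p' + 2 ∧ ε k ≤ p' + 2 := by
  by_contra hcon
  push Not at hcon
  obtain ⟨h1, h2⟩ := hcon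
  obtain ⟨k, hk⟩ := hp i
  have hik : i ≠ k := by
    rintro rfl
    omega
  have h3 := Finset.add_sum_erase Finset.univ (fun i => 2 * ε i - 2 * p' - 5)
    (Finset.mem_univ i)
  have hk' : k ∈ Finset.univ.erase i := Finset.mem_erase.2 ⟨hik.symm, Finset.mem_univ _⟩
  have h4 := Finset.add_sum_erase (Finset.univ.erase i) (fun i => 2 * ε i - 2 * p' - 5) hk'
  set R := (Finset.univ.erase i).erase k with hR
  have hcard : R.card = 4 := by
    rw [hR, Finset.card_erase_of_mem hk', Finset.card_erase_of_mem (Finset.mem_univ _)]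
    simp
  have h5 : ∑ j ∈ R, (2 * ε j - 2 * p' - 5) ≤ 0 := by
    rw [hs] at h3
    rw [← h4] at h3
    omega
  have hRi : ∀ j ∈ R, i ≠ j := by
    intro j hj
    rw [hR, Finset.mem_erase, Finset.mem_erase] at hj
    exact hj.2.1.symm
  by_cases h6 : ∃ j ∈ R, ε j ≤ p' + 2
  · obtain ⟨j, hj, hj2⟩ := h6
    have h7 := Finset.add_sum_erase R (fun i => 2 * ε i - 2 * p' - 5) hj
    have h8 : ∑ l ∈ R.erase j, (1 : ℤ) ≤ ∑ l ∈ R.erase j, (2 * ε l - 2 * p' - 5) := by
      refine Finset.sum_le_sum fun l hl => ?_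
      rw [Finset.mem_erase] at hl
      have := h2 j l (hRi j hj) (hRi l hl.2) hl.1.symm hj2
      omega
    rw [Finset.sum_const, Finset.card_erase_of_mem hj, hcard] at h8
    have h9 := h1 j (hRi j hj)
    simp only [nsmul_eq_mul, mul_one] at h8
    omega
  · push Not at h6
    have h8 : ∑ l ∈ R, (1 : ℤ) ≤ ∑ l ∈ R, (2 * ε l - 2 * p' - 5) := by
      refine Finset.sum_le_sum fun l hl => ?_
      have := h6 l hl
      omega
    rw [Finset.sum_const, hcard] at h8
    simp only [nsmul_eq_mul, mul_one] at h8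
    omega

theorem isoPair_of {N : Matrix (Fin 6) (Fin 6) S3} (hN : N.IsSymm) {i j k : Fin 6}
    (hij : i ≠ j) (hik : i ≠ k) (hjk : j ≠ k) (h11 : N i i = 0) (h12 : N i j = 0)
    (h13 : N i k = 0) {a b c : ℂ} (h22 : N j j = C a) (h23 : N j k = C b) (h33 : N k k = C c) :
    ∃ u v, IsoPair N u v := by
  obtain ⟨s, t, hst, h0⟩ : ∃ s t : ℂ, (s ≠ 0 ∨ t ≠ 0) ∧
      s * s * a + 2 * s * t * b + t * t * c = 0 := by
    by_cases ha : a = 0
    · exact ⟨1, 0, Or.inl one_ne_zero, by rw [ha]; ring⟩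
    · obtain ⟨r, hr⟩ := IsAlgClosed.exists_pow_nat_eq (b ^ 2 - a * c) two_pos
      refine ⟨(-b + r) / a, 1, Or.inr one_ne_zero, ?_⟩
      field_simp
      linear_combination hr
  have hkj : N k j = C b := by rw [← h23, hN.apply]
  have hji : N j i = 0 := by rw [← h12, hN.apply]
  have hki : N k i = 0 := by rw [← h13, hN.apply]
  have hform : ∀ x y : Fin 6 → ℂ, (fun l => (C (x l) : S3)) ⬝ᵥ (N *ᵥ fun l => C (y l)) =
      ∑ l, ∑ m, C (x l) * (N l m * C (y m)) := by
    intro x y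
    simp only [dotProduct, mulVec, Finset.mul_sum]
  have hsum : ∀ (f : Fin 6 → S3), (∀ l, l ≠ i → l ≠ j → l ≠ k → f l = 0) →
      ∑ l, f l = f i + f j + f k := by
    intro f hf
    have h1 : ∑ l ∈ ({i, j, k} : Finset (Fin 6)), f l = ∑ l, f l := by
      refine Finset.sum_subset (Finset.subset_univ _) fun l _ hl => ?_
      simp only [Finset.mem_insert, Finset.mem_singleton, not_or] at hl
      exact hf l hl.1 hl.2.1 hl.2.2
    rw [← h1, Finset.sum_insert (by simp [hij, hik]), Finset.sum_insert (by simp [hjk]),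
      Finset.sum_singleton, add_assoc]
  let u : Fin 6 → ℂ := Pi.single i 1
  let v : Fin 6 → ℂ := fun l => if l = j then s else if l = k then t else 0
  have hui : u i = 1 := Pi.single_eq_same _ _
  have huj : u j = 0 := Pi.single_eq_of_ne hij.symm _
  have huk : u k = 0 := Pi.single_eq_of_ne hik.symm _
  have hvi : v i = 0 := by simp only [v, if_neg hij, if_neg hik]
  have hvj : v j = s := by simp only [v, if_true]
  have hvk : v k = t := by simp only [v, if_neg hjk.symm, if_true]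
  have hu0 : ∀ l, l ≠ i → l ≠ j → l ≠ k → u l = 0 := fun l h _ _ => Pi.single_eq_of_ne h _
  have hv0 : ∀ l, l ≠ i → l ≠ j → l ≠ k → v l = 0 := fun l _ h h' => by
    simp only [v, if_neg h, if_neg h']
  have hval : ∀ x y : Fin 6 → ℂ, (∀ l, l ≠ i → l ≠ j → l ≠ k → x l = 0) →
      (∀ l, l ≠ i → l ≠ j → l ≠ k → y l = 0) →
      (fun l => (C (x l) : S3)) ⬝ᵥ (N *ᵥ fun l => C (y l)) =
      C (x j) * (C a * C (y j)) + C (x j) * (C b * C (y k)) +
        C (x k) * (C b * C (y j)) + C (x k) * (C c * C (y k)) := by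
    intro x y hx hy
    rw [hform, hsum _ (fun l h h' h'' => by
      rw [hx l h h' h'']; simp), hsum _ (fun l h h' h'' => by rw [hy l h h' h'']; simp),
      hsum _ (fun l h h' h'' => by rw [hy l h h' h'']; simp),
      hsum _ (fun l h h' h'' => by rw [hy l h h' h'']; simp), h11, h12, h13, hji, hki, h22, h23,
      hkj, h33]
    ring
  refine ⟨u, v, ?_, ?_, ?_, ?_⟩
  · rw [LinearIndependent.pair_iff]
    intro x y hxy
    have e1 := congrFun hxy i
    have e2 := congrFun hxy j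
    have e3 := congrFun hxy k
    simp only [Pi.add_apply, Pi.smul_apply, smul_eq_mul, Pi.zero_apply, hui, huj, huk, hvi, hvj,
      hvk, mul_zero, mul_one, add_zero, zero_add] at e1 e2 e3
    refine ⟨e1, ?_⟩
    rcases hst with hs | ht
    · exact (mul_eq_zero.1 e2).resolve_right hs
    · exact (mul_eq_zero.1 e3).resolve_right ht
  · rw [hval u u hu0 hu0, huj, huk, C_0]
    ring
  · rw [hval u v hu0 hv0, huj, huk, C_0]
    ring
  · rw [hval v v hv0 hv0, hvj, hvk]
    have h1 := congrArg (C : ℂ → S3) h0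
    simp only [C_add, C_mul, C_0] at h1
    have h2 : (C 2 : S3) = 2 := map_ofNat _ 2
    rw [h2] at h1
    linear_combination h1

theorem isoPair_two {N : Matrix (Fin 6) (Fin 6) S3} {i j : Fin 6}
    (hij : i ≠ j) (h11 : N i i = 0) (h12 : N i j = 0) (h22 : N j j = 0) :
    ∃ u v, IsoPair N u v := by
  have hval : ∀ a b : Fin 6, (fun l => (C ((Pi.single a 1 : Fin 6 → ℂ) l) : S3)) ⬝ᵥ
      (N *ᵥ fun l => C ((Pi.single b 1 : Fin 6 → ℂ) l)) = N a b := by
    intro a b
    have e : ∀ b : Fin 6, (fun l => (C ((Pi.single b 1 : Fin 6 → ℂ) l) : S3)) =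
        Pi.single b 1 := by
      intro b
      funext l
      by_cases h : l = b
      · subst h
        rw [Pi.single_eq_same, Pi.single_eq_same, C_1]
      · rw [Pi.single_eq_of_ne h, Pi.single_eq_of_ne h, C_0]
    rw [e, e, mulVec_single_one, single_one_dotProduct]
    rfl
  refine ⟨Pi.single i 1, Pi.single j 1, ?_, ?_, ?_, ?_⟩
  · rw [LinearIndependent.pair_iff]
    intro x y hxy
    have e1 := congrFun hxy i
    have e2 := congrFun hxy j
    rw [Pi.add_apply, Pi.smul_apply, Pi.smul_apply, Pi.single_eq_same,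
      Pi.single_eq_of_ne hij] at e1
    rw [Pi.add_apply, Pi.smul_apply, Pi.smul_apply, Pi.single_eq_same,
      Pi.single_eq_of_ne hij.symm] at e2
    simp only [smul_eq_mul, mul_one, mul_zero, add_zero, zero_add, Pi.zero_apply] at e1 e2
    exact ⟨e1, e2⟩
  · rw [hval, h11]
  · rw [hval, h12]
  · rw [hval, h22]

/-- The two cases for a form of even degree (`D` monic in `x0`). -/
theorem odd_dat {D q : S3} {p' : ℤ} {r : ℕ} {J : Fin r → S3} {J2 : Fin r → Fin r → S3}
    (h : Dat D q (2 * p') J J2) :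
    (∃ (N : Matrix (Fin 6) (Fin 6) S3) (c : ℂ) (w : Fin 6 → S3) (u v : Fin 6 → ℂ),
      IsoPair N u v ∧ N.IsSymm ∧ c ≠ 0 ∧ N.det = C c * D ∧
      (∀ l, ∃ m : ℕ, (N.adjugate l l).IsHomogeneous m) ∧
      (∀ l, D ∣ w l ^ 2 - C c * (q * N.adjugate l l)) ∧ ∀ l, ¬ D ∣ w l) ∨
    ∃ (t : Fin 3 → Fin 3 → Fin 3 → Fin 3 → ℂ) (c' : ℂ),
      (∀ k l i j, t k l i j = t l k i j) ∧ (∀ k l i j, t k l i j = t k l j i) ∧ c' ≠ 0 ∧
      (vA t).det = C c' * D ∧ ∀ i, SqMod D (q * (vA t).adjugate i i) := by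
  obtain ⟨ε, g, hB⟩ := exists_bas h
  obtain ⟨N, c, w, hsym, hc, hdet, hdeg, hw, hnw, hsum⟩ := exists_mat hB
  have hadj : ∀ l, ∃ m : ℕ, (N.adjugate l l).IsHomogeneous m := by
    intro l
    have h3 : ∀ i j, HomZ (N i j) (ε i + (ε j - 2 * p' - 4)) := by
      intro i j
      have := hdeg i j
      rwa [show ε i + (ε j - 2 * p' - 4) = ε i + ε j - 2 * p' - 4 by ring]
    have h4 := homZ_adj (u := ε) (v := fun j => ε j - 2 * p' - 4) h3 l l
    by_cases h0 : N.adjugate l l = 0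
    · exact ⟨0, by rw [h0]; exact isHomogeneous_zero _ _ _⟩
    · obtain ⟨m, _, hm⟩ := h4.exists_nat h0
      exact ⟨m, hm⟩
  by_cases hmin : ∀ i, p' + 2 ≤ ε i
  · rcases alpha_or_iso h.prime hsym hc hdet hdeg hw hnw hsum hmin with ⟨u, v, huv⟩ | h2
    · exact Or.inl ⟨N, c, w, u, v, huv, hsym, hc, hdet, hadj, hw, hnw⟩
    · exact Or.inr h2
  · left
    push Not at hmin
    obtain ⟨i, hi⟩ := hmin
    have hcst : ∀ j k, ε j ≤ p' + 2 → ε k ≤ p' + 2 → ∃ a : ℂ, N j k = C a := by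
      intro j k hj hk
      by_cases h0 : N j k = 0
      · exact ⟨0, by rw [h0, C_0]⟩
      · obtain ⟨m, hm, hm'⟩ := (hdeg j k).exists_nat h0
        have hm0 : HomZ (N j k) 0 := by
          have := hdeg j k
          rwa [show ε j + ε k - 2 * p' - 4 = 0 by omega] at this
        exact hm0.const
    have hz : ∀ j k, ε j + ε k < 2 * p' + 4 → N j k = 0 := fun j k hjk =>
      (hdeg j k).eq_zero (by omega)
    rcases eps_cases hsum (pair_eps hB) (i := i) (by omega) with ⟨j, hij, hj⟩ |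
      ⟨j, k, hij, hik, hjk, hj, hk⟩
    · obtain ⟨u, v, huv⟩ := isoPair_two (N := N) hij (hz i i (by omega)) (hz i j (by omega))
        (hz j j (by omega))
      exact ⟨N, c, w, u, v, huv, hsym, hc, hdet, hadj, hw, hnw⟩
    · obtain ⟨a, ha⟩ := hcst j j hj hj
      obtain ⟨b, hb⟩ := hcst j k hj hk
      obtain ⟨d, hd⟩ := hcst k k hk hk
      obtain ⟨u, v, huv⟩ := isoPair_of hsym hij hik hjk (hz i i (by omega))
        (hz i j (by omega)) (hz i k (by omega)) ha hb hd
      exact ⟨N, c, w, u, v, huv, hsym, hc, hdet, hadj, hw, hnw⟩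

theorem isoPair_lc (B : Matrix (Fin 3) (Fin 3) ℂ) {N : Matrix (Fin 6) (Fin 6) S3}
    {u v : Fin 6 → ℂ} (h : IsoPair N u v) : IsoPair (N.map (lc B)) u v := by
  have h1 : ∀ x y : Fin 6 → ℂ, (fun i => (C (x i) : S3)) ⬝ᵥ (N.map (lc B) *ᵥ fun i => C (y i)) =
      lc B ((fun i => (C (x i) : S3)) ⬝ᵥ (N *ᵥ fun i => C (y i))) := by
    intro x y
    simp only [dotProduct, mulVec, Matrix.map_apply, map_sum, map_mul, lc_C]
  obtain ⟨hl, h11, h12, h22⟩ := h
  exact ⟨hl, by rw [h1, h11, map_zero], by rw [h1, h12, map_zero], by rw [h1, h22, map_zero]⟩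

/-- A symmetric matrix of quadratic forms is a form of bidegree `(2, 2)`. -/
theorem exists_tensor {α : Matrix (Fin 3) (Fin 3) S3} (hs : ∀ i j, α i j = α j i)
    (hh : ∀ i j, (α i j).IsHomogeneous 2) :
    ∃ t : Fin 3 → Fin 3 → Fin 3 → Fin 3 → ℂ, (∀ k l i j, t k l i j = t l k i j) ∧
      (∀ k l i j, t k l i j = t k l j i) ∧ vA t = α := by
  have hex : ∀ f : S3, ∃ t : Fin 3 → Fin 3 → ℂ, f.IsHomogeneous 2 → (∀ k l, t k l = t l k) ∧
      f = ∑ k, ∑ l, C (t k l) * X k * X l := by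
    intro f
    by_cases hf : f.IsHomogeneous 2
    · obtain ⟨t, h1, h2⟩ := exists_quad hf
      exact ⟨t, fun _ => ⟨h1, h2⟩⟩
    · exact ⟨0, fun h => absurd h hf⟩
  choose T hT using hex
  refine ⟨fun k l i j => T (α i j) k l, fun k l i j => (hT _ (hh i j)).1 k l, fun k l i j => ?_, ?_⟩
  · change T (α i j) k l = T (α j i) k l
    rw [hs i j]
  · refine Matrix.ext fun i j => ?_
    exact (hT _ (hh i j)).2.symm

theorem vA_hom (t : Fin 3 → Fin 3 → Fin 3 → Fin 3 → ℂ) (i j : Fin 3) :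
    (vA t i j).IsHomogeneous 2 := by
  unfold vA
  refine IsHomogeneous.sum _ _ _ fun p _ => IsHomogeneous.sum _ _ _ fun q _ => ?_
  have h1 := ((isHomogeneous_C (Fin 3) (t p q i j)).mul (isHomogeneous_X ℂ p)).mul
    (isHomogeneous_X ℂ q)
  simpa using h1

theorem sqMod_back {A B : Matrix (Fin 3) (Fin 3) ℂ} (hAB : A * B = 1) (hBA : B * A = 1)
    {D f : S3} {c : ℂ} (hc : c ≠ 0) (h : SqMod (C c * lc A D) f) : SqMod D (lc B f) := by
  obtain ⟨a, b, n, hb, hDb, hDf, hd⟩ := h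
  refine ⟨lc B a, lc B b, n, lc_hom B hb, fun h1 => hDb (dvd_forth hBA hc h1),
    fun h1 => hDf (dvd_forth hBA hc h1), ?_⟩
  have h1 := dvd_back hAB hc hd
  rwa [map_sub, map_mul, map_pow, map_pow] at h1

theorem dix_odd {D q : S3} {n : ℕ} (hD : D.IsHomogeneous 6) (hS : SmoothCurve D)
    (hq : q.IsHomogeneous (2 * n)) (hqD : ¬ D ∣ q) (hE : LocEven D q) :
    (∃ (N : Matrix (Fin 6) (Fin 6) S3) (c : ℂ) (u v : Fin 6 → ℂ),
      IsoPair N u v ∧ N.IsSymm ∧ c ≠ 0 ∧ N.det = C c * D ∧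
      (∀ l, ∃ m : ℕ, (N.adjugate l l).IsHomogeneous m) ∧
      ∀ l, SqMod D (q * N.adjugate l l)) ∨
    ∃ (t : Fin 3 → Fin 3 → Fin 3 → Fin 3 → ℂ) (c : ℂ),
      (∀ k l i j, t k l i j = t l k i j) ∧ (∀ k l i j, t k l i j = t k l j i) ∧ c ≠ 0 ∧
      (vA t).det = C c * D ∧ ∀ i, SqMod D (q * (vA t).adjugate i i) := by
  have hpr : Prime D := (smooth_irr hD (by norm_num) (smooth_ne hS) hS).prime
  obtain ⟨A, B, c', hAB, hBA, hc', hcur⟩ := exists_cur hD hS
  have hqD' : ¬ C c' * lc A D ∣ lc A q := fun h => by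
    have := dvd_back hAB hc' h
    rw [lc_inv hAB] at this
    exact hqD this
  obtain ⟨r, J, J2, hdat⟩ := mk_dat (p := 2 * (n : ℤ)) hcur (lc_hom A hq) (by push_cast; ring)
    hqD' (locEven_C hc' (locEven_lc hBA hE))
  rcases odd_dat hdat with ⟨N, c, w, u, v, huv, hN, hc, hdet, hadj, hw, hw0⟩ |
    ⟨t, c, ht1, ht2, hc, hdet, hsq⟩
  · obtain ⟨h3, h4, h5, h6⟩ := rep_back hAB hBA hpr hc' hN hc hdet hw hw0
    refine Or.inl ⟨N.map (lc B), c * c', u, v, isoPair_lc B huv, h3, h4, h5, fun l => ?_, h6⟩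
    obtain ⟨m, hm⟩ := hadj l
    exact ⟨m, by rw [lc_map_adj]; exact lc_hom B hm⟩
  · right
    have hsy : ∀ i j, vA t i j = vA t j i := by
      intro i j
      unfold vA
      exact Finset.sum_congr rfl fun k _ => Finset.sum_congr rfl fun l _ => by rw [ht2]
    obtain ⟨t', h1, h2, h3⟩ := exists_tensor (α := (vA t).map (lc B))
      (fun i j => by rw [Matrix.map_apply, Matrix.map_apply, hsy])
      (fun i j => by rw [Matrix.map_apply]; exact lc_hom B (vA_hom t i j))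
    refine ⟨t', c * c', h1, h2, mul_ne_zero hc hc', ?_, fun i => ?_⟩
    · rw [h3, lc_map_det, hdet, map_mul, map_mul, lc_C, lc_C, lc_inv hAB, ← mul_assoc, C_mul]
    · rw [h3, lc_map_adj]
      have := sqMod_back hAB hBA hc' (hsq i)
      rwa [map_mul, lc_inv hAB] at this

end Pool.Agent.DIX
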