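import Pool.Agent.PLN.Main
import Pool.Agent.DIX.IsoUV

/-!
# DIX: a partner with a totally isotropic plane, general position

`rational_of_uv`: as `rational_of_two` (TwoEnd.lean, copy its proof), for two linearly independent
constant vectors `u, v` which span a totally isotropic plane of `N`; use `iso_uv` over `K0` with
  the
vectors `fun i => affK (C (u i))` (linearly independent: a `2 x 2` minor of `u, v` is a nonzero
  complex
number; `affK (C c) = 0` only if `c = 0`, see `pK_ne` in Pool/Agent/PLN/Main.lean).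
-/

set_option autoImplicit false

namespace Pool.Agent.DIX

open MvPolynomial Matrix Pool.Agent.PLN

/-- a nonzero minor -/
private theorem UVEnd_minor {u v : Fin 6 → ℂ} (huv : LinearIndependent ℂ ![u, v]) :
    ∃ i j, u i * v j - u j * v i ≠ 0 := by
  by_contra hcon
  push Not at hcon
  have hu : u ≠ 0 := by
    have := huv.ne_zero 0
    simpa using this
  obtain ⟨i, hi⟩ := Function.ne_iff.1 hu
  have h1 := LinearIndependent.pair_iff.1 huv (v i) (-(u i)) (by
    funext j
    simp only [Pi.add_apply, Pi.smul_apply, smul_eq_mul, Pi.zero_apply]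
    linear_combination -hcon i j)
  exact hi (neg_eq_zero.1 h1.2)

private theorem UVEnd_li {u v : Fin 6 → ℂ} (huv : LinearIndependent ℂ ![u, v]) :
    LinearIndependent K0 ![pK u, pK v] := by
  obtain ⟨i, j, hij⟩ := UVEnd_minor huv
  have hne : pK u i * pK v j - pK u j * pK v i ≠ 0 := by
    have h1 : pK u i * pK v j - pK u j * pK v i = affK (C (u i * v j - u j * v i)) := by
      simp only [pK, map_sub, map_mul]
    rw [h1]
    intro h
    have h2 := affK_inj (isHomogeneous_C (Fin 3) _) h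
    rw [C_eq_zero] at h2
    exact hij h2
  rw [LinearIndependent.pair_iff]
  intro s t hst
  have e1 := congrFun hst i
  have e2 := congrFun hst j
  simp only [Pi.add_apply, Pi.smul_apply, smul_eq_mul, Pi.zero_apply] at e1 e2
  constructor
  · have h3 : s * (pK u i * pK v j - pK u j * pK v i) = 0 := by
      linear_combination pK v j * e1 - pK v i * e2
    exact (mul_eq_zero.1 h3).resolve_right hne
  · have h3 : t * (pK u i * pK v j - pK u j * pK v i) = 0 := by
      linear_combination pK u i * e2 - pK u j * e1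
    exact (mul_eq_zero.1 h3).resolve_right hne

private theorem UVEnd_iso {N : Matrix (Fin 6) (Fin 6) S3} {u v : Fin 6 → ℂ}
    (h : (fun l => (C (u l) : S3)) ⬝ᵥ (N *ᵥ fun l => C (v l)) = 0) :
    pK u ⬝ᵥ (N.map affK *ᵥ pK v) = 0 := by
  have h1 : pK u ⬝ᵥ (N.map affK *ᵥ pK v) =
      affK ((fun l => (C (u l) : S3)) ⬝ᵥ (N *ᵥ fun l => C (v l))) := by
    simp only [pK, dotProduct, mulVec, Matrix.map_apply, map_sum, map_mul]
  rw [h1, h, map_zero]

theorem rational_of_uv {M : Matrix (Fin 4) (Fin 4) S3} (hM : IsCub M)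
    (hS : SmoothCurve M.det) {N : Matrix (Fin 6) (Fin 6) S3} (hN : N.IsSymm) {c : ℂ}
    (hc : c ≠ 0) (hd : N.det = C c * M.det) {γ : S3} {m : ℕ} (hγ : γ.IsHomogeneous m)
    (hγi : Irreducible γ) (h1 : SqMod γ M.det) (i : Fin 6) (j : Fin 4) {k : ℕ}
    (hk : (N.adjugate i i).IsHomogeneous k)
    (h2 : SqMod M.det (γ * M.adjugate j j * N.adjugate i i)) {u v : Fin 6 → ℂ}
    (huv : LinearIndependent ℂ ![u, v])
    (h11 : (fun l => (C (u l) : S3)) ⬝ᵥ (N *ᵥ fun l => C (u l)) = 0)
    (h12 : (fun l => (C (u l) : S3)) ⬝ᵥ (N *ᵥ fun l => C (v l)) = 0)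
    (h22 : (fun l => (C (v l) : S3)) ⬝ᵥ (N *ᵥ fun l => C (v l)) = 0) :
    Pool.Agent.P28.Rational (cubic M) := by
  obtain ⟨W, hW, hWi⟩ := core hM hS hN hc hd hγ hγi h1 i j hk h2 5 (by simp)
  have hγ0 : affK γ ≠ 0 := fun h => hγi.ne_zero (affK_inj hγ h)
  have hdM := affK_det_ne hM hS
  have hdN : (N.map affK).det ≠ 0 := by
    rw [map_det_affK, hd, map_mul]
    refine mul_ne_zero (fun h => ?_) hdM
    have h3 := affK_inj (isHomogeneous_C (Fin 3) c) h
    rw [C_eq_zero] at h3
    exact hc h3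
  have hMs : (affK γ • M.map affK).IsSymm := by
    refine Matrix.IsSymm.ext fun a b => ?_
    rw [Matrix.smul_apply, Matrix.smul_apply, (map_symm hM.symm).apply]
  have hdM' : (affK γ • M.map affK).det ≠ 0 := by
    rw [det_smul, map_det_affK]
    exact mul_ne_zero (pow_ne_zero _ hγ0) hdM
  obtain ⟨w, hw0, hw⟩ := iso_uv two_ne_zero (map_symm hN) hMs hdN hdM' (UVEnd_li huv)
    (UVEnd_iso h11) (UVEnd_iso h12) (UVEnd_iso h22) W hW hWi
  refine rational_of_isotropic hM hS fun h => hw0 (h w ?_)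
  rw [smul_mulVec, dotProduct_smul, smul_eq_mul] at hw
  exact (mul_eq_zero.1 hw).resolve_left hγ0

end Pool.Agent.DIX
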