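import Pool.Agent.PLN.VerraDefs
import Pool.Agent.PLN.Core

/-!
# DIX: the other fibration of a Verra double covering

`vB_ne`: if the discriminant curve `det (vA t) = 0` is smooth then `det (vB t)` is not zero.
PROOF.  Otherwise there is a polynomial vector `s(y) ≠ 0` with `vB(y) s(y) = 0`.  So
`t(s(y), s(y); y, y) = 0`, and the derivatives in `y` give `t(s(y), s(y); y, e) = 0`: so
`vA(s(y)) y = 0`, and the curve `det (vA t) = 0` is singular at `s(y)`.
-/

set_option autoImplicit false

namespace Pool.Agent.DIX

open MvPolynomial Pool.Agent.PLN Matrix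

/-- The columns of the adjugate are multiples of the kernel vector. -/
theorem adj_ker {n : Type} [Fintype n] [DecidableEq n] {R : Type} [CommRing R] [IsDomain R]
    {A : Matrix n n R} {y : n → R} (hy : y ≠ 0) (h : A *ᵥ y = 0) (a b c : n) :
    A.adjugate a b * y c = A.adjugate c b * y a := by
  have h1 : (A.updateRow b (y c • Pi.single a 1 - y a • Pi.single c 1)).det = 0 := by
    rw [← Matrix.exists_mulVec_eq_zero_iff]
    refine ⟨y, hy, ?_⟩
    funext i
    by_cases hi : i = b
    · subst hi
      rw [Matrix.mulVec, updateRow_self, sub_dotProduct, smul_dotProduct, smul_dotProduct,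
        single_one_dotProduct, single_one_dotProduct, smul_eq_mul, smul_eq_mul, Pi.zero_apply]
      ring
    · rw [Matrix.mulVec, updateRow_ne hi]
      exact congrFun h i
  rw [sub_eq_add_neg, det_updateRow_add, ← neg_smul, det_updateRow_smul, det_updateRow_smul,
    ← adjugate_apply, ← adjugate_apply] at h1
  linear_combination h1

/-- A point of the discriminant curve over a singular point of the total space is singular. -/
theorem sing_of {A : Matrix (Fin 3) (Fin 3) S3} (hA : ∀ i j, A i j = A j i) {s y : Fin 3 → ℂ}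
    (hy : y ≠ 0) (h0 : ∀ i, ∑ j, eval s (A i j) * y j = 0)
    (h1 : ∀ k, ∑ i, ∑ j, eval s (pderiv k (A i j)) * y i * y j = 0) :
    eval s A.det = 0 ∧ ∀ k, eval s (pderiv k A.det) = 0 := by
  have hker : (A.map (eval s)) *ᵥ y = 0 := by
    funext i
    exact h0 i
  have hd : eval s A.det = 0 := by
    have h2 : (A.map (eval s)).det = 0 := Matrix.exists_mulVec_eq_zero_iff.1 ⟨y, hy, hker⟩
    have h3 : (A.map (eval s)).det = eval s A.det := by
      rw [RingHom.map_det]
      rfl
    rw [← h3, h2]
  refine ⟨hd, fun k => ?_⟩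
  obtain ⟨c, hc⟩ : ∃ c, y c ≠ 0 := by
    by_contra h2
    push Not at h2
    exact hy (funext h2)
  have hadjs : ∀ a b, A.adjugate a b = A.adjugate b a := fun a b => by
    have hs : A.IsSymm := Matrix.IsSymm.ext fun i j => hA j i
    exact hs.adjugate.apply b a
  have hadj : ∀ a b, (A.map (eval s)).adjugate a b = eval s (A.adjugate a b) := by
    intro a b
    have h := RingHom.map_adjugate (eval s : S3 →+* ℂ) A
    exact (congrFun (congrFun h a) b).symm
  have hrow : ∀ b, eval s (A.adjugate c b) * y c = eval s (A.adjugate c c) * y b := by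
    intro b
    have := adj_ker hy hker b c c
    rw [hadj, hadj, hadjs b c] at this
    exact this
  let P : Fin 3 → S3 := fun i => ∑ l, A i l * C (y l)
  have hP : ∀ i, eval s (P i) = 0 := by
    intro i
    simp only [P, map_sum, map_mul, eval_C]
    exact h0 i
  have h3 : A.det * C (y c) = ∑ i, A.adjugate c i * P i := by
    have h4 : ∀ l, ∑ i, A.adjugate c i * A i l = A.det * (1 : Matrix (Fin 3) (Fin 3) S3) c l := by
      intro l
      have := congrFun (congrFun (adjugate_mul A) c) l
      rwa [Matrix.mul_apply, Matrix.smul_apply, smul_eq_mul] at this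
    simp only [P, Finset.mul_sum]
    rw [Finset.sum_comm]
    have h5 : ∀ l, ∑ i, A.adjugate c i * (A i l * C (y l)) =
        A.det * (1 : Matrix (Fin 3) (Fin 3) S3) c l * C (y l) := by
      intro l
      rw [← h4 l, Finset.sum_mul]
      exact Finset.sum_congr rfl fun i _ => by ring
    rw [Finset.sum_congr rfl fun l _ => h5 l]
    simp [Matrix.one_apply]
  have h6 : eval s (pderiv k (A.det * C (y c))) =
      eval s (pderiv k (∑ i, A.adjugate c i * P i)) := by rw [h3]
  have h7 : eval s (pderiv k (∑ i, A.adjugate c i * P i)) =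
      ∑ i, eval s (A.adjugate c i) * ∑ l, eval s (pderiv k (A i l)) * y l := by
    rw [map_sum, map_sum]
    refine Finset.sum_congr rfl fun i _ => ?_
    rw [pderiv_mul, map_add, map_mul, map_mul, hP i, mul_zero, zero_add]
    congr 1
    simp only [P, map_sum]
    refine Finset.sum_congr rfl fun l _ => ?_
    rw [pderiv_mul, pderiv_C, mul_zero, add_zero, map_mul, eval_C]
  rw [h7, pderiv_mul, pderiv_C, mul_zero, add_zero, map_mul, eval_C] at h6
  have h8 : (∑ i, eval s (A.adjugate c i) * ∑ l, eval s (pderiv k (A i l)) * y l) * y c = 0 := by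
    rw [Finset.sum_mul]
    have h9 : ∀ i, eval s (A.adjugate c i) * (∑ l, eval s (pderiv k (A i l)) * y l) * y c =
        eval s (A.adjugate c c) * ∑ l, eval s (pderiv k (A i l)) * y i * y l := by
      intro i
      have e : ∑ l, eval s (pderiv k (A i l)) * y i * y l =
          y i * ∑ l, eval s (pderiv k (A i l)) * y l := by
        rw [Finset.mul_sum]
        exact Finset.sum_congr rfl fun l _ => by ring
      rw [e]
      linear_combination (∑ l, eval s (pderiv k (A i l)) * y l) * hrow i
    rw [Finset.sum_congr rfl fun i _ => h9 i, ← Finset.mul_sum, h1 k, mul_zero]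
  rw [← h6] at h8
  have h10 := (mul_eq_zero.1 h8).resolve_right hc
  exact (mul_eq_zero.1 h10).resolve_right hc

/-- The derivative of a quadratic form. -/
theorem quad_deriv {c : Fin 3 → Fin 3 → ℂ} (hc : ∀ i j, c i j = c j i) (e : Fin 3) :
    pderiv e (∑ i, ∑ j, C (c i j) * X i * X j : S3) = 2 * ∑ j, C (c e j) * X j := by
  rw [map_sum]
  have h2 : ∀ i, pderiv e (∑ j, C (c i j) * X i * X j : S3) =
      (if i = e then ∑ j, C (c i j) * X j else 0) + C (c i e) * X i := by
    intro i
    rw [map_sum]
    have h3 : ∀ j, pderiv e (C (c i j) * X i * X j : S3) =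
        (if i = e then C (c i j) * X j else 0) + if j = e then C (c i j) * X i else 0 := by
      intro j
      rw [pderiv_mul, pderiv_C_mul, pderiv_X, pderiv_X]
      by_cases hi : i = e
      · by_cases hj : j = e
        · rw [hi, hj, Pi.single_eq_same, if_pos rfl]
          simp
        · rw [hi, Pi.single_eq_same, Pi.single_eq_of_ne hj, if_pos rfl, if_neg hj]
          simp
      · by_cases hj : j = e
        · rw [hj, Pi.single_eq_same, Pi.single_eq_of_ne hi, if_neg hi, if_pos rfl]
          simp
        · rw [Pi.single_eq_of_ne hi, Pi.single_eq_of_ne hj, if_neg hi, if_neg hj]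
          simp
    rw [Finset.sum_congr rfl fun j _ => h3 j, Finset.sum_add_distrib,
      Finset.sum_ite_eq' Finset.univ e, if_pos (Finset.mem_univ _)]
    by_cases hi : i = e
    · simp only [if_pos hi]
    · simp only [if_neg hi, Finset.sum_const_zero]
  rw [Finset.sum_congr rfl fun i _ => h2 i, Finset.sum_add_distrib,
    Finset.sum_ite_eq' Finset.univ e, if_pos (Finset.mem_univ _), two_mul]
  congr 1
  exact Finset.sum_congr rfl fun i _ => by rw [hc]

theorem vB_ne {t : Fin 3 → Fin 3 → Fin 3 → Fin 3 → ℂ} (ht1 : ∀ k l i j, t k l i j = t l k i j)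
    (ht2 : ∀ k l i j, t k l i j = t k l j i) (hS : SmoothCurve (vA t).det) :
    (vB t).det ≠ 0 := by
  intro hdet
  obtain ⟨s, hs0, hs⟩ := Matrix.exists_mulVec_eq_zero_iff.2 hdet
  have hB : ∀ k, ∑ l, vB t k l * s l = 0 := fun k => congrFun hs k
  have hBs : ∀ k l, vB t k l = vB t l k := by
    intro k l
    unfold vB
    exact Finset.sum_congr rfl fun i _ => Finset.sum_congr rfl fun j _ => by rw [ht1]
  -- the derivative of `t(s(y), s(y); y, y) = 0`
  have h1 : ∀ e, ∑ k, ∑ l, pderiv e (vB t k l) * s k * s l = 0 := by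
    intro e
    have h2 : ∑ k, s k * ∑ l, vB t k l * s l = 0 :=
      Finset.sum_eq_zero fun k _ => by rw [hB k, mul_zero]
    have h3 := congrArg (pderiv e) h2
    rw [map_zero, map_sum] at h3
    have h4 : ∀ k, pderiv e (s k * ∑ l, vB t k l * s l) =
        ∑ l, pderiv e (vB t k l) * s k * s l + ∑ l, vB t k l * pderiv e (s l) * s k := by
      intro k
      have h8 : pderiv e (s k) * ∑ l, vB t k l * s l = 0 := by rw [hB k, mul_zero]
      rw [pderiv_mul, h8, zero_add, map_sum, Finset.mul_sum, ← Finset.sum_add_distrib]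
      refine Finset.sum_congr rfl fun l _ => ?_
      rw [pderiv_mul]
      ring
    rw [Finset.sum_congr rfl fun k _ => h4 k, Finset.sum_add_distrib] at h3
    have h5 : ∑ k, ∑ l, vB t k l * pderiv e (s l) * s k = 0 := by
      rw [Finset.sum_comm]
      refine Finset.sum_eq_zero fun l _ => ?_
      have h6 : ∑ k, vB t k l * pderiv e (s l) * s k =
          pderiv e (s l) * ∑ k, vB t l k * s k := by
        rw [Finset.mul_sum]
        refine Finset.sum_congr rfl fun k _ => ?_
        rw [hBs k l]
        ring
      rw [h6, hB l, mul_zero]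
    rw [h5, add_zero] at h3
    exact h3
  obtain ⟨k0, hk0⟩ : ∃ k, s k ≠ 0 := by
    by_contra h2
    push Not at h2
    exact hs0 (funext h2)
  obtain ⟨y, hy⟩ : ∃ y : Fin 3 → ℂ, eval y (s k0 * X 0) ≠ 0 := by
    by_contra h2
    push Not at h2
    exact mul_ne_zero hk0 (X_ne_zero 0) (MvPolynomial.funext fun v => by rw [h2 v, map_zero])
  rw [map_mul, eval_X] at hy
  have hy0 : y ≠ 0 := fun h => hy (by rw [h, Pi.zero_apply, mul_zero])
  have hs1 : (fun k => eval y (s k)) ≠ 0 := fun h => hy (by
    rw [show eval y (s k0) = 0 from congrFun h k0, zero_mul])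
  have hvA : ∀ i j, vA t i j = vA t j i := by
    intro i j
    unfold vA
    exact Finset.sum_congr rfl fun k _ => Finset.sum_congr rfl fun l _ => by rw [ht2]
  obtain ⟨h3, h4⟩ := sing_of (A := vA t) (s := fun k => eval y (s k)) (y := y) hvA hy0
    (fun e => by
      have h5 := congrArg (eval y) (h1 e)
      have h6 : ∀ k l, pderiv e (vB t k l) = 2 * ∑ j, C (t k l e j) * X j := fun k l =>
        quad_deriv (fun i j => ht2 k l i j) e
      have h7 : (2 : ℂ) * ∑ j, eval (fun k => eval y (s k)) (vA t e j) * y j = 0 := by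
        rw [map_zero] at h5
        rw [← h5]
        simp only [h6, vA, map_sum, map_mul, map_ofNat, eval_C, eval_X, Finset.mul_sum,
          Finset.sum_mul]
        rw [Finset.sum_comm]
        refine Finset.sum_congr rfl fun k _ => ?_
        rw [Finset.sum_comm]
        refine Finset.sum_congr rfl fun l _ => Finset.sum_congr rfl fun j _ => ?_
        ring
      exact (mul_eq_zero.1 h7).resolve_left two_ne_zero)
    (fun k => by
      have h6 : ∀ i j, pderiv k (vA t i j) = 2 * ∑ l, C (t k l i j) * X l := fun i j =>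
        quad_deriv (c := fun k l => t k l i j) (fun k l => ht1 k l i j) k
      have h5 := congrArg (eval y) (hB k)
      rw [map_zero] at h5
      have h7 : ∑ i, ∑ j, eval (fun k => eval y (s k)) (pderiv k (vA t i j)) * y i * y j =
          2 * eval y (∑ l, vB t k l * s l) := by
        simp only [h6, vB, map_sum, map_mul, map_ofNat, eval_C, eval_X, Finset.mul_sum,
          Finset.sum_mul]
        rw [Finset.sum_congr rfl fun i _ => Finset.sum_comm, Finset.sum_comm]
        refine Finset.sum_congr rfl fun l _ => Finset.sum_congr rfl fun i _ =>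
          Finset.sum_congr rfl fun j _ => ?_
        ring
      rw [h7, h5, mul_zero])
  obtain ⟨k, hk⟩ := hS _ hs1 h3
  exact hk (h4 k)

end Pool.Agent.DIX
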