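import Pool.Agent.DIX.EvenDeg
import Pool.Agent.DIX.Odd
import Pool.Agent.DIX.UVEnd
import Pool.Agent.DIX.VbNe
import Pool.Agent.PLN.VerraMain

/-!
# DIX: cubic fourfolds containing a plane, curves of odd degree

`adj33`: the determinant of the block of linear forms is not divisible by the discriminant.
`odd_rational`: for a curve of odd degree the cubic fourfold is rational, if the double covering of
`ℙ² × ℙ²` which `dix_odd` attaches to it has a section over the second plane.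
-/

set_option autoImplicit false

namespace Pool.Agent.DIX

open MvPolynomial Pool.Agent.PLN Matrix

theorem eq_zero_of_deg {D f : S3} {n : ℕ} (hD : D.IsHomogeneous 6) (hD0 : D ≠ 0)
    (hf : f.IsHomogeneous n) (hn : n < 6) (h : D ∣ f) : f = 0 := by
  by_contra h0
  obtain ⟨t, ht⟩ := h
  have ht0 : t ≠ 0 := by
    rintro rfl
    rw [mul_zero] at ht
    exact h0 ht
  have h1 := hf.totalDegree h0
  rw [ht, totalDegree_mul_of_isDomain hD0 ht0, hD.totalDegree hD0] at h1
  omega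

theorem adj33 {M : Matrix (Fin 4) (Fin 4) S3} (hM : IsCub M) (hS : SmoothCurve M.det) :
    ¬ M.det ∣ M.adjugate 3 3 := by
  intro h33
  have hne : M.det ≠ 0 := smooth_ne hS
  have hpr : Prime M.det := (det_irr hM hS).prime
  have hsymm : ∀ a b, M.adjugate a b = M.adjugate b a := fun a b => hM.symm.adjugate.apply b a
  have h1 : ∀ i, M.det ∣ M.adjugate i 3 := by
    intro i
    have h2 := adj_minor M hne i 3
    have h3 : M.det ∣ M.adjugate i 3 ^ 2 := by
      obtain ⟨u, hu⟩ := h2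
      obtain ⟨v, hv⟩ := h33
      rw [hsymm 3 i, hv] at hu
      exact ⟨M.adjugate i i * v - u, by linear_combination -hu⟩
    exact hpr.dvd_of_dvd_pow h3
  have h2 : ∀ i, M.adjugate i 3 = 0 := by
    intro i
    by_contra h0
    have h : ∀ i j, HomZ (M i j) (((1 + wt i : ℕ) : ℤ) + ((wt j : ℕ) : ℤ)) := by
      intro i j
      rw [← Nat.cast_add]
      exact (homZ_nat _ _).2 (hM.hom i j)
    have h3 := homZ_adj (u := fun i => ((1 + wt i : ℕ) : ℤ)) (v := fun j => ((wt j : ℕ) : ℤ)) h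
      i 3
    obtain ⟨m, hm, hm'⟩ := h3.exists_nat h0
    have e1 : ∑ l : Fin 4, ((1 + wt l : ℕ) : ℤ) = 5 := by decide
    have e2 : ∑ l : Fin 4, ((wt l : ℕ) : ℤ) = 1 := by decide
    rw [e1, e2] at hm
    push_cast at hm
    exact h0 (eq_zero_of_deg (det_cub hM) hne hm' (by omega) (h1 i))
  apply hne
  rw [Matrix.det_eq_sum_mul_adjugate_row M 3]
  exact Finset.sum_eq_zero fun i _ => by rw [h2 i, mul_zero]

/-- The form `t` of bidegree `(2, 2)` has the discriminant curve of `M` (over the plane of `s`),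
and after a twist by `γ` the same theta characteristic. -/
structure VClass (M : Matrix (Fin 4) (Fin 4) S3) (γ : S3)
    (t : Fin 3 → Fin 3 → Fin 3 → Fin 3 → ℂ) : Prop where
  symm₁ : ∀ k l i j, t k l i j = t l k i j
  symm₂ : ∀ k l i j, t k l i j = t k l j i
  det : ∃ c : ℂ, c ≠ 0 ∧ (vA t).det = C c * M.det
  sq : ∃ i, SqMod M.det (γ * M.adjugate 3 3 * (vA t).adjugate i i)

/-- The double covering `w ^ 2 = t(s; y)` has a rational section over the plane of `y`. -/
def HasSection (t : Fin 3 → Fin 3 → Fin 3 → Fin 3 → ℂ) : Prop :=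
  ∃ (sg : Fin 3 → S3) (w : S3), sg ≠ 0 ∧ (∃ d, ∀ k, (sg k).IsHomogeneous d) ∧
    w ^ 2 = ∑ k, ∑ l, vB t k l * sg k * sg l

theorem odd_rational {M : Matrix (Fin 4) (Fin 4) S3} (hM : IsCub M) (hS : SmoothCurve M.det)
    {γ : S3} {m : ℕ} (hγ : γ.IsHomogeneous (2 * m + 1)) (hi : Irreducible γ)
    (h1 : SqMod γ M.det) (hE : LocEven M.det γ)
    (hsec : (∃ t, VClass M γ t) → ∃ t, VClass M γ t ∧ HasSection t) :
    Pool.Agent.P28.Rational (cubic M) := by
  have hpr : Prime M.det := (det_irr hM hS).prime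
  have hj := adj33 hM hS
  obtain ⟨k, hk⟩ := adj_deg hM 3 (fun h => hj (h ▸ dvd_zero _))
  have hq : (γ * M.adjugate 3 3).IsHomogeneous (2 * (m + k + 1)) := by
    have h2 := hγ.mul hk
    rwa [show 2 * m + 1 + (2 * k + 1) = 2 * (m + k + 1) by ring] at h2
  have hγD : ¬ M.det ∣ γ := by
    intro h
    obtain ⟨_, _, _, _, _, h3, _⟩ := h1
    exact h3 (hpr.irreducible.dvd_symm hi h)
  have hqD : ¬ M.det ∣ γ * M.adjugate 3 3 := fun h => (hpr.dvd_or_dvd h).elim hγD hj
  have hEq := hE.mul (locEven_adj hM hS 3)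
  rcases dix_odd (det_cub hM) hS hq hqD hEq with ⟨N, c, u, v, huv, hN, hc, hd, hadj, hs⟩ |
    ⟨t, c, ht1, ht2, hc, hd, hs⟩
  · obtain ⟨l, hl⟩ := hadj 0
    exact rational_of_uv hM hS hN hc hd hγ hi h1 0 3 hl (hs 0) huv.1 huv.2.1 huv.2.2.1
      huv.2.2.2
  · obtain ⟨t', ⟨ht1', ht2', ⟨c', hc', hd'⟩, i, hs'⟩, sg, w, hsg, hhom, hw⟩ :=
      hsec ⟨t, ht1, ht2, ⟨c, hc, hd⟩, 0, hs 0⟩
    have hS' : SmoothCurve (vA t').det := by
      rw [hd']
      exact smooth_C hc' hS
    have hV : VerraData M t' c' sg w :=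
      ⟨ht1', ht2', hc', hd', vB_ne ht1' ht2' hS', hsg, hhom, hw⟩
    exact verra_rational hM hS hV hγ hi h1 i 3 hs'

end Pool.Agent.DIX
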