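import Mathlib.RingTheory.OrderOfVanishing.Basic
import Mathlib.RingTheory.OrderOfVanishing.Noetherian

/-!
# DIX: orders of vanishing and symmetry

`ord_comm`: for two elements `G`, `H` of a ring the length of `A / (G, H)` is the order of `H` in
`A / (G)` and the order of `G` in `A / (H)`.

`even_ord`: `A` is a noetherian domain of dimension at most 2, `G` a prime element; if `H` is a
square modulo `G` (in the fraction field of `A / (G)`), then the order of `H` in `A / (G)` is even.
-/

set_option autoImplicit false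

namespace Pool.Agent.DIX

private theorem orda_aux {A : Type} [CommRing A] (G H : A) :
    Ring.ord (A ⧸ Ideal.span {G}) (Ideal.Quotient.mk (Ideal.span {G}) H) =
      Module.length A (A ⧸ (Ideal.span {G} ⊔ Ideal.span {H})) := by
  rw [Ring.ord, ← Module.length_eq_of_surjective (S := A) (R := A ⧸ Ideal.span {G})
    Ideal.Quotient.mk_surjective]
  have h : Ideal.span {Ideal.Quotient.mk (Ideal.span {G}) H} =
      (Ideal.span {H}).map (Ideal.Quotient.mk (Ideal.span {G})) := by
    rw [Ideal.map_span, Set.image_singleton]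
  rw [h]
  exact (DoubleQuot.quotQuotEquivQuotSupₐ A (Ideal.span {G})
    (Ideal.span {H})).toLinearEquiv.length_eq

/-- Both sides are `Module.length A (A / (G, H))` (`Module.length_eq_of_surjective`,
`DoubleQuot.quotQuotEquivComm` or `DoubleQuot.quotQuotEquivQuotSup`). -/
theorem ord_comm {A : Type} [CommRing A] (G H : A) :
    Ring.ord (A ⧸ Ideal.span {G}) (Ideal.Quotient.mk (Ideal.span {G}) H) =
      Ring.ord (A ⧸ Ideal.span {H}) (Ideal.Quotient.mk (Ideal.span {H}) G) := by
  rw [orda_aux, orda_aux, sup_comm]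

/-- `B = A / (G)` is a noetherian domain of dimension at most 1
(`ringKrullDim_quotient_succ_le_of_nonZeroDivisor`), so orders of nonzero elements are finite
(`Ring.ord_ne_top`) and `Ring.ord_mul` gives `2 ord a = 2 ord b + ord H`. -/
theorem even_ord {A : Type} [CommRing A] [IsDomain A] [IsNoetherianRing A]
    (hA : ringKrullDim A ≤ 2) {G H a b : A} (hG : Prime G) (hH : ¬ G ∣ H) (hb : ¬ G ∣ b)
    (h : G ∣ a ^ 2 - b ^ 2 * H) :
    ∃ n : ℕ, Ring.ord (A ⧸ Ideal.span {G}) (Ideal.Quotient.mk (Ideal.span {G}) H) =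
      ((2 * n : ℕ) : ℕ∞) := by
  have hp : (Ideal.span {G}).IsPrime := (Ideal.span_singleton_prime hG.ne_zero).2 hG
  have hdom : IsDomain (A ⧸ Ideal.span {G}) := Ideal.Quotient.isDomain _
  have hdim : Ring.KrullDimLE 1 (A ⧸ Ideal.span {G}) := by
    rw [Ring.krullDimLE_iff]
    have h1 := (ringKrullDim_quotient_succ_le_of_nonZeroDivisor
      (mem_nonZeroDivisors_of_ne_zero hG.ne_zero)).trans hA
    generalize ringKrullDim (A ⧸ Ideal.span {G}) = d at h1
    induction d with
    | bot => exact bot_le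
    | coe d =>
      induction d with
      | top => exact absurd h1 (by decide)
      | coe d =>
        have h2' : (((d + 1 : ℕ) : ℕ∞) : WithBot ℕ∞) ≤ (((2 : ℕ) : ℕ∞) : WithBot ℕ∞) := h1
        have h2 : d + 1 ≤ 2 := Nat.cast_le.1 (WithBot.coe_le_coe.1 h2')
        have h3 : d ≤ 1 := by omega
        exact_mod_cast h3
  have hne : ∀ x : A, ¬ G ∣ x → Ideal.Quotient.mk (Ideal.span {G}) x ≠ 0 := by
    intro x hx h0
    exact hx (Ideal.mem_span_singleton.1 (Ideal.Quotient.eq_zero_iff_mem.1 h0))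
  have hH' := hne H hH
  have hb' := hne b hb
  have hab : Ideal.Quotient.mk (Ideal.span {G}) a ^ 2 =
      Ideal.Quotient.mk (Ideal.span {G}) b ^ 2 * Ideal.Quotient.mk (Ideal.span {G}) H := by
    rw [← map_pow, ← map_pow, ← map_mul, Ideal.Quotient.eq]
    exact Ideal.mem_span_singleton.2 h
  have ha' : Ideal.Quotient.mk (Ideal.span {G}) a ≠ 0 := by
    intro h0
    rw [h0, zero_pow two_ne_zero] at hab
    exact mul_ne_zero (pow_ne_zero 2 hb') hH' hab.symm
  have h1 := congrArg (Ring.ord (A ⧸ Ideal.span {G})) hab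
  rw [Ring.ord_mul _ (mem_nonZeroDivisors_of_ne_zero hH'),
    Ring.ord_pow (mem_nonZeroDivisors_of_ne_zero ha'),
    Ring.ord_pow (mem_nonZeroDivisors_of_ne_zero hb')] at h1
  obtain ⟨na, hna⟩ := ENat.ne_top_iff_exists.1
    (Ring.ord_ne_top (mem_nonZeroDivisors_of_ne_zero ha'))
  obtain ⟨nb, hnb⟩ := ENat.ne_top_iff_exists.1
    (Ring.ord_ne_top (mem_nonZeroDivisors_of_ne_zero hb'))
  obtain ⟨nh, hnh⟩ := ENat.ne_top_iff_exists.1
    (Ring.ord_ne_top (mem_nonZeroDivisors_of_ne_zero hH'))
  rw [← hna, ← hnb, ← hnh] at h1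
  rw [nsmul_eq_mul, nsmul_eq_mul] at h1
  have h2 : 2 * na = 2 * nb + nh := by exact_mod_cast h1
  refine ⟨na - nb, ?_⟩
  rw [← hnh]
  congr 1
  omega

end Pool.Agent.DIX
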