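import Pool.Agent.DIX.Val
import Mathlib.RingTheory.OrderOfVanishing.Basic
import Mathlib.RingTheory.OrderOfVanishing.Noetherian

/-!
# DIX: the local ring of the plane at a point

The prime ideal of the line `ℂ s` is `ker (lineHom s)`; it is generated by two linear forms
(`mem_span_of_lineHom` in `Val.lean`).

`dim_line`: the localization of `S3` at this prime has dimension at most 2.

`dvr_pow`: `D` is a form, irreducible, smooth at `s`. If a form `γ` which is not divisible by `D`
has order `n` in the localization modulo `D`, then `γ` is a unit times `ℓ ^ n`, `ℓ` a linear form.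
-/

set_option autoImplicit false

noncomputable section

namespace Pool.Agent.DIX

open MvPolynomial Pool.Agent.PLN

instance line_prime (s : Fin 3 → ℂ) : (RingHom.ker (lineHom s : S3 →+* Polynomial ℂ)).IsPrime :=
  RingHom.ker_isPrime _

/-- The local ring of `ℂ³` at the line `ℂ s`. -/
abbrev Loc (s : Fin 3 → ℂ) : Type :=
  Localization.AtPrime (RingHom.ker (lineHom s : S3 →+* Polynomial ℂ))

/-- Krull's height theorem: `Ideal.height_le_spanFinrank` (or `Ideal.height_le_spanRank_toENat`) and
`IsLocalization.AtPrime.ringKrullDim_eq_height`. -/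
theorem dim_line {s : Fin 3 → ℂ} (hs : s ≠ 0) : ringKrullDim (Loc s) ≤ 2 := by
  obtain ⟨i, hi⟩ := Function.ne_iff.1 hs
  rw [Pi.zero_apply] at hi
  have hker : RingHom.ker (lineHom s : S3 →+* Polynomial ℂ) =
      Ideal.span {lin s i (i + 1), lin s i (i + 2)} := by
    apply le_antisymm
    · intro x hx
      exact mem_span_of_lineHom hi hx
    · rw [Ideal.span_le]
      have hl : ∀ j, lineHom s (lin s i j) = 0 := by
        intro j
        rw [lin, map_sub, map_mul, map_mul, ← algebraMap_eq, AlgHom.commutes, AlgHom.commutes,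
          lineHom, aeval_X, aeval_X, Polynomial.algebraMap_eq]
        ring
      rintro x (rfl | rfl)
      · exact hl _
      · exact hl _
  rw [IsLocalization.AtPrime.ringKrullDim_eq_height
    (RingHom.ker (lineHom s : S3 →+* Polynomial ℂ)) (Loc s)]
  have h1 := Ideal.height_le_spanFinrank (RingHom.ker (lineHom s : S3 →+* Polynomial ℂ))
    (Ideal.IsPrime.ne_top inferInstance)
  have h2 : (RingHom.ker (lineHom s : S3 →+* Polynomial ℂ)).spanFinrank ≤ 2 := by
    rw [hker]
    refine (Submodule.spanFinrank_span_le_ncard_of_finite (Set.toFinite _)).trans ?_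
    exact (Set.ncard_insert_le _ _).trans (by rw [Set.ncard_singleton])
  have h3 : (RingHom.ker (lineHom s : S3 →+* Polynomial ℂ)).height ≤ 2 :=
    h1.trans (by exact_mod_cast h2)
  have h4 : ((RingHom.ker (lineHom s : S3 →+* Polynomial ℂ)).height : WithBot ℕ∞) ≤
      ((2 : ℕ∞) : WithBot ℕ∞) := WithBot.coe_le_coe.2 h3
  exact h4

private theorem OrdB_disj {s : Fin 3 → ℂ} {E : S3} {d : ℕ} (hEh : E.IsHomogeneous d)
    (h0 : eval s E = 0) :
    Disjoint ((RingHom.ker (lineHom s : S3 →+* Polynomial ℂ)).primeCompl : Set S3)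
      ((Ideal.span {E} : Ideal S3) : Set S3) := by
  rw [Set.disjoint_left]
  intro x hx hxE
  apply hx
  have h1 : Ideal.span {E} ≤ RingHom.ker (lineHom s : S3 →+* Polynomial ℂ) := by
    rw [Ideal.span_le, Set.singleton_subset_iff]
    exact (lineHom_eq_zero hEh).2 h0
  exact h1 hxE

/-- A form which vanishes at `s` and is irreducible stays prime in the local ring. -/
theorem prime_loc {s : Fin 3 → ℂ} {E : S3} {d : ℕ} (hE : Irreducible E) (hEh : E.IsHomogeneous d)
    (h0 : eval s E = 0) : Prime (algebraMap S3 (Loc s) E) := by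
  have hpr : (Ideal.span {E}).IsPrime := (Ideal.span_singleton_prime hE.ne_zero).2 hE.prime
  have h1 := IsLocalization.isPrime_of_isPrime_disjoint
    (RingHom.ker (lineHom s : S3 →+* Polynomial ℂ)).primeCompl (Loc s) _ hpr
    (OrdB_disj hEh h0)
  rw [Ideal.map_span, Set.image_singleton] at h1
  refine (Ideal.span_singleton_prime ?_).1 h1
  intro h2
  apply hE.ne_zero
  refine (IsLocalization.injective (Loc s) (Ideal.primeCompl_le_nonZeroDivisors
    (RingHom.ker (lineHom s : S3 →+* Polynomial ℂ)))) ?_
  rw [h2, map_zero]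

/-- Divisibility by a form which vanishes at `s` and is irreducible is the same in the local ring. -/
theorem dvd_loc {s : Fin 3 → ℂ} {E x : S3} {d : ℕ} (hE : Irreducible E)
    (hEh : E.IsHomogeneous d) (h0 : eval s E = 0) :
    algebraMap S3 (Loc s) E ∣ algebraMap S3 (Loc s) x ↔ E ∣ x := by
  have hpr : (Ideal.span {E}).IsPrime := (Ideal.span_singleton_prime hE.ne_zero).2 hE.prime
  have h1 := IsLocalization.under_map_of_isPrime_disjoint
    (RingHom.ker (lineHom s : S3 →+* Polynomial ℂ)).primeCompl (Loc s) hpr
    (OrdB_disj hEh h0)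
  rw [← Ideal.mem_span_singleton, ← Ideal.mem_span_singleton, ← h1, Ideal.mem_comap,
    Ideal.map_span, Set.image_singleton]

end Pool.Agent.DIX
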