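import Pool.Agent.DIX.LG

/-!
# DIX: sections

`Dat D q p J J2`: `J k * J l = q * J2 k l` modulo `D`, the `J2 k l` have no common zero on the curve.
`Sec D q J g e`: `g` is a form of degree `e` and all `g * J k` are divisible by `q` modulo `D`.

`sec_add`, `sec_mul`, `sec_q` (`q * a` is a section), `sec_congr`: immediate.

`sec_prod`: for two sections `g, g'` the product `g g'` is divisible by `q` modulo `D`.
PROOF.  `lg` with `f = q`: at a point `s` of the curve let `J2 k l` be nonzero at `s`.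
`g J_k = q h`, `g' J_l = q h'` modulo `D`, so `g g' q J2_kl = g g' J_k J_l = q² h h'`, and `q` can be
cancelled (`D` is prime and does not divide `q`): `J2_kl (g g') = q (h h')`.  The quotient can be
chosen to be a form (`dvd_comp`).

`self_dual`: if `g` is a section, `a ≠ 0` a binary form, and `a` divides `lam D k` whenever
`g g' = q k` modulo `D` for a section `g'`, then `g = a g''` modulo `D` with a section `g''`.
PROOF.  (1) For every section `g'` with `g g' = q k` modulo `D`: `x0^i g'` is a section and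
`g (x0^i g') = q (x0^i k)`, so `a ∣ lam D (x0^i k)` for all `i` and by `perf` `k` is divisible by `emb a`
modulo `D`.  (2) `J_l` is a section (`J_l J_k = q J2_lk`), so `g J_l = q a κ_l` modulo `D`.  For all
`k, l`: `q g J2_lk = g J_l J_k = q a κ_l J_k`, so `J2_lk g = a (κ_l J_k)` modulo `D`.  `lg` with
`f = emb a` (`D` does not divide `emb a`: `crd_eq_zero`, or the degree in `x0`) gives `g = a g''`
modulo `D`, `g''` a form of degree `e - d` (`dvd_comp`).  (3) `a g'' J_l = g J_l = q a κ_l`, cancel `a`: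
`g'' J_l = q κ_l`: `g''` is a section.
-/

set_option autoImplicit false

namespace Pool.Agent.DIX

open MvPolynomial Pool.Agent.PLN

variable {D q : S3} {p : ℤ} {r : ℕ} {J : Fin r → S3} {J2 : Fin r → Fin r → S3}

theorem Dat.prime (h : Dat D q p J J2) : Prime D := h.cur.irr.prime

theorem emb_not_dvd (hD : Cur D) {a : A2} (ha : a ≠ 0) : ¬ D ∣ emb a := by
  intro h
  have h1 := (crd_eq_zero hD (emb a)).2 h
  have h2 := congrFun h1 0
  rw [crd, fs_emb, (Polynomial.modByMonic_eq_self_iff hD.monic).2] at h2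
  · exact ha (by simpa using h2)
  · rw [Polynomial.degree_eq_natDegree hD.monic.ne_zero, hD.deg]
    exact lt_of_le_of_lt Polynomial.degree_C_le (by norm_num)

theorem sec_add {g g' : S3} {e : ℤ} (hg : Sec D q J g e) (hg' : Sec D q J g' e) :
    Sec D q J (g + g') e := by
  refine ⟨hg.1.add hg'.1, fun k => ?_⟩
  obtain ⟨h, hh⟩ := hg.2 k
  obtain ⟨h', hh'⟩ := hg'.2 k
  refine ⟨h + h', ?_⟩
  have e : (g + g') * J k - q * (h + h') = (g * J k - q * h) + (g' * J k - q * h') := by ring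
  rw [e]
  exact dvd_add hh hh'

theorem sec_zero (e : ℤ) : Sec D q J 0 e :=
  ⟨homZ_zero e, fun k => ⟨0, by rw [zero_mul, mul_zero, sub_zero]; exact dvd_zero D⟩⟩

theorem sec_sum {ι : Type} (s : Finset ι) {φ : ι → S3} {e : ℤ}
    (h : ∀ i ∈ s, Sec D q J (φ i) e) : Sec D q J (∑ i ∈ s, φ i) e := by
  classical
  induction s using Finset.induction_on with
  | empty =>
    rw [Finset.sum_empty]
    exact sec_zero e
  | insert a s ha ih =>
    rw [Finset.sum_insert ha]
    exact sec_add (h a (Finset.mem_insert_self a s))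
      (ih fun i hi => h i (Finset.mem_insert_of_mem hi))

theorem sec_mul {a g : S3} {d e : ℤ} (ha : HomZ a d) (hg : Sec D q J g e) :
    Sec D q J (a * g) (d + e) := by
  refine ⟨ha.mul hg.1, fun k => ?_⟩
  obtain ⟨h, hh⟩ := hg.2 k
  refine ⟨a * h, ?_⟩
  have e : a * g * J k - q * (a * h) = a * (g * J k - q * h) := by ring
  rw [e]
  exact hh.mul_left a

theorem sec_q (h : Dat D q p J J2) {a : S3} {d : ℤ} (ha : HomZ a d) :
    Sec D q J (q * a) (p + d) := by
  refine ⟨h.hom.mul ha, fun k => ⟨a * J k, ?_⟩⟩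
  have e : q * a * J k - q * (a * J k) = 0 := by ring
  rw [e]
  exact dvd_zero D

theorem sec_congr {g g' : S3} {e : ℤ} (hg : Sec D q J g e) (hh : HomZ g' e)
    (hd : D ∣ g - g') : Sec D q J g' e := by
  refine ⟨hh, fun k => ?_⟩
  obtain ⟨h, hk⟩ := hg.2 k
  refine ⟨h, ?_⟩
  have e : g' * J k - q * h = (g * J k - q * h) - (g - g') * J k := by ring
  rw [e]
  exact dvd_sub hk (hd.mul_right _)

/-- the forms `J k` are sections -/
theorem sec_J (h : Dat D q p J J2) (l : Fin r) : ∃ d : ℤ, Sec D q J (J l) d := by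
  obtain ⟨d, hd⟩ := h.jhom l
  exact ⟨d, hd, fun k => ⟨J2 l k, h.jj l k⟩⟩

theorem sec_prod (h : Dat D q p J J2) {g g' : S3} {e e' : ℤ} (hg : Sec D q J g e)
    (hg' : Sec D q J g' e') : ∃ k : S3, HomZ k (e + e' - p) ∧ D ∣ g * g' - q * k := by
  have h1 : ∃ k : S3, D ∣ g * g' - q * k := by
    refine lg h.cur h.ndvd fun s hs hsD => ?_
    obtain ⟨k, l, hkl⟩ := h.nz s hs hsD
    obtain ⟨a, ha⟩ := hg.2 k
    obtain ⟨b, hb⟩ := hg'.2 l
    refine ⟨J2 k l, a * b, hkl, ?_⟩
    refine (h.prime.dvd_mul.1 (?_ : D ∣ q * _)).resolve_left h.ndvd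
    have e : q * (J2 k l * (g * g') - q * (a * b)) =
        (g * J k - q * a) * (g' * J l) + q * a * (g' * J l - q * b) -
        (J k * J l - q * J2 k l) * (g * g') := by ring
    rw [e]
    exact dvd_sub (dvd_add (ha.mul_right _) (hb.mul_left _)) ((h.jj k l).mul_right _)
  obtain ⟨k, hk⟩ := h1
  have hD : HomZ D (6 : ℤ) := (homZ_nat D 6).2 h.cur.hom
  exact dvd_comp hD h.cur.irr.ne_zero h.hom (hg.1.mul hg'.1) hk

theorem self_dual (h : Dat D q p J J2) {g : S3} {e d : ℤ} (hg : Sec D q J g e) {a : A2}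
    (ha : a ≠ 0) (had : HomZ a d)
    (hB : ∀ (g' : S3) (e' : ℤ) (k : S3), Sec D q J g' e' → D ∣ g * g' - q * k → a ∣ lam D k) :
    ∃ g'' : S3, Sec D q J g'' (e - d) ∧ D ∣ g - emb a * g'' := by
  have hD : HomZ D (6 : ℤ) := (homZ_nat D 6).2 h.cur.hom
  have hae := emb_not_dvd h.cur ha
  -- the quotients are divisible by `a`
  have h1 : ∀ (g' : S3) (e' : ℤ) (k : S3), Sec D q J g' e' → D ∣ g * g' - q * k →
      ∃ k' : S3, D ∣ k - emb a * k' := by
    intro g' e' k hg' hk
    refine perf h.cur fun i _ => ?_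
    refine hB (X 0 ^ i * g') (((i : ℕ) : ℤ) * 1 + e') (X 0 ^ i * k)
      (sec_mul ((homZ_X 0).pow i) hg') ?_
    have e1 : g * (X 0 ^ i * g') - q * (X 0 ^ i * k) = X 0 ^ i * (g * g' - q * k) := by ring
    rw [e1]
    exact hk.mul_left _
  have h2 : ∀ l, ∃ κ : S3, D ∣ g * J l - q * (emb a * κ) := by
    intro l
    obtain ⟨d', hd'⟩ := sec_J h l
    obtain ⟨k, -, hk⟩ := sec_prod h hg hd'
    obtain ⟨k', hk'⟩ := h1 (J l) d' k hd' hk
    refine ⟨k', ?_⟩
    have e1 : g * J l - q * (emb a * k') = (g * J l - q * k) + q * (k - emb a * k') := by ring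
    rw [e1]
    exact dvd_add hk (hk'.mul_left _)
  choose κ hκ using h2
  have h3 : ∃ g'' : S3, D ∣ g - emb a * g'' := by
    refine lg h.cur hae fun s hs hsD => ?_
    obtain ⟨l, k, hlk⟩ := h.nz s hs hsD
    refine ⟨J2 l k, κ l * J k, hlk, ?_⟩
    refine (h.prime.dvd_mul.1 (?_ : D ∣ q * _)).resolve_left h.ndvd
    have e1 : q * (J2 l k * g - emb a * (κ l * J k)) =
        (g * J l - q * (emb a * κ l)) * J k - (J l * J k - q * J2 l k) * g := by ring
    rw [e1]
    exact dvd_sub ((hκ l).mul_right _) ((h.jj l k).mul_right _)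
  obtain ⟨g₁, hg₁⟩ := h3
  obtain ⟨g'', hg'', hd''⟩ := dvd_comp hD h.cur.irr.ne_zero ((homZ_emb a d).2 had) hg.1 hg₁
  refine ⟨g'', ⟨hg'', fun l => ⟨κ l, ?_⟩⟩, hd''⟩
  refine (h.prime.dvd_mul.1 (?_ : D ∣ emb a * _)).resolve_left hae
  have e1 : emb a * (g'' * J l - q * κ l) =
      (g * J l - q * (emb a * κ l)) - (g - emb a * g'') * J l := by ring
  rw [e1]
  exact dvd_sub (hκ l) (hd''.mul_right _)

end Pool.Agent.DIX
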