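import Pool.Agent.DIX.General

/-!
# DIX: a net of quadrics excludes cubics

`theta_ne`: `D` is a smooth sextic, `N` a symmetric `6 x 6` matrix of linear forms with
`det N = c D`. Then no cubic form `α` is such that `α * adj(N)_ii` is a nonzero square in the function
field of `D = 0`.

Proof (`theta_ne_cur`, `D` monic in `x0`). Let `α b ^ 2 adj_ii = a ^ 2` modulo `D`. By `adj_minor`
`adj_ii adj_jj - adj_ij ^ 2` is divisible by `D`; by `normal` (in `MkDat.lean`) there are `g j` with
`D ∣ g i ^ 2 - α adj_ii`, `D ∣ g i * g j - α * adj_ij`: `g i := a / b` and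
`g j := α adj_ij / g i` (also a root of `α adj_jj`). One may take the `g j` homogeneous of degree 4
(component of degree 4, `comp_dvd`; or `exists_hom_root`). Then `N g` is divisible by `D`:
`g i * (N g)_k` is `α * (N adj)_ki = 0` modulo `D`, and `D` does not divide `g i`. The entries of
`N g` have degree 5 < 6, so `N g = 0`; `det N ≠ 0`, so `g = 0`, contradiction with
`¬ D ∣ α * adj_ii`.

`theta_ne`: apply `exists_cur` (a linear change of coordinates `lc A`; `lc_map_det`, `lc_map_adj`,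
`lc_hom`; see `hforth` in the proof of `dix_two`).
-/

set_option autoImplicit false

namespace Pool.Agent.DIX

open MvPolynomial Pool.Agent.PLN Matrix

private theorem ThetaNe_adj {N : Matrix (Fin 6) (Fin 6) S3}
    (hlin : ∀ i j, (N i j).IsHomogeneous 1) (i j : Fin 6) :
    (N.adjugate i j).IsHomogeneous 5 := by
  rw [Matrix.adjugate_fin_succ_eq_det_submatrix]
  have h1 : (N.submatrix j.succAbove i.succAbove).det.IsHomogeneous
      (∑ _k : Fin 5, 1 + ∑ _k : Fin 5, 0) :=
    det_hom (a := fun _ => 1) (b := fun _ => 0) fun k l => hlin (j.succAbove k) (i.succAbove l)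
  have h2 : (∑ _k : Fin 5, 1 + ∑ _k : Fin 5, 0) = 5 := by simp
  rw [h2] at h1
  have h4 : ((-1 : S3) ^ ((j : ℕ) + (i : ℕ))) = C ((-1 : ℂ) ^ ((j : ℕ) + (i : ℕ))) := by simp
  have h5 := (isHomogeneous_C (Fin 3) ((-1 : ℂ) ^ ((j : ℕ) + (i : ℕ)))).mul h1
  rw [zero_add] at h5
  rw [h4]
  exact h5

/-- a form of degree 5 divisible by `D` is zero -/
private theorem ThetaNe_zero {D f : S3} (hD : D.IsHomogeneous 6) (h0 : D ≠ 0) {n : ℕ} (hn : n < 6)
    (hf : f.IsHomogeneous n) (h : D ∣ f) : f = 0 := by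
  by_contra hne
  obtain ⟨t, ht⟩ := h
  have ht0 : t ≠ 0 := by
    rintro rfl
    rw [mul_zero] at ht
    exact hne ht
  have h1 := hf.totalDegree hne
  rw [ht, totalDegree_mul_of_isDomain h0 ht0, hD.totalDegree h0] at h1
  omega

theorem theta_ne_cur {D : S3} (hD : Cur D) {N : Matrix (Fin 6) (Fin 6) S3} (hN : N.IsSymm)
    (hlin : ∀ i j, (N i j).IsHomogeneous 1) {c : ℂ} (hc : c ≠ 0) (hd : N.det = C c * D)
    (i : Fin 6) {α : S3} (hα : α.IsHomogeneous 3) : ¬ SqMod D (α * N.adjugate i i) := by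
  rintro ⟨a, b, n, hb, hDb, hDf, hab⟩
  have hpr : Prime D := hD.irr.prime
  have hD0 : D ≠ 0 := hpr.ne_zero
  have hdet0 : N.det ≠ 0 := by
    rw [hd]
    exact mul_ne_zero (fun h => hc (C_eq_zero.1 h)) hD0
  have hDdet : D ∣ N.det := ⟨C c, by rw [hd, mul_comm]⟩
  have hadj : ∀ p q, (N.adjugate p q).IsHomogeneous 5 := ThetaNe_adj hlin
  have hsymm : ∀ p q, N.adjugate p q = N.adjugate q p := by
    intro p q
    have h1 := congrFun (congrFun (Matrix.adjugate_transpose N) q) p
    rw [hN.eq, Matrix.transpose_apply] at h1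
    exact h1
  have hF : (α * N.adjugate i i).IsHomogeneous 8 := hα.mul (hadj i i)
  -- a root of degree 4
  have hG : (b ^ 2 * (α * N.adjugate i i)).IsHomogeneous (n * 2 + 8) := (hb.pow 2).mul hF
  have hG0 : ¬ D ∣ b ^ 2 * (α * N.adjugate i i) := by
    intro h1
    rcases hpr.dvd_or_dvd h1 with h2 | h2
    · exact hDb (hpr.dvd_of_dvd_pow h2)
    · exact hDf h2
  obtain ⟨m, a', hm, ha', hda⟩ := exists_hom_root hD.hom hpr hG hG0 hab
  obtain ⟨s, hs⟩ := normal hD (r := α * N.adjugate i i) ha' hb hDb (by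
    have e1 : a' ^ 2 - α * N.adjugate i i * b ^ 2 =
        -(b ^ 2 * (α * N.adjugate i i) - a' ^ 2) := by ring
    rw [e1, dvd_neg]
    exact hda)
  have hs2 : D ∣ α * N.adjugate i i - s ^ 2 := by
    refine (hpr.dvd_or_dvd (?_ : D ∣ b ^ 2 * _)).resolve_left fun h1 =>
      hDb (hpr.dvd_of_dvd_pow h1)
    obtain ⟨u, hu⟩ := hda
    obtain ⟨v, hv⟩ := hs
    exact ⟨u + v * (a' + b * s), by linear_combination hu + (a' + b * s) * hv⟩
  obtain ⟨m', g, hm', hg, hgd⟩ := exists_hom_root hD.hom hpr hF hDf hs2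
  obtain rfl : m' = 4 := by omega
  have hDg : ¬ D ∣ g := by
    intro h1
    apply hDf
    obtain ⟨u, hu⟩ := hgd
    obtain ⟨v, hv⟩ := h1
    exact ⟨u + v * g, by linear_combination hu + g * hv⟩
  -- the other roots
  have hj : ∀ j, ∃ t : S3, t.IsHomogeneous 4 ∧ D ∣ α * N.adjugate i j - g * t := by
    intro j
    obtain ⟨t, ht⟩ := normal hD (a := α * N.adjugate i j) (b := g)
      (r := α * N.adjugate j j) (hα.mul (hadj i j)) hg hDg (by
        have h1 : D ∣ N.adjugate i i * N.adjugate j j - N.adjugate i j * N.adjugate j i :=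
          hDdet.trans (adj_minor N hdet0 i j)
        rw [hsymm j i] at h1
        obtain ⟨u, hu⟩ := h1
        obtain ⟨v, hv⟩ := hgd
        exact ⟨α * N.adjugate j j * v - α ^ 2 * u, by
          linear_combination α * N.adjugate j j * hv - α ^ 2 * hu⟩)
    refine ⟨homogeneousComponent 4 t, homogeneousComponent_isHomogeneous _ _, ?_⟩
    have h2 := comp_dvd hD.hom ht 8
    rw [map_sub, mul_comm g t, show (8 : ℕ) = 4 + 4 from rfl, comp_mul hg] at h2
    have h3 : homogeneousComponent 8 (α * N.adjugate i j) = α * N.adjugate i j := by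
      rw [homogeneousComponent_of_mem ((mem_homogeneousSubmodule _ _).2
        (hα.mul (hadj i j))), if_pos rfl]
    rw [show (4 + 4 : ℕ) = 8 from rfl, h3] at h2
    rwa [mul_comm g]
  choose t ht htd using hj
  have hNt : N *ᵥ t = 0 := by
    funext k
    rw [Pi.zero_apply]
    have h1 : ((N *ᵥ t) k).IsHomogeneous 5 := by
      show (∑ j, N k j * t j).IsHomogeneous 5
      exact IsHomogeneous.sum _ _ _ fun j _ => (hlin k j).mul (ht j)
    refine ThetaNe_zero hD.hom hD0 (by norm_num) h1 ?_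
    refine (hpr.dvd_or_dvd (?_ : D ∣ g * _)).resolve_left hDg
    have h2 : D ∣ ∑ j, N k j * (α * N.adjugate i j - g * t j) :=
      Finset.dvd_sum fun j _ => (htd j).mul_left _
    have h3 : ∑ j, N k j * (α * N.adjugate i j - g * t j) =
        α * (∑ j, N k j * N.adjugate j i) - g * (N *ᵥ t) k := by
      show _ = α * (∑ j, N k j * N.adjugate j i) - g * ∑ j, N k j * t j
      rw [Finset.mul_sum, Finset.mul_sum, ← Finset.sum_sub_distrib]
      refine Finset.sum_congr rfl fun j _ => ?_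
      rw [hsymm i j]
      ring
    have h4 : D ∣ ∑ j, N k j * N.adjugate j i := by
      have h5 := congrFun (congrFun (mul_adjugate N) k) i
      rw [Matrix.mul_apply, Matrix.smul_apply, smul_eq_mul] at h5
      rw [h5]
      exact hDdet.mul_right _
    rw [h3] at h2
    exact (dvd_sub_right (h4.mul_left α)).1 h2
  have ht0 : t = 0 := Matrix.eq_zero_of_mulVec_eq_zero hdet0 hNt
  apply hDf
  have h1 := htd i
  rwa [ht0, Pi.zero_apply, mul_zero, sub_zero] at h1

theorem theta_ne {D : S3} (hD : D.IsHomogeneous 6) (hS : SmoothCurve D)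
    {N : Matrix (Fin 6) (Fin 6) S3} (hN : N.IsSymm)
    (hlin : ∀ i j, (N i j).IsHomogeneous 1) {c : ℂ} (hc : c ≠ 0) (hd : N.det = C c * D)
    (i : Fin 6) {α : S3} (hα : α.IsHomogeneous 3) : ¬ SqMod D (α * N.adjugate i i) := by
  obtain ⟨A, B, c', hAB, hBA, hc', hcur⟩ := exists_cur hD hS
  rintro ⟨a, b, m, hb, hDb, hDf, hdv⟩
  refine theta_ne_cur hcur (N := N.map (lc A)) ?_ (fun p q => ?_)
    (c := c * c'⁻¹) (mul_ne_zero hc (inv_ne_zero hc')) ?_ i (lc_hom A hα) ?_
  · refine Matrix.IsSymm.ext fun p q => ?_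
    rw [Matrix.map_apply, Matrix.map_apply, hN.apply]
  · rw [Matrix.map_apply]
    exact lc_hom A (hlin p q)
  · have h1 : (C c'⁻¹ * C c' : S3) = 1 := by rw [← C_mul, inv_mul_cancel₀ hc', C_1]
    rw [lc_map_det, hd, map_mul, lc_C, C_mul]
    linear_combination -(C c * lc A D) * h1
  · rw [lc_map_adj]
    refine ⟨lc A a, lc A b, m, lc_hom A hb, ?_, ?_, ?_⟩
    · intro h
      have := dvd_back hAB hc' h
      rw [lc_inv hAB] at this
      exact hDb this
    · intro h
      rw [← map_mul] at h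
      have := dvd_back hAB hc' h
      rw [lc_inv hAB] at this
      exact hDf this
    · rw [← map_mul, ← map_pow, ← map_pow, ← map_mul, ← map_sub]
      exact dvd_forth hBA hc' (by rwa [lc_inv hAB])

end Pool.Agent.DIX
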